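import Pool.Agent.Lib.P56507.Defs

/-!
Elementary facts on `R m n = ∑_{i < n} ⌈m i⌉`, on `Rp m n = ∑_{0 < i < n} (⌊m i⌋ + 1)` and on
`Nq q n = ⌈n / q⌉`.
-/

open Finset

namespace Pool.Agent.Lib.P56507

theorem R_zero (m : ℚ) : R m 0 = 0 := by
  simp [R]

theorem R_one (m : ℚ) : R m 1 = 0 := by
  simp [R]

theorem R_succ (m : ℚ) (n : ℕ) : R m (n + 1) = R m n + ⌈m * (n : ℚ)⌉ := by
  simp [R, sum_range_succ]

theorem ceil_den_mul (m : ℚ) (z : ℕ) : ⌈m * ((m.den * z : ℕ) : ℚ)⌉ = m.num * z := by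
  have h : m * ((m.den * z : ℕ) : ℚ) = ((m.num * z : ℤ) : ℚ) := by
    push_cast
    rw [← mul_assoc, Rat.mul_den_eq_num]
  rw [h, Int.ceil_intCast]

theorem R_add (m : ℚ) (z n : ℕ) :
    R m (m.den * z + n) = R m (m.den * z) + R m n + m.num * z * n := by
  induction n with
  | zero => simp [R_zero]
  | succ n ih =>
    have h : m * ((m.den * z + n : ℕ) : ℚ) = ((m.num * z : ℤ) : ℚ) + m * (n : ℚ) := by
      push_cast
      rw [← Rat.mul_den_eq_num]
      ring
    rw [← add_assoc, R_succ, R_succ, ih, h, Int.ceil_intCast_add]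
    push_cast
    ring

theorem Nq_zero {q : ℕ} (hq : 1 ≤ q) : Nq q 0 = 0 := by
  rw [Nq]
  exact Nat.div_eq_of_lt (by omega)

theorem Nq_add {q : ℕ} (hq : 1 ≤ q) (z n : ℕ) : Nq q (q * z + n) = z + Nq q n := by
  rw [Nq, Nq]
  have h : q * z + n + q - 1 = (n + q - 1) + q * z := by omega
  rw [h, Nat.add_mul_div_left _ _ (by omega)]
  omega

theorem le_Nq {q : ℕ} (hq : 1 ≤ q) (n : ℕ) : n ≤ q * Nq q n := by
  rw [Nq]
  have h1 := Nat.div_add_mod (n + q - 1) q
  have h2 := Nat.mod_lt (n + q - 1) (show q > 0 by omega)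
  omega

theorem Nq_lt {q : ℕ} (hq : 1 ≤ q) (n : ℕ) : q * Nq q n < n + q := by
  rw [Nq]
  have h1 := Nat.div_add_mod (n + q - 1) q
  omega

theorem Nq_mono {q a b : ℕ} (h : a ≤ b) : Nq q a ≤ Nq q b := by
  rw [Nq, Nq]
  exact Nat.div_le_div_right (by omega)

theorem Nq_pos {q n : ℕ} (hq : 1 ≤ q) (hn : 1 ≤ n) : Nq q n = (n - 1) / q + 1 := by
  rw [Nq]
  have h : n + q - 1 = (n - 1) + q := by omega
  rw [h, Nat.add_div_right _ (by omega)]

/-- Each of the `n` differences `⌈m (a + t)⌉ - ⌈m t⌉ - (⌈m a⌉ - 1)`, `t < n`, is nonnegative, and it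
is `1` if `t` is a multiple of the denominator of `m`. -/
theorem R_super (m : ℚ) (a n : ℕ) :
    R m a + R m n + n * (⌈m * (a : ℚ)⌉ - 1) + Nq m.den n ≤ R m (a + n) := by
  have hq : 1 ≤ m.den := m.den_pos
  induction n with
  | zero => simp [R_zero, Nq_zero hq]
  | succ n ih =>
    rw [← add_assoc, R_succ, R_succ]
    have hsum : m * ((a + n : ℕ) : ℚ) = m * (a : ℚ) + m * (n : ℚ) := by
      push_cast
      ring
    have key : ⌈m * (n : ℚ)⌉ + (⌈m * (a : ℚ)⌉ - 1) + (Nq m.den (n + 1) : ℤ) ≤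
        ⌈m * ((a + n : ℕ) : ℚ)⌉ + (Nq m.den n : ℤ) := by
      rw [hsum]
      by_cases hd : m.den ∣ n
      · obtain ⟨z, rfl⟩ := hd
        have h1 : Nq m.den (m.den * z + 1) = z + 1 := by
          rw [Nq_add hq, Nq_pos hq le_rfl]
          simp
        have h2 : Nq m.den (m.den * z) = z := by
          have := Nq_add hq z 0
          rw [Nq_zero hq] at this
          simpa using this
        have h3 : m * ((m.den * z : ℕ) : ℚ) = ((m.num * z : ℤ) : ℚ) := by
          push_cast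
          rw [← mul_assoc, Rat.mul_den_eq_num]
        rw [h1, h2, h3, Int.ceil_intCast, Int.ceil_add_intCast]
        push_cast
        linarith
      · have h1 : Nq m.den (n + 1) = Nq m.den n := by
          have hn : 1 ≤ n := by
            rcases Nat.eq_zero_or_pos n with h | h
            · subst h
              simp at hd
            · exact h
          rw [Nq_pos hq (by omega), Nq_pos hq hn]
          congr 1
          have h4 : n + 1 - 1 = (n - 1) + 1 := by omega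
          rw [h4, Nat.succ_div, if_neg]
          · rfl
          · have h5 : n - 1 + 1 = n := by omega
            rwa [h5]
        have h2 := Int.ceil_add_ceil_le (m * (n : ℚ)) (m * (a : ℚ))
        rw [h1, add_comm (m * (a : ℚ))]
        linarith
    push_cast
    push_cast at key ih
    linarith

theorem Rp_zero (m : ℚ) : Rp m 0 = 0 := by
  simp [Rp, R_zero]

theorem Rp_one (m : ℚ) : Rp m 1 = 0 := by
  simp [Rp, R_one]

/-- `⌈m n⌉ = ⌊m n⌋ + 1` if `n` is no multiple of the denominator, and `⌈m n⌉ = ⌊m n⌋` otherwise. -/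
theorem Rp_succ (m : ℚ) {n : ℕ} (hn : 1 ≤ n) : Rp m (n + 1) = Rp m n + ⌊m * (n : ℚ)⌋ + 1 := by
  have hq : 1 ≤ m.den := m.den_pos
  rw [Rp, Rp, R_succ]
  have key : ⌈m * (n : ℚ)⌉ + (((n + 1 - 1) / m.den : ℕ) : ℤ) =
      (((n - 1) / m.den : ℕ) : ℤ) + ⌊m * (n : ℚ)⌋ + 1 := by
    have h4 : n + 1 - 1 = (n - 1) + 1 := by omega
    have h5 : n - 1 + 1 = n := by omega
    rw [h4, Nat.succ_div]
    by_cases hd : m.den ∣ n
    · rw [if_pos (by rwa [h5])]
      obtain ⟨z, hz⟩ := hd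
      have h3 : m * (n : ℚ) = ((m.num * z : ℤ) : ℚ) := by
        rw [hz]
        push_cast
        rw [← mul_assoc, Rat.mul_den_eq_num]
      rw [h3, Int.ceil_intCast, Int.floor_intCast]
      push_cast
      ring
    · rw [if_neg (by rwa [h5])]
      have h6 : ⌈m * (n : ℚ)⌉ = ⌊m * (n : ℚ)⌋ + 1 := by
        rw [Int.ceil_eq_iff]
        have h7 : (⌊m * (n : ℚ)⌋ : ℚ) ≠ m * (n : ℚ) := by
          intro h
          apply hd
          have h8 : (m.num : ℚ) * (n : ℚ) = (⌊m * (n : ℚ)⌋ : ℚ) * m.den := by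
            rw [h, ← Rat.mul_den_eq_num]
            ring
          have h9 : m.num * (n : ℤ) = ⌊m * (n : ℚ)⌋ * (m.den : ℤ) := by
            exact_mod_cast h8
          have h10 : (m.den : ℤ) ∣ m.num * (n : ℤ) := ⟨_, by rw [h9]; ring⟩
          have h11 : IsCoprime (m.den : ℤ) m.num := by
            rw [Int.isCoprime_iff_gcd_eq_one]
            have := m.reduced
            rw [Nat.coprime_comm] at this
            simpa [Int.gcd, Nat.Coprime] using this
          have h12 := h11.dvd_of_dvd_mul_left h10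
          exact_mod_cast h12
        have h13 := Int.floor_le (m * (n : ℚ))
        have h14 := Int.lt_floor_add_one (m * (n : ℚ))
        push_cast
        constructor
        · have := lt_of_le_of_ne h13 h7
          linarith
        · linarith
      rw [h6]
      push_cast
      ring
  push_cast
  push_cast at key
  linarith

theorem Rp_succ_le (m : ℚ) (n : ℕ) : Rp m n + ⌈m * (n : ℚ)⌉ ≤ Rp m (n + 1) := by
  rcases Nat.eq_zero_or_pos n with h | h
  · subst h
    simp [Rp_zero, Rp_one]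
  · rw [Rp_succ m h]
    have := Int.ceil_le_floor_add_one (m * (n : ℚ))
    linarith

/-- `2 Rp m n = ∑_{0 < i < n} ((⌊m i⌋ + 1) + (⌊m (n - i)⌋ + 1)) ≤ (n - 1) (⌊m n⌋ + 2)`. -/
theorem two_Rp_le (m : ℚ) {n : ℕ} (hn : 1 ≤ n) :
    2 * Rp m n ≤ ((n : ℤ) - 1) * (⌊m * (n : ℚ)⌋ + 2) := by
  obtain ⟨k, rfl⟩ : ∃ k, n = k + 1 := ⟨n - 1, by omega⟩
  have h1 : ∀ k : ℕ, Rp m (k + 1) = ∑ i ∈ range k, (⌊m * ((i + 1 : ℕ) : ℚ)⌋ + 1) := by
    intro k
    induction k with
    | zero => simp [Rp_one]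
    | succ k ih => rw [Rp_succ m (by omega), sum_range_succ, ih, add_assoc]
  have h2 := sum_range_reflect (fun i : ℕ => ⌊m * ((i + 1 : ℕ) : ℚ)⌋ + 1) k
  have h3 : 2 * Rp m (k + 1) = ∑ i ∈ range k, ((⌊m * ((i + 1 : ℕ) : ℚ)⌋ + 1) +
      (⌊m * ((k - 1 - i + 1 : ℕ) : ℚ)⌋ + 1)) := by
    rw [sum_add_distrib, h2, ← h1 k]
    ring
  rw [h3]
  have h4 : ∀ i ∈ range k, ((⌊m * ((i + 1 : ℕ) : ℚ)⌋ + 1) +
      (⌊m * ((k - 1 - i + 1 : ℕ) : ℚ)⌋ + 1)) ≤ ⌊m * ((k + 1 : ℕ) : ℚ)⌋ + 2 := by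
    intro i hi
    rw [mem_range] at hi
    have h5 : m * ((k + 1 : ℕ) : ℚ) = m * ((i + 1 : ℕ) : ℚ) + m * ((k - 1 - i + 1 : ℕ) : ℚ) := by
      have h6 : k + 1 = (i + 1) + (k - 1 - i + 1) := by omega
      rw [h6]
      push_cast
      have h7 : ((i + 1 + (k - 1 - i + 1) : ℕ) : ℚ) = ((i + 1 : ℕ) : ℚ) + ((k - 1 - i + 1 : ℕ) : ℚ) := by
        push_cast
        ring
      ring
    rw [h5]
    have := Int.le_floor_add (m * ((i + 1 : ℕ) : ℚ)) (m * ((k - 1 - i + 1 : ℕ) : ℚ))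
    linarith
  refine (sum_le_sum h4).trans_eq ?_
  rw [sum_const, card_range]
  push_cast
  simp

/-- `m n (n - 1) / 2 ≤ R m n ≤ m n (n - 1) / 2 + n - 1`. -/
theorem R_lower (m : ℚ) (n : ℕ) : m * n * ((n : ℚ) - 1) ≤ 2 * (R m n : ℚ) := by
  induction n with
  | zero => simp [R_zero]
  | succ n ih =>
    rw [R_succ]
    have h := Int.le_ceil (m * (n : ℚ))
    push_cast
    nlinarith

theorem R_upper (m : ℚ) {n : ℕ} (hn : 1 ≤ n) :
    2 * (R m n : ℚ) ≤ m * n * ((n : ℚ) - 1) + 2 * ((n : ℚ) - 1) := by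
  induction n, hn using Nat.le_induction with
  | base => simp [R_one]
  | succ n hn ih =>
    rw [R_succ]
    have h := (Int.ceil_lt_add_one (m * (n : ℚ))).le
    push_cast
    nlinarith

end Pool.Agent.Lib.P56507
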