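import Pool.Agent.Lib.P56507.WBas
import Pool.Agent.Lib.P56507.RBas

/-!
The largest weight of a `j`-subset of `V`, and the removal of a maximal `j`-set.
-/

open Finset

namespace Pool.Agent.Lib.P56507

variable {w : ℕ → ℕ → ℤ}

open Classical in
/-- The largest weight of a `j`-subset of `V`. -/
noncomputable def al (w : ℕ → ℕ → ℤ) (V : Finset ℕ) (j : ℕ) : ℤ :=
  if h : (powersetCard j V).Nonempty then (powersetCard j V).sup' h (W w) else 0

theorem le_al {V S : Finset ℕ} (h : S ⊆ V) : W w S ≤ al w V S.card := by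
  have hm : S ∈ powersetCard S.card V := mem_powersetCard.2 ⟨h, rfl⟩
  unfold al
  rw [dif_pos ⟨S, hm⟩]
  exact le_sup' (W w) hm

theorem exists_al (w : ℕ → ℕ → ℤ) {V : Finset ℕ} {j : ℕ} (hj : j ≤ V.card) :
    ∃ S ⊆ V, S.card = j ∧ W w S = al w V j := by
  have hn : (powersetCard j V).Nonempty := powersetCard_nonempty.2 hj
  obtain ⟨S, hS, e⟩ := exists_mem_eq_sup' hn (W w)
  rw [mem_powersetCard] at hS
  refine ⟨S, hS.1, hS.2, ?_⟩
  unfold al
  rw [dif_pos hn]
  exact e.symm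

theorem al_zero (w : ℕ → ℕ → ℤ) (V : Finset ℕ) : al w V 0 = 0 := by
  obtain ⟨S, _, hS, e⟩ := exists_al w (V := V) (j := 0) (Nat.zero_le _)
  rw [card_eq_zero] at hS
  rw [← e, hS, W_empty]

theorem al_one (w : ℕ → ℕ → ℤ) {V : Finset ℕ} (hV : 1 ≤ V.card) : al w V 1 = 0 := by
  obtain ⟨S, _, hS, e⟩ := exists_al w (V := V) (j := 1) hV
  obtain ⟨v, rfl⟩ := card_eq_one.1 hS
  rw [← e, W_singleton]

/-- A vertex outside a maximal `j`-set. -/
theorem dg_le (hw : ∀ x y, w x y = w y x) {V S : Finset ℕ} (h : S ⊆ V)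
    (hS : W w S = al w V S.card) {v : ℕ} (hv : v ∈ V \ S) :
    dg w v S ≤ al w V (S.card + 1) - al w V S.card := by
  rw [mem_sdiff] at hv
  have h1 := le_al (w := w) (insert_subset hv.1 h)
  rw [W_insert hw hv.2, card_insert_of_notMem hv.2, hS] at h1
  linarith

/-- `W(V) = W(S) + ∑_{v ∉ S} w(v, S) + W(V \ S)`. -/
theorem peel_le (hw : ∀ x y, w x y = w y x) {V S : Finset ℕ} (h : S ⊆ V)
    (hS : W w S = al w V S.card) :
    W w V ≤ W w S + ((V \ S).card : ℤ) * (al w V (S.card + 1) - al w V S.card) + W w (V \ S) := by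
  rw [W_sdiff hw h]
  have h1 : ∑ v ∈ V \ S, dg w v S ≤ (V \ S).card • (al w V (S.card + 1) - al w V S.card) :=
    sum_le_card_nsmul _ _ _ fun v hv => dg_le hw h hS hv
  rw [nsmul_eq_mul] at h1
  linarith

/-- Removal of a maximal `i`-set `S` if `al (i + 1) ≤ al i + ⌈m i⌉ - δ` with `δ ≥ 1`: with
`n' = |V \ S|`,
`ex V ≤ ex S + ex (V \ S) + (R m i + R m n' + n' (⌈m i⌉ - 1) - R m (i + n')) - n' (δ - 1)
  ≤ ex S + ex (V \ S) - ⌈n' / q⌉ - n' (δ - 1)` by `R_super`. -/
theorem ex_peel_le (hw : ∀ x y, w x y = w y x) (m : ℚ) {V S : Finset ℕ} (h : S ⊆ V)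
    (hS : W w S = al w V S.card) {δ : ℤ}
    (hδ : al w V (S.card + 1) ≤ al w V S.card + ⌈m * (S.card : ℚ)⌉ - δ) :
    ex m w V ≤ ex m w S + ex m w (V \ S) - Nq m.den (V \ S).card
      - ((V \ S).card : ℤ) * (δ - 1) := by
  have h1 := peel_le hw h hS
  have h2 := R_super m S.card (V \ S).card
  have h3 : S.card + (V \ S).card = V.card := by
    rw [add_comm]
    exact card_sdiff_add_card_eq_card h
  rw [h3] at h2
  have h4 : ((V \ S).card : ℤ) * (al w V (S.card + 1) - al w V S.card) ≤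
      ((V \ S).card : ℤ) * (⌈m * (S.card : ℚ)⌉ - δ) :=
    mul_le_mul_of_nonneg_left (by linarith) (Int.natCast_nonneg _)
  unfold ex
  have e1 : ((V \ S).card : ℤ) * (⌈m * (S.card : ℚ)⌉ - δ) =
    ((V \ S).card : ℤ) * (⌈m * (S.card : ℚ)⌉ - 1) - ((V \ S).card : ℤ) * (δ - 1) := by ring
  linarith

/-- Removal of a set `S` with `q z` elements: the exact identity. -/
theorem ex_block (hw : ∀ x y, w x y = w y x) (m : ℚ) {V S : Finset ℕ} (h : S ⊆ V) {z : ℕ}
    (hS : S.card = m.den * z) :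
    ex m w V = ex m w S + ex m w (V \ S) - ∑ v ∈ V \ S, (m.num * z - dg w v S) := by
  have h3 : V.card = m.den * z + (V \ S).card := by
    rw [← hS, add_comm]
    exact (card_sdiff_add_card_eq_card h).symm
  unfold ex
  rw [W_sdiff hw h, h3, R_add, hS, sum_sub_distrib, sum_const, nsmul_eq_mul]
  ring

end Pool.Agent.Lib.P56507
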