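import Pool.Agent.Lib.P56507.WBas
import Pool.Agent.Lib.P56507.RBas

/-!
Averaging over the sets `V.erase v`.
-/

open Finset

namespace Pool.Agent.Lib.P56507

variable {w : ℕ → ℕ → ℤ}

private theorem chain_step (hw : ∀ x y, w x y = w y x) (m : ℚ) {n : ℕ} {S : Finset ℕ}
    (hc : S.card = n + 1) (hS : Rp m (n + 1) ≤ W w S) : ∃ v ∈ S, Rp m n ≤ W w (S.erase v) := by
  rcases Nat.eq_zero_or_pos n with h0 | h0
  · subst h0
    have hne : S.Nonempty := by rw [← Finset.card_pos, hc]; exact Nat.one_pos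
    obtain ⟨v, hv⟩ := hne
    refine ⟨v, hv, ?_⟩
    have h1 : S.erase v = ∅ := by
      rw [← Finset.card_eq_zero, Finset.card_erase_of_mem hv, hc]
    rw [h1, W_empty, Rp_zero]
  · by_contra hcon
    push Not at hcon
    have h1 : ∀ v ∈ S, W w (S.erase v) ≤ Rp m n - 1 := fun v hv => by
      have := hcon v hv
      omega
    have h2 : ∑ v ∈ S, W w (S.erase v) ≤ ∑ _v ∈ S, (Rp m n - 1) := Finset.sum_le_sum h1
    rw [sum_erase hw, Finset.sum_const, hc, nsmul_eq_mul] at h2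
    push_cast at h2
    have h3 := Rp_succ m h0
    have h4 := two_Rp_le m h0
    have h5 : (1 : ℤ) ≤ n := by exact_mod_cast h0
    rw [h3] at hS
    have h6 : ((n : ℤ) - 1) * (Rp m n + ⌊m * (n : ℚ)⌋ + 1) ≤ ((n : ℤ) - 1) * W w S :=
      mul_le_mul_of_nonneg_left hS (by linarith)
    nlinarith

theorem chain_down (hw : ∀ x y, w x y = w y x) (m : ℚ) {S : Finset ℕ} (hS : Rp m S.card ≤ W w S)
    {j : ℕ} (hj : j ≤ S.card) : ∃ P ⊆ S, P.card = j ∧ Rp m j ≤ W w P := by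
  have key : ∀ n : ℕ, ∀ S : Finset ℕ, S.card = n → Rp m n ≤ W w S → ∀ j ≤ n,
      ∃ P ⊆ S, P.card = j ∧ Rp m j ≤ W w P := by
    intro n
    induction n with
    | zero =>
      intro S hc hS j hj
      have : j = 0 := by omega
      subst this
      exact ⟨S, Finset.Subset.refl _, hc, hS⟩
    | succ n ih =>
      intro S hc hS j hj
      rcases Nat.lt_or_ge n j with h | h
      · have : j = n + 1 := by omega
        subst this
        exact ⟨S, Finset.Subset.refl _, hc, hS⟩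
      · obtain ⟨v, hv, h1⟩ := chain_step hw m hc hS
        have h2 : (S.erase v).card = n := by rw [Finset.card_erase_of_mem hv, hc]; rfl
        obtain ⟨P, hP, h3, h4⟩ := ih (S.erase v) h2 h1 j h
        exact ⟨P, hP.trans (Finset.erase_subset _ _), h3, h4⟩
  exact key _ S rfl hS j hj

theorem avg_bound (hw : ∀ x y, w x y = w y x) {k : ℕ} {r : ℤ} (hk : 2 ≤ k) {V : Finset ℕ}
    (hV : k ≤ V.card) (h : Cond k r w V) :
    (k : ℤ) * ((k : ℤ) - 1) * W w V ≤ (V.card : ℤ) * ((V.card : ℤ) - 1) * r := by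
  have hk' : (2 : ℤ) ≤ k := by exact_mod_cast hk
  have key : ∀ n : ℕ, k ≤ n → ∀ V : Finset ℕ, V.card = n → Cond k r w V →
      (k : ℤ) * ((k : ℤ) - 1) * W w V ≤ (n : ℤ) * ((n : ℤ) - 1) * r := by
    intro n hn
    induction n, hn using Nat.le_induction with
    | base =>
      intro V hc h
      have h1 := h V (Finset.Subset.refl _) hc
      exact mul_le_mul_of_nonneg_left h1 (mul_nonneg (by linarith) (by linarith))
    | succ n hn ih =>
      intro V hc h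
      have h1 : ∀ v ∈ V, (k : ℤ) * ((k : ℤ) - 1) * W w (V.erase v)
          ≤ (n : ℤ) * ((n : ℤ) - 1) * r := by
        intro v hv
        refine ih (V.erase v) (by rw [Finset.card_erase_of_mem hv, hc]; rfl) ?_
        exact fun S hS hcS => h S (hS.trans (Finset.erase_subset _ _)) hcS
      have h2 := Finset.sum_le_sum h1
      rw [← Finset.mul_sum, sum_erase hw, Finset.sum_const, hc, nsmul_eq_mul] at h2
      push_cast at h2 ⊢
      have hn' : (2 : ℤ) ≤ n := by exact_mod_cast hk.trans hn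
      have h3 : (0 : ℤ) < (n : ℤ) - 1 := by linarith
      refine le_of_mul_le_mul_left ?_ h3
      nlinarith
  exact key _ hV V rfl h

theorem base_bound (hw : ∀ x y, w x y = w y x) {m : ℚ} {k s : ℕ} (hk : 2 ≤ k) {V : Finset ℕ}
    (hV : k ≤ V.card) (h : Cond k (R m k + s) w V) :
    ex m w V ≤ ((k : ℤ) + s) * (V.card : ℤ) ^ 2 := by
  have h1 := avg_bound hw hk hV h
  set n := V.card with hn
  have h2 := R_lower m n
  have h3 := R_upper m (n := k) (by omega)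
  have hk' : (2 : ℚ) ≤ k := by exact_mod_cast hk
  have hn' : (2 : ℚ) ≤ n := by exact_mod_cast hk.trans hV
  have hs : (0 : ℚ) ≤ s := by positivity
  have h4 : (k : ℚ) * ((k : ℚ) - 1) * (W w V : ℚ) ≤ (n : ℚ) * ((n : ℚ) - 1) * ((R m k : ℚ) + s) := by
    exact_mod_cast h1
  have h5 : (n : ℚ) * ((n : ℚ) - 1) * (2 * (R m k : ℚ))
      ≤ (n : ℚ) * ((n : ℚ) - 1) * (m * k * ((k : ℚ) - 1) + 2 * ((k : ℚ) - 1)) :=
    mul_le_mul_of_nonneg_left h3 (mul_nonneg (by linarith) (by linarith))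
  have h6 : (k : ℚ) * ((k : ℚ) - 1) * (m * n * ((n : ℚ) - 1))
      ≤ (k : ℚ) * ((k : ℚ) - 1) * (2 * (R m n : ℚ)) :=
    mul_le_mul_of_nonneg_left h2 (mul_nonneg (by linarith) (by linarith))
  have h7 : (k : ℚ) * ((k : ℚ) - 1) * ((W w V : ℚ) - (R m n : ℚ))
      ≤ (n : ℚ) * ((n : ℚ) - 1) * ((k : ℚ) - 1 + s) := by
    nlinarith
  have h8 : (ex m w V : ℚ) = (W w V : ℚ) - (R m n : ℚ) := by
    rw [ex, ← hn]; push_cast; ring
  rw [← h8] at h7
  by_contra hcon
  push Not at hcon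
  have h9 : ((k : ℚ) + s) * (n : ℚ) ^ 2 < (ex m w V : ℚ) := by exact_mod_cast hcon
  have h10 : (0 : ℚ) ≤ ((k : ℚ) + s) * (n : ℚ) ^ 2 := by positivity
  have h11 : (0 : ℚ) < (ex m w V : ℚ) := lt_of_le_of_lt h10 h9
  have h12 : (1 : ℚ) ≤ (k : ℚ) * ((k : ℚ) - 1) := by nlinarith
  have h13 : (ex m w V : ℚ) ≤ (k : ℚ) * ((k : ℚ) - 1) * (ex m w V : ℚ) := by nlinarith
  have h14 : (n : ℚ) * ((n : ℚ) - 1) * ((k : ℚ) - 1 + s) ≤ ((k : ℚ) + s) * (n : ℚ) ^ 2 := by
    have a1 : (n : ℚ) * ((n : ℚ) - 1) ≤ (n : ℚ) ^ 2 := by nlinarith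
    have a2 : (k : ℚ) - 1 + s ≤ (k : ℚ) + s := by linarith
    calc (n : ℚ) * ((n : ℚ) - 1) * ((k : ℚ) - 1 + s) ≤ (n : ℚ) ^ 2 * ((k : ℚ) + s) :=
          mul_le_mul a1 a2 (by linarith) (by positivity)
      _ = ((k : ℚ) + s) * (n : ℚ) ^ 2 := by ring
  linarith

end Pool.Agent.Lib.P56507
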