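import Pool.Agent.Lib.P56507.Defs

/-!
Elementary identities for the weight of a set.

`W w S` is the sum of `w x y` over the pairs `x < y` of elements of `S`, `w` is symmetric.
-/

open Finset

namespace Pool.Agent.Lib.P56507

variable {w : ℕ → ℕ → ℤ}

namespace WBasAux

/-- the summand of the double sum -/
def g (w : ℕ → ℕ → ℤ) (x y : ℕ) : ℤ := if x < y then w x y else 0

theorem W_eq (w : ℕ → ℕ → ℤ) (S : Finset ℕ) : W w S = ∑ x ∈ S, ∑ y ∈ S, g w x y := by
  unfold W g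
  rw [sum_filter, sum_product]

theorem g_self (w : ℕ → ℕ → ℤ) (x : ℕ) : g w x x = 0 := by
  simp [g]

theorem g_add (hw : ∀ x y, w x y = w y x) {x y : ℕ} (h : x ≠ y) :
    g w x y + g w y x = w x y := by
  unfold g
  rcases lt_or_gt_of_ne h with h1 | h1
  · rw [if_pos h1, if_neg (by omega), add_zero]
  · rw [if_neg (by omega), if_pos h1, zero_add, hw]

end WBasAux

open WBasAux

theorem W_empty (w : ℕ → ℕ → ℤ) : W w ∅ = 0 := by
  simp [W]

theorem W_insert (hw : ∀ x y, w x y = w y x) {v : ℕ} {S : Finset ℕ} (hv : v ∉ S) :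
    W w (insert v S) = W w S + dg w v S := by
  rw [W_eq, W_eq, sum_insert hv, sum_insert hv, g_self, zero_add]
  have h1 : ∑ x ∈ S, ∑ y ∈ insert v S, g w x y = ∑ x ∈ S, g w x v + ∑ x ∈ S, ∑ y ∈ S, g w x y := by
    rw [← sum_add_distrib]
    exact sum_congr rfl fun x _ => sum_insert hv
  have h2 : dg w v S = ∑ x ∈ S, g w v x + ∑ x ∈ S, g w x v := by
    rw [← sum_add_distrib]
    refine sum_congr rfl fun x hx => ?_
    rw [g_add hw]
    rintro rfl
    exact hv hx
  rw [h1, h2]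
  ring

theorem W_singleton (w : ℕ → ℕ → ℤ) (v : ℕ) : W w {v} = 0 := by
  rw [W_eq, sum_singleton, sum_singleton, g_self]

theorem dg_union {v : ℕ} {S T : Finset ℕ} (h : Disjoint S T) :
    dg w v (S ∪ T) = dg w v S + dg w v T := by
  unfold dg
  exact sum_union h

theorem sum_dg_swap (hw : ∀ x y, w x y = w y x) (S T : Finset ℕ) :
    ∑ v ∈ T, dg w v S = ∑ v ∈ S, dg w v T := by
  unfold dg
  rw [sum_comm]
  exact sum_congr rfl fun x _ => sum_congr rfl fun y _ => hw y x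

theorem W_union (hw : ∀ x y, w x y = w y x) {S T : Finset ℕ} (h : Disjoint S T) :
    W w (S ∪ T) = W w S + W w T + ∑ v ∈ T, dg w v S := by
  rw [W_eq, W_eq, W_eq, sum_union h]
  have h1 : ∀ U : Finset ℕ, ∑ x ∈ U, ∑ y ∈ S ∪ T, g w x y
      = ∑ x ∈ U, ∑ y ∈ S, g w x y + ∑ x ∈ U, ∑ y ∈ T, g w x y := by
    intro U
    rw [← sum_add_distrib]
    exact sum_congr rfl fun x _ => sum_union h
  have h2 : ∑ v ∈ T, dg w v S = ∑ x ∈ T, ∑ y ∈ S, g w x y + ∑ x ∈ S, ∑ y ∈ T, g w x y := by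
    rw [sum_comm (s := S), ← sum_add_distrib]
    refine sum_congr rfl fun x hx => ?_
    unfold dg
    rw [← sum_add_distrib]
    refine sum_congr rfl fun y hy => ?_
    rw [g_add hw]
    rintro rfl
    exact (disjoint_left.1 h) hy hx
  rw [h1, h1, h2]
  ring

theorem W_sdiff (hw : ∀ x y, w x y = w y x) {S V : Finset ℕ} (h : S ⊆ V) :
    W w V = W w S + W w (V \ S) + ∑ v ∈ V \ S, dg w v S := by
  have h1 := W_union hw (disjoint_sdiff : Disjoint S (V \ S))
  rwa [union_sdiff_of_subset h] at h1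

theorem W_nonneg {S : Finset ℕ} (h : ∀ x ∈ S, ∀ y ∈ S, x ≠ y → 0 ≤ w x y) : 0 ≤ W w S := by
  unfold W
  refine sum_nonneg fun p hp => ?_
  rw [mem_filter, mem_product] at hp
  exact h _ hp.1.1 _ hp.1.2 hp.2.ne

theorem two_W (hw : ∀ x y, w x y = w y x) (S : Finset ℕ) :
    2 * W w S = ∑ x ∈ S, dg w x (S.erase x) := by
  have e1 : W w S = ∑ x ∈ S, ∑ y ∈ S, g w x y := W_eq w S
  have e2 : W w S = ∑ x ∈ S, ∑ y ∈ S, g w y x := by rw [W_eq, sum_comm]
  have h1 : 2 * W w S = ∑ x ∈ S, ∑ y ∈ S, (g w x y + g w y x) := by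
    simp only [sum_add_distrib]
    rw [← e1, ← e2, two_mul]
  rw [h1]
  refine sum_congr rfl fun x hx => ?_
  rw [← add_sum_erase S _ hx, g_self, add_zero, zero_add]
  unfold dg
  exact sum_congr rfl fun y hy => g_add hw (ne_of_mem_erase hy).symm

theorem sum_erase (hw : ∀ x y, w x y = w y x) (V : Finset ℕ) :
    ∑ v ∈ V, W w (V.erase v) = ((V.card : ℤ) - 2) * W w V := by
  have h1 : ∀ v ∈ V, W w (V.erase v) = W w V - dg w v (V.erase v) := by
    intro v hv
    have h2 := W_insert hw (notMem_erase v V)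
    rw [insert_erase hv] at h2
    linarith
  rw [sum_congr rfl h1, sum_sub_distrib, ← two_W hw, sum_const, nsmul_eq_mul]
  ring

theorem W_add (w₁ w₂ : ℕ → ℕ → ℤ) (S : Finset ℕ) :
    W (fun x y => w₁ x y + w₂ x y) S = W w₁ S + W w₂ S := by
  unfold W
  exact sum_add_distrib

theorem W_const (a : ℤ) (S : Finset ℕ) :
    2 * W (fun _ _ => a) S = a * S.card * ((S.card : ℤ) - 1) := by
  rw [two_W (fun _ _ => rfl)]
  have h1 : ∀ x ∈ S, dg (fun _ _ => a) x (S.erase x) = ((S.card : ℤ) - 1) * a := by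
    intro x hx
    unfold dg
    rw [sum_const, nsmul_eq_mul, card_erase_of_mem hx, Nat.cast_sub (card_pos.2 ⟨x, hx⟩),
      Nat.cast_one]
  rw [sum_congr rfl h1, sum_const, nsmul_eq_mul]
  ring

end Pool.Agent.Lib.P56507
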