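import Pool.Agent.Lib.P56507.Gap
import Pool.Agent.Lib.P56507.WBas

/-!
Bounds for all `n ≥ k` by averaging.
-/

open Finset

namespace Pool.Agent.Lib.P56507

variable {w : ℕ → ℕ → ℤ}

theorem Cond.subset {k : ℕ} {r : ℤ} {V V' : Finset ℕ} (h : Cond k r w V) (hV : V' ⊆ V) :
    Cond k r w V' := fun S hS => h S (hS.trans hV)

private theorem step_core (hw : ∀ x y, w x y = w y x) (m : ℚ) {V : Finset ℕ} (hV : 3 ≤ V.card)
    {B : ℤ} (h : ∀ v ∈ V, ex m w (V.erase v) ≤ B) :
    gap m (V.card - 1) + ((V.card : ℤ) - 2) * (ex m w V - 1 - B) ≤ 2 * B := by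
  obtain ⟨j, hj⟩ : ∃ j, V.card = j + 1 := ⟨V.card - 1, by omega⟩
  have h1 : ∀ v ∈ V, W w (V.erase v) ≤ R m j + B := by
    intro v hv
    have h2 := h v hv
    have h3 : (V.erase v).card = j := by rw [card_erase_of_mem hv, hj]; rfl
    rw [ex, h3] at h2
    linarith
  have h2 := sum_le_sum h1
  rw [sum_erase hw, sum_const, nsmul_eq_mul, hj] at h2
  rw [ex, gap, hj, R_succ]
  have h4 : j + 1 - 1 = j := rfl
  rw [h4]
  push_cast at h2 ⊢
  nlinarith [h2]

/-- Let `n = |V|`. `sum_erase`: `(n - 2) W(V) ≤ n (R m (n - 1) + B)`. If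
`W(V) ≥ R m n + B + 1 = R m (n - 1) + ⌈m (n - 1)⌉ + B + 1`, then
`(n - 2) (⌈m (n - 1)⌉ + 1) ≤ 2 R m (n - 1) + 2 B`, that is `gap m (n - 1) ≤ 2 B`. -/
theorem step_same (hw : ∀ x y, w x y = w y x) (m : ℚ) {V : Finset ℕ} (hV : 3 ≤ V.card) {B : ℤ}
    (h : ∀ v ∈ V, ex m w (V.erase v) ≤ B) (hB : 2 * B < gap m (V.card - 1)) :
    ex m w V ≤ B := by
  have h1 := step_core hw m hV h
  by_contra hcon
  push Not at hcon
  have h2 : (3 : ℤ) ≤ V.card := by exact_mod_cast hV
  have h3 : 0 ≤ ((V.card : ℤ) - 2) * (ex m w V - 1 - B) :=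
    mul_nonneg (by linarith) (by linarith)
  linarith

/-- If `W(V) ≥ R m n + B + 2`, then `(n - 2) (⌈m (n - 1)⌉ + 2) ≤ 2 R m (n - 1) + 2 B`, that is
`gap m (n - 1) + (n - 2) ≤ 2 B`. -/
theorem step_one (hw : ∀ x y, w x y = w y x) (m : ℚ) {V : Finset ℕ} (hV : 3 ≤ V.card) {B : ℤ}
    (h : ∀ v ∈ V, ex m w (V.erase v) ≤ B)
    (hB : 2 * B < gap m (V.card - 1) + ((V.card : ℤ) - 2)) : ex m w V ≤ B + 1 := by
  have h1 := step_core hw m hV h
  by_contra hcon
  push Not at hcon
  have h2 : (3 : ℤ) ≤ V.card := by exact_mod_cast hV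
  have h3 : ((V.card : ℤ) - 2) * 1 ≤ ((V.card : ℤ) - 2) * (ex m w V - 1 - B) :=
    mul_le_mul_of_nonneg_left (by linarith) (by linarith)
  linarith

/-- Induction on `|V| ≥ k` with `step_same`, `B = s`: `2 s < K ≤ (j - 1) / q ≤ gap m j` for `j ≥ k`
(`j ≥ q K + 1`). Here `K ≥ 1`, so `k ≥ 2`. -/
theorem ex_le_of_two_mul_lt (hw : ∀ x y, w x y = w y x) {m : ℚ} {k s K c b ρ : ℕ}
    (P : Par k m.den s K c b ρ) (hs : 2 * s < K) {V : Finset ℕ} (hV : k ≤ V.card)
    (h : Cond k (R m k + s) w V) : ex m w V ≤ s := by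
  have hq : 1 ≤ m.den := P.q1
  have hk1 := P.k1
  have hqK : K ≤ m.den * K := Nat.le_mul_of_pos_left K hq
  have key : ∀ n : ℕ, k ≤ n → ∀ V : Finset ℕ, V.card = n → Cond k (R m k + s) w V →
      ex m w V ≤ s := by
    intro n hn
    induction n, hn using Nat.le_induction with
    | base =>
      intro V hc h
      have h1 := h V (Subset.refl _) hc
      rw [ex, hc]
      linarith
    | succ n hn ih =>
      intro V hc h
      refine step_same hw m (by omega) (fun v hv => ?_) ?_
      · exact ih (V.erase v) (by rw [card_erase_of_mem hv, hc]; rfl)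
          (h.subset (erase_subset _ _))
      · have h1 : V.card - 1 = n := by omega
        rw [h1]
        have h2 := gap_ge m (j := n) (by omega)
        have h3 : K ≤ (n - 1) / m.den := by
          rw [Nat.le_div_iff_mul_le hq, mul_comm]
          omega
        have h4 : (K : ℤ) ≤ (((n - 1) / m.den : ℕ) : ℤ) := by exact_mod_cast h3
        have h5 : 2 * (s : ℤ) < K := by exact_mod_cast hs
        linarith
  exact key _ hV V rfl h

/-- Induction on `|V| ≥ k`. For `|V| = k`, `Nq q k = K + 1`. Let `n = |V| > k`. If `q ∤ n - 1`, then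
`N(n) = N(n - 1) = (n - 2) / q + 1`, `step_same` with `B = N - 1 - c`,
`2 B < 2 (N - 1) = 2 ((n - 2) / q) ≤ gap m (n - 1)`. If `n - 1 = q ν`, then `N(n - 1) = ν`,
`N(n) = ν + 1`, `step_one` with `B = ν - 1 - c`: `gap m (n - 1) ≥ (n - 2) / q = ν - 1`,
`n - 2 = q ν - 1 ≥ ν - 1`. -/
theorem lin (hw : ∀ x y, w x y = w y x) {m : ℚ} {k K : ℕ} {c : ℤ} (hc : 1 ≤ c) (hk : 2 ≤ k)
    (k1 : m.den * K + 1 ≤ k) (k2 : k ≤ m.den * K + m.den) {V : Finset ℕ} (hV : k ≤ V.card)
    (h : Cond k (R m k + (K - c)) w V) : ex m w V ≤ Nq m.den V.card - 1 - c := by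
  have hq : 1 ≤ m.den := m.den_pos
  have key : ∀ n : ℕ, k ≤ n → ∀ V : Finset ℕ, V.card = n → Cond k (R m k + (K - c)) w V →
      ex m w V ≤ Nq m.den n - 1 - c := by
    intro n hn
    induction n, hn using Nat.le_induction with
    | base =>
      intro V hc h
      have h1 := h V (Subset.refl _) hc
      have h2 : (k - 1) / m.den = K := by
        rw [Nat.div_eq_iff (by omega)]
        constructor
        · rw [mul_comm]; omega
        · rw [mul_comm]; omega
      rw [Nq_pos hq (by omega), h2, ex, hc]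
      push_cast
      linarith
    | succ n hn ih =>
      intro V hc h
      have h0 : ∀ v ∈ V, ex m w (V.erase v) ≤ (((n - 1) / m.den : ℕ) : ℤ) - c := by
        intro v hv
        have h1 := ih (V.erase v) (by rw [card_erase_of_mem hv, hc]; rfl)
          (h.subset (erase_subset _ _))
        rw [Nq_pos hq (by omega)] at h1
        push_cast at h1 ⊢
        linarith
      have h1 : V.card - 1 = n := by omega
      have hn2 : 1 ≤ n := by omega
      rw [Nq_pos hq (by omega)]
      have e1 : n + 1 - 1 = n := rfl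
      rw [e1]
      by_cases hd : m.den ∣ n
      · obtain ⟨ν, hν⟩ := hd
        have hν1 : 1 ≤ ν := by
          rcases Nat.eq_zero_or_pos ν with hz | hz
          · subst hz
            omega
          · exact hz
        have h2 : n / m.den = (n - 1) / m.den + 1 := by
          have a1 : n / m.den = ν := by rw [hν, Nat.mul_div_cancel_left _ (by omega)]
          have a2 : (n - 1) / m.den = ν - 1 := by
            rw [Nat.div_eq_iff (by omega)]
            obtain ⟨t, rfl⟩ : ∃ t, ν = t + 1 := ⟨ν - 1, by omega⟩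
            have a3 : m.den * (t + 1) = t * m.den + m.den := by ring
            simp only [Nat.add_sub_cancel]
            omega
          omega
        have h3 := step_one hw m (by omega : 3 ≤ V.card) h0 (by
          rw [h1, hc]
          have b1 := gap_ge m hn2
          have b2 : (n - 1) / m.den ≤ n - 1 := Nat.div_le_self _ _
          have b3 : (((n - 1) / m.den : ℕ) : ℤ) ≤ (n : ℤ) - 1 := by omega
          push_cast at b1 b3 ⊢
          linarith)
        rw [h2]
        push_cast at h3 ⊢
        linarith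
      · have h2 : n / m.den = (n - 1) / m.den := by
          obtain ⟨t, rfl⟩ : ∃ t, n = t + 1 := ⟨n - 1, by omega⟩
          rw [Nat.succ_div_of_not_dvd hd]
          rfl
        have h3 := step_same hw m (by omega : 3 ≤ V.card) h0 (by
          rw [h1]
          have b1 := gap_not_dvd m hn2 hd
          linarith)
        rw [h2]
        push_cast at h3 ⊢
        linarith
  have h1 := key _ hV V rfl h
  exact h1

/-- The case `K = 0`: if all `k`-sets have excess at most `- c`, then all larger sets as well. If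
`k = 1`, then `W {v} = 0` contradicts `0 ≤ R m 1 - c = - c`. If `k ≥ 2`: induction with `step_same`,
`B = - c`, `2 B < 0 ≤ gap`. -/
theorem ex_le_neg (hw : ∀ x y, w x y = w y x) {m : ℚ} {k : ℕ} {c : ℤ} (hc : 1 ≤ c) (hk : 1 ≤ k)
    {V : Finset ℕ} (hV : k ≤ V.card) (h : Cond k (R m k - c) w V) : ex m w V ≤ - c := by
  rcases Nat.lt_or_ge k 2 with hk2 | hk2
  · exfalso
    have hk1 : k = 1 := by omega
    subst hk1
    have hne : V.Nonempty := by
      rw [← card_pos]
      omega
    obtain ⟨v, hv⟩ := hne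
    have h1 := h {v} (singleton_subset_iff.2 hv) (card_singleton v)
    rw [W_singleton, R_one] at h1
    linarith
  · have key : ∀ n : ℕ, k ≤ n → ∀ V : Finset ℕ, V.card = n → Cond k (R m k - c) w V →
        ex m w V ≤ - c := by
      intro n hn
      induction n, hn using Nat.le_induction with
      | base =>
        intro V hc h
        have h1 := h V (Subset.refl _) hc
        rw [ex, hc]
        linarith
      | succ n hn ih =>
        intro V hc h
        refine step_same hw m (by omega) (fun v hv => ?_) ?_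
        · exact ih (V.erase v) (by rw [card_erase_of_mem hv, hc]; rfl)
            (h.subset (erase_subset _ _))
        · have h2 := gap_nonneg m (j := V.card - 1) (by omega)
          linarith
    exact key _ hV V rfl h

end Pool.Agent.Lib.P56507
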