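import Pool.Agent.Lib.P56507.WBas

/-!
Block systems: a finite set of blocks with an excess `f i`, a cost `c i` and a deficit
`l i j ≥ 0` between two blocks.
-/

open Finset

namespace Pool.Agent.Lib.P56507

/-- The weight between `S` and `T`. -/
def cr (l : ℕ → ℕ → ℤ) (S T : Finset ℕ) : ℤ := ∑ v ∈ T, dg l v S

/-- The cost of a set of blocks. -/
def bC (c : ℕ → ℤ) (l : ℕ → ℕ → ℤ) (C : Finset ℕ) : ℤ := ∑ x ∈ C, c x + W l C

/-- The excess of a set of blocks. -/
def bE (f : ℕ → ℤ) (l : ℕ → ℕ → ℤ) (C : Finset ℕ) : ℤ := ∑ x ∈ C, f x - W l C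

/-- A block system: sets of cost at most `k` have excess at most `s`, and every block has a
positive marginal excess. -/
structure BSys (f c : ℕ → ℤ) (l : ℕ → ℕ → ℤ) (J : Finset ℕ) (k s : ℤ) : Prop where
  sy : ∀ x y, l x y = l y x
  nn : ∀ x y, 0 ≤ l x y
  c1 : ∀ x ∈ J, c x ≤ 1
  k1 : 1 ≤ k
  H : ∀ C ⊆ J, bC c l C ≤ k → bE f l C ≤ s
  u1 : ∀ i ∈ J, bE f l (J.erase i) + 1 ≤ bE f l J
  hi : k < bC c l J

/-- The reduced system on the complement of a block set. -/
structure RSys (d w : ℕ → ℤ) (l : ℕ → ℕ → ℤ) (E : Finset ℕ) (B x σ δ : ℤ) : Prop where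
  sy : ∀ x y, l x y = l y x
  nn : ∀ x y, 0 ≤ l x y
  B1 : 1 ≤ B
  x0 : 0 ≤ x
  δ1 : 1 ≤ δ
  d1 : ∀ i ∈ E, 1 ≤ d i
  wd : ∀ i ∈ E, w i ≤ B * d i
  u1 : ∀ i ∈ E, dg l i (E.erase i) + 1 ≤ w i
  H : ∀ G ⊆ E, bC d l G ≤ x → bE w l G ≤ σ
  net : B * x + bE w l E = σ + δ + B * bC d l E
  hi : x < bC d l E
  hie : ∀ i ∈ E, x < bC d l (E.erase i)

/-- An optimal feasible set in the reduced system. -/
structure IsOpt (d w : ℕ → ℤ) (l : ℕ → ℕ → ℤ) (E : Finset ℕ) (x : ℤ) (F : Finset ℕ) : Prop where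
  sub : F ⊆ E
  fe : bC d l F ≤ x
  opt : ∀ G ⊆ E, bC d l G ≤ x → bE w l G ≤ bE w l F

section basic

variable {l : ℕ → ℕ → ℤ} {c f d w : ℕ → ℤ}

theorem dg_empty (v : ℕ) : dg l v ∅ = 0 := by simp [dg]

theorem dg_nonneg (nn : ∀ x y, 0 ≤ l x y) (v : ℕ) (S : Finset ℕ) : 0 ≤ dg l v S :=
  sum_nonneg fun _ _ => nn _ _

theorem dg_insert {v x : ℕ} {S : Finset ℕ} (h : x ∉ S) :
    dg l v (insert x S) = l v x + dg l v S := by
  unfold dg; exact sum_insert h

theorem dg_singleton (v x : ℕ) : dg l v {x} = l v x := by simp [dg]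

theorem dg_mono (nn : ∀ x y, 0 ≤ l x y) {v : ℕ} {S T : Finset ℕ} (h : S ⊆ T) :
    dg l v S ≤ dg l v T := by
  unfold dg
  exact sum_le_sum_of_subset_of_nonneg h fun _ _ _ => nn _ _

theorem le_dg (nn : ∀ x y, 0 ≤ l x y) {v x : ℕ} {S : Finset ℕ} (h : x ∈ S) :
    l v x ≤ dg l v S := by
  have := dg_mono (v := v) nn (singleton_subset_iff.2 h)
  rwa [dg_singleton] at this

/-- `dg` over a union of disjoint sets. -/
theorem dg_sdiff {v : ℕ} {S T : Finset ℕ} (h : S ⊆ T) :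
    dg l v T = dg l v S + dg l v (T \ S) := by
  have := dg_union (w := l) (v := v) (disjoint_sdiff : Disjoint S (T \ S))
  rwa [union_sdiff_of_subset h] at this

theorem cr_comm (sy : ∀ x y, l x y = l y x) (S T : Finset ℕ) : cr l S T = cr l T S :=
  sum_dg_swap sy S T

theorem cr_nonneg (nn : ∀ x y, 0 ≤ l x y) (S T : Finset ℕ) : 0 ≤ cr l S T :=
  sum_nonneg fun _ _ => dg_nonneg nn _ _

theorem cr_empty_left (T : Finset ℕ) : cr l ∅ T = 0 := by simp [cr, dg]

theorem cr_empty_right (S : Finset ℕ) : cr l S ∅ = 0 := by simp [cr]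

theorem cr_singleton_right (S : Finset ℕ) (v : ℕ) : cr l S {v} = dg l v S := by simp [cr]

theorem cr_singleton_left (sy : ∀ x y, l x y = l y x) (v : ℕ) (T : Finset ℕ) :
    cr l {v} T = dg l v T := by
  rw [cr_comm sy, cr_singleton_right]

theorem cr_union_left {S T U : Finset ℕ} (h : Disjoint S T) :
    cr l (S ∪ T) U = cr l S U + cr l T U := by
  unfold cr
  rw [← sum_add_distrib]
  exact sum_congr rfl fun _ _ => dg_union h

theorem cr_union_right {S T U : Finset ℕ} (h : Disjoint T U) :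
    cr l S (T ∪ U) = cr l S T + cr l S U := by
  unfold cr
  exact sum_union h

theorem cr_mono (nn : ∀ x y, 0 ≤ l x y) {S S' T T' : Finset ℕ} (hS : S ⊆ S') (hT : T ⊆ T') :
    cr l S T ≤ cr l S' T' := by
  unfold cr
  refine le_trans (sum_le_sum fun _ _ => dg_mono nn hS) ?_
  exact sum_le_sum_of_subset_of_nonneg hT fun _ _ _ => dg_nonneg nn _ _

theorem W_union_cr (sy : ∀ x y, l x y = l y x) {S T : Finset ℕ} (h : Disjoint S T) :
    W l (S ∪ T) = W l S + W l T + cr l S T := W_union sy h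

theorem W_nn (nn : ∀ x y, 0 ≤ l x y) (S : Finset ℕ) : 0 ≤ W l S :=
  W_nonneg fun _ _ _ _ _ => nn _ _

theorem W_mono (sy : ∀ x y, l x y = l y x) (nn : ∀ x y, 0 ≤ l x y) {S T : Finset ℕ}
    (h : S ⊆ T) : W l S ≤ W l T := by
  have h1 := W_union_cr sy (disjoint_sdiff : Disjoint S (T \ S))
  rw [union_sdiff_of_subset h] at h1
  have := W_nn nn (T \ S)
  have := cr_nonneg nn S (T \ S)
  linarith

theorem bC_empty : bC c l ∅ = 0 := by simp [bC, W]

theorem bE_empty : bE f l ∅ = 0 := by simp [bE, W]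

theorem bC_singleton (v : ℕ) : bC c l {v} = c v := by simp [bC, W_singleton]

theorem bE_singleton (v : ℕ) : bE f l {v} = f v := by simp [bE, W_singleton]

theorem bC_union (sy : ∀ x y, l x y = l y x) {S T : Finset ℕ} (h : Disjoint S T) :
    bC c l (S ∪ T) = bC c l S + bC c l T + cr l S T := by
  unfold bC
  rw [W_union_cr sy h, sum_union h]
  ring

theorem bE_union (sy : ∀ x y, l x y = l y x) {S T : Finset ℕ} (h : Disjoint S T) :
    bE f l (S ∪ T) = bE f l S + bE f l T - cr l S T := by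
  unfold bE
  rw [W_union_cr sy h, sum_union h]
  ring

/-- `T = S ∪ (T \ S)`. -/
theorem bC_sdiff (sy : ∀ x y, l x y = l y x) {S T : Finset ℕ} (h : S ⊆ T) :
    bC c l T = bC c l S + bC c l (T \ S) + cr l S (T \ S) := by
  have := bC_union (c := c) sy (disjoint_sdiff : Disjoint S (T \ S))
  rwa [union_sdiff_of_subset h] at this

theorem bE_sdiff (sy : ∀ x y, l x y = l y x) {S T : Finset ℕ} (h : S ⊆ T) :
    bE f l T = bE f l S + bE f l (T \ S) - cr l S (T \ S) := by
  have := bE_union (f := f) sy (disjoint_sdiff : Disjoint S (T \ S))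
  rwa [union_sdiff_of_subset h] at this

theorem W_sdiff_cr (sy : ∀ x y, l x y = l y x) {S T : Finset ℕ} (h : S ⊆ T) :
    W l T = W l S + W l (T \ S) + cr l S (T \ S) := by
  have := W_union_cr sy (disjoint_sdiff : Disjoint S (T \ S))
  rwa [union_sdiff_of_subset h] at this

theorem bC_insert (sy : ∀ x y, l x y = l y x) {v : ℕ} {S : Finset ℕ} (h : v ∉ S) :
    bC c l (insert v S) = bC c l S + (c v + dg l v S) := by
  unfold bC
  rw [W_insert sy h, sum_insert h]
  ring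

theorem bE_insert (sy : ∀ x y, l x y = l y x) {v : ℕ} {S : Finset ℕ} (h : v ∉ S) :
    bE f l (insert v S) = bE f l S + (f v - dg l v S) := by
  unfold bE
  rw [W_insert sy h, sum_insert h]
  ring

theorem bC_erase (sy : ∀ x y, l x y = l y x) {v : ℕ} {S : Finset ℕ} (h : v ∈ S) :
    bC c l S = bC c l (S.erase v) + (c v + dg l v (S.erase v)) := by
  have := bC_insert (c := c) sy (notMem_erase v S)
  rwa [insert_erase h] at this

theorem bE_erase (sy : ∀ x y, l x y = l y x) {v : ℕ} {S : Finset ℕ} (h : v ∈ S) :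
    bE f l S = bE f l (S.erase v) + (f v - dg l v (S.erase v)) := by
  have := bE_insert (f := f) sy (notMem_erase v S)
  rwa [insert_erase h] at this

/-- The reduced cost. -/
theorem bC_red (sy : ∀ x y, l x y = l y x) {S T : Finset ℕ} (h : Disjoint S T) :
    bC c l (S ∪ T) = bC c l S + bC (fun x => c x + dg l x S) l T := by
  rw [bC_union sy h]
  unfold bC cr
  rw [sum_add_distrib]
  ring

/-- The reduced excess. -/
theorem bE_red (sy : ∀ x y, l x y = l y x) {S T : Finset ℕ} (h : Disjoint S T) :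
    bE f l (S ∪ T) = bE f l S + bE (fun x => f x - dg l x S) l T := by
  rw [bE_union sy h]
  unfold bE cr
  rw [sum_sub_distrib]
  ring

/-- The sum of the marginal excesses: `∑ (f i - dg i (S \ i)) = bE S - W S`. -/
theorem sum_marg (sy : ∀ x y, l x y = l y x) (S : Finset ℕ) :
    ∑ i ∈ S, (f i - dg l i (S.erase i)) = bE f l S - W l S := by
  rw [sum_sub_distrib, ← two_W sy]
  unfold bE
  ring

/-- `∑_{i ∈ T} dg i (S \ i) = 2 W T + cr T (S \ T)` for `T ⊆ S`. -/
theorem sum_dg_erase (sy : ∀ x y, l x y = l y x) {S T : Finset ℕ} (h : T ⊆ S) :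
    ∑ i ∈ T, dg l i (S.erase i) = 2 * W l T + cr l T (S \ T) := by
  rw [two_W sy, cr_comm sy]
  unfold cr
  rw [← sum_add_distrib]
  refine sum_congr rfl fun i hi => ?_
  rw [← dg_union]
  · congr 1
    ext x
    simp only [mem_erase, mem_union, mem_sdiff]
    constructor
    · rintro ⟨h1, h2⟩
      by_cases h3 : x ∈ T
      · exact Or.inl ⟨h1, h3⟩
      · exact Or.inr ⟨h2, h3⟩
    · rintro (⟨h1, h2⟩ | ⟨h1, h2⟩)
      · exact ⟨h1, h h2⟩
      · exact ⟨fun h3 => h2 (h3 ▸ hi), h1⟩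
  · exact disjoint_left.2 fun x h1 h2 => (mem_sdiff.1 h2).2 (mem_of_mem_erase h1)

/-- In a block system the marginal excess is at least 1. -/
theorem BSys.u1' {J : Finset ℕ} {k s : ℤ} (S : BSys f c l J k s) {i : ℕ} (hi : i ∈ J) :
    dg l i (J.erase i) + 1 ≤ f i := by
  have h1 := S.u1 i hi
  have h2 := bE_erase (f := f) S.sy hi
  linarith

end basic

end Pool.Agent.Lib.P56507
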