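import Pool.Agent.Lib.P56507.UStr
import Pool.Agent.Lib.P56507.AvgN
import Pool.Agent.Lib.P56507.Al
import Pool.Agent.Lib.P56507.PBDefs

/-!
Partitions of a critical set in blocks.
-/

open Finset

namespace Pool.Agent.Lib.P56507

variable {w : ℕ → ℕ → ℤ} {m : ℚ}

/-- A partition in blocks. -/
structure BP (m : ℚ) (w : ℕ → ℕ → ℤ) (X : Finset ℕ) (T : ℕ) (S : ℕ → Finset ℕ) (z f : ℕ → ℤ)
    (l : ℕ → ℕ → ℤ) : Prop where
  sy : ∀ i j, l i j = l j i
  nn : ∀ i < T, ∀ j < T, 0 ≤ l i j
  z1 : ∀ i < T, 1 ≤ z i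
  fz : ∀ i < T, z i ≤ f i + 1
  sub : ∀ i < T, S i ⊆ X
  cov : X ⊆ (range T).biUnion S
  dis : ∀ i < T, ∀ j < T, i ≠ j → Disjoint (S i) (S j)
  ex : ∀ C ⊆ range T, ex m w (C.biUnion S) = ∑ i ∈ C, f i - W l C
  Nq : ∀ C ⊆ range T, (Nq m.den (C.biUnion S).card : ℤ) = ∑ i ∈ C, z i

theorem W_congr {l l' : ℕ → ℕ → ℤ} {C : Finset ℕ} (h : ∀ i ∈ C, ∀ j ∈ C, l i j = l' i j) :
    W l C = W l' C := by
  unfold W
  refine sum_congr rfl fun p hp => ?_
  rw [mem_filter, mem_product] at hp
  exact h _ hp.1.1 _ hp.1.2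

theorem ex_empty : ex m w ∅ = 0 := by
  unfold ex
  rw [W_empty, card_empty, R_zero, sub_zero]

/-- One block. -/
theorem BP.one {X : Finset ℕ} {z₀ : ℕ} (hX : X.card = m.den * z₀ + 1)
    (hf : (z₀ : ℤ) ≤ P56507.ex m w X) :
    BP m w X 1 (fun _ => X) (fun _ => z₀ + 1) (fun _ => P56507.ex m w X) (fun _ _ => 0) := by
  have h01 : ∀ C ⊆ range 1, C = ∅ ∨ C = {0} := by
    intro C hC
    rw [range_one] at hC
    exact subset_singleton_iff.1 hC
  refine ⟨fun _ _ => rfl, fun _ _ _ _ => le_rfl, fun _ _ => by omega, fun _ _ => by linarith,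
    fun _ _ => Subset.refl _, ?_, ?_, ?_, ?_⟩
  · rw [range_one, singleton_biUnion]
  · intro i hi j hj hij
    omega
  · intro C hC
    rcases h01 C hC with rfl | rfl
    · rw [biUnion_empty, ex_empty, sum_empty, W_empty, sub_zero]
    · rw [singleton_biUnion, sum_singleton, W_singleton, sub_zero]
  · intro C hC
    rcases h01 C hC with rfl | rfl
    · rw [biUnion_empty, card_empty, Nq_zero m.den_pos, sum_empty]
      rfl
    · rw [singleton_biUnion, sum_singleton, hX, Nq_add m.den_pos, Nq_pos m.den_pos le_rfl]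
      simp

/-- Two blocks. -/
theorem BP.two {X S : Finset ℕ} (hS : S ⊆ X) {z₀ z₁ z₂ : ℕ}
    (hX : X.card = m.den * z₀ + 1) (h1 : 1 ≤ z₁) (h2 : 1 ≤ z₂) (hz : z₁ + z₂ = z₀ + 1)
    (hS1 : P56507.Nq m.den S.card = z₁) (hS2 : P56507.Nq m.den (X \ S).card = z₂)
    (hf1 : (z₁ : ℤ) ≤ P56507.ex m w S + 1) (hf2 : (z₂ : ℤ) ≤ P56507.ex m w (X \ S) + 1)
    (hl : P56507.ex m w X ≤ P56507.ex m w S + P56507.ex m w (X \ S)) :
    BP m w X 2 (fun i => if i = 0 then S else X \ S) (fun i => if i = 0 then z₁ else z₂)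
      (fun i => if i = 0 then P56507.ex m w S else P56507.ex m w (X \ S))
      (fun _ _ => P56507.ex m w S + P56507.ex m w (X \ S) - P56507.ex m w X) := by
  have h01 : ∀ C ⊆ range 2, C = ∅ ∨ C = {0} ∨ C = {1} ∨ C = {0, 1} := by
    intro C hC
    have h2 : range 2 = {0, 1} := by decide
    rw [h2] at hC
    by_cases h0 : 0 ∈ C <;> by_cases h1 : 1 ∈ C
    · right; right; right
      refine Subset.antisymm hC ?_
      intro x hx
      rcases mem_insert.1 hx with rfl | hx
      · exact h0
      · rw [mem_singleton.1 hx]; exact h1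
    · right; left
      ext x
      rw [mem_singleton]
      constructor
      · intro hx
        rcases mem_insert.1 (hC hx) with h | h
        · exact h
        · rw [mem_singleton.1 h] at hx; exact absurd hx h1
      · rintro rfl; exact h0
    · right; right; left
      ext x
      rw [mem_singleton]
      constructor
      · intro hx
        rcases mem_insert.1 (hC hx) with h | h
        · rw [h] at hx; exact absurd hx h0
        · exact mem_singleton.1 h
      · rintro rfl; exact h1
    · left
      ext x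
      simp only [notMem_empty, iff_false]
      intro hx
      rcases mem_insert.1 (hC hx) with h | h
      · rw [h] at hx; exact h0 hx
      · rw [mem_singleton.1 h] at hx; exact h1 hx
  have hW01 : ∀ a : ℤ, W (fun _ _ => a) {0, 1} = a := by
    intro a
    have h0 : (0 : ℕ) ∉ ({1} : Finset ℕ) := by decide
    rw [W_insert (fun _ _ => rfl) h0, W_singleton]
    simp [dg]
  refine ⟨fun _ _ => rfl, fun _ _ _ _ => by linarith, ?_, ?_, ?_, ?_, ?_, ?_, ?_⟩
  · intro i _
    by_cases h : i = 0
    · simp only [h, if_true]; exact_mod_cast h1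
    · simp only [h, if_false]; exact_mod_cast h2
  · intro i _
    by_cases h : i = 0
    · simp only [h, if_true]; exact hf1
    · simp only [h, if_false]; exact hf2
  · intro i _
    by_cases h : i = 0
    · simp only [h, if_true]; exact hS
    · simp only [h, if_false]; exact sdiff_subset
  · intro x hx
    rw [mem_biUnion]
    by_cases h : x ∈ S
    · exact ⟨0, by decide, by simpa using h⟩
    · exact ⟨1, by decide, by simpa using ⟨hx, h⟩⟩
  · intro i hi j hj hij
    by_cases h : i = 0
    · have h' : j ≠ 0 := fun e => hij (by rw [h, e])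
      simp only [h, h', if_true, if_false]
      exact disjoint_sdiff
    · have h' : j = 0 := by omega
      simp only [h, h', if_true, if_false]
      exact sdiff_disjoint
  · intro C hC
    rcases h01 C hC with rfl | rfl | rfl | rfl
    · rw [biUnion_empty, ex_empty, sum_empty, W_empty, sub_zero]
    · rw [singleton_biUnion, sum_singleton, W_singleton, sub_zero]
      simp
    · rw [singleton_biUnion, sum_singleton, W_singleton, sub_zero]
      simp
    · rw [hW01]
      have h0 : (0 : ℕ) ∉ ({1} : Finset ℕ) := by decide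
      rw [biUnion_insert, singleton_biUnion, sum_insert h0, sum_singleton]
      simp only [if_true, one_ne_zero, if_false]
      rw [union_sdiff_of_subset hS]
      ring
  · intro C hC
    rcases h01 C hC with rfl | rfl | rfl | rfl
    · rw [biUnion_empty, card_empty, Nq_zero m.den_pos, sum_empty]
      rfl
    · rw [singleton_biUnion, sum_singleton]
      simp [hS1]
    · rw [singleton_biUnion, sum_singleton]
      simp [hS2]
    · have h0 : (0 : ℕ) ∉ ({1} : Finset ℕ) := by decide
      rw [biUnion_insert, singleton_biUnion, sum_insert h0, sum_singleton]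
      simp only [if_true, one_ne_zero, if_false]
      rw [union_sdiff_of_subset hS, hX, Nq_add m.den_pos, Nq_pos m.den_pos le_rfl]
      simp
      exact_mod_cast hz.symm

/-- Adding a closed block. -/
theorem BP.cons (hw : ∀ x y, w x y = w y x) {X S₀ : Finset ℕ} {z₀ : ℕ} (hS : S₀ ⊆ X)
    (hc : S₀.card = m.den * z₀) (h1 : 1 ≤ z₀) (hf : (z₀ : ℤ) ≤ P56507.ex m w S₀ + 1)
    (hcl : ∀ v ∈ X \ S₀, dg w v S₀ ≤ m.num * z₀) {T : ℕ} {S : ℕ → Finset ℕ} {z f : ℕ → ℤ}
    {l : ℕ → ℕ → ℤ} (B : BP m w (X \ S₀) T S z f l) :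
    ∃ (S' : ℕ → Finset ℕ) (z' f' : ℕ → ℤ) (l' : ℕ → ℕ → ℤ), BP m w X (T + 1) S' z' f' l' := by
  classical
  let D : ℕ → ℤ := fun j => ∑ v ∈ S j, (m.num * z₀ - dg w v S₀)
  let S' : ℕ → Finset ℕ := fun i => if i = T then S₀ else S i
  let z' : ℕ → ℤ := fun i => if i = T then (z₀ : ℤ) else z i
  let f' : ℕ → ℤ := fun i => if i = T then P56507.ex m w S₀ else f i
  let l' : ℕ → ℕ → ℤ := fun i j =>
    if i = T then (if j = T then 0 else D j) else (if j = T then D i else l i j)
  have S'T : S' T = S₀ := if_pos rfl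
  have z'T : z' T = z₀ := if_pos rfl
  have f'T : f' T = P56507.ex m w S₀ := if_pos rfl
  have S'n : ∀ i, i ≠ T → S' i = S i := fun i h => if_neg h
  have z'n : ∀ i, i ≠ T → z' i = z i := fun i h => if_neg h
  have f'n : ∀ i, i ≠ T → f' i = f i := fun i h => if_neg h
  have l'n : ∀ i j, i ≠ T → j ≠ T → l' i j = l i j := by
    intro i j hi hj
    show (if i = T then (if j = T then 0 else D j) else (if j = T then D i else l i j)) = l i j
    rw [if_neg hi, if_neg hj]
  have l'T : ∀ j, j ≠ T → l' T j = D j := by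
    intro j hj
    show (if T = T then (if j = T then 0 else D j) else (if j = T then D T else l T j)) = D j
    rw [if_pos rfl, if_neg hj]
  have l'TT : l' T T = 0 := by
    show (if T = T then (if T = T then 0 else D T) else (if T = T then D T else l T T)) = 0
    rw [if_pos rfl, if_pos rfl]
  have l'sy : ∀ i j, l' i j = l' j i := by
    intro i j
    show (if i = T then (if j = T then 0 else D j) else (if j = T then D i else l i j)) =
      (if j = T then (if i = T then 0 else D i) else (if i = T then D j else l j i))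
    by_cases hi : i = T <;> by_cases hj : j = T
    · rw [if_pos hi, if_pos hj, if_pos hj, if_pos hi]
    · rw [if_pos hi, if_neg hj, if_neg hj, if_pos hi]
    · rw [if_neg hi, if_pos hj, if_pos hj, if_neg hi]
    · rw [if_neg hi, if_neg hj, if_neg hj, if_neg hi, B.sy]
  have hD : ∀ j < T, 0 ≤ D j := by
    intro j hj
    refine sum_nonneg fun v hv => ?_
    have := hcl v (B.sub j hj hv)
    linarith
  have hne : ∀ C ⊆ range T, ∀ i ∈ C, i ≠ T := by
    intro C hC i hi h
    have := mem_range.1 (hC hi)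
    omega
  have hbU : ∀ C ⊆ range T, C.biUnion S' = C.biUnion S := by
    intro C hC
    exact biUnion_congr rfl fun i hi => S'n i (hne C hC i hi)
  have hWl : ∀ C ⊆ range T, W l' C = W l C := by
    intro C hC
    exact W_congr fun i hi j hj => l'n i j (hne C hC i hi) (hne C hC j hj)
  have hsub : ∀ C ⊆ range T, C.biUnion S ⊆ X \ S₀ := by
    intro C hC x hx
    obtain ⟨i, hi, hx⟩ := mem_biUnion.1 hx
    exact B.sub i (mem_range.1 (hC hi)) hx
  have hsplit : ∀ C ⊆ range (T + 1), C ⊆ range T ∨ ∃ C' ⊆ range T, C = insert T C' := by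
    intro C hC
    by_cases hT : T ∈ C
    · right
      refine ⟨C.erase T, ?_, (insert_erase hT).symm⟩
      intro x hx
      have h1 := mem_range.1 (hC (mem_of_mem_erase hx))
      have h2 := ne_of_mem_erase hx
      rw [mem_range]
      omega
    · left
      intro x hx
      have h1 := mem_range.1 (hC hx)
      have h2 : x ≠ T := fun e => hT (e ▸ hx)
      rw [mem_range]
      omega
  refine ⟨S', z', f', l', l'sy, ?_, ?_, ?_, ?_, ?_, ?_, ?_, ?_⟩
  · intro i hi j hj
    by_cases hiT : i = T <;> by_cases hjT : j = T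
    · rw [hiT, hjT, l'TT]
    · rw [hiT, l'T j hjT]
      exact hD j (by omega)
    · rw [hjT, l'sy, l'T i hiT]
      exact hD i (by omega)
    · rw [l'n i j hiT hjT]
      exact B.nn i (by omega) j (by omega)
  · intro i hi
    by_cases hiT : i = T
    · rw [hiT, z'T]
      exact_mod_cast h1
    · rw [z'n i hiT]
      exact B.z1 i (by omega)
  · intro i hi
    by_cases hiT : i = T
    · rw [hiT, z'T, f'T]
      exact hf
    · rw [z'n i hiT, f'n i hiT]
      exact B.fz i (by omega)
  · intro i hi
    by_cases hiT : i = T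
    · rw [hiT, S'T]
      exact hS
    · rw [S'n i hiT]
      exact (B.sub i (by omega)).trans sdiff_subset
  · intro x hx
    rw [mem_biUnion]
    by_cases hxS : x ∈ S₀
    · exact ⟨T, by rw [mem_range]; omega, by rw [S'T]; exact hxS⟩
    · obtain ⟨i, hi, hxi⟩ := mem_biUnion.1 (B.cov (mem_sdiff.2 ⟨hx, hxS⟩))
      have hiT := mem_range.1 hi
      exact ⟨i, by rw [mem_range]; omega, by rw [S'n i (by omega)]; exact hxi⟩
  · have hd : ∀ j < T, Disjoint S₀ (S j) := fun j hj =>
      disjoint_left.2 fun x hx hx' => (mem_sdiff.1 (B.sub j hj hx')).2 hx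
    intro i hi j hj hij
    by_cases hiT : i = T <;> by_cases hjT : j = T
    · exact absurd (hiT.trans hjT.symm) hij
    · rw [hiT, S'T, S'n j hjT]
      exact hd j (by omega)
    · rw [hjT, S'T, S'n i hiT]
      exact (hd i (by omega)).symm
    · rw [S'n i hiT, S'n j hjT]
      exact B.dis i (by omega) j (by omega) hij
  · intro C hC
    rcases hsplit C hC with h | ⟨C', hC', rfl⟩
    · rw [hbU C h, hWl C h, B.ex C h]
      congr 1
      exact sum_congr rfl fun i hi => (f'n i (hne C h i hi)).symm
    · have hTC : T ∉ C' := fun h => hne C' hC' T h rfl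
      have hdis : Disjoint S₀ (C'.biUnion S) :=
        disjoint_left.2 fun x hx hx' => (mem_sdiff.1 (hsub C' hC' hx')).2 hx
      rw [biUnion_insert, S'T, hbU C' hC', W_insert l'sy hTC, hWl C' hC', sum_insert hTC, f'T,
        ex_block hw m (subset_union_left : S₀ ⊆ S₀ ∪ C'.biUnion S) hc,
        union_sdiff_cancel_left hdis, B.ex C' hC']
      have e1 : ∑ v ∈ C'.biUnion S, (m.num * z₀ - dg w v S₀) = ∑ j ∈ C', D j := by
        rw [sum_biUnion]
        intro i hi j hj hij
        exact B.dis i (mem_range.1 (hC' hi)) j (mem_range.1 (hC' hj)) hij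
      have e2 : dg l' T C' = ∑ j ∈ C', D j := by
        unfold dg
        exact sum_congr rfl fun j hj => l'T j (hne C' hC' j hj)
      have e3 : ∑ i ∈ C', f' i = ∑ i ∈ C', f i :=
        sum_congr rfl fun i hi => f'n i (hne C' hC' i hi)
      rw [e1, e2, e3]
      ring
  · intro C hC
    rcases hsplit C hC with h | ⟨C', hC', rfl⟩
    · rw [hbU C h, B.Nq C h]
      exact sum_congr rfl fun i hi => (z'n i (hne C h i hi)).symm
    · have hTC : T ∉ C' := fun h => hne C' hC' T h rfl
      have hdis : Disjoint S₀ (C'.biUnion S) :=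
        disjoint_left.2 fun x hx hx' => (mem_sdiff.1 (hsub C' hC' hx')).2 hx
      rw [biUnion_insert, S'T, hbU C' hC', sum_insert hTC, z'T, card_union_of_disjoint hdis, hc,
        Nq_add m.den_pos]
      have e3 : ∑ i ∈ C', z' i = ∑ i ∈ C', z i :=
        sum_congr rfl fun i hi => z'n i (hne C' hC' i hi)
      rw [e3, ← B.Nq C' hC']
      push_cast
      ring

end Pool.Agent.Lib.P56507
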