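import Pool.Agent.Lib.P56507.QThm

/-!
The exact bound for `c = 1`.
-/

open Finset

namespace Pool.Agent.Lib.P56507

variable {w : ℕ → ℕ → ℤ}

/-- Proof. `ind_jump` with `c = 1`, `hh N = (N - 1) / K` (`K ≥ 2`), and `qthm` for `hQ`. A jump at
`ν + 1`, `ν ≥ K + 1`, means `ν = K j`, `j ≥ 2`, `hh (ν + 1) = j`. `P2`: `(N - 1) / K ≤ (N - z - 1) / K + 1`
for `z ≤ K`. `P4`: `div_le_sub_div` with `x = ν`, `y = K`, `d = z - 1`. `P5`: `2 K + j ≤ K j + 2` for
`j ≥ 2`, `K ≥ 2`... (`K (j - 2) ≥ j - 2`). If `j ≥ 3`: `q ν + 1 ≥ 3 q K + 1 > 2 (q K + q - 1)` as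
`q K ≥ 2 q`. If `j = 2`: `ν = 2 K`, `c = 1`. -/
theorem c_one (hw : ∀ x y, w x y = w y x) {m : ℚ} {k K : ℕ} (hK : 2 ≤ K)
    (k1 : m.den * K + 1 ≤ k) (k2 : k ≤ m.den * K + m.den) {V : Finset ℕ} (hV : k ≤ V.card)
    (h : Cond k (R m k + (K - 1)) w V) :
    ex m w V ≤ Nq m.den V.card - 1 - (((Nq m.den V.card - 1) / K : ℕ) : ℤ) := by
  have hKpos : 0 < K := by omega
  refine ind_jump hw (c := 1) le_rfl (by omega : 1 ≤ K) k1 k2 hV h (hh := fun N => (N - 1) / K)
    ?_ ?_ ?_ ?_
  · intro K' _ k' c' hc' k1' k2' A hA hkA hcond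
    exact qthm hw K' hc' k1' k2' hkA hcond
  · exact Nat.div_self hKpos
  · intro N hN
    show 1 ≤ (N - 1) / K
    rw [Nat.le_div_iff_mul_le hKpos]
    omega
  · intro ν hν
    simp only [Nat.add_sub_cancel]
    by_cases hd : K ∣ ν
    · right
      obtain ⟨j, rfl⟩ := hd
      have hj2 : 2 ≤ j := by
        by_contra hcon
        have : j ≤ 1 := by omega
        have := Nat.mul_le_mul_left K this
        omega
      have hdiv : K * j / K = j := Nat.mul_div_cancel_left j hKpos
      have hdiv1 : (K * j - 1) / K = j - 1 := by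
        obtain ⟨i, rfl⟩ : ∃ i, j = i + 1 := ⟨j - 1, by omega⟩
        rw [Nat.div_eq_of_lt_le]
        · have : (i + 1 - 1) * K = K * i := by rw [Nat.add_sub_cancel, Nat.mul_comm]
          rw [this, Nat.mul_succ]
          omega
        · have : (i + 1 - 1).succ * K = K * (i + 1) := by
            rw [Nat.add_sub_cancel, Nat.mul_comm]
          rw [this]
          have : 0 < K * (i + 1) := by positivity
          omega
      refine ⟨?_, ?_, ?_, ?_, ?_⟩
      · rw [hdiv, hdiv1]
        omega
      · intro z hz1 hzK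
        rw [hdiv]
        have e1 : K * j + 1 - z - 1 = K * j - z := by omega
        rw [e1]
        have : j - 1 ≤ (K * j - z) / K := by
          rw [Nat.le_div_iff_mul_le hKpos]
          obtain ⟨i, rfl⟩ : ∃ i, j = i + 1 := ⟨j - 1, by omega⟩
          rw [Nat.add_sub_cancel, Nat.mul_comm i K, Nat.mul_succ]
          omega
        omega
      · intro z hz1 hzK
        have e1 : K * j + 1 - z = K * j - (z - 1) := by omega
        have e2 : K - z + 1 = K - (z - 1) := by omega
        rw [e1, e2]
        exact div_le_sub_div (by omega) (by omega)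
      · rw [hdiv]
        obtain ⟨i, rfl⟩ : ∃ i, j = i + 2 := ⟨j - 2, by omega⟩
        have : K * (i + 2) = K * i + 2 * K := by ring
        rw [this]
        have : 1 * i ≤ K * i := Nat.mul_le_mul_right i (by omega)
        omega
      · rcases Nat.lt_or_ge j 3 with hj | hj
        · right
          have hje : j = 2 := by omega
          subst hje
          refine ⟨hdiv, Or.inr ⟨by omega, ?_⟩⟩
          first | exact rfl | trivial
        · left
          have h3 : K * 3 ≤ K * j := Nat.mul_le_mul_left K hj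
          have h4 : m.den * (K * 3) ≤ m.den * (K * j) := Nat.mul_le_mul_left _ h3
          have h5 : m.den * 2 ≤ m.den * K := Nat.mul_le_mul_left _ hK
          have h6 : m.den * (K * 3) = 3 * (m.den * K) := by ring
          have h7 : 0 < m.den := m.den_pos
          omega
    · left
      obtain ⟨i, rfl⟩ : ∃ i, ν = i + 1 := ⟨ν - 1, by omega⟩
      rw [Nat.add_sub_cancel]
      have := Nat.succ_div (a := i) (b := K)
      rw [if_neg hd] at this
      simpa using this

end Pool.Agent.Lib.P56507
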