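import Pool.Agent.Lib.P56507.Al

/-!
Sequences of blocks: sums over families of blocks.
-/

open Finset

namespace Pool.Agent.Lib.P56507

variable {w : ℕ → ℕ → ℤ} {m : ℚ} {V : Finset ℕ} {s K T : ℕ} {S U : ℕ → Finset ℕ} {z : ℕ → ℕ}
  {f : ℕ → ℤ}

theorem Chain.U_anti (C : Chain m w V s K T S U z f) {i j : ℕ} (hij : i ≤ j) (hj : j ≤ T) :
    U j ⊆ U i := by
  induction j, hij using Nat.le_induction with
  | base => exact Subset.rfl
  | succ j hij ih =>
    rw [C.Us j (by omega)]
    exact sdiff_subset.trans (ih (by omega))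

theorem Chain.U_sub (C : Chain m w V s K T S U z f) {j : ℕ} (hj : j ≤ T) : U j ⊆ V := by
  have h := C.U_anti (Nat.zero_le j) hj
  rwa [C.U0] at h

theorem Chain.S_sub (C : Chain m w V s K T S U z f) {j : ℕ} (hj : j < T) : S j ⊆ V := by
  exact (C.Ss j hj).trans (C.U_sub hj.le)

/-- `S j ⊆ U j ⊆ U (i + 1)` for `i < j`. -/
theorem Chain.S_sub_U (C : Chain m w V s K T S U z f) {i j : ℕ} (hij : i < j) (hj : j < T) :
    S j ⊆ U (i + 1) := by
  exact (C.Ss j hj).trans (C.U_anti (by omega) hj.le)

theorem Chain.disj (C : Chain m w V s K T S U z f) {i j : ℕ} (hij : i ≠ j) (hi : i < T)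
    (hj : j < T) : Disjoint (S i) (S j) := by
  have key : ∀ {i j : ℕ}, i < j → j < T → Disjoint (S i) (S j) := by
    intro i j hij hj
    have h := C.S_sub_U hij hj
    rw [C.Us i (by omega)] at h
    exact disjoint_of_subset_right h disjoint_sdiff
  rcases Nat.lt_or_gt_of_ne hij with h | h
  · exact key h hj
  · exact (key h hi).symm

theorem Chain.disjU (C : Chain m w V s K T S U z f) {i : ℕ} (hi : i < T) :
    Disjoint (S i) (U T) := by
  have h := C.U_anti (show i + 1 ≤ T by omega) le_rfl
  rw [C.Us i hi] at h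
  exact disjoint_of_subset_right h disjoint_sdiff

theorem Chain.take (C : Chain m w V s K T S U z f) {t : ℕ} (ht : t ≤ T) :
    Chain m w V s K t S U z f := by
  exact ⟨C.U0, fun i hi => C.Us i (by omega), fun i hi => C.Ss i (by omega),
    fun i hi => C.card i (by omega), fun i hi => C.z1 i (by omega), fun i hi => C.zK i (by omega),
    fun i hi => C.WS i (by omega), fun i hi => C.fz i (by omega), fun i hi => C.fs i (by omega),
    fun i hi => C.cl i (by omega)⟩

theorem Chain.V_eq (C : Chain m w V s K T S U z f) : V = (range T).biUnion S ∪ U T := by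
  have key : ∀ t ≤ T, V = (range t).biUnion S ∪ U t := by
    intro t
    induction t with
    | zero =>
      intro _
      simp [C.U0]
    | succ t ih =>
      intro ht
      rw [range_add_one, biUnion_insert, C.Us t (by omega)]
      have h1 := ih (by omega)
      have h2 : S t ∪ (U t \ S t) = U t := union_sdiff_of_subset (C.Ss t (by omega))
      calc V = (range t).biUnion S ∪ U t := h1
        _ = (range t).biUnion S ∪ (S t ∪ (U t \ S t)) := by rw [h2]
        _ = S t ∪ (range t).biUnion S ∪ (U t \ S t) := by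
          rw [← union_assoc, union_comm ((range t).biUnion S) (S t)]
  exact key T le_rfl

theorem Chain.card_V (C : Chain m w V s K T S U z f) :
    V.card = m.den * ∑ i ∈ range T, z i + (U T).card := by
  have h1 : ((range T).biUnion S).card = ∑ i ∈ range T, (S i).card := by
    apply Finset.card_biUnion
    intro i hi j hj hij
    exact C.disj hij (mem_range.mp hi) (mem_range.mp hj)
  have h2 : Disjoint ((range T).biUnion S) (U T) := by
    rw [disjoint_biUnion_left]
    intro i hi
    exact C.disjU (mem_range.mp hi)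
  have h3 := congrArg Finset.card C.V_eq
  rw [card_union_of_disjoint h2, h1] at h3
  rw [h3, mul_sum]
  congr 1
  exact sum_congr rfl fun i hi => C.card i (mem_range.mp hi)

theorem Chain.card_biUnion (C : Chain m w V s K T S U z f) {F : Finset ℕ} (hF : F ⊆ range T) :
    (F.biUnion S).card = m.den * ∑ i ∈ F, z i := by
  rw [Finset.card_biUnion, mul_sum]
  · exact sum_congr rfl fun i hi => C.card i (mem_range.mp (hF hi))
  · intro i hi j hj hij
    exact C.disj hij (mem_range.mp (hF hi)) (mem_range.mp (hF hj))

theorem lam_symm (hw : ∀ x y, w x y = w y x) (i j : ℕ) : lam m w S z i j = lam m w S z j i := by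
  rw [lam, lam, sum_dg_swap hw]
  ring

/-- The deficit of a subset of a later block. -/
theorem Chain.df_nonneg (C : Chain m w V s K T S U z f) {i : ℕ} (hi : i < T) {P : Finset ℕ}
    (hP : P ⊆ U (i + 1)) : 0 ≤ df m w S z i P := by
  refine sum_nonneg fun v hv => ?_
  have := C.cl i hi v (hP hv)
  linarith

theorem Chain.df_eq_lam (C : Chain m w V s K T S U z f) {i j : ℕ} (hj : j < T) :
    df m w S z i (S j) = lam m w S z i j := by
  rw [df, lam, sum_sub_distrib, sum_const, C.card j hj, nsmul_eq_mul]
  push_cast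
  ring

theorem Chain.df_le_lam (C : Chain m w V s K T S U z f) {i j : ℕ} (hij : i < j) (hj : j < T)
    {P : Finset ℕ} (hP : P ⊆ S j) : df m w S z i P ≤ lam m w S z i j := by
  rw [← C.df_eq_lam hj]
  refine sum_le_sum_of_subset_of_nonneg hP fun v hv _ => ?_
  have := C.cl i (by omega) v (C.S_sub_U hij hj hv)
  linarith

theorem Chain.lam_nonneg (hw : ∀ x y, w x y = w y x) (C : Chain m w V s K T S U z f) {i j : ℕ}
    (hij : i ≠ j) (hi : i < T) (hj : j < T) : 0 ≤ lam m w S z i j := by
  have key : ∀ {i j : ℕ}, i < j → j < T → 0 ≤ lam m w S z i j := by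
    intro i j hij hj
    rw [← C.df_eq_lam hj]
    exact C.df_nonneg (by omega) (C.S_sub_U hij hj)
  rcases Nat.lt_or_gt_of_ne hij with h | h
  · exact key h hj
  · rw [lam_symm hw]
    exact key h hi

/-- The excess of a union of blocks and a further set. Induction on `F` (insert) with `ex_block`:
for `A = S i ∪ X`, `X` disjoint from `S i`,
`ex A = ex (S i) + ex X - ∑_{v ∈ X} (m.num z i - dg w v (S i))`. -/
theorem Chain.ex_union (hw : ∀ x y, w x y = w y x) (C : Chain m w V s K T S U z f)
    {F : Finset ℕ} (hF : F ⊆ range T) {P : Finset ℕ} (hP : ∀ i ∈ F, Disjoint (S i) P) :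
    ex m w (F.biUnion S ∪ P) =
      ∑ i ∈ F, f i - W (lam m w S z) F + ex m w P - ∑ i ∈ F, df m w S z i P := by
  induction F using Finset.induction_on with
  | empty => simp [W_empty]
  | insert a F ha ih =>
    have haT : a < T := mem_range.mp (hF (mem_insert_self a F))
    have hFT : ∀ i ∈ F, i < T := fun i hi => mem_range.mp (hF (mem_insert_of_mem hi))
    have ih' := ih (fun i hi => hF (mem_insert_of_mem hi)) (fun i hi => hP i (mem_insert_of_mem hi))
    have hd1 : Disjoint (S a) (F.biUnion S) := by
      rw [disjoint_biUnion_right]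
      intro i hi
      exact C.disj (by rintro rfl; exact ha hi) haT (hFT i hi)
    have hd2 : Disjoint (S a) P := hP a (mem_insert_self a F)
    have hd3 : Disjoint (F.biUnion S) P := by
      rw [disjoint_biUnion_left]
      exact fun i hi => hP i (mem_insert_of_mem hi)
    have hd : Disjoint (S a) (F.biUnion S ∪ P) := disjoint_union_right.mpr ⟨hd1, hd2⟩
    have h1 : (insert a F).biUnion S ∪ P = S a ∪ (F.biUnion S ∪ P) := by
      rw [biUnion_insert, union_assoc]
    have h2 := ex_block hw m (V := S a ∪ (F.biUnion S ∪ P)) (S := S a) subset_union_left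
      (C.card a haT)
    rw [union_sdiff_cancel_left hd] at h2
    have h3 : ex m w (S a) = f a := by
      rw [ex, C.card a haT, C.WS a haT]
      ring
    have h4 : ∑ v ∈ F.biUnion S ∪ P, (m.num * z a - dg w v (S a)) =
        ∑ j ∈ F, lam m w S z a j + df m w S z a P := by
      rw [sum_union hd3, sum_biUnion]
      · congr 1
        refine sum_congr rfl fun j hj => ?_
        exact C.df_eq_lam (hFT j hj)
      · intro i hi j hj hij
        exact C.disj hij (hFT i hi) (hFT j hj)
    rw [h1, h2, h3, h4, ih', W_insert (lam_symm hw) ha, sum_insert ha, sum_insert ha, dg]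
    ring

/-- The potential of `V`. -/
theorem Chain.Phi_eq (hw : ∀ x y, w x y = w y x) (C : Chain m w V s K T S U z f) (b : ℕ) :
    Phi b m w V = ∑ i ∈ range T, (b * f i - ((b : ℤ) - 1) * z i) - b * W (lam m w S z) (range T)
      - b * ∑ i ∈ range T, df m w S z i (U T) + Phi b m w (U T) := by
  have h1 := C.ex_union hw (F := range T) Subset.rfl (P := U T)
    (fun i hi => C.disjU (mem_range.mp hi))
  rw [← C.V_eq] at h1
  rw [Phi, Phi, h1, C.card_V, Nq_add m.den_pos, sum_sub_distrib, ← mul_sum, ← mul_sum]
  push_cast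
  ring

end Pool.Agent.Lib.P56507
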