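import Mathlib

/-!
Integer weightings of the pairs of a finite set: definitions.
-/

open Finset

namespace Pool.Agent.Lib.P56507

/-- The weight of the pairs inside `S`. -/
def W (w : ℕ → ℕ → ℤ) (S : Finset ℕ) : ℤ := ∑ p ∈ S ×ˢ S with p.1 < p.2, w p.1 p.2

/-- The weight between `v` and the elements of `S`. -/
def dg (w : ℕ → ℕ → ℤ) (v : ℕ) (S : Finset ℕ) : ℤ := ∑ x ∈ S, w v x

/-- `R m n = ∑_{i < n} ⌈m i⌉`. -/
def R (m : ℚ) (n : ℕ) : ℤ := ∑ i ∈ range n, ⌈m * (i : ℚ)⌉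

/-- `⌈n / q⌉`. -/
def Nq (q n : ℕ) : ℕ := (n + q - 1) / q

/-- `∑_{0 < i < n} (⌊m i⌋ + 1)`. -/
def Rp (m : ℚ) (n : ℕ) : ℤ := R m n + (((n - 1) / m.den : ℕ) : ℤ)

/-- The excess of `S`. -/
def ex (m : ℚ) (w : ℕ → ℕ → ℤ) (S : Finset ℕ) : ℤ := W w S - R m S.card

/-- The potential. -/
def Phi (b : ℕ) (m : ℚ) (w : ℕ → ℕ → ℤ) (S : Finset ℕ) : ℤ :=
  b * ex m w S - ((b : ℤ) - 1) * (Nq m.den S.card : ℤ)

/-- All `k`-sets have weight at most `r`. -/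
def Cond (k : ℕ) (r : ℤ) (w : ℕ → ℕ → ℤ) (V : Finset ℕ) : Prop :=
  ∀ S ⊆ V, S.card = k → W w S ≤ r

/-- The hereditary property: sets with at most `q z` elements are below `Rp`, sets with `q z + 1`
elements are strictly below `Rp`. -/
def HP (m : ℚ) (w : ℕ → ℕ → ℤ) (V : Finset ℕ) (z : ℕ) : Prop :=
  (∀ T ⊆ V, T.card ≤ m.den * z → W w T ≤ Rp m T.card) ∧
    ∀ T ⊆ V, T.card = m.den * z + 1 → W w T + 1 ≤ Rp m T.card

/-- The parameters. -/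
structure Par (k q s K c b ρ : ℕ) : Prop where
  q1 : 1 ≤ q
  k1 : q * K + 1 ≤ k
  k2 : k ≤ q * K + q
  sc : s + c = K
  c1 : 1 ≤ c
  Kb : K = c * b + ρ
  rc : ρ < c

/-- A sequence of blocks `S i` removed one after the other, `U i` is what is left before the
removal of `S i`. -/
structure Chain (m : ℚ) (w : ℕ → ℕ → ℤ) (V : Finset ℕ) (s K T : ℕ) (S U : ℕ → Finset ℕ)
    (z : ℕ → ℕ) (f : ℕ → ℤ) : Prop where
  U0 : U 0 = V
  Us : ∀ i < T, U (i + 1) = U i \ S i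
  Ss : ∀ i < T, S i ⊆ U i
  card : ∀ i < T, (S i).card = m.den * z i
  z1 : ∀ i < T, 1 ≤ z i
  zK : ∀ i < T, z i ≤ K
  WS : ∀ i < T, W w (S i) = R m (m.den * z i) + f i
  fz : ∀ i < T, (z i : ℤ) - 1 ≤ f i
  fs : ∀ i < T, f i ≤ s
  cl : ∀ i < T, ∀ v ∈ U (i + 1), dg w v (S i) ≤ m.num * z i

/-- The deficit between the blocks `i` and `j`. -/
def lam (m : ℚ) (w : ℕ → ℕ → ℤ) (S : ℕ → Finset ℕ) (z : ℕ → ℕ) (i j : ℕ) : ℤ :=
  m.num * m.den * z i * z j - ∑ v ∈ S j, dg w v (S i)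

/-- The deficit between the block `i` and the set `P`. -/
def df (m : ℚ) (w : ℕ → ℕ → ℤ) (S : ℕ → Finset ℕ) (z : ℕ → ℕ) (i : ℕ) (P : Finset ℕ) : ℤ :=
  ∑ v ∈ P, (m.num * z i - dg w v (S i))

end Pool.Agent.Lib.P56507
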