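import Pool.Agent.Lib.P56507.Al

/-!
If the excess sequence `e j = al j - R m j`, `0 ≤ j ≤ k`, is not monotone, then the removal of a
maximal set costs a linear amount.
-/

open Finset

namespace Pool.Agent.Lib.P56507

variable {w : ℕ → ℕ → ℤ}

namespace DescAux

/-- the excess of the maximal `j`-sets -/
noncomputable def ee (w : ℕ → ℕ → ℤ) (m : ℚ) (V : Finset ℕ) (j : ℕ) : ℤ := al w V j - R m j

theorem ee_step (w : ℕ → ℕ → ℤ) (m : ℚ) (V : Finset ℕ) (j : ℕ) :
    ee w m V j - ee w m V (j + 1) = al w V j + ⌈m * (j : ℚ)⌉ - al w V (j + 1) := by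
  simp only [ee, R_succ]
  ring

theorem ee_zero (w : ℕ → ℕ → ℤ) (m : ℚ) (V : Finset ℕ) : ee w m V 0 = 0 := by
  simp [ee, al_zero, R_zero]

theorem ee_one (w : ℕ → ℕ → ℤ) (m : ℚ) {V : Finset ℕ} (hV : 1 ≤ V.card) : ee w m V 1 = 0 := by
  simp [ee, al_one w hV, R_one]

theorem ee_k {m : ℚ} {k s : ℕ} {V : Finset ℕ} (hV : k ≤ V.card) (h : Cond k (R m k + s) w V) :
    ee w m V k ≤ s := by
  obtain ⟨S, hS, hc, hW⟩ := exists_al w hV
  have h1 := h S hS hc
  simp only [ee]
  rw [← hW]
  linarith

theorem ee_mono {m : ℚ} {k : ℕ} {V : Finset ℕ}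
    (hmono : ∀ i < k, al w V i + ⌈m * (i : ℚ)⌉ ≤ al w V (i + 1)) {a b : ℕ} (hab : a ≤ b)
    (hb : b ≤ k) : ee w m V a ≤ ee w m V b := by
  induction b, hab using Nat.le_induction with
  | base => exact le_rfl
  | succ n hn ih =>
    have h1 := ih (by omega)
    have h2 := hmono n (by omega)
    have h3 := ee_step w m V n
    linarith

theorem div_aux1 {q z : ℕ} (hq : 1 ≤ q) (hz : 1 ≤ z) : (q * z - 1) / q = z - 1 := by
  obtain ⟨y, rfl⟩ : ∃ y, z = y + 1 := ⟨z - 1, by omega⟩
  have h1 : q * (y + 1) - 1 = q * y + (q - 1) := by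
    rw [Nat.mul_succ]; omega
  rw [h1, Nat.mul_add_div (by omega), Nat.div_eq_of_lt (by omega)]
  omega

theorem div_aux2 {q j : ℕ} (hj : ¬ q ∣ j) : j / q = (j - 1) / q := by
  obtain ⟨i, rfl⟩ : ∃ i, j = i + 1 := by
    rcases j with _ | i
    · exact absurd (dvd_zero q) hj
    · exact ⟨i, rfl⟩
  rw [Nat.succ_div, if_neg hj]
  simp

end DescAux

open DescAux

/-- The first alternative or a cheap removal. -/
theorem descent (hw : ∀ x y, w x y = w y x) {m : ℚ} {k s : ℕ} {V : Finset ℕ} (hk : 1 ≤ k)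
    (hV : 2 * k ≤ V.card) (h : Cond k (R m k + s) w V) :
    (∀ i < k, al w V i + ⌈m * (i : ℚ)⌉ ≤ al w V (i + 1)) ∨
      ∃ V' ⊆ V, V.card ≤ V'.card + k ∧ ex m w V ≤ ex m w V' + s + k - Nq m.den V'.card := by
  by_cases hmon : ∀ i < k, al w V i + ⌈m * (i : ℚ)⌉ ≤ al w V (i + 1)
  · exact Or.inl hmon
  right
  push Not at hmon
  obtain ⟨i0, hi0, hlt⟩ := hmon
  obtain ⟨i, hi, hmax⟩ := exists_max_image (range k)
    (fun j => al w V j + ⌈m * (j : ℚ)⌉ - al w V (j + 1)) ⟨i0, mem_range.2 hi0⟩
  rw [mem_range] at hi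
  set δ : ℤ := al w V i + ⌈m * (i : ℚ)⌉ - al w V (i + 1) with hδ
  have hδ1 : 1 ≤ δ := by
    have := hmax i0 (mem_range.2 hi0)
    linarith
  have hsum : ∀ t, i + t ≤ k → ee w m V i ≤ ee w m V (i + t) + t * δ := by
    intro t
    induction t with
    | zero => intro _; simp
    | succ t ih =>
      intro ht
      have h1 := ih (by omega)
      have h2 := ee_step w m V (i + t)
      have h3 := hmax (i + t) (mem_range.2 (by omega))
      rw [← add_assoc]
      push_cast
      push_cast at h2 h3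
      linarith
  have hek := ee_k (w := w) (m := m) (s := s) (by omega : k ≤ V.card) h
  have hei : ee w m V i ≤ s + k * δ := by
    have h1 := hsum (k - i) (by omega)
    rw [Nat.add_sub_cancel' hi.le] at h1
    have h2 : ((k - i : ℕ) : ℤ) ≤ k := by omega
    have h3 : ((k - i : ℕ) : ℤ) * δ ≤ k * δ := mul_le_mul_of_nonneg_right h2 (by linarith)
    linarith
  obtain ⟨S, hS, hc, hW⟩ := exists_al w (show i ≤ V.card by omega)
  have hcard : (V \ S).card = V.card - i := by rw [card_sdiff_of_subset hS, hc]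
  refine ⟨V \ S, sdiff_subset, by rw [hcard]; omega, ?_⟩
  have h1 := ex_peel_le hw m hS (by rw [hc]; exact hW) (δ := δ) (by
    rw [hc, hδ]
    linarith)
  have h2 : ex m w S = ee w m V i := by
    simp only [ex, ee, hc, hW]
  have h3 : (k : ℤ) ≤ ((V \ S).card : ℤ) := by
    rw [hcard]
    have : k ≤ V.card - i := by omega
    exact_mod_cast this
  have h4 : (k : ℤ) * (δ - 1) ≤ ((V \ S).card : ℤ) * (δ - 1) :=
    mul_le_mul_of_nonneg_right h3 (by linarith)
  rw [h2] at h1
  nlinarith

/-- The first index where the excess does not increase. -/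
theorem zero_idx (hw : ∀ x y, w x y = w y x) {m : ℚ} {k s K c b ρ : ℕ}
    (P : Par k m.den s K c b ρ) {V : Finset ℕ} (hV : k ≤ V.card) (h : Cond k (R m k + s) w V)
    (hmono : ∀ i < k, al w V i + ⌈m * (i : ℚ)⌉ ≤ al w V (i + 1)) :
    ∃ (z : ℕ) (S : Finset ℕ) (f : ℤ), 1 ≤ z ∧ z ≤ K ∧ S ⊆ V ∧ S.card = m.den * z ∧
      W w S = R m (m.den * z) + f ∧ (z : ℤ) - 1 ≤ f ∧ f ≤ s ∧
      (∀ v ∈ V \ S, dg w v S ≤ m.num * z) ∧ (f = (z : ℤ) - 1 → HP m w V z) ∧
      ∀ y < z, ∃ T ⊆ V, T.card = m.den * y + 1 ∧ Rp m (m.den * y + 1) ≤ W w T := by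
  classical
  have hq := P.q1
  have hk1 := P.k1
  have hs : s < K := by have := P.sc; have := P.c1; omega
  set q := m.den with hqd
  have hek := ee_k (w := w) (m := m) (s := s) hV h
  have hk0 : 1 ≤ V.card := by omega
  have hmo : ∀ {a b : ℕ}, a ≤ b → b ≤ k → ee w m V a ≤ ee w m V b := fun hab hb =>
    ee_mono hmono hab hb
  have hqK : ∀ y, y ≤ K → q * y + 1 ≤ k := by
    intro y hy
    have := Nat.mul_le_mul_left q hy
    omega
  -- the values at `q y + 1`
  have hval : ∀ n, (∀ y, 1 ≤ y → y < n → ee w m V (q * y) + 1 ≤ ee w m V (q * y + 1)) →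
      ∀ y, y < n → y ≤ K → (y : ℤ) ≤ ee w m V (q * y + 1) := by
    intro n hn y
    induction y with
    | zero =>
      intro _ _
      rw [mul_zero, zero_add, ee_one w m hk0]
      simp
    | succ y ih =>
      intro h1 h2
      have h3 := ih (by omega) (by omega)
      have h4 := hn (y + 1) (by omega) h1
      have h5 : ee w m V (q * y + 1) ≤ ee w m V (q * (y + 1)) := by
        apply hmo
        · rw [Nat.mul_succ]; omega
        · have := hqK (y + 1) h2
          omega
      push_cast
      linarith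
  have hex : ∃ z, 1 ≤ z ∧ z ≤ K ∧ ee w m V (q * z + 1) ≤ ee w m V (q * z) := by
    by_contra hcon
    push Not at hcon
    have h1 := hval (K + 1) (fun y hy1 hy2 => by
      have := hcon y hy1 (by omega)
      linarith) K (by omega) le_rfl
    have h2 := hmo (hqK K le_rfl) le_rfl
    have h3 : (s : ℤ) < K := by exact_mod_cast hs
    linarith
  set z := Nat.find hex with hz
  obtain ⟨z1, zK, hze⟩ := Nat.find_spec hex
  rw [← hz] at z1 zK hze
  have hmin : ∀ y, 1 ≤ y → y < z → ee w m V (q * y) + 1 ≤ ee w m V (q * y + 1) := by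
    intro y hy1 hy2
    by_contra hcon
    push Not at hcon
    exact Nat.find_min hex hy2 ⟨hy1, by omega, by linarith⟩
  have hqz := hqK z zK
  obtain ⟨S, hS, hc, hW⟩ := exists_al w (show q * z ≤ V.card by omega)
  have hf : W w S = R m (q * z) + ee w m V (q * z) := by
    rw [hW]; simp only [ee]; ring
  have hlow : (z : ℤ) - 1 ≤ ee w m V (q * z) := by
    have h1 := hval z hmin (z - 1) (by omega) (by omega)
    have h2 : ee w m V (q * (z - 1) + 1) ≤ ee w m V (q * z) := by
      apply hmo _ (by omega)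
      obtain ⟨y, hy⟩ : ∃ y, z = y + 1 := ⟨z - 1, by omega⟩
      rw [hy, Nat.add_sub_cancel, Nat.mul_succ]
      omega
    have h3 : ((z - 1 : ℕ) : ℤ) = (z : ℤ) - 1 := by omega
    rw [h3] at h1
    linarith
  refine ⟨z, S, ee w m V (q * z), z1, zK, hS, hc, hf, hlow, (hmo (by omega) le_rfl).trans hek,
    ?_, ?_, ?_⟩
  · intro v hv
    have h1 := dg_le hw hS (by rw [hc]; exact hW) hv
    rw [hc] at h1
    have h2 := ee_step w m V (q * z)
    have h3 := ceil_den_mul m z
    rw [← hqd] at h3
    rw [h3] at h2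
    linarith
  · intro hfz
    have key : ∀ t, t ≤ q * z → ee w m V (q * z - t) ≤ (((q * z - t - 1) / q : ℕ) : ℤ) := by
      intro t
      induction t with
      | zero =>
        intro _
        rw [Nat.sub_zero, hfz, div_aux1 hq z1]
        omega
      | succ t ih =>
        intro ht
        have h1 := ih (by omega)
        obtain ⟨j, hj⟩ : ∃ j, j = q * z - (t + 1) := ⟨_, rfl⟩
        have hj1 : q * z - t = j + 1 := by omega
        rw [hj1, Nat.add_sub_cancel] at h1
        rw [← hj]
        have hjk : j + 1 ≤ k := by omega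
        by_cases hd : q ∣ j ∧ 1 ≤ j
        · obtain ⟨⟨y, rfl⟩, hj0⟩ := hd
          have hy1 : 1 ≤ y := by
            rcases Nat.eq_zero_or_pos y with h0 | h0
            · rw [h0] at hj0; omega
            · exact h0
          have hyz : y < z := by
            have : q * y < q * z := by omega
            exact lt_of_mul_lt_mul_left this (Nat.zero_le q)
          have h2 := hmin y hy1 hyz
          rw [Nat.mul_div_cancel_left y (by omega)] at h1
          rw [div_aux1 hq hy1]
          omega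
        · have h2 : ee w m V j ≤ ee w m V (j + 1) := hmo (by omega) hjk
          have h3 : j / q = (j - 1) / q := by
            rcases Nat.eq_zero_or_pos j with h0 | h0
            · rw [h0]
            · exact div_aux2 fun h4 => hd ⟨h4, h0⟩
          rw [← h3]
          linarith
    refine ⟨fun T hT hTc => ?_, fun T hT hTc => ?_⟩
    · have h1 := le_al (w := w) hT
      have h2 := key (q * z - T.card) (Nat.sub_le _ _)
      rw [← hqd] at hTc
      have h3 : q * z - (q * z - T.card) = T.card := by omega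
      rw [h3] at h2
      simp only [ee] at h2
      simp only [Rp]
      rw [← hqd]
      linarith
    · have h1 := le_al (w := w) hT
      rw [← hqd] at hTc
      rw [hTc] at h1 ⊢
      simp only [Rp]
      rw [← hqd, Nat.add_sub_cancel, Nat.mul_div_cancel_left z (by omega)]
      have h2 : al w V (q * z + 1) = ee w m V (q * z + 1) + R m (q * z + 1) := by
        simp only [ee]; ring
      rw [h2] at h1
      linarith
  · intro y hy
    have h1 := hval z hmin y hy (by omega)
    have h2 := hqK y (by omega)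
    obtain ⟨T, hT, hTc, hTW⟩ := exists_al w (show q * y + 1 ≤ V.card by omega)
    refine ⟨T, hT, hTc, ?_⟩
    rw [hTW]
    simp only [Rp]
    rw [← hqd, Nat.add_sub_cancel, Nat.mul_div_cancel_left y (by omega)]
    simp only [ee] at h1
    linarith

end Pool.Agent.Lib.P56507
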