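import Pool.Agent.Lib.P56507.Step

/-!
Stage 2: many ordinary blocks.
-/

open Finset

namespace Pool.Agent.Lib.P56507

variable {w : ℕ → ℕ → ℤ} {m : ℚ} {V : Finset ℕ} {k s K c b ρ T : ℕ} {S U : ℕ → Finset ℕ}
  {z : ℕ → ℕ} {f : ℕ → ℤ}

namespace ExtendAux

/-- the blocks from `t` on form a chain starting at `U t` -/
theorem shift {t j : ℕ} (C : Chain m w V s K (t + j) S U z f) :
    Chain m w (U t) s K j (fun i => S (t + i)) (fun i => U (t + i)) (fun i => z (t + i))
      (fun i => f (t + i)) where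
  U0 := rfl
  Us := fun i hi => C.Us (t + i) (by omega)
  Ss := fun i hi => C.Ss (t + i) (by omega)
  card := fun i hi => C.card (t + i) (by omega)
  z1 := fun i hi => C.z1 (t + i) (by omega)
  zK := fun i hi => C.zK (t + i) (by omega)
  WS := fun i hi => C.WS (t + i) (by omega)
  fz := fun i hi => C.fz (t + i) (by omega)
  fs := fun i hi => C.fs (t + i) (by omega)
  cl := fun i hi => C.cl (t + i) (by omega)

end ExtendAux

/-- Proof. By induction on `j ≤ T₂`: there is a chain of length `t + j` with the same first `t`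
blocks (`S`, `z`, `f`, and `U i` for `i ≤ t`), with `f i = z i - 1`, `z i ≤ b` for `t ≤ i < t + j`.
Step: `X = U (t + j) ⊆ U t`, so `HP m w X z₀` (`HP.mono`); `Phi X ≥ - D'`: `Phi_eq` for the chains of
length `t` and `t + j` (or for the chain starting at `U t`) gives
`Phi (U t) ≤ Phi X`, because the blocks `t ≤ i < t + j` have
`b f i - (b - 1) z i = z i - b ≤ 0` and the deficits are nonnegative. -/
theorem extend (hw : ∀ x y, w x y = w y x) (P : Par k m.den s K c b ρ)
    (h : Cond k (R m k + s) w V) {D' T₂ t z₀ : ℕ} {S U : ℕ → Finset ℕ} {z : ℕ → ℕ} {f : ℕ → ℤ}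
    (C : Chain m w V s K t S U z f) (hz₀ : 1 ≤ z₀) (hz₀b : z₀ ≤ b) (hHP : HP m w (U t) z₀)
    (hPhi : -(D' : ℤ) ≤ Phi b m w (U t))
    (hc : m.den * (K * T₂) + 2 * k + m.den * (D' + s + k + 1) ≤ (U t).card) :
    ∃ (S' U' : ℕ → Finset ℕ) (z' : ℕ → ℕ) (f' : ℕ → ℤ), Chain m w V s K (t + T₂) S' U' z' f' ∧
      (∀ i < t, S' i = S i ∧ z' i = z i ∧ f' i = f i) ∧ (∀ i ≤ t, U' i = U i) ∧
      ∀ i, t ≤ i → i < t + T₂ → f' i = (z' i : ℤ) - 1 ∧ z' i ≤ b := by
  have key : ∀ j, j ≤ T₂ →
      ∃ (S' U' : ℕ → Finset ℕ) (z' : ℕ → ℕ) (f' : ℕ → ℤ), Chain m w V s K (t + j) S' U' z' f' ∧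
      (∀ i < t, S' i = S i ∧ z' i = z i ∧ f' i = f i) ∧ (∀ i ≤ t, U' i = U i) ∧
      ∀ i, t ≤ i → i < t + j → f' i = (z' i : ℤ) - 1 ∧ z' i ≤ b := by
    intro j
    induction j with
    | zero =>
      intro _
      exact ⟨S, U, z, f, C, fun i _ => ⟨rfl, rfl, rfl⟩, fun i _ => rfl, fun i h1 h2 => by omega⟩
    | succ j ih =>
      intro hj
      obtain ⟨S', U', z', f', C', hS', hU', hf'⟩ := ih (by omega)
      have hUt : U' t = U t := hU' t le_rfl
      have D := ExtendAux.shift C'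
      rw [hUt] at D
      have hXt : U' (t + j) ⊆ U t := by
        rw [← hUt]
        exact C'.U_anti (Nat.le_add_right t j) le_rfl
      have hcard : (U t).card ≤ (U' (t + j)).card + m.den * (K * j) := D.card_U
      have hmul : m.den * (K * j) ≤ m.den * (K * T₂) :=
        Nat.mul_le_mul_left _ (Nat.mul_le_mul_left _ (by omega))
      have hXc : 2 * k + m.den * (D' + s + k + 1) ≤ (U' (t + j)).card := by omega
      have hCond : Cond k (R m k + s) w (U' (t + j)) :=
        fun A hA hAc => h A (hA.trans (C'.U_sub le_rfl)) hAc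
      have hHPX : HP m w (U' (t + j)) z₀ :=
        ⟨fun A hA hAc => hHP.1 A (hA.trans hXt) hAc, fun A hA hAc => hHP.2 A (hA.trans hXt) hAc⟩
      have hPhiX : -(D' : ℤ) ≤ Phi b m w (U' (t + j)) := by
        have e1 := D.Phi_eq hw b
        have e2 : ∑ i ∈ range j, ((b : ℤ) * f' (t + i) - ((b : ℤ) - 1) * z' (t + i)) ≤ 0 := by
          refine Finset.sum_nonpos fun i hi => ?_
          have hi' := Finset.mem_range.1 hi
          obtain ⟨h1, h2⟩ := hf' (t + i) (by omega) (by omega)
          have h3 : (z' (t + i) : ℤ) ≤ b := by exact_mod_cast h2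
          rw [h1]
          linarith
        have e3 := D.W_lam_nonneg hw (Finset.Subset.refl (range j))
        have e4 := D.df_U_nonneg
        have hb : (0 : ℤ) ≤ b := Int.natCast_nonneg b
        have e5 := mul_nonneg hb e3
        have e6 := mul_nonneg hb e4
        have e7 : Phi b m w (U t) ≤ Phi b m w (U' (t + j)) := by
          rw [e1]
          linarith
        exact hPhi.trans e7
      obtain ⟨zn, Sn, fn, g1, g2, g3, g4, g5, g6, g7, g8, g9, g10⟩ :=
        step_ord hw P hXc hCond hz₀ hz₀b hHPX hPhiX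
      obtain ⟨S'', U'', z'', f'', C'', hS'', hU'', -, hz, hf⟩ :=
        C'.snoc g3 g4 g1 g2 g5 g6 g7 g8
      refine ⟨S'', U'', z'', f'', C'', fun i hi => ?_, fun i hi => ?_, fun i h1 h2 => ?_⟩
      · obtain ⟨a1, a2, a3⟩ := hS'' i (by omega)
        obtain ⟨b1, b2, b3⟩ := hS' i hi
        exact ⟨a1.trans b1, a2.trans b2, a3.trans b3⟩
      · exact (hU'' i (by omega)).trans (hU' i hi)
      · rcases Nat.lt_or_ge i (t + j) with h3 | h3
        · obtain ⟨-, a2, a3⟩ := hS'' i h3
          rw [a2, a3]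
          exact hf' i h1 h3
        · have h4 : i = t + j := by omega
          rw [h4, hz, hf]
          exact ⟨g9, g10⟩
  exact key T₂ le_rfl

end Pool.Agent.Lib.P56507
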