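import Pool.Agent.Lib.P56507.PBDefs

/-!
# The optimal set `F` of the reduced system

Notation: `E1 = E \ F`, `x1 = x - bC d l F ≥ 0`, `σ1 = σ - bE w l F ≥ 0` (`R.H`), `b = B + 1`,
`u i = w i - dg l i (E.erase i) ≥ 1` for `i ∈ E` (`R.u1`).

* `exists_opt`: `∅` is feasible (`R.x0`); take a maximiser of `bE w l` over the feasible subsets.
* `opt_D`: if `d j + dg j F ≤ x1` then `insert j F` is feasible (`bC_insert`) and
  `bE (insert j F) = bE F + w j - dg j F > bE F` since
  `w j ≥ 1 + dg j (E.erase j) ≥ 1 + dg j F` (`F ⊆ E.erase j`, `dg_mono`).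
* `opt_net`: `bE E = bE F + bE E1 - cr F E1`, `bC E = bC F + bC E1 + cr F E1` (`bE_sdiff`,
  `bC_sdiff`); insert in `R.net`: `B x + bE E = σ + δ + B bC E`, and expand
  `bE E1 = ∑ w - W E1`, `bC E1 = ∑ d + W E1`, `cr F E1 = ∑_{j∈E1} dg j F`.
* `opt_z`: in `opt_net` every summand is `≥ b dg j F` (`R.wd`), `σ1 ≥ 0`, `δ ≥ 1`, so
  `B x1 ≥ 1 + b (cr F E1 + W E1)`; then `(B+1) z ≤ B x1 - 1 < (B+1) x1` (`x1 ≥ 0`) gives `z < x1`.
* `opt_two`: `|E1| = 0` means `E = F` is feasible, contradicting `R.hi`; `|E1| = 1`, `E1 = {i}`: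
  `F = E.erase i` is feasible, contradicting `R.hie`.
* `opt_g`: `bE F = ∑_F w - W F` and `∑_F dg i (E.erase i) = 2 W F + cr F E1` (`sum_dg_erase`).
-/

open Finset

namespace Pool.Agent.Lib.P56507

variable {l : ℕ → ℕ → ℤ} {d w : ℕ → ℤ} {E F : Finset ℕ} {B x σ δ : ℤ}

theorem exists_opt (R : RSys d w l E B x σ δ) : ∃ F, IsOpt d w l E x F := by
  classical
  obtain ⟨F, hF, hmax⟩ := Finset.exists_max_image (E.powerset.filter fun G => bC d l G ≤ x)
    (fun G => bE w l G) ⟨∅, by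
      simp only [mem_filter, mem_powerset, empty_subset, true_and, bC_empty]
      exact R.x0⟩
  rw [mem_filter, mem_powerset] at hF
  refine ⟨F, hF.1, hF.2, fun G hG hGx => hmax G ?_⟩
  rw [mem_filter, mem_powerset]
  exact ⟨hG, hGx⟩

theorem opt_D (R : RSys d w l E B x σ δ) (O : IsOpt d w l E x F) {j : ℕ} (hj : j ∈ E \ F) :
    x - bC d l F + 1 ≤ d j + dg l j F := by
  by_contra hcon
  push Not at hcon
  rw [mem_sdiff] at hj
  have h1 := O.opt (insert j F) (insert_subset hj.1 O.sub) (by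
    rw [bC_insert R.sy hj.2]
    linarith)
  rw [bE_insert R.sy hj.2] at h1
  have h2 := R.u1 j hj.1
  have h3 : dg l j F ≤ dg l j (E.erase j) := dg_mono R.nn fun y hy =>
    mem_erase.2 ⟨fun h => hj.2 (h ▸ hy), O.sub hy⟩
  linarith

theorem opt_net (R : RSys d w l E B x σ δ) (O : IsOpt d w l E x F) :
    B * (x - bC d l F) = (σ - bE w l F) + δ +
      ∑ j ∈ E \ F, (B * d j - w j + (B + 1) * dg l j F) + (B + 1) * W l (E \ F) := by
  have h1 := bC_sdiff (c := d) R.sy O.sub
  have h2 := bE_sdiff (f := w) R.sy O.sub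
  have h3 := R.net
  have h4 : ∑ j ∈ E \ F, (B * d j - w j + (B + 1) * dg l j F) =
      B * ∑ j ∈ E \ F, d j - ∑ j ∈ E \ F, w j + (B + 1) * cr l F (E \ F) := by
    unfold cr
    rw [mul_sum, mul_sum, ← sum_sub_distrib, ← sum_add_distrib]
  have h5 : bC d l (E \ F) = ∑ j ∈ E \ F, d j + W l (E \ F) := rfl
  have h6 : bE w l (E \ F) = ∑ j ∈ E \ F, w j - W l (E \ F) := rfl
  rw [h4]
  rw [h5] at h1
  rw [h6] at h2
  rw [h1, h2] at h3
  linear_combination h3

theorem opt_z (R : RSys d w l E B x σ δ) (O : IsOpt d w l E x F) :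
    (B + 1) * (W l (E \ F) + cr l F (E \ F)) ≤ B * (x - bC d l F) - 1 ∧
      W l (E \ F) + cr l F (E \ F) + 1 ≤ x - bC d l F := by
  have h1 := opt_net R O
  have h2 : (B + 1) * cr l F (E \ F) ≤
      ∑ j ∈ E \ F, (B * d j - w j + (B + 1) * dg l j F) := by
    unfold cr
    rw [mul_sum]
    refine sum_le_sum fun j hj => ?_
    have := R.wd j (mem_sdiff.1 hj).1
    linarith
  have h3 := R.H F O.sub O.fe
  have h4 := R.δ1
  have h5 := R.B1
  have h6 : (B + 1) * (W l (E \ F) + cr l F (E \ F)) ≤ B * (x - bC d l F) - 1 := by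
    linarith
  refine ⟨h6, ?_⟩
  have h7 : 0 ≤ x - bC d l F := by
    have := O.fe
    linarith
  by_contra hcon
  push Not at hcon
  have h8 : (B + 1) * (x - bC d l F) ≤ (B + 1) * (W l (E \ F) + cr l F (E \ F)) :=
    mul_le_mul_of_nonneg_left (by linarith) (by linarith)
  linarith

theorem opt_two (R : RSys d w l E B x σ δ) (O : IsOpt d w l E x F) : 2 ≤ (E \ F).card := by
  by_contra hcon
  push Not at hcon
  have h0 := O.fe
  have hc : (E \ F).card = 0 ∨ (E \ F).card = 1 := by omega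
  rcases hc with h | h
  · rw [card_eq_zero, sdiff_eq_empty_iff_subset] at h
    have h1 : F = E := Subset.antisymm O.sub h
    rw [h1] at h0
    have := R.hi
    linarith
  · rw [card_eq_one] at h
    obtain ⟨i, hi⟩ := h
    have hiE : i ∈ E \ F := by rw [hi]; exact mem_singleton_self i
    have h1 : F = E.erase i := by
      ext y
      rw [mem_erase]
      constructor
      · intro hy
        exact ⟨fun h => (mem_sdiff.1 hiE).2 (h ▸ hy), O.sub hy⟩
      · rintro ⟨h2, h3⟩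
        by_contra h4
        have : y ∈ E \ F := mem_sdiff.2 ⟨h3, h4⟩
        rw [hi, mem_singleton] at this
        exact h2 this
    rw [h1] at h0
    have := R.hie i (mem_sdiff.1 hiE).1
    linarith

theorem opt_g (R : RSys d w l E B x σ δ) (O : IsOpt d w l E x F) :
    bE w l F = F.card + ∑ i ∈ F, (w i - dg l i (E.erase i) - 1) + W l F + cr l F (E \ F) := by
  have h1 := sum_dg_erase R.sy O.sub
  have h2 : ∑ i ∈ F, (w i - dg l i (E.erase i) - 1) =
      ∑ i ∈ F, w i - ∑ i ∈ F, dg l i (E.erase i) - F.card := by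
    rw [sum_sub_distrib, sum_sub_distrib, sum_const, nsmul_eq_mul, mul_one]
  unfold bE
  rw [h2, h1]
  ring

end Pool.Agent.Lib.P56507
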