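import Pool.Agent.Lib.P56507.PBSuff
import Pool.Agent.Lib.P56507.PBOpt

/-!
# The case that `J \ C*` is high

Notation: `Cs = C*`, `E = J \ Cs`, `d i = c i + dg i Cs`, `w i = f i - dg i Cs`,
`x = k - bC c l Cs`, `σ = s - bE f l Cs`; `F` optimal, `E1 = E \ F`, `C1 = Cs ∪ F`,
`J \ C1 = E1`; `bC c l C1 = bC c l Cs + bC d l F`, `bE f l C1 = bE f l Cs + bE w l F`
(`bC_red`, `bE_red`). `x1 = x - bC d l F = k - bC c l C1`, `σ1 = σ - bE w l F = s - bE f l C1`,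
`D j = d j + dg j F = c j + dg j C1 ≥ x1 + 1` on `E1` (`opt_D`), `b = B + 1`,
`i1 = W E1`, `l1 = cr F E1`, `n1 = |E1| ≥ 2`, `Λ j = B d j - w j + b dg j F ≥ 0`, and
`f j = w j + dg j Cs = b D j - c j - Λ j` (check: `b D j - c j - Λ j = b d j - c j - B d j + w j
= d j - c j + w j = dg j Cs + w j`).

## `e1low`
Suppose `E1` is high. Take `X ⊆ E1` of maximal size with `bC c l X ≤ k` (`∅` is one), `y = k - bC X
≥ 0`. `X ≠ E1`; pick `z ∈ E1 \ X`: `bC X + c z + dg z X ≥ k + 1` so `dg z X ≥ y`, and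
`W E1 ≥ W (insert z X) = W X + dg z X`, so `W X + y ≤ i1`. `X ≠ ∅` (if `X = ∅` then `y = k` and
`bC {z} = c z ≤ 1 ≤ k` contradicts the maximality: `c z ≥ k + 1`). Then
`bE X = ∑_X (b D - c - Λ) - W X ≥ |X| b (x1 + 1) - ∑_X c - ∑_{E1} Λ - W X`, and
`b k = b (∑_X c + W X + y) ≤ b ∑_X c + b i1`. So
`bE X - b k ≥ |X| b (x1+1) - (b+1) ∑_X c - W X - (∑_{E1} Λ + b i1)
 ≥ |X| (b x1 - 1) - W X - (B x1 - 1)` (`∑_X c ≤ |X|`, `opt_net` with `σ1 ≥ 0`, `δ ≥ 1`).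
If `|X| = 1`, `W X = 0` and this is `≥ x1 > 0`. If `|X| ≥ 2`: `W X ≤ i1 ≤ x1 - 1` (`opt_z`), so it
is `≥ 2 (b x1 - 1) - (x1 - 1) - B x1 + 1 = b x1 > 0`. So `bE X ≥ b k ≥ s + 1`, contradicting `S.H`.

## `ehigh`
Suppose `E` is high. `F` optimal (`exists_opt`), `E1` is low (`e1low`). Take `Y ⊆ F` of maximal size
with `bC c l (E1 ∪ Y) ≤ k` (`∅` works); `Y ≠ F` (`E1 ∪ F = E` is high). `E2 := C1 \ Y`,
`J \ E2 = E1 ∪ Y` is low; `y = k - bC (E1 ∪ Y) ≥ 0`; for `z ∈ F \ Y`: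
`dg z (E1 ∪ Y) ≥ k + 1 - bC (E1 ∪ Y) - c z ≥ y`. `cr (E1 ∪ Y) E2 ≥ cr E1 Cs + dg z (E1 ∪ Y)`
(`E2 = Cs ∪ (F \ Y)`, disjoint), so
`bC E2 = bC J - bC (E1 ∪ Y) - cr (E1 ∪ Y) E2 ≤ bC J - k + y - cr E1 Cs - y = bC J - k - cr E1 Cs`.
Finally `cr E1 Cs = ∑_{j∈E1} dg j Cs` with `dg j Cs = D j - c j - dg j F ≥ x1 - dg j F`, so
`cr E1 Cs ≥ n1 x1 - l1 ≥ n1 + i1 - 1 ≥ bC c l E1 - 1` (`n1 (x1 - 1) ≥ x1 - 1 ≥ i1 + l1`,
`opt_z`, `opt_two`) and `σ1 ≥ 0` (`R.H`). So `bC E2 ≤ (bC J - k) + 1 + σ1 - bC E1` and `suff` with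
`C1`, `E2` gives the claim.

`crE1` is used again by others: keep it.
-/

open Finset

namespace Pool.Agent.Lib.P56507

variable {l : ℕ → ℕ → ℤ} {c f : ℕ → ℤ} {J Cs F : Finset ℕ} {k s B δ : ℤ}

namespace PBHiAux

theorem sigma1 (O : IsOpt (fun i => c i + dg l i Cs) (fun i => f i - dg l i Cs) l (J \ Cs)
      (k - bC c l Cs) F)
    (R : RSys (fun i => c i + dg l i Cs) (fun i => f i - dg l i Cs) l (J \ Cs) B
      (k - bC c l Cs) (s - bE f l Cs) δ) :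
    0 ≤ (s - bE f l Cs) - bE (fun i => f i - dg l i Cs) l F := by
  have := R.H F O.sub O.fe
  linarith

theorem sumc {S : BSys f c l J k s} {X : Finset ℕ} (hX : X ⊆ J) : ∑ i ∈ X, c i ≤ X.card := by
  calc ∑ i ∈ X, c i ≤ ∑ i ∈ X, (1 : ℤ) := sum_le_sum fun i hi => S.c1 i (hX hi)
    _ = X.card := by simp

/-- A maximal subset with a property. -/
theorem exmax (E : Finset ℕ) (P : Finset ℕ → Prop) (h0 : P ∅) :
    ∃ X ⊆ E, P X ∧ ∀ z ∈ E, z ∉ X → ¬ P (insert z X) := by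
  classical
  have hne : (E.powerset.filter P).Nonempty := ⟨∅, by simp [h0]⟩
  obtain ⟨X, hX, hmax⟩ := exists_max_image (E.powerset.filter P) card hne
  rw [mem_filter, mem_powerset] at hX
  refine ⟨X, hX.1, hX.2, fun z hz hzX hP => ?_⟩
  have := hmax (insert z X) (by
    rw [mem_filter, mem_powerset]
    exact ⟨insert_subset hz hX.1, hP⟩)
  rw [card_insert_of_notMem hzX] at this
  omega

end PBHiAux

open PBHiAux

/-- `cr E1 Cs ≥ |E1| + W E1`. -/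
theorem crE1 (S : BSys f c l J k s)
    (R : RSys (fun i => c i + dg l i Cs) (fun i => f i - dg l i Cs) l (J \ Cs) B
      (k - bC c l Cs) (s - bE f l Cs) δ)
    (O : IsOpt (fun i => c i + dg l i Cs) (fun i => f i - dg l i Cs) l (J \ Cs)
      (k - bC c l Cs) F) :
    (((J \ Cs) \ F).card : ℤ) + W l ((J \ Cs) \ F) ≤ cr l Cs ((J \ Cs) \ F) := by
  have hsub : (J \ Cs) \ F ⊆ J := sdiff_subset.trans sdiff_subset
  have hD := fun j hj => opt_D R O (j := j) hj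
  obtain ⟨_, hz⟩ := opt_z R O
  have h2 := opt_two R O
  set E1 := (J \ Cs) \ F with hE1
  set x1 := k - bC c l Cs - bC (fun i => c i + dg l i Cs) l F with hx1
  have hsum : ∑ j ∈ E1, (x1 - dg l j F) ≤ ∑ j ∈ E1, dg l j Cs := by
    refine sum_le_sum fun j hj => ?_
    have h3 := hD j hj
    have h4 := S.c1 j (hsub hj)
    linarith
  rw [sum_sub_distrib, sum_const, nsmul_eq_mul] at hsum
  have hW := W_nn S.nn E1
  have hcr := cr_nonneg S.nn F E1
  have hn : (2 : ℤ) ≤ E1.card := by exact_mod_cast h2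
  have h5 : cr l Cs E1 = ∑ j ∈ E1, dg l j Cs := rfl
  have h6 : cr l F E1 = ∑ j ∈ E1, dg l j F := rfl
  rw [h5]
  rw [← h6] at hsum
  nlinarith

theorem e1low (S : BSys f c l J k s) (hs : s + 1 ≤ (B + 1) * k) (hCs : Cs ⊆ J)
    (R : RSys (fun i => c i + dg l i Cs) (fun i => f i - dg l i Cs) l (J \ Cs) B
      (k - bC c l Cs) (s - bE f l Cs) δ)
    (O : IsOpt (fun i => c i + dg l i Cs) (fun i => f i - dg l i Cs) l (J \ Cs)
      (k - bC c l Cs) F) :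
    bC c l ((J \ Cs) \ F) ≤ k := by
  classical
  by_contra hcon
  have hcon : k < bC c l ((J \ Cs) \ F) := not_le.1 hcon
  have hsub : (J \ Cs) \ F ⊆ J := sdiff_subset.trans sdiff_subset
  obtain ⟨_, hz⟩ := opt_z R O
  have hnet := opt_net R O
  have hs1 := sigma1 O R
  have hD := fun j hj => opt_D R O (j := j) hj
  obtain ⟨X, hXE, hXk, hmax⟩ := exmax ((J \ Cs) \ F) (fun X => bC c l X ≤ k)
    (by simp only [bC_empty]; linarith [S.k1])
  have hne : ∃ z ∈ (J \ Cs) \ F, z ∉ X := by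
    by_contra hno
    push Not at hno
    have : X = (J \ Cs) \ F := Subset.antisymm hXE hno
    rw [this] at hXk
    linarith
  obtain ⟨z, hzE, hzX⟩ := hne
  have h1 := hmax z hzE hzX
  rw [not_le, bC_insert S.sy hzX] at h1
  have hcz := S.c1 z (hsub hzE)
  have hWz : W l X + dg l z X ≤ W l ((J \ Cs) \ F) := by
    have := W_mono S.sy S.nn (insert_subset hzE hXE)
    rw [W_insert S.sy hzX] at this
    linarith
  have hW0 := W_nn S.nn X
  have hdz := dg_nonneg S.nn z X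
  have hcr := cr_nonneg S.nn F ((J \ Cs) \ F)
  have hB := R.B1
  have hδ := R.δ1
  have hXJ : X ⊆ J := hXE.trans hsub
  have hcX := sumc (S := S) hXJ
  -- the value of the excess of X
  have hf : ∀ j ∈ X, (B + 1) * (k - bC c l Cs - bC (fun i => c i + dg l i Cs) l F + 1) - c j -
      (B * (c j + dg l j Cs) - (f j - dg l j Cs) + (B + 1) * dg l j F) ≤ f j := by
    intro j hj
    have h3 := hD j (hXE hj)
    nlinarith
  have hfs := sum_le_sum hf
  rw [sum_sub_distrib, sum_sub_distrib, sum_const, nsmul_eq_mul] at hfs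
  have hΛ : ∑ j ∈ X, (B * (c j + dg l j Cs) - (f j - dg l j Cs) + (B + 1) * dg l j F) ≤
      ∑ j ∈ (J \ Cs) \ F,
        (B * (c j + dg l j Cs) - (f j - dg l j Cs) + (B + 1) * dg l j F) := by
    refine sum_le_sum_of_subset_of_nonneg hXE fun j hj _ => ?_
    have h3 := R.wd j (sdiff_subset hj)
    have h4 := dg_nonneg S.nn j F
    nlinarith
  have hH := S.H X hXJ hXk
  simp only [bE] at hH
  have hbc : bC c l X = ∑ i ∈ X, c i + W l X := rfl
  rw [hbc] at h1 hXk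
  set x1 := k - bC c l Cs - bC (fun i => c i + dg l i Cs) l F with hx1
  set i1 := W l ((J \ Cs) \ F) with hi1
  set Λ := ∑ j ∈ (J \ Cs) \ F,
        (B * (c j + dg l j Cs) - (f j - dg l j Cs) + (B + 1) * dg l j F) with hΛd
  set sc := ∑ i ∈ X, c i with hsc
  have hk : k ≤ sc + i1 := by linarith
  have hnet' : Λ + (B + 1) * i1 ≤ B * x1 - 1 := by linarith
  have hbk : (B + 1) * k ≤ (B + 1) * (sc + i1) := by nlinarith
  have hx0 : 1 ≤ x1 := by linarith [W_nn S.nn ((J \ Cs) \ F)]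
  have key : (X.card : ℤ) * ((B + 1) * x1 - 1) - W l X - B * x1 + 1 ≤
      (∑ x ∈ X, f x - W l X) - (B + 1) * k := by
    have h7 : (B + 2) * sc ≤ (B + 2) * X.card := by nlinarith
    nlinarith
  have hc0 : X.card ≠ 0 := by
    intro h0
    rw [card_eq_zero] at h0
    subst h0
    simp [dg, W, hsc] at h1
    linarith [S.k1]
  rcases Nat.lt_or_ge X.card 2 with hlt | hge
  · have h1c : X.card = 1 := by omega
    obtain ⟨v, hv⟩ := card_eq_one.1 h1c
    have hWX : W l X = 0 := by rw [hv, W_singleton]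
    rw [h1c, hWX] at key
    push_cast at key
    nlinarith
  · have hge' : (2 : ℤ) ≤ X.card := by exact_mod_cast hge
    have hpos : 0 ≤ (B + 1) * x1 - 1 := by nlinarith
    have h8 : 2 * ((B + 1) * x1 - 1) ≤ (X.card : ℤ) * ((B + 1) * x1 - 1) := by nlinarith
    have h9 : W l X ≤ i1 := by linarith
    have h10 : 0 < (B + 1) * x1 := by nlinarith
    nlinarith

theorem ehigh (S : BSys f c l J k s) (hs : s + 1 ≤ (B + 1) * k) (hCs : Cs ⊆ J)
    (R : RSys (fun i => c i + dg l i Cs) (fun i => f i - dg l i Cs) l (J \ Cs) B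
      (k - bC c l Cs) (s - bE f l Cs) δ)
    (hh : k < bC c l (J \ Cs)) :
    bE f l J ≤ 2 * s + 1 - k := by
  classical
  obtain ⟨F, O⟩ := exists_opt R
  have hlow := e1low S hs hCs R O
  have hcr1 := crE1 S R O
  have hs1 := sigma1 O R
  have hFE : F ⊆ J \ Cs := O.sub
  have hsub : (J \ Cs) \ F ⊆ J := sdiff_subset.trans sdiff_subset
  have hcE := sumc (S := S) hsub
  have hdis : Disjoint Cs F := disjoint_left.2 fun x h1 h2 => (mem_sdiff.1 (hFE h2)).2 h1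
  obtain ⟨Y, hYF, hYk, hmax⟩ := exmax F (fun Y => bC c l (((J \ Cs) \ F) ∪ Y) ≤ k)
    (by simpa using hlow)
  have hne : ∃ z ∈ F, z ∉ Y := by
    by_contra hno
    push Not at hno
    have : Y = F := Subset.antisymm hYF hno
    rw [this, sdiff_union_of_subset hFE] at hYk
    linarith
  obtain ⟨z, hzF, hzY⟩ := hne
  have h1 := hmax z hzF hzY
  have hzE : z ∉ ((J \ Cs) \ F) ∪ Y := by
    rw [mem_union, mem_sdiff]
    rintro (⟨_, h⟩ | h)
    · exact h hzF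
    · exact hzY h
  rw [union_insert, not_le, bC_insert S.sy hzE] at h1
  have hzJ : z ∈ J := (mem_sdiff.1 (hFE hzF)).1
  have hcz := S.c1 z hzJ
  have hEY : ((J \ Cs) \ F) ∪ Y ⊆ J :=
    union_subset hsub ((hYF.trans hFE).trans sdiff_subset)
  have hcompl : J \ (((J \ Cs) \ F) ∪ Y) = (Cs ∪ F) \ Y := by
    ext x
    have e1 : x ∈ Y → x ∈ F := fun h => hYF h
    have e2 : x ∈ F → x ∈ J ∧ x ∉ Cs := fun h => mem_sdiff.1 (hFE h)
    have e3 : x ∈ Cs → x ∈ J := fun h => hCs h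
    simp only [mem_sdiff, mem_union]
    tauto
  have hcompl2 : J \ ((Cs ∪ F) \ Y) = ((J \ Cs) \ F) ∪ Y := by
    rw [← hcompl]
    exact Finset.sdiff_sdiff_eq_self hEY
  have hcompl3 : J \ (Cs ∪ F) = (J \ Cs) \ F := by
    rw [sdiff_sdiff_left]; rfl
  have hzC : z ∉ Cs := fun h => (mem_sdiff.1 (hFE hzF)).2 h
  have hbJ := bC_sdiff (c := c) S.sy hEY
  rw [hcompl] at hbJ
  have hins : insert z Cs ⊆ (Cs ∪ F) \ Y := by
    intro x hx
    rw [mem_insert] at hx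
    rw [mem_sdiff, mem_union]
    rcases hx with rfl | hx
    · exact ⟨Or.inr hzF, hzY⟩
    · exact ⟨Or.inl hx, fun h => (mem_sdiff.1 (hFE (hYF h))).2 hx⟩
  have hcrge : cr l ((J \ Cs) \ F) Cs + dg l z (((J \ Cs) \ F) ∪ Y) ≤
      cr l (((J \ Cs) \ F) ∪ Y) ((Cs ∪ F) \ Y) := by
    have h2 := cr_mono S.nn (Subset.refl (((J \ Cs) \ F) ∪ Y)) hins
    have h3 : cr l (((J \ Cs) \ F) ∪ Y) (insert z Cs) =
        dg l z (((J \ Cs) \ F) ∪ Y) + cr l (((J \ Cs) \ F) ∪ Y) Cs := by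
      unfold cr
      exact sum_insert hzC
    have h4 := cr_mono S.nn (subset_union_left : ((J \ Cs) \ F) ⊆ ((J \ Cs) \ F) ∪ Y)
      (Subset.refl Cs)
    linarith
  rw [cr_comm S.sy ((J \ Cs) \ F) Cs] at hcrge
  have hbE1 : bC c l ((J \ Cs) \ F) = ∑ i ∈ (J \ Cs) \ F, c i + W l ((J \ Cs) \ F) := rfl
  have hEC := bE_red (f := f) S.sy hdis
  refine suff S (C1 := Cs ∪ F) (E2 := (Cs ∪ F) \ Y)
    (union_subset hCs (hFE.trans sdiff_subset)) sdiff_subset ?_ ?_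
  · rw [hcompl2]; exact hYk
  · rw [hcompl3, hEC]
    linarith

end Pool.Agent.Lib.P56507
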