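import Pool.Agent.Lib.P56507.PBDefs

/-!
# The basic inequality, minimal good sets, and low `J \ i`

Notation: `D = bC c l J`, `u i = f i - dg l i (J.erase i) ≥ 1` (`BSys.u1'`),
`c i ≤ 1`. `bE f l J = ∑_J u i + W l J` (`sum_marg`), `D = ∑_J c i + W l J`.

## `suff`
For `E ⊆ J`: `bE J - bE (J \ E) = ∑_{i∈E} f i - W E - cr (J\E) E = u(E) + W E` =: `m(E)`
(`sum_dg_erase` with `T = E`, `S = J`: `∑_{i∈E} dg i (J.erase i) = 2 W E + cr E (J\E)`).
With `E1 = J \ C1` (disjoint from `E2 ⊆ C1`):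
`bE J - m(E2) - m(E1) = u(C1 \ E2) + W J - W E2 - W E1 ≥ ∑_{C1 \ E2} c + W J - W E2 - W E1
 = D - bC E2 - bC E1`.
As `bE J - m(E1) = bE C1`: `m(E2) ≤ bE C1 - D + bC E2 + bC E1 ≤ s + 1 - k` by `hE`, and
`bE J = bE (J \ E2) + m(E2) ≤ s + (s + 1 - k)` by `S.H`.

## `mingood`
`E2 ⊆ C1` of minimal size with `J \ E2` low (`C1` works). Put `y = k - bC (J \ E2) ≥ 0`.
`E2 ≠ ∅` as `S.hi`. For `z ∈ E2`: `J \ (E2.erase z) = insert z (J \ E2)` is not low (minimality),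
so `bC (J\E2) + c z + dg z (J\E2) ≥ k + 1`, so `dg z (J\E2) ≥ y` (`c z ≤ 1`). Sum over `E2`:
`cr (J\E2) E2 ≥ |E2| y ≥ y`. `D = bC E2 + bC (J\E2) + cr (J\E2) E2` gives
`bC E2 = D - k + y - cr ≤ D - k`.

## `step1`
`mingood` with `C1 = J.erase i` (`J \ J.erase i = {i}`, `bC {i} = c i ≤ 1 ≤ k`), then `suff` with
this `C1`: `bE C1 ≤ s` by `S.H` and `bC (J \ C1) = c i ≤ 1`.
-/

open Finset

namespace Pool.Agent.Lib.P56507

variable {l : ℕ → ℕ → ℤ} {c f : ℕ → ℤ} {J : Finset ℕ} {k s : ℤ}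

private theorem marg (sy : ∀ x y, l x y = l y x) {E : Finset ℕ} (h : E ⊆ J) :
    bE f l J = bE f l (J \ E) + (∑ i ∈ E, (f i - dg l i (J.erase i)) + W l E) := by
  have h1 := bE_sdiff (f := f) sy (sdiff_subset : J \ E ⊆ J)
  rw [Finset.sdiff_sdiff_eq_self h] at h1
  have h2 := sum_dg_erase sy h
  have h3 := cr_comm sy (J \ E) E
  rw [sum_sub_distrib, h2, h1]
  unfold bE at *
  linarith

theorem suff (S : BSys f c l J k s) {C1 E2 : Finset ℕ} (h1 : C1 ⊆ J) (h2 : E2 ⊆ C1)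
    (hg : bC c l (J \ E2) ≤ k)
    (hE : bC c l E2 ≤ (bC c l J - k) + 1 + (s - bE f l C1) - bC c l (J \ C1)) :
    bE f l J ≤ 2 * s + 1 - k := by
  have hs2 := S.H (J \ E2) sdiff_subset hg
  have hm2 := marg (f := f) S.sy (h2.trans h1)
  have hm1 := marg (f := f) S.sy (sdiff_subset : J \ C1 ⊆ J)
  rw [Finset.sdiff_sdiff_eq_self h1] at hm1
  have hJ := sum_marg (f := f) S.sy J
  have hsplit : ∀ g : ℕ → ℤ, ∑ i ∈ J, g i
      = ∑ i ∈ J \ C1, g i + (∑ i ∈ E2, g i + ∑ i ∈ C1 \ E2, g i) := by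
    intro g
    rw [← sum_sdiff h1, ← sum_sdiff h2]
    ring
  have hR : ∑ i ∈ C1 \ E2, c i ≤ ∑ i ∈ C1 \ E2, (f i - dg l i (J.erase i)) := by
    refine sum_le_sum fun i hi => ?_
    have hiJ : i ∈ J := h1 (mem_sdiff.1 hi).1
    have := S.u1' hiJ
    have := S.c1 i hiJ
    linarith
  have hA := hsplit fun i => f i - dg l i (J.erase i)
  have hB := hsplit c
  unfold bC at hE
  linarith

theorem mingood (S : BSys f c l J k s) {C1 : Finset ℕ} (h1 : C1 ⊆ J)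
    (hl : bC c l (J \ C1) ≤ k) :
    ∃ E2 ⊆ C1, bC c l (J \ E2) ≤ k ∧ bC c l E2 ≤ bC c l J - k := by
  classical
  obtain ⟨E2, hmem, hmin⟩ := exists_min_image
    (C1.powerset.filter fun E => bC c l (J \ E) ≤ k) card
    ⟨C1, mem_filter.2 ⟨mem_powerset.2 (Subset.refl _), hl⟩⟩
  rw [mem_filter, mem_powerset] at hmem
  obtain ⟨hsub, hlow⟩ := hmem
  refine ⟨E2, hsub, hlow, ?_⟩
  have hEJ : E2 ⊆ J := hsub.trans h1
  have hD := bC_sdiff (c := c) S.sy (sdiff_subset : J \ E2 ⊆ J)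
  rw [Finset.sdiff_sdiff_eq_self hEJ] at hD
  have hne : E2.Nonempty := by
    rw [nonempty_iff_ne_empty]
    rintro rfl
    rw [sdiff_empty] at hlow
    exact absurd S.hi (not_lt.2 hlow)
  have hz : ∀ z ∈ E2, k - bC c l (J \ E2) ≤ dg l z (J \ E2) := by
    intro z hz
    have hnot : ¬ bC c l (J \ E2.erase z) ≤ k := by
      intro hcon
      have := hmin (E2.erase z) (mem_filter.2
        ⟨mem_powerset.2 ((erase_subset z E2).trans hsub), hcon⟩)
      exact absurd (card_erase_lt_of_mem hz) (not_lt.2 this)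
    rw [sdiff_erase (hEJ hz), bC_insert S.sy (fun h => (mem_sdiff.1 h).2 hz), not_le] at hnot
    have := S.c1 z (hEJ hz)
    linarith
  have hcr : k - bC c l (J \ E2) ≤ cr l (J \ E2) E2 := by
    obtain ⟨z, hzE⟩ := hne
    refine (hz z hzE).trans ?_
    unfold cr
    exact single_le_sum (f := fun v => dg l v (J \ E2))
      (fun v _ => dg_nonneg S.nn v (J \ E2)) hzE
  linarith

theorem step1 (S : BSys f c l J k s) {i : ℕ} (hi : i ∈ J) (hlow : bC c l (J.erase i) ≤ k) :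
    bE f l J ≤ 2 * s + 1 - k := by
  have hsi : J \ J.erase i = {i} := by
    ext x
    simp only [mem_sdiff, mem_erase, mem_singleton]
    constructor
    · rintro ⟨hx, h2⟩
      by_contra h3
      exact h2 ⟨h3, hx⟩
    · rintro rfl
      exact ⟨hi, fun h => h.1 rfl⟩
  have hci : bC c l (J \ J.erase i) ≤ 1 := by
    rw [hsi, bC_singleton]
    exact S.c1 i hi
  obtain ⟨E2, hs2, hl2, hc2⟩ := mingood S (erase_subset i J) (hci.trans S.k1)
  refine suff S (erase_subset i J) hs2 hl2 ?_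
  have := S.H (J.erase i) (erase_subset i J) hlow
  linarith

end Pool.Agent.Lib.P56507
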