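import Pool.Agent.Lib.P56507.PBQ
import Pool.Agent.Lib.P56507.PBSuff

/-!
# The case that `J \ C*` is low

Notation: `E = J \ Cs`, `K' = bC c l E`, `σ = s - bE f l Cs`, `x = k - bC c l Cs`,
`τ = bC c l J - k ≥ 2`, `A = cr l Cs E`, `a y = dg l y E` (so `A = ∑_{y∈Cs} a y`, `cr_comm`),
`p = K' - 1 - σ`, `X = x - 1 - σ`, `r = τ - 2 p`. `bC J = bC Cs + K' + A` gives `τ = K' + A - x`,
`A - p = r + X`.

(1) It is enough to find `N' ⊆ Cs` with `∑_{N'} a ≥ p` and `bC c l N' ≤ τ - p`: take `E2` with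
`N' ⊆ E2 ⊆ Cs` of maximal size with `bC E2 ≤ τ - p`. Then `J \ E2` is low: if `E2 = Cs` it is `E`
(`hlo`). Else pick `z ∈ Cs \ E2`: `bC E2 + c z + dg z E2 ≥ τ - p + 1`, so `dg z E2 ≥ τ - p - bC E2`,
and `cr E2 (J \ E2) ≥ cr E2 E + dg z E2 ≥ cr N' E + τ - p - bC E2 ≥ τ - bC E2` (`z ∉ E`,
`insert z E ⊆ J \ E2`), so `bC (J \ E2) = bC J - bC E2 - cr E2 (J \ E2) ≤ bC J - τ = k`. Now `suff`
with `C1 = Cs`: `bC E2 ≤ τ - p = τ + 1 + σ - K'`.

(2) `p ≤ 0`: `N' = ∅`. `p = 1`: `A ≥ p + 1 ≥ 1`, so some `y ∈ Cs` has `a y ≥ 1`; `N' = {y}`,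
`bC {y} = c y ≤ 1 ≤ τ - 1`.

(3) `p ≥ 2`: `hN` holds. `A = ∑_{i∈E} dg i Cs`; with `S0 = ∑_{i∈E} (c i + dg i Cs - 2) - W E`:
`A - K' = ∑_E (dg i Cs - c i) - W E ≥ S0` (`dg - c ≥ dg + c - 2` as `c ≤ 1`), so
`r = A - K' - X + 1 + σ ≥ S0 - X + 1 + σ` (check: `r = τ - 2p = K' + A - x - 2K' + 2 + 2σ
 = A - K' - X + 1 + σ`). `hN` is `(2B+1) X ≤ 2B S0 + B (1+σ)`, so
`2B r ≥ 2B S0 - 2B X + 2B (1+σ) ≥ X + B (1+σ)`. `hC` is `B W Cs ≤ (B+1) X + B (1+σ)` (as
`(B+1) x - 1 - σ = (B+1) X + B (1+σ)`). Hence `(B+1) (X + B (1+σ)) ≥ ... ≥ 0`: if `X ≥ 0` clear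
(`σ ≥ 0`); if `X < 0`, `X + B(1+σ) ≥ (B+1) X + B (1+σ) ≥ B W Cs ≥ 0`. So `r ≥ 0`. And
`B (2 r + X) ≥ X + B (1+σ) + B X = (B+1) X + B (1+σ) ≥ B W Cs`, so `2 r + X ≥ W Cs`, i.e.
`A + r ≥ p + W Cs`. Apply `qlem` to `N1 = {y ∈ Cs : 1 ≤ a y}` (`∑_{N1} a = A` since `a ≥ 0`,
`W N1 ≤ W Cs`), giving `N'` with `∑ a ≥ p`, `|N'| + W N' ≤ p + r = τ - p`, and
`bC N' ≤ |N'| + W N'`.
-/

open Finset

namespace Pool.Agent.Lib.P56507

variable {l : ℕ → ℕ → ℤ} {c f : ℕ → ℤ} {J Cs : Finset ℕ} {k s B : ℤ}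

theorem elow_of (S : BSys f c l J k s) (hCs : Cs ⊆ J) (hlo : bC c l (J \ Cs) ≤ k)
    {N' : Finset ℕ} (hN' : N' ⊆ Cs)
    (h1 : bC c l (J \ Cs) - 1 - (s - bE f l Cs) ≤ ∑ y ∈ N', dg l y (J \ Cs))
    (h2 : bC c l N' ≤ bC c l J - k - (bC c l (J \ Cs) - 1 - (s - bE f l Cs))) :
    bE f l J ≤ 2 * s + 1 - k := by
  classical
  have hne : (Cs.powerset.filter fun T => N' ⊆ T ∧
      bC c l T ≤ bC c l J - k - (bC c l (J \ Cs) - 1 - (s - bE f l Cs))).Nonempty :=
    ⟨N', by rw [mem_filter, mem_powerset]; exact ⟨hN', subset_refl _, h2⟩⟩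
  obtain ⟨E2, hE2, hmax⟩ := exists_max_image _ (fun T : Finset ℕ => T.card) hne
  rw [mem_filter, mem_powerset] at hE2
  obtain ⟨hE2C, hNE, hE2c⟩ := hE2
  refine suff S hCs hE2C ?_ (by linarith)
  rcases eq_or_ne E2 Cs with rfl | hneq
  · exact hlo
  · obtain ⟨z, hz, hz2⟩ : ∃ z ∈ Cs, z ∉ E2 := by
      by_contra hcon
      push Not at hcon
      exact hneq (Subset.antisymm hE2C hcon)
    have h3 : bC c l J - k - (bC c l (J \ Cs) - 1 - (s - bE f l Cs)) < bC c l (insert z E2) := by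
      by_contra hcon
      push Not at hcon
      have := hmax (insert z E2) (by
        rw [mem_filter, mem_powerset]
        exact ⟨insert_subset hz hE2C, hNE.trans (subset_insert _ _), hcon⟩)
      rw [card_insert_of_notMem hz2] at this
      omega
    rw [bC_insert S.sy hz2] at h3
    have h4 := S.c1 z (hCs hz)
    have h5 : insert z (J \ Cs) ⊆ J \ E2 := by
      refine insert_subset (mem_sdiff.2 ⟨hCs hz, hz2⟩) (sdiff_subset_sdiff (subset_refl _) hE2C)
    have h6 := cr_mono S.nn (subset_refl E2) h5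
    have h7 : cr l E2 (insert z (J \ Cs)) = dg l z E2 + cr l E2 (J \ Cs) := by
      unfold cr
      rw [sum_insert (by simp [hz])]
    have h8 := cr_mono S.nn hNE (subset_refl (J \ Cs))
    have h9 : cr l N' (J \ Cs) = ∑ y ∈ N', dg l y (J \ Cs) := by
      rw [cr_comm S.sy]; rfl
    have h10 := bC_sdiff (c := c) S.sy (hE2C.trans hCs)
    linarith

theorem elow (S : BSys f c l J k s) (hCs : Cs ⊆ J) (hB : 1 ≤ B)
    (hlo : bC c l (J \ Cs) ≤ k) (hτ : 2 ≤ bC c l J - k) (hσ : bE f l Cs ≤ s)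
    (hA : bC c l (J \ Cs) - (s - bE f l Cs) ≤ cr l Cs (J \ Cs))
    (hC : B * W l Cs ≤ (B + 1) * (k - bC c l Cs) - 1 - (s - bE f l Cs))
    (hN : 3 ≤ bC c l (J \ Cs) - (s - bE f l Cs) →
      (2 * B + 1) * (k - bC c l Cs - 1 - (s - bE f l Cs)) ≤
        2 * B * (∑ i ∈ J \ Cs, (c i + dg l i Cs - 2) - W l (J \ Cs)) +
          B * (1 + (s - bE f l Cs))) :
    bE f l J ≤ 2 * s + 1 - k := by
  classical
  have hA2 : cr l Cs (J \ Cs) = ∑ y ∈ Cs, dg l y (J \ Cs) := by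
    rw [cr_comm S.sy]; rfl
  have hJ := bC_sdiff (c := c) S.sy hCs
  have hsub : J \ Cs ⊆ J := sdiff_subset
  set σ := s - bE f l Cs with hσd
  set K' := bC c l (J \ Cs) with hK'
  set A := cr l Cs (J \ Cs) with hAd
  have hσ0 : 0 ≤ σ := by linarith
  rcases le_or_gt (K' - 1 - σ) 0 with hp | hp
  · refine elow_of S hCs hlo (empty_subset Cs) ?_ ?_
    · rw [sum_empty]; exact hp
    · rw [bC_empty]; linarith
  · rcases eq_or_lt_of_le (show (1 : ℤ) ≤ K' - 1 - σ by omega) with hp1 | hp1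
    · -- p = 1
      have hA1 : 0 < ∑ y ∈ Cs, dg l y (J \ Cs) := by rw [← hA2]; omega
      obtain ⟨y, hy, hy2⟩ : ∃ y ∈ Cs, 0 < dg l y (J \ Cs) := by
        by_contra hcon
        push Not at hcon
        have := sum_nonpos hcon
        omega
      refine elow_of S hCs hlo (singleton_subset_iff.2 hy) ?_ ?_
      · rw [sum_singleton]; omega
      · rw [bC_singleton]
        have := S.c1 y (hCs hy)
        omega
    · -- p ≥ 2
      have hN' := hN (by omega)
      set x := k - bC c l Cs with hx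
      set S0 := ∑ i ∈ J \ Cs, (c i + dg l i Cs - 2) - W l (J \ Cs) with hS0
      have hAK : S0 ≤ A - K' := by
        have e1 : A - K' = ∑ i ∈ J \ Cs, (dg l i Cs - c i) - W l (J \ Cs) := by
          rw [hAd, hK', sum_sub_distrib]
          unfold cr bC
          ring
        rw [e1, hS0]
        have : ∑ i ∈ J \ Cs, (c i + dg l i Cs - 2) ≤ ∑ i ∈ J \ Cs, (dg l i Cs - c i) :=
          sum_le_sum fun i hi => by
            have := S.c1 i (hsub hi)
            linarith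
        linarith
      -- the numbers
      have hWC : 0 ≤ W l Cs := W_nn S.nn Cs
      obtain ⟨p, hpd⟩ : ∃ p, p = K' - 1 - σ := ⟨_, rfl⟩
      obtain ⟨r, hrd⟩ : ∃ r, r = bC c l J - k - 2 * p := ⟨_, rfl⟩
      obtain ⟨X, hXd⟩ : ∃ X, X = x - 1 - σ := ⟨_, rfl⟩
      have hr1 : r = A - K' - X + 1 + σ := by
        rw [hrd, hpd, hXd, hJ, hx]
        ring
      have hN2 : (2 * B + 1) * X ≤ 2 * B * S0 + B * (1 + σ) := by rw [hXd]; exact hN'
      have hC2 : B * W l Cs ≤ (B + 1) * X + B * (1 + σ) := by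
        have : (B + 1) * x - 1 - σ = (B + 1) * X + B * (1 + σ) := by rw [hXd]; ring
        rw [← this]
        exact hC
      have hB2 : 2 * B * S0 ≤ 2 * B * (A - K') := mul_le_mul_of_nonneg_left hAK (by linarith)
      have h2Br : X + B * (1 + σ) ≤ 2 * B * r := by
        rw [hr1]
        have : 2 * B * (A - K' - X + 1 + σ) =
          2 * B * (A - K') - 2 * B * X + 2 * (B * (1 + σ)) := by ring
        rw [this]
        linarith
      have hBσ : 0 ≤ B * (1 + σ) := mul_nonneg (by linarith) (by linarith)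
      have hBW : 0 ≤ B * W l Cs := mul_nonneg (by linarith) hWC
      have hXp : 0 ≤ X + B * (1 + σ) := by
        rcases le_or_gt 0 X with h0 | h0
        · linarith
        · have : B * X ≤ 0 := mul_nonpos_of_nonneg_of_nonpos (by linarith) h0.le
          have h3 : (B + 1) * X = B * X + X := by ring
          linarith
      have hr0 : 0 ≤ r := by
        by_contra hcon
        push Not at hcon
        have : 2 * B * r < 0 := mul_neg_of_pos_of_neg (by linarith) hcon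
        linarith
      have hkey : W l Cs ≤ 2 * r + X := by
        have h3 : B * (2 * r + X) = 2 * B * r + B * X := by ring
        have h4 : (B + 1) * X = B * X + X := by ring
        have h5 : B * W l Cs ≤ B * (2 * r + X) := by rw [h3]; linarith
        exact le_of_mul_le_mul_left h5 (by linarith)
      -- the set
      set N1 := Cs.filter fun y => 1 ≤ dg l y (J \ Cs) with hN1
      have hN1C : N1 ⊆ Cs := filter_subset _ _
      have hs1 : ∑ y ∈ N1, dg l y (J \ Cs) = A := by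
        rw [hA2]
        refine sum_subset hN1C fun y hy hy2 => ?_
        have h3 := dg_nonneg S.nn y (J \ Cs)
        have h4 : ¬ 1 ≤ dg l y (J \ Cs) := fun h => hy2 (mem_filter.2 ⟨hy, h⟩)
        omega
      have hW1 := W_mono S.sy S.nn hN1C
      obtain ⟨N', hN'1, hN'2, hN'3⟩ := qlem (l := l) S.sy S.nn
        (a := fun y => dg l y (J \ Cs)) (p := p) (r := r) (by omega) hr0 (N := N1)
        (fun y hy => (mem_filter.1 hy).2) (by rw [hs1]; omega)
        (by rw [hs1]; have : A + r = p + (2 * r + X) := by rw [hr1, hpd]; ring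
            linarith)
      refine elow_of S hCs hlo (hN'1.trans hN1C) (by rw [← hpd]; exact hN'2) ?_
      rw [← hpd]
      have h3 : bC c l N' ≤ N'.card + W l N' := by
        unfold bC
        have : ∑ y ∈ N', c y ≤ ∑ _y ∈ N', (1 : ℤ) :=
          sum_le_sum fun y hy => S.c1 y (hCs (hN1C (hN'1 hy)))
        rw [sum_const, nsmul_eq_mul, mul_one] at this
        linarith
      omega

end Pool.Agent.Lib.P56507
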