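import Pool.Agent.Lib.P56507.PBNM

/-!
# The numeric inequality

Let `F` be optimal (`exists_opt`). Notation: `E1 = E \ F`, `x1 = x - bC d l F`,
`σ1 = σ - bE w l F ≥ 0` (`R.H`), `b = B + 1`, `i1 = W E1 ≥ 0`, `l1 = cr F E1 ≥ 0`, `n1 = |E1| ≥ 2`,
`D j = d j + dg j F`, `e j = D j - x1 - 1 ≥ 0` on `E1` (`opt_D`), `u i = w i - dg i (E.erase i)`,
`v i = u i - 1 ≥ 0`, `t = x1 - 1 ≥ i1 + l1` and `b (i1 + l1) ≤ B x1 - 1` (`opt_z`),
`mq i = bC F - bC (F.erase i) = d i + dg i (F.erase i)`.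

(0) Sums over `E = F ∪ E1`: `|E| = |F| + n1`, `W E = W F + i1 + l1`,
`∑_E (d i - 2) = ∑_F d - 2 |F| + ∑_{E1} D - l1 - 2 n1`, `∑_{E1} D = n1 (x1 + 1) + e(E1)`,
`bE w l F = |F| + v(F) + W F + l1` (`opt_g`), `bC d l F = ∑_F d + W F`. With these the claim is
equivalent (by `ring`/`linarith`; the difference of the two sides is the same) to
(NI) `2B n1 t + 2B e(E1) + B + (3B+1)(σ1 + v(F)) ≥ (2B+1) t + ∑_F d + (B-1)|F| + (B-1) l1 + B W F + 2B i1`,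
and `hp` says `n1 + i1 ≥ 3 + σ1 + v(F)`.

(1) Choose `j0 ∈ E1` with `e j0` minimal; `F0` from `swapA` for `j0`; `N = F \ F0`, `m = |N|`.
`bC F - bC N ≤ e j0` (`dg ≥ 0`), `e j0 ≤ e(E1)`.

(2) `m = 0` (`F0 = F`, `bC ∅ = 0`): `∑_F d + W F ≤ e(E1)`, and `∑_F d ≥ |F|`, so
`2B e(E1) ≥ 2B ∑_F d + 2B W F ≥ ∑_F d + (B-1)|F| + B W F`. Remaining:
`2B n1 t + B ≥ (2B+1) t + (B-1) l1 + 2B i1` (`σ1, v(F) ≥ 0`): `n1 ≥ 2`, and
`2B (i1 + l1) = b z + (B-1) z ≤ (B x1 - 1) + (B-1) t = (2B-1) t + B - 1` with `z = i1 + l1 ≤ t`.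

(3) `m ≥ 1`. For `i ∈ N`: `v i ≥ B - 1 + σ1 + δ + b i1 ≥ B + b i1` (`swapA`, `δ ≥ 1`).
`G i ⊂ E1` from `swapB`: as `∑_{G i} D ≥ |G i| (x1 + 1)` and `W (G i) ≤ i1`:
`B |G i| (x1 + 1) + B i1 ≤ v i + B x1`. Claim `|E1 \ G i| ≥ m`: `v(F) ≥ v(N) ≥ v i + (m-1)(B + b i1)`
and `n1 ≥ 3 + v(F) - i1`. If `G i = ∅`: `n1 ≥ 3 + m (B + b i1) - i1 ≥ 3 + m`. If `|G i| ≥ 1`:
`v i ≥ B |G i| + B x1 (|G i| - 1) + B i1 ≥ |G i| + i1`, so
`n1 - |G i| ≥ 3 + (m-1)(B + b i1) ≥ m`.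
For all `j ∈ E1 \ G i`: `B mq i ≤ v i + B x1 + B e j` (`swapB`). Choose `j` with `e j` minimal in
`E1 \ G i` : `m e j ≤ |E1 \ G i| e j ≤ e(E1)`, so `m B mq i ≤ m v i + m B x1 + B e(E1)`. Sum over
`i ∈ N` and divide by `m`: `B ∑_N mq i ≤ v(N) + m B x1 + B e(E1)`.
`bC F = (bC F - bC N) + bC N`, `bC N = ∑_N d + W N ≤ ∑_N mq i`
(`∑_N dg i (F.erase i) ≥ 2 W N ≥ W N`). So
`B (∑_F d + W F) = B bC F ≤ B e j0 + v(N) + m B x1 + B e(E1) ≤ 2 B e(E1) + v(F) + m B x1`.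
As `∑_F d ≥ |F|`, `∑_F d + (B-1)|F| + B W F ≤ B (∑_F d + W F)`. Remaining:
`2B n1 t + B + 3B v(F) + (3B+1) σ1 ≥ (2B+1) t + m B (t+1) + (B-1) l1 + 2B i1`: use
`n1 ≥ 3 + m` (from `n1 ≥ 3 + v(F) - i1`, `v(F) ≥ m (B + b i1)`), `(B-1) l1 + 2B i1 ≤ 2B t`,
`v(F) ≥ m B`, `6B ≥ 4B + 1`.
-/

open Finset

namespace Pool.Agent.Lib.P56507

variable {l : ℕ → ℕ → ℤ} {d w : ℕ → ℤ} {E F : Finset ℕ} {B x σ δ : ℤ}

/-- The final arithmetic of case (2). -/
theorem ni_arith0 {B t n1 e SF cF WF l1 i1 σ1 vF : ℤ} (hB : 1 ≤ B) (hn : 2 ≤ n1) (ht : 0 ≤ t)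
    (he : SF + WF ≤ e) (hSF : cF ≤ SF) (hcF : 0 ≤ cF) (hWF : 0 ≤ WF) (hl : 0 ≤ l1) (hi : 0 ≤ i1)
    (hz : i1 + l1 ≤ t) (hbz : (B + 1) * (i1 + l1) ≤ B * (t + 1) - 1) (hσ : 0 ≤ σ1)
    (hv : 0 ≤ vF) :
    (2 * B + 1) * t + SF + (B - 1) * cF + (B - 1) * l1 + B * WF + 2 * B * i1 ≤
      2 * B * n1 * t + 2 * B * e + B + (3 * B + 1) * (σ1 + vF) := by
  have h1 : 4 * B * t ≤ 2 * B * n1 * t := by
    have : 0 ≤ B * t := mul_nonneg (by omega) ht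
    nlinarith
  have h2 : 2 * B * (SF + WF) ≤ 2 * B * e := by
    apply mul_le_mul_of_nonneg_left he; omega
  have h3 : SF + (B - 1) * cF + B * WF ≤ 2 * B * (SF + WF) := by
    have a1 : (B - 1) * cF ≤ (B - 1) * SF := mul_le_mul_of_nonneg_left hSF (by omega)
    have a2 : 0 ≤ B * SF := mul_nonneg (by omega) (by omega)
    have a3 : 0 ≤ B * WF := mul_nonneg (by omega) (by omega)
    nlinarith
  have h4 : (B - 1) * l1 + 2 * B * i1 ≤ (2 * B - 1) * t + B := by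
    have a1 : (B - 1) * (i1 + l1) ≤ (B - 1) * t := mul_le_mul_of_nonneg_left hz (by omega)
    have a2 : 0 ≤ (B + 1) * l1 := mul_nonneg (by omega) hl
    nlinarith
  have h5 : 0 ≤ (3 * B + 1) * (σ1 + vF) := mul_nonneg (by omega) (by omega)
  nlinarith

/-- The final arithmetic of case (3). -/
theorem ni_arith1 {B t n1 e SF cF WF l1 i1 σ1 vF m : ℤ} (hB : 1 ≤ B) (ht : 0 ≤ t)
    (hm : 1 ≤ m) (he : B * (SF + WF) ≤ 2 * B * e + vF + m * B * (t + 1)) (hSF : cF ≤ SF)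
    (hcF : 0 ≤ cF) (hWF : 0 ≤ WF) (hl : 0 ≤ l1) (hi : 0 ≤ i1) (hz : i1 + l1 ≤ t) (hσ : 0 ≤ σ1)
    (hv : m * (B + (B + 1) * i1) ≤ vF) (hn : 3 + σ1 + vF ≤ n1 + i1) :
    (2 * B + 1) * t + SF + (B - 1) * cF + (B - 1) * l1 + B * WF + 2 * B * i1 ≤
      2 * B * n1 * t + 2 * B * e + B + (3 * B + 1) * (σ1 + vF) := by
  have h0 : SF + (B - 1) * cF + B * WF ≤ B * (SF + WF) := by
    have a1 : (B - 1) * cF ≤ (B - 1) * SF := mul_le_mul_of_nonneg_left hSF (by omega)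
    nlinarith
  have mB : m ≤ m * B := by nlinarith
  have hmi : i1 ≤ m * ((B + 1) * i1) := by
    have a1 : 0 ≤ B * i1 := mul_nonneg (by omega) hi
    have a2 : i1 ≤ (B + 1) * i1 := by nlinarith
    have a3 : 0 ≤ (B + 1) * i1 := by linarith
    have a4 : 1 * ((B + 1) * i1) ≤ m * ((B + 1) * i1) := mul_le_mul_of_nonneg_right hm a3
    linarith
  have hv1 : m * B + i1 ≤ vF := by
    have : m * (B + (B + 1) * i1) = m * B + m * ((B + 1) * i1) := by ring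
    linarith
  have hn1 : 3 + m ≤ n1 := by linarith
  have Bt : 0 ≤ B * t := mul_nonneg (by omega) ht
  have h1 : 2 * B * (3 + m) * t ≤ 2 * B * n1 * t := by
    have := mul_le_mul_of_nonneg_left hn1 Bt
    nlinarith
  have h4 : (B - 1) * l1 + 2 * B * i1 ≤ 2 * B * t := by
    have a1 : 2 * B * (i1 + l1) ≤ 2 * B * t := mul_le_mul_of_nonneg_left hz (by omega)
    have a2 : 0 ≤ (B + 1) * l1 := mul_nonneg (by omega) hl
    nlinarith
  have h5 : m * B ≤ B * vF := by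
    have b1 : 0 ≤ m * B := by linarith
    have b2 : vF ≤ B * vF := by nlinarith
    linarith
  have h6 : 0 ≤ (3 * B + 1) * σ1 := mul_nonneg (by omega) hσ
  have h7 : 0 ≤ m * (B * t) := mul_nonneg (by omega) Bt
  have h8 : t ≤ B * t := by nlinarith
  have e1 : 2 * B * (3 + m) * t = 6 * (B * t) + 2 * (m * (B * t)) := by ring
  have e2 : m * B * (t + 1) = m * (B * t) + m * B := by ring
  have e3 : (3 * B + 1) * (σ1 + vF) = (3 * B + 1) * σ1 + 3 * (B * vF) + vF := by ring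
  have e4 : (2 * B + 1) * t = 2 * (B * t) + t := by ring
  have e5 : 2 * B * t = 2 * (B * t) := by ring
  rw [e4, e3]
  rw [e1] at h1
  rw [e2] at he
  rw [e5] at h4
  have h9 : 0 ≤ B * vF := by nlinarith
  linarith

theorem NI (R : RSys d w l E B x σ δ) (hp : 3 ≤ (E.card : ℤ) + W l E - σ) :
    (2 * B + 1) * (x - 1 - σ) ≤
      2 * B * (∑ i ∈ E, (d i - 2) - W l E) + B * (1 + σ) := by
  obtain ⟨F, O⟩ := exists_opt R
  have hF := O.sub
  have hB := R.B1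
  set E1 := E \ F with hE1
  have hdis : Disjoint F E1 := disjoint_sdiff
  have hun : F ∪ E1 = E := union_sdiff_of_subset hF
  have hz := opt_z R O
  have hg := opt_g R O
  have htwo := opt_two R O
  rw [← hE1] at hz hg htwo
  have hWE : W l E = W l F + W l E1 + cr l F E1 := W_sdiff_cr R.sy hF
  have hcard : (E.card : ℤ) = F.card + E1.card := by
    rw [← hun, card_union_of_disjoint hdis]; push_cast; ring
  have hi := W_nn R.nn E1
  have hWF := W_nn R.nn F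
  have hl := cr_nonneg R.nn F E1
  set vF := ∑ i ∈ F, (w i - dg l i (E.erase i) - 1) with hvF
  have hv0 : 0 ≤ vF := by
    refine sum_nonneg fun i hi => ?_
    have := R.u1 i (hF hi)
    linarith
  have hσ : 0 ≤ σ - bE w l F := by
    have := R.H F hF O.fe
    linarith
  have hSF : (F.card : ℤ) ≤ ∑ i ∈ F, d i := by
    have h1 : ∑ i ∈ F, (1 : ℤ) ≤ ∑ i ∈ F, d i := sum_le_sum fun i hi => R.d1 i (hF hi)
    simpa using h1
  have hbF : bC d l F = ∑ i ∈ F, d i + W l F := rfl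
  set SF := ∑ i ∈ F, d i with hSFd
  set x1 := x - bC d l F with hx1
  set e := ∑ j ∈ E1, (d j + dg l j F - x1 - 1) with he
  have hSE : ∑ i ∈ E, (d i - 2) = SF - 2 * F.card + (e + E1.card * (x1 + 1) - cr l F E1)
      - 2 * E1.card := by
    have h1 : ∑ i ∈ E, (d i - 2) = ∑ i ∈ F, (d i - 2) + ∑ i ∈ E1, (d i - 2) := by
      rw [← hun]; exact sum_union hdis
    have h2 : ∑ i ∈ F, (d i - 2) = SF - 2 * F.card := by
      rw [sum_sub_distrib]; simp; ring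
    have h3 : e = ∑ j ∈ E1, d j + cr l F E1 - E1.card * (x1 + 1) := by
      rw [he]
      have : ∀ j ∈ E1, d j + dg l j F - x1 - 1 = d j + dg l j F - (x1 + 1) := fun j _ => by ring
      rw [sum_congr rfl this, sum_sub_distrib, sum_add_distrib]
      simp [cr]
    have h4 : ∑ i ∈ E1, (d i - 2) = ∑ i ∈ E1, d i - 2 * E1.card := by
      rw [sum_sub_distrib]; simp; ring
    rw [h1, h2, h4]
    linarith
  have hp' : 3 + (σ - bE w l F) + vF ≤ (E1.card : ℤ) + W l E1 := by linarith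
  have key : (2 * B + 1) * (x1 - 1) + SF + (B - 1) * F.card + (B - 1) * cr l F E1 + B * W l F
      + 2 * B * W l E1 ≤
      2 * B * E1.card * (x1 - 1) + 2 * B * e + B + (3 * B + 1) * ((σ - bE w l F) + vF) := by
    have hbz : (B + 1) * (W l E1 + cr l F E1) ≤ B * (x1 - 1 + 1) - 1 := by
      have := hz.1
      rw [sub_add_cancel]
      exact this
    rcases ni_main R O hp' with h | ⟨m, hm, hm1, hm2⟩
    · exact ni_arith0 hB (by exact_mod_cast htwo) (by linarith [hz.2]) (by rw [← hbF]; exact h)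
        hSF (by positivity) hWF hl hi (by linarith [hz.2]) hbz hσ hv0
    · refine ni_arith1 hB (by linarith [hz.2]) hm ?_ hSF (by positivity) hWF hl hi
        (by linarith [hz.2]) hσ hm1 hp'
      rw [← hbF, sub_add_cancel]
      exact hm2
  have hxe : x = x1 + SF + W l F := by rw [hx1, hbF]; ring
  have hσe : σ = (σ - bE w l F) + F.card + vF + W l F + cr l F E1 := by linarith
  generalize hσ1 : σ - bE w l F = σ1 at *
  rw [hSE, hWE, hσe, hxe]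
  nlinarith [key]

end Pool.Agent.Lib.P56507
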