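import Pool.Agent.Lib.P56507.PBCs
import Pool.Agent.Lib.P56507.PBHi
import Pool.Agent.Lib.P56507.PBNI
import Pool.Agent.Lib.P56507.PBLo

/-!
# Claim B
-/

open Finset

namespace Pool.Agent.Lib.P56507

variable {l : ℕ → ℕ → ℤ} {c f : ℕ → ℤ} {J : Finset ℕ} {k s : ℤ}

/-- The reduced system at `C*`. -/
theorem rsys_of (S : BSys f c l J k s) {B δ : ℤ} (hB : 1 ≤ B) (hδ : 1 ≤ δ)
    (hE : bE f l J = s + B * (bC c l J - k) + δ)
    (hie : ∀ i ∈ J, k < bC c l (J.erase i)) {Cs : Finset ℕ} (hCs : Cs ⊆ J)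
    (hlo : bC c l Cs ≤ k) (hw : ∀ i ∈ J \ Cs, f i - dg l i Cs ≤ B * (c i + dg l i Cs)) :
    RSys (fun i => c i + dg l i Cs) (fun i => f i - dg l i Cs) l (J \ Cs) B
      (k - bC c l Cs) (s - bE f l Cs) δ := by
  have hCG : ∀ G ⊆ J \ Cs, bC c l (Cs ∪ G) = bC c l Cs + bC (fun i => c i + dg l i Cs) l G := by
    intro G hG
    exact bC_red S.sy (disjoint_left.2 fun x hx hx' => (mem_sdiff.1 (hG hx')).2 hx)
  have hEG : ∀ G ⊆ J \ Cs, bE f l (Cs ∪ G) = bE f l Cs + bE (fun i => f i - dg l i Cs) l G := by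
    intro G hG
    exact bE_red S.sy (disjoint_left.2 fun x hx hx' => (mem_sdiff.1 (hG hx')).2 hx)
  have hun : Cs ∪ (J \ Cs) = J := union_sdiff_of_subset hCs
  have hu : ∀ i ∈ J \ Cs, dg l i ((J \ Cs).erase i) + 1 ≤ f i - dg l i Cs := by
    intro i hi
    have h1 := S.u1' (mem_sdiff.1 hi).1
    have h2 : Disjoint Cs ((J \ Cs).erase i) :=
      disjoint_left.2 fun x hx hx' => (mem_sdiff.1 (mem_of_mem_erase hx')).2 hx
    have h3 : J.erase i = Cs ∪ (J \ Cs).erase i := by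
      ext x
      simp only [mem_erase, mem_union, mem_sdiff]
      constructor
      · rintro ⟨a, b⟩
        by_cases hx : x ∈ Cs
        · exact Or.inl hx
        · exact Or.inr ⟨a, b, hx⟩
      · rintro (a | ⟨a, b, _⟩)
        · exact ⟨fun e => (mem_sdiff.1 hi).2 (e ▸ a), hCs a⟩
        · exact ⟨a, b⟩
    rw [h3, dg_union h2] at h1
    linarith
  refine ⟨S.sy, S.nn, hB, by linarith, hδ, ?_, hw, hu, ?_, ?_, ?_, ?_⟩
  · intro i hi
    have h1 := hu i hi
    have h2 := hw i hi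
    have h3 := dg_nonneg S.nn i ((J \ Cs).erase i)
    by_contra h4
    have h5 : c i + dg l i Cs ≤ 0 := by
      simp only [not_le] at h4
      linarith
    nlinarith
  · intro G hG hGx
    have h1 : Cs ∪ G ⊆ J := union_subset hCs (hG.trans sdiff_subset)
    have h2 := S.H _ h1 (by rw [hCG G hG]; linarith)
    rw [hEG G hG] at h2
    linarith
  · have h1 := hCG _ (Subset.refl (J \ Cs))
    have h2 := hEG _ (Subset.refl (J \ Cs))
    rw [hun] at h1 h2
    rw [h1, h2] at hE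
    linarith
  · have h1 := hCG _ (Subset.refl (J \ Cs))
    rw [hun] at h1
    have := S.hi
    linarith
  · intro i hi
    have h1 := hCG ((J \ Cs).erase i) (erase_subset _ _)
    have h3 : Cs ∪ (J \ Cs).erase i = J.erase i := by
      ext x
      simp only [mem_erase, mem_union, mem_sdiff]
      constructor
      · rintro (a | ⟨a, b, _⟩)
        · exact ⟨fun e => (mem_sdiff.1 hi).2 (e ▸ a), hCs a⟩
        · exact ⟨a, b⟩
      · rintro ⟨a, b⟩
        by_cases hx : x ∈ Cs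
        · exact Or.inl hx
        · exact Or.inr ⟨a, b, hx⟩
    rw [h3] at h1
    have := hie i (mem_sdiff.1 hi).1
    linarith

theorem claimB_sys (S : BSys f c l J k s) {B : ℤ} (hB : 0 ≤ B) (hs : s + 1 ≤ (B + 1) * k) :
    bE f l J ≤ s + B * (bC c l J - k) ∨ bE f l J ≤ 2 * s + 1 - k := by
  by_cases hlt : bE f l J ≤ s + B * (bC c l J - k)
  · exact Or.inl hlt
  right
  have hlt' := not_le.1 hlt
  obtain ⟨δ, hδ⟩ : ∃ δ, δ = bE f l J - (s + B * (bC c l J - k)) := ⟨_, rfl⟩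
  have hδ1 : 1 ≤ δ := by omega
  have hE : bE f l J = s + B * (bC c l J - k) + δ := by linarith
  by_cases hex : ∃ i ∈ J, bC c l (J.erase i) ≤ k
  · obtain ⟨i, hi, h⟩ := hex
    exact step1 S hi h
  have hie : ∀ i ∈ J, k < bC c l (J.erase i) := by
    intro i hi
    by_contra h
    exact hex ⟨i, hi, not_lt.1 h⟩
  obtain ⟨Cs, hCs, hlo, hw, hnet, hmax⟩ := cstar S hB hs hE
  have hσ : bE f l Cs ≤ s := S.H Cs hCs hlo
  have hBx : 1 ≤ B * (k - bC c l Cs) := by
    have : B * (k - bC c l Cs) = B * k - B * bC c l Cs := by ring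
    linarith
  have hB1 : 1 ≤ B := by
    by_contra h
    have h0 : B = 0 := by omega
    rw [h0] at hBx
    linarith
  have R := rsys_of S hB1 hδ1 hE hie hCs hlo hw
  by_cases hh : k < bC c l (J \ Cs)
  · exact ehigh S hs hCs R hh
  have hlow : bC c l (J \ Cs) ≤ k := not_lt.1 hh
  obtain ⟨F, O⟩ := exists_opt R
  have hg := opt_g R O
  have hF := O.sub
  have hcr := crE1 S R O
  have hWE : W l (J \ Cs) = W l F + W l ((J \ Cs) \ F) + cr l F ((J \ Cs) \ F) :=
    W_sdiff_cr S.sy hF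
  have hcard : ((J \ Cs).card : ℤ) = F.card + ((J \ Cs) \ F).card := by
    have h1 := card_union_of_disjoint (disjoint_sdiff : Disjoint F ((J \ Cs) \ F))
    rw [union_sdiff_of_subset hF] at h1
    rw [h1]; push_cast; ring
  have hv0 : 0 ≤ ∑ i ∈ F, (f i - dg l i Cs - dg l i ((J \ Cs).erase i) - 1) := by
    refine sum_nonneg fun i hi => ?_
    have := R.u1 i (hF hi)
    linarith
  have hσ1 := R.H F hF O.fe
  have hK : bC c l (J \ Cs) ≤ ((J \ Cs).card : ℤ) + W l (J \ Cs) := by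
    unfold bC
    have h1 : ∑ x ∈ J \ Cs, c x ≤ ∑ x ∈ J \ Cs, (1 : ℤ) :=
      sum_le_sum fun i hi => S.c1 i (mem_sdiff.1 hi).1
    rw [sum_const, nsmul_eq_mul, mul_one] at h1
    linarith
  have hcr2 : cr l Cs ((J \ Cs) \ F) ≤ cr l Cs (J \ Cs) :=
    cr_mono S.nn (Subset.refl _) sdiff_subset
  have hτ : 2 ≤ bC c l J - k := by
    have hne : (J \ Cs).Nonempty := by
      rw [nonempty_iff_ne_empty]
      intro h0
      have h1 := R.hi
      rw [h0, bC_empty] at h1
      linarith [R.x0]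
    obtain ⟨i, hi⟩ := hne
    have hiJ := (mem_sdiff.1 hi).1
    have h1 := hie i hiJ
    have h2 := bC_erase (c := c) S.sy hiJ
    have h3 := R.d1 i hi
    have h4 : dg l i Cs ≤ dg l i (J.erase i) := by
      refine dg_mono S.nn fun x hx => mem_erase.2 ⟨?_, hCs hx⟩
      rintro rfl
      exact (mem_sdiff.1 hi).2 hx
    linarith
  have hcC : bC c l Cs ≤ (Cs.card : ℤ) + W l Cs := by
    unfold bC
    have h1 : ∑ x ∈ Cs, c x ≤ ∑ x ∈ Cs, (1 : ℤ) := sum_le_sum fun i hi => S.c1 i (hCs hi)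
    rw [sum_const, nsmul_eq_mul, mul_one] at h1
    linarith
  refine elow S hCs hB1 hlow hτ hσ ?_ ?_ ?_
  · linarith
  · have e1 : (B + 1) * (k - bC c l Cs) = (B + 1) * k - (B + 1) * bC c l Cs := by ring
    have e2 : (B + 1) * W l Cs = B * W l Cs + W l Cs := by ring
    have e3 : (B + 1) * bC c l Cs = B * bC c l Cs + bC c l Cs := by ring
    linarith
  · intro h3
    have h4 : 3 ≤ ((J \ Cs).card : ℤ) + W l (J \ Cs) - (s - bE f l Cs) := by linarith
    exact NI R h4

theorem claimB_aux (n : ℕ) : ∀ {J : Finset ℕ} {f c : ℕ → ℤ} {l : ℕ → ℕ → ℤ} {k s B : ℤ},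
    J.card ≤ n → (∀ i ∈ J, c i ≤ 1) → (∀ i ∈ J, 1 ≤ f i + c i) →
    (∀ i j, 0 ≤ l i j) → (∀ i j, l i j = l j i) →
    1 ≤ k → 0 ≤ B → s + 1 ≤ (B + 1) * k → (∀ C ⊆ J, bC c l C ≤ k → bE f l C ≤ s) →
    k < bC c l J →
    bE f l J ≤ s + B * (bC c l J - k) ∨ bE f l J ≤ 2 * s + 1 - k := by
  induction n with
  | zero =>
    intro J f c l k s B hJ hc hz hl hsym hk hB hs H hτ
    have h0 : J = ∅ := card_eq_zero.1 (by omega)
    rw [h0, bC_empty] at hτ
    omega
  | succ n ih =>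
    intro J f c l k s B hJ hc hz hl hsym hk hB hs H hτ
    by_cases hall : ∀ i ∈ J, bE f l (J.erase i) + 1 ≤ bE f l J
    · exact claimB_sys ⟨hsym, hl, hc, hk, H, hall, hτ⟩ hB hs
    · have : ∃ i ∈ J, bE f l J < bE f l (J.erase i) + 1 := by
        by_contra h
        exact hall fun i hi => by
          by_contra h'
          exact h ⟨i, hi, not_le.1 h'⟩
      obtain ⟨i, hi, hlt⟩ := this
      have h1 := bC_erase (c := c) hsym hi
      have h2 := bE_erase (f := f) hsym hi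
      have h3 := hz i hi
      by_cases hlow : bC c l (J.erase i) ≤ k
      · have h4 := H _ (erase_subset i J) hlow
        left
        have : 0 ≤ B * (bC c l J - k) := mul_nonneg hB (by omega)
        linarith
      · have hhi := not_le.1 hlow
        have hcd : (J.erase i).card ≤ n := by
          rw [card_erase_of_mem hi]
          omega
        have h5 := ih (J := J.erase i) (f := f) (c := c) (l := l) (k := k) (s := s) (B := B) hcd
          (fun j hj => hc j (mem_of_mem_erase hj)) (fun j hj => hz j (mem_of_mem_erase hj)) hl hsym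
          hk hB hs (fun C hC => H C (hC.trans (erase_subset _ _))) hhi
        rcases h5 with h5 | h5
        · left
          have h6 : B * (bC c l (J.erase i) - k) ≤ B * (bC c l J - k) :=
            mul_le_mul_of_nonneg_left (by linarith) hB
          linarith
        · right
          linarith

theorem claimB {J : Finset ℕ} {f c : ℕ → ℤ} {l : ℕ → ℕ → ℤ} {k s : ℤ}
    (hc : ∀ i ∈ J, c i ≤ 1) (hz : ∀ i ∈ J, 1 ≤ f i + c i)
    (hl : ∀ i ∈ J, ∀ j ∈ J, 0 ≤ l i j) (hsym : ∀ i j, l i j = l j i)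
    (hk : 1 ≤ k) (hs : 0 ≤ s) (H : ∀ C ⊆ J, bC c l C ≤ k → bE f l C ≤ s)
    {τ : ℤ} (hτ : 1 ≤ τ) (hJ : bC c l J = k + τ) :
    bE f l J ≤ s + (s / k) * τ ∨ bE f l J ≤ 2 * s + 1 - k := by
  classical
  let l' : ℕ → ℕ → ℤ := fun i j => if i ∈ J ∧ j ∈ J then l i j else 0
  have hW : ∀ C ⊆ J, W l' C = W l C := by
    intro C hC
    unfold W
    refine sum_congr rfl fun p hp => ?_
    rw [mem_filter, mem_product] at hp
    exact if_pos ⟨hC hp.1.1, hC hp.1.2⟩
  have hC' : ∀ C ⊆ J, bC c l' C = bC c l C := fun C hC => by unfold bC; rw [hW C hC]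
  have hE' : ∀ C ⊆ J, bE f l' C = bE f l C := fun C hC => by unfold bE; rw [hW C hC]
  have hB : 0 ≤ s / k := Int.ediv_nonneg hs (by omega)
  have hs' : s + 1 ≤ (s / k + 1) * k := by
    have h1 := Int.lt_ediv_add_one_mul_self s (by omega : 0 < k)
    linarith
  have h := claimB_aux J.card (J := J) (f := f) (c := c) (l := l') (k := k) (s := s) (B := s / k)
    le_rfl hc hz ?_ ?_ hk hB hs' ?_ ?_
  · rw [hE' J (Subset.refl _), hC' J (Subset.refl _), hJ] at h
    have e : k + τ - k = τ := by ring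
    rwa [e] at h
  · intro i j
    show 0 ≤ (if i ∈ J ∧ j ∈ J then l i j else 0)
    split_ifs with h
    · exact hl i h.1 j h.2
    · exact le_rfl
  · intro i j
    show (if i ∈ J ∧ j ∈ J then l i j else 0) = (if j ∈ J ∧ i ∈ J then l j i else 0)
    by_cases h : i ∈ J ∧ j ∈ J
    · rw [if_pos h, if_pos h.symm, hsym]
    · rw [if_neg h, if_neg fun h' => h h'.symm]
  · intro C hC h
    rw [hC' C hC] at h
    rw [hE' C hC]
    exact H C hC h
  · rw [hC' J (Subset.refl _), hJ]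
    omega

end Pool.Agent.Lib.P56507
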