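import Pool.Agent.Lib.P56507.UStr
import Pool.Agent.Lib.P56507.AvgN

/-!
The critical weightings on `q ν + 1` points, `ν = 2 K + 1`, or `ν = 2 K` and `c = 1`, have no
descents.
-/

open Finset

namespace Pool.Agent.Lib.P56507

variable {w : ℕ → ℕ → ℤ}

namespace SmallAux

theorem div_flip {q ν t : ℕ} (hq : 1 ≤ q) (h1 : 1 ≤ t) (h2 : t ≤ q * ν) :
    ((q * ν - t) / q + 1 : ℕ) + (t - 1) / q = ν := by
  have h3 := Nat.div_add_mod (t - 1) q
  have h4 := Nat.mod_lt (t - 1) (show q > 0 by omega)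
  set a := (t - 1) / q
  set b := (t - 1) % q
  have h5 : a < ν := by
    by_contra hc
    have : q * ν ≤ q * a := Nat.mul_le_mul_left q (by omega)
    omega
  obtain ⟨d, rfl⟩ : ∃ d, ν = a + 1 + d := ⟨ν - (a + 1), by omega⟩
  have h6 : q * (a + 1 + d) - t = (q - 1 - b) + q * d := by
    have : q * (a + 1 + d) = q * a + q + q * d := by ring
    omega
  rw [h6, Nat.add_mul_div_left _ _ (by omega), Nat.div_eq_of_lt (by omega)]
  omega

theorem not_dvd {q K j : ℕ} (h1 : q * K < j) (h2 : j < q * (K + 1)) : ¬ q ∣ j := by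
  rintro ⟨z, rfl⟩
  have hz1 : K < z := lt_of_mul_lt_mul_left h1 (Nat.zero_le q)
  have hz2 : z < K + 1 := lt_of_mul_lt_mul_left h2 (Nat.zero_le q)
  omega

theorem le_div {q K j : ℕ} (hq : 1 ≤ q) (h : q * K ≤ j) : K ≤ j / q := by
  rw [Nat.le_div_iff_mul_le hq, mul_comm]
  exact h

theorem gap_big {m : ℚ} {K j : ℕ} (h1 : m.den * K < j) (h2 : j < m.den * (K + 1)) :
    2 * (K : ℤ) ≤ gap m j := by
  have hq : 1 ≤ m.den := m.den_pos
  have h3 := gap_not_dvd m (show 1 ≤ j by omega) (not_dvd h1 h2)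
  have h4 : K ≤ (j - 1) / m.den := le_div hq (by omega)
  have h5 : (K : ℤ) ≤ (((j - 1) / m.den : ℕ) : ℤ) := by exact_mod_cast h4
  linarith

/-- The averaging step. -/
theorem step (hw : ∀ x y, w x y = w y x) {m : ℚ} {A : Finset ℕ} (u : ℕ → ℤ) {ψ' ψ : ℤ}
    (hA : 2 ≤ A.card)
    (h : ∀ v ∈ A, ex m w (A.erase v) ≤ ∑ x ∈ A.erase v, u x + ψ')
    (hlt : (A.card : ℤ) * ψ' - ((A.card : ℤ) - 2) * ψ + ∑ x ∈ A, u x < gap m (A.card - 1)) :
    ex m w A ≤ ∑ x ∈ A, u x + ψ := by
  by_contra hc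
  push Not at hc
  have h1 := sum_erase hw A
  have h2 : ∀ v ∈ A, W w (A.erase v) ≤ R m (A.card - 1) + (∑ x ∈ A, u x - u v + ψ') := by
    intro v hv
    have h3 := h v hv
    unfold ex at h3
    rw [card_erase_of_mem hv] at h3
    have h4 := Finset.sum_erase_eq_sub (f := u) hv
    rw [h4] at h3
    linarith
  have h5 := Finset.sum_le_sum h2
  rw [h1, sum_add_distrib, sum_add_distrib, sum_sub_distrib, sum_const, sum_const, sum_const,
    nsmul_eq_mul, nsmul_eq_mul, nsmul_eq_mul] at h5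
  obtain ⟨j, hj⟩ : ∃ j, A.card = j + 1 := ⟨A.card - 1, by omega⟩
  unfold ex at hc
  unfold gap at hlt
  rw [hj] at h5 hc hlt hA
  rw [R_succ] at hc
  rw [Nat.add_sub_cancel] at h5 hlt
  have h6 : ((j + 1 : ℕ) : ℤ) = (j : ℤ) + 1 := by push_cast; ring
  rw [h6] at h5 hlt
  have h7 : (0 : ℤ) ≤ (j : ℤ) - 1 := by
    have : (1 : ℤ) ≤ j := by exact_mod_cast (show 1 ≤ j by omega)
    linarith
  set SS := ∑ x ∈ A, u x
  set WA := W w A
  set C := ⌈m * (j : ℚ)⌉
  set R' := R m j
  have h8 : R' + C + SS + ψ + 1 ≤ WA := by linarith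
  have h9 := mul_le_mul_of_nonneg_left h8 h7
  nlinarith [h5, h9, hlt]

end SmallAux

open SmallAux

/-- Proof. `n = |V| = q ν + 1 ≥ k`. By `lin` `ex V ≤ ν - c` (`Nq q n = ν + 1`). Suppose
`ex V = ν - c`. For `|A| ≥ k`, `A ⊆ V`, `lin` gives `ex A ≤ N(A) - 1 - c`. In particular
`ex (V.erase v) ≤ ν - 1 - c` (`n - 1 = q ν ≥ k`, `N(q ν) = ν`), so `u v := uu m w V ν v ≥ 0`, and
`∑_V u = 2 (ν - c) - ν - 1 = ν - 2 c - 1 =: U` (`uu_sum`).

Claim: `ex A ≤ u(A) + ψ(|A|)` for `A ⊆ V`, `1 ≤ |A| ≤ k - 1`, where `ψ = 0` if `ν = 2 K + 1`, and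
`ψ(t) = 1` for `t ≥ q K + 1`, `ψ(t) = 0` for `t ≤ q K` if `ν = 2 K`.
(a) `|A| = t ≤ n - k`: `ex_eq_uu` with `ex (V \ A) ≤ N(n - t) - 1 - c`,
`N(n - t) = ν - (t - 1) / q`: `ex A ≤ u(A)`.
(b) `n - k < t ≤ k - 1`: from `t - 1` to `t`, by `sum_erase`,
`(t - 2) W(A) ≤ t R m (t - 1) + t ψ + (t - 1) u(A)` with `ψ = ψ(t - 1)`. If
`W(A) ≥ R m t + u(A) + ψ + 1`, then `gap m (t - 1) ≤ 2 ψ + u(A) ≤ 2 ψ + U`.
 Case `ν = 2 K + 1`: `q K + 1 ≤ n - k ≤ t - 1 ≤ k - 2 < q (K + 1)`, so `q ∤ t - 1`,
 `gap m (t - 1) ≥ 2 ((t - 2) / q) = 2 K > 2 (K - c) = U`, a contradiction.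
 Case `ν = 2 K`, `c = 1`, `U = 2 K - 3`, `t - 1 ≥ n - k ≥ q (K - 1) + 1`. If `t - 1 < q K`:
 `q ∤ t - 1`, `gap m (t - 1) ≥ 2 (K - 1) > U`, a contradiction. If `t - 1 > q K`: `ψ = 1`,
 `gap m (t - 1) ≥ 2 K > 2 + U`, a contradiction. If `t - 1 = q K`: `ψ(t - 1) = 0`, `ψ(t) = 1`; if
 `W(A) ≥ R m t + u(A) + 2` then `gap m (t - 1) + (t - 2) ≤ u(A) ≤ U`, but `gap ≥ K - 1` (`gap_ge`) and
 `t - 2 = q K - 1 ≥ K - 1`, a contradiction.

Let `T = V \ S`, `t = |T|`, `n - k < t < k`. By the claim `ex T ≤ U + ψ(t)`, by `hex`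
`ex T ≥ (ν - c) - (K - c) - 1 + N(t) = ν - K - 1 + N(t)`. If `ν = 2 K + 1`: `t ≥ n - k + 1 ≥ q K + 2`,
`N(t) ≥ K + 1`, `ex T ≥ 2 K + 1 > 2 K - 2 c`. If `ν = 2 K`: `t ≥ q (K - 1) + 2`, `N(t) ≥ K`,
`ex T ≥ 2 K - 1 > 2 K - 2 ≥ U + ψ`. A contradiction. -/
theorem small (hw : ∀ x y, w x y = w y x) {m : ℚ} {k K ν : ℕ} {c : ℤ} (hc : 1 ≤ c) (hK : 1 ≤ K)
    (k1 : m.den * K + 1 ≤ k) (k2 : k ≤ m.den * K + m.den)
    (hν : ν = 2 * K + 1 ∨ (ν = 2 * K ∧ c = 1)) {V : Finset ℕ} (hV : V.card = m.den * ν + 1)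
    (h : Cond k (R m k + (K - c)) w V) {S : Finset ℕ} (hS : S ⊆ V) (hSk : S.card < k)
    (hTk : (V \ S).card < k)
    (hex : ex m w V ≤ ((K : ℤ) - c) + 1 + ex m w (V \ S) - Nq m.den (V \ S).card) :
    ex m w V ≤ ν - c - 1 := by
  classical
  have hq : 1 ≤ m.den := m.den_pos
  have hK' : (1 : ℤ) ≤ K := by exact_mod_cast hK
  have hk2 : 2 ≤ k := by
    have : m.den * K ≥ 1 := Nat.mul_pos hq hK
    omega
  have hνK : K + 1 ≤ ν := by rcases hν with h1 | ⟨h1, -⟩ <;> omega
  have hνq : m.den * (K + 1) ≤ m.den * ν := Nat.mul_le_mul_left _ hνK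
  have hkq : k ≤ m.den * ν := by
    have : m.den * (K + 1) = m.den * K + m.den := by ring
    omega
  by_contra hcon
  push Not at hcon
  have hN1 : Nq m.den (m.den * ν + 1) = ν + 1 := by
    rw [Nq_pos hq (by omega), Nat.add_sub_cancel, Nat.mul_div_cancel_left _ hq]
  have hN0 : Nq m.den (m.den * ν) = ν := by
    have := Nq_add hq ν 0
    rw [Nq_zero hq, add_zero, add_zero] at this
    exact this
  have hVle : ex m w V ≤ ν - c := by
    have := lin hw hc hk2 k1 k2 (show k ≤ V.card by rw [hV]; omega) h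
    rw [hV, hN1] at this
    push_cast at this
    linarith
  have hVeq : ex m w V = ν - c := by linarith
  have hu : ∀ v ∈ V, 0 ≤ uu m w V ν v := by
    intro v hv
    apply uu_nonneg hw hV hv
    have hc1 : (V.erase v).card = m.den * ν := by
      rw [card_erase_of_mem hv, hV]
      omega
    have := lin hw hc hk2 k1 k2 (show k ≤ (V.erase v).card by rw [hc1]; exact hkq)
      (h.subset (erase_subset v V))
    rw [hc1, hN0] at this
    linarith
  have hU : ∑ v ∈ V, uu m w V ν v = ν - 2 * c - 1 := by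
    rw [uu_sum hw hV, hVeq]
    ring
  have hUle : ∀ A ⊆ V, ∑ v ∈ A, uu m w V ν v ≤ ν - 2 * c - 1 := by
    intro A hA
    rw [← hU]
    exact sum_le_sum_of_subset_of_nonneg hA fun v hv _ => hu v hv
  set ψ : ℕ → ℤ := fun t => if ν = 2 * K ∧ m.den * K + 1 ≤ t then 1 else 0 with hψ
  have hqK1 : m.den * (K + 1) = m.den * K + m.den := by ring
  have claim : ∀ t : ℕ, 1 ≤ t → t < k → ∀ A ⊆ V, A.card = t →
      ex m w A ≤ ∑ v ∈ A, uu m w V ν v + ψ t := by
    intro t
    induction t with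
    | zero => intro h0; omega
    | succ j ih =>
      intro h1 h2 A hA hAc
      have hψ0 : 0 ≤ ψ (j + 1) := by
        simp only [hψ]
        split_ifs <;> norm_num
      by_cases hs : j + 1 + k ≤ m.den * ν + 1
      · -- small sets
        have hcard : (V \ A).card = m.den * ν + 1 - (j + 1) := by
          rw [card_sdiff_of_subset hA, hV, hAc]
        have h3 := lin hw hc hk2 k1 k2 (show k ≤ (V \ A).card by rw [hcard]; omega)
          (h.subset sdiff_subset)
        have h4 := ex_eq_uu hw hV hA (by omega)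
        rw [hVeq, hAc] at h4
        have h5 : Nq m.den (m.den * ν + 1 - (j + 1)) = (m.den * ν - (j + 1)) / m.den + 1 := by
          rw [Nq_pos hq (by omega)]
          congr 2
          omega
        have h6 := div_flip hq h1 (show j + 1 ≤ m.den * ν by omega)
        rw [hcard, h5] at h3
        have h7 : (((m.den * ν - (j + 1)) / m.den + 1 : ℕ) : ℤ) + (((j + 1 - 1) / m.den : ℕ) : ℤ)
            = ν := by exact_mod_cast h6
        linarith
      · push Not at hs
        have hj1 : 1 ≤ j := by omega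
        have ih' := ih hj1 (by omega)
        have hstep : ∀ v ∈ A, ex m w (A.erase v) ≤ ∑ x ∈ A.erase v, uu m w V ν x + ψ j := by
          intro v hv
          apply ih' _ ((erase_subset v A).trans hA)
          rw [card_erase_of_mem hv, hAc]
          omega
        apply step hw (uu m w V ν) (by omega) hstep
        have hUA := hUle A hA
        rw [hAc, Nat.add_sub_cancel]
        push_cast
        rcases hν with hν | ⟨hν, hc1⟩
        · have e1 : ψ j = 0 := by
            simp only [hψ]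
            rw [if_neg (by omega)]
          have e2 : ψ (j + 1) = 0 := by
            simp only [hψ]
            rw [if_neg (by omega)]
          rw [e1, e2]
          have hνq' : m.den * ν = m.den * K + m.den * K + m.den := by rw [hν]; ring
          have hg := gap_big (m := m) (K := K) (j := j) (by omega) (by omega)
          have : (ν : ℤ) = 2 * K + 1 := by exact_mod_cast hν
          linarith
        · have hνq' : m.den * ν = m.den * K + m.den * K := by rw [hν]; ring
          have hν' : (ν : ℤ) = 2 * K := by exact_mod_cast hν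
          obtain ⟨K', rfl⟩ : ∃ K', K = K' + 1 := ⟨K - 1, by omega⟩
          have e3 : m.den * (K' + 1) = m.den * K' + m.den := by ring
          have e4 : ((K' + 1 : ℕ) : ℤ) = (K' : ℤ) + 1 := by push_cast; ring
          rcases lt_trichotomy j (m.den * (K' + 1)) with hlt | heq | hgt
          · have e1 : ψ j = 0 := by
              simp only [hψ]
              rw [if_neg (by omega)]
            have e2 : ψ (j + 1) = 0 := by
              simp only [hψ]
              rw [if_neg (by omega)]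
            rw [e1, e2]
            have hg := gap_big (m := m) (K := K') (j := j) (by omega) (by omega)
            linarith
          · have e1 : ψ j = 0 := by
              simp only [hψ]
              rw [if_neg (by omega)]
            have e2 : ψ (j + 1) = 1 := by
              simp only [hψ]
              rw [if_pos ⟨hν, by omega⟩]
            rw [e1, e2]
            have hg := gap_ge m hj1
            have h5 : K' ≤ (j - 1) / m.den := le_div hq (by omega)
            have h6 : (K' : ℤ) ≤ (((j - 1) / m.den : ℕ) : ℤ) := by exact_mod_cast h5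
            have h7 : K' + 1 ≤ j := by
              rw [heq]
              exact Nat.le_mul_of_pos_left _ hq
            have h8 : ((K' : ℤ) + 1) ≤ j := by exact_mod_cast h7
            linarith
          · have e1 : ψ j = 1 := by
              simp only [hψ]
              rw [if_pos ⟨hν, by omega⟩]
            have e2 : ψ (j + 1) = 1 := by
              simp only [hψ]
              rw [if_pos ⟨hν, by omega⟩]
            rw [e1, e2]
            have hg := gap_big (m := m) (K := K' + 1) (j := j) (by omega) (by omega)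
            linarith
  have hTc : (V \ S).card = m.den * ν + 1 - S.card := by rw [card_sdiff_of_subset hS, hV]
  have hT1 : 1 ≤ (V \ S).card := by omega
  have hcl := claim _ hT1 hTk (V \ S) sdiff_subset rfl
  have hUT := hUle (V \ S) sdiff_subset
  rw [hVeq] at hex
  have hNT := Nq_pos hq hT1
  rcases hν with hν | ⟨hν, hc1⟩
  · have hνq' : m.den * ν = m.den * K + m.den * K + m.den := by rw [hν]; ring
    have h5 : K ≤ ((V \ S).card - 1) / m.den := le_div hq (by omega)
    have h6 : (K : ℤ) + 1 ≤ (Nq m.den (V \ S).card : ℤ) := by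
      rw [hNT]
      exact_mod_cast Nat.succ_le_succ h5
    have e1 : ψ (V \ S).card = 0 := by
      simp only [hψ]
      rw [if_neg (by omega)]
    have : (ν : ℤ) = 2 * K + 1 := by exact_mod_cast hν
    linarith
  · have hνq' : m.den * ν = m.den * K + m.den * K := by rw [hν]; ring
    have hν' : (ν : ℤ) = 2 * K := by exact_mod_cast hν
    obtain ⟨K', rfl⟩ : ∃ K', K = K' + 1 := ⟨K - 1, by omega⟩
    have e3 : m.den * (K' + 1) = m.den * K' + m.den := by ring
    have h5 : K' ≤ ((V \ S).card - 1) / m.den := le_div hq (by omega)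
    have h6 : (K' : ℤ) + 1 ≤ (Nq m.den (V \ S).card : ℤ) := by
      rw [hNT]
      exact_mod_cast Nat.succ_le_succ h5
    have e1 : ψ (V \ S).card ≤ 1 := by
      simp only [hψ]
      split_ifs <;> norm_num
    have e4 : ((K' + 1 : ℕ) : ℤ) = (K' : ℤ) + 1 := by push_cast; ring
    linarith

end Pool.Agent.Lib.P56507
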