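import Pool.Agent.Lib.P56507.ChainB

/-!
Bounds for the potential along a chain, adding a block.
-/

open Finset

namespace Pool.Agent.Lib.P56507

variable {w : ℕ → ℕ → ℤ} {m : ℚ} {V : Finset ℕ} {k s K c b ρ T : ℕ} {S U : ℕ → Finset ℕ}
  {z : ℕ → ℕ} {f : ℕ → ℤ}

theorem Par.b1 {q : ℕ} (P : Par k q s K c b ρ) : 1 ≤ b := by
  have h1 := P.sc
  have h2 := P.Kb
  have h3 := P.rc
  by_contra hb
  have hb0 : b = 0 := by omega
  subst hb0
  omega

theorem Par.K1 {q : ℕ} (P : Par k q s K c b ρ) : 1 ≤ K := by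
  have := P.sc
  have := P.c1
  omega

theorem Chain.W_lam_nonneg (hw : ∀ x y, w x y = w y x) (C : Chain m w V s K T S U z f)
    {F : Finset ℕ} (hF : F ⊆ range T) : 0 ≤ W (lam m w S z) F := by
  unfold W
  refine sum_nonneg fun p hp => ?_
  rw [mem_filter, mem_product] at hp
  exact C.lam_nonneg hw hp.2.ne (mem_range.1 (hF hp.1.1)) (mem_range.1 (hF hp.1.2))

/-- `U T ⊆ U (i + 1)`. -/
theorem Chain.df_U_nonneg (C : Chain m w V s K T S U z f) :
    0 ≤ ∑ i ∈ range T, df m w S z i (U T) := by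
  refine sum_nonneg fun i hi => ?_
  have hi' := mem_range.1 hi
  exact C.df_nonneg hi' (C.U_anti (by omega) le_rfl)

/-- `f i ≤ s`, `z i ≥ 1`, `b ≥ 1`. -/
theorem Chain.x_le (C : Chain m w V s K T S U z f) (hb : 1 ≤ b) {i : ℕ} (hi : i < T) :
    (b : ℤ) * f i - ((b : ℤ) - 1) * z i ≤ b * s := by
  have h1 := C.fs i hi
  have h3 : (b : ℤ) * f i ≤ b * s := mul_le_mul_of_nonneg_left h1 (by positivity)
  have h4 : (0 : ℤ) ≤ ((b : ℤ) - 1) * z i := by
    have : (0 : ℤ) ≤ (b : ℤ) - 1 := by
      have : (1 : ℤ) ≤ b := by exact_mod_cast hb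
      linarith
    positivity
  linarith

/-- From `Chain.Phi_eq`. -/
theorem Chain.Phi_le (hw : ∀ x y, w x y = w y x) (C : Chain m w V s K T S U z f) (hb : 1 ≤ b) :
    Phi b m w V ≤ T * (b * s) - b * W (lam m w S z) (range T) + Phi b m w (U T) := by
  rw [C.Phi_eq hw b]
  have h1 : ∑ i ∈ range T, ((b : ℤ) * f i - ((b : ℤ) - 1) * z i) ≤ T * (b * s) := by
    have := sum_le_card_nsmul (range T) (fun i => (b : ℤ) * f i - ((b : ℤ) - 1) * z i)
      ((b : ℤ) * s) (fun i hi => C.x_le hb (mem_range.1 hi))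
    rwa [card_range, nsmul_eq_mul] at this
  have h2 : (0 : ℤ) ≤ b * ∑ i ∈ range T, df m w S z i (U T) :=
    mul_nonneg (by positivity) C.df_U_nonneg
  linarith

/-- `|U T| ≥ |V| - q K T`. -/
theorem Chain.card_U (C : Chain m w V s K T S U z f) : V.card ≤ (U T).card + m.den * (K * T) := by
  rw [C.card_V]
  have h1 : ∑ i ∈ range T, z i ≤ K * T := by
    have := sum_le_card_nsmul (range T) z K (fun i hi => C.zK i (mem_range.1 hi))
    rw [card_range, smul_eq_mul, mul_comm] at this
    exact this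
  have h2 := Nat.mul_le_mul_left m.den h1
  omega

theorem Chain.nil (m : ℚ) (w : ℕ → ℕ → ℤ) (V : Finset ℕ) (s K : ℕ) :
    Chain m w V s K 0 (fun _ => ∅) (fun _ => V) (fun _ => 0) (fun _ => 0) := by
  constructor
  · rfl
  all_goals
    intro i hi
    omega

/-- Adding one more block to a chain: `S' = Function.update S T Sn`, `z' = Function.update z T zn`,
`f' = Function.update f T fn`, `U' = Function.update U (T + 1) (U T \ Sn)`. -/
theorem Chain.snoc {T : ℕ} {S U : ℕ → Finset ℕ} {z : ℕ → ℕ} {f : ℕ → ℤ}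
    (C : Chain m w V s K T S U z f) {Sn : Finset ℕ} {zn : ℕ} {fn : ℤ} (hS : Sn ⊆ U T)
    (hc : Sn.card = m.den * zn) (h1 : 1 ≤ zn) (hK : zn ≤ K) (hW : W w Sn = R m (m.den * zn) + fn)
    (hf : (zn : ℤ) - 1 ≤ fn) (hs : fn ≤ s) (hcl : ∀ v ∈ U T \ Sn, dg w v Sn ≤ m.num * zn) :
    ∃ (S' U' : ℕ → Finset ℕ) (z' : ℕ → ℕ) (f' : ℕ → ℤ), Chain m w V s K (T + 1) S' U' z' f' ∧
      (∀ i < T, S' i = S i ∧ z' i = z i ∧ f' i = f i) ∧ (∀ i ≤ T, U' i = U i) ∧
      S' T = Sn ∧ z' T = zn ∧ f' T = fn := by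
  have eS : ∀ i < T, Function.update S T Sn i = S i := fun i hi =>
    Function.update_of_ne (by omega) _ _
  have ez : ∀ i < T, Function.update z T zn i = z i := fun i hi =>
    Function.update_of_ne (by omega) _ _
  have ef : ∀ i < T, Function.update f T fn i = f i := fun i hi =>
    Function.update_of_ne (by omega) _ _
  have eU : ∀ i ≤ T, Function.update U (T + 1) (U T \ Sn) i = U i := fun i hi =>
    Function.update_of_ne (by omega) _ _
  have eST : Function.update S T Sn T = Sn := Function.update_self _ _ _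
  have ezT : Function.update z T zn T = zn := Function.update_self _ _ _
  have efT : Function.update f T fn T = fn := Function.update_self _ _ _
  have eUT : Function.update U (T + 1) (U T \ Sn) (T + 1) = U T \ Sn :=
    Function.update_self _ _ _
  refine ⟨Function.update S T Sn, Function.update U (T + 1) (U T \ Sn), Function.update z T zn,
    Function.update f T fn, ?_, fun i hi => ⟨eS i hi, ez i hi, ef i hi⟩, eU, eST, ezT, efT⟩
  constructor
  · rw [eU 0 (by omega)]
    exact C.U0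
  · intro i hi
    rcases Nat.lt_succ_iff_lt_or_eq.1 hi with h | rfl
    · rw [eU (i + 1) (by omega), eU i (by omega), eS i h]
      exact C.Us i h
    · rw [eUT, eU i le_rfl, eST]
  · intro i hi
    rcases Nat.lt_succ_iff_lt_or_eq.1 hi with h | rfl
    · rw [eU i (by omega), eS i h]
      exact C.Ss i h
    · rw [eU i le_rfl, eST]
      exact hS
  · intro i hi
    rcases Nat.lt_succ_iff_lt_or_eq.1 hi with h | rfl
    · rw [ez i h, eS i h]
      exact C.card i h
    · rw [ezT, eST]
      exact hc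
  · intro i hi
    rcases Nat.lt_succ_iff_lt_or_eq.1 hi with h | rfl
    · rw [ez i h]
      exact C.z1 i h
    · rw [ezT]
      exact h1
  · intro i hi
    rcases Nat.lt_succ_iff_lt_or_eq.1 hi with h | rfl
    · rw [ez i h]
      exact C.zK i h
    · rw [ezT]
      exact hK
  · intro i hi
    rcases Nat.lt_succ_iff_lt_or_eq.1 hi with h | rfl
    · rw [ez i h, eS i h, ef i h]
      exact C.WS i h
    · rw [ezT, eST, efT]
      exact hW
  · intro i hi
    rcases Nat.lt_succ_iff_lt_or_eq.1 hi with h | rfl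
    · rw [ez i h, ef i h]
      exact C.fz i h
    · rw [ezT, efT]
      exact hf
  · intro i hi
    rcases Nat.lt_succ_iff_lt_or_eq.1 hi with h | rfl
    · rw [ef i h]
      exact C.fs i h
    · rw [efT]
      exact hs
  · intro i hi v hv
    rcases Nat.lt_succ_iff_lt_or_eq.1 hi with h | rfl
    · rw [eU (i + 1) (by omega)] at hv
      rw [eS i h, ez i h]
      exact C.cl i h v hv
    · rw [eUT] at hv
      rw [eST, ezT]
      exact hcl v hv

end Pool.Agent.Lib.P56507
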