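import Pool.Agent.Lib.P56507.BPart
import Pool.Agent.Lib.P56507.Small
import Pool.Agent.Lib.P56507.Snoc
import Pool.Agent.Lib.P56507.PBMain

/-!
The bound for critical sets on `q ν + 1` points.
-/

open Finset

namespace Pool.Agent.Lib.P56507

variable {w : ℕ → ℕ → ℤ}

/-- Critical sets have a partition in blocks. -/
theorem exists_bp (hw : ∀ x y, w x y = w y x) (m : ℚ) : ∀ (z₀ : ℕ) (X : Finset ℕ),
    X.card = m.den * z₀ + 1 → (∀ v ∈ X, m.num * z₀ + 1 ≤ dg w v (X.erase v)) →
    ∃ (T : ℕ) (S : ℕ → Finset ℕ) (z f : ℕ → ℤ) (l : ℕ → ℕ → ℤ), BP m w X T S z f l := by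
  have hq : 1 ≤ m.den := m.den_pos
  intro z₀
  induction z₀ using Nat.strong_induction_on with
  | _ z₀ ih =>
  intro X hX hdeg
  by_cases hex : ∃ j, 1 ≤ j ∧ j ≤ X.card ∧ al w X j < Rp m j
  · classical
    obtain ⟨hj1, hj2, hj3⟩ := Nat.find_spec hex
    have hmin := fun i (hi : i < Nat.find hex) => Nat.find_min hex hi
    set j₁ := Nat.find hex with hj₁
    have hone : al w X 1 = Rp m 1 := by
      rw [al_one w (by omega), Rp_one]
    have hj₁2 : 2 ≤ j₁ := by
      by_contra h
      have h1 : j₁ = 1 := by omega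
      rw [h1, hone] at hj3
      exact lt_irrefl _ hj3
    obtain ⟨j, hj⟩ : ∃ j, j₁ = j + 1 := ⟨j₁ - 1, by omega⟩
    have hj0 : 1 ≤ j := by omega
    have hjX : j + 1 ≤ X.card := by omega
    have hjge : Rp m j ≤ al w X j := by
      by_contra h
      exact hmin j (by omega) ⟨hj0, by omega, not_le.1 h⟩
    rw [hj] at hj3
    obtain ⟨S, hS, hSc, hSW⟩ := exists_al w (V := X) (j := j) (by omega)
    have hSW' : W w S = al w X S.card := by rw [hSc]; exact hSW
    have hdg : ∀ v ∈ X \ S, dg w v S ≤ ⌊m * (j : ℚ)⌋ := by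
      intro v hv
      have h1 := dg_le hw hS hSW' hv
      rw [hSc] at h1
      have h2 := Rp_succ m hj0
      linarith
    have hexS : (((j - 1) / m.den : ℕ) : ℤ) ≤ ex m w S := by
      unfold ex
      rw [hSW, hSc]
      unfold Rp at hjge
      linarith
    have hdegS : ∀ v ∈ X \ S, dg w v (X.erase v) = dg w v S + dg w v ((X \ S).erase v) := by
      intro v hv
      rw [← dg_union]
      · congr 1
        ext x
        simp only [mem_erase, mem_union, mem_sdiff]
        constructor
        · rintro ⟨h1, h2⟩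
          by_cases h3 : x ∈ S
          · exact Or.inl h3
          · exact Or.inr ⟨h1, h2, h3⟩
        · rintro (h1 | ⟨h1, h2, _⟩)
          · exact ⟨fun e => (mem_sdiff.1 hv).2 (e ▸ h1), hS h1⟩
          · exact ⟨h1, h2⟩
      · exact disjoint_left.2 fun x h1 h2 => (mem_sdiff.1 (mem_of_mem_erase h2)).2 h1
    have hQc : (X \ S).card = m.den * z₀ + 1 - j := by
      rw [card_sdiff_of_subset hS, hX, hSc]
    by_cases hdvd : m.den ∣ j
    · -- a closed block
      obtain ⟨z, rfl⟩ := hdvd
      have hz1 : 1 ≤ z := by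
        rcases Nat.eq_zero_or_pos z with h | h
        · rw [h] at hj0; omega
        · exact h
      have hzz : z ≤ z₀ := by
        have h1 : m.den * z ≤ m.den * z₀ := by omega
        exact Nat.le_of_mul_le_mul_left h1 hq
      have hfl : ⌊m * ((m.den * z : ℕ) : ℚ)⌋ = m.num * z := by
        have : m * ((m.den * z : ℕ) : ℚ) = ((m.num * z : ℤ) : ℚ) := by
          push_cast
          rw [← mul_assoc, Rat.mul_den_eq_num]
        rw [this, Int.floor_intCast]
      rw [hfl] at hdg
      have hdiv : (m.den * z - 1) / m.den = z - 1 := by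
        obtain ⟨y, rfl⟩ : ∃ y, z = y + 1 := ⟨z - 1, by omega⟩
        have : m.den * (y + 1) - 1 = (m.den - 1) + m.den * y := by
          rw [Nat.mul_add]; omega
        rw [this, Nat.add_mul_div_left _ _ hq, Nat.div_eq_of_lt (by omega)]
        omega
      rw [hdiv] at hexS
      have hc' : (X \ S).card = m.den * (z₀ - z) + 1 := by
        have h1 : m.den * (z₀ - z) = m.den * z₀ - m.den * z := Nat.mul_sub _ _ _
        have h2 : m.den * z ≤ m.den * z₀ := Nat.mul_le_mul_left _ hzz
        rw [hQc, h1]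
        omega
      have hd' : ∀ v ∈ X \ S, m.num * ((z₀ - z : ℕ) : ℤ) + 1 ≤ dg w v ((X \ S).erase v) := by
        intro v hv
        have h1 := hdeg v (mem_sdiff.1 hv).1
        rw [hdegS v hv] at h1
        have h2 := hdg v hv
        rw [Nat.cast_sub hzz]
        linarith
      obtain ⟨T, S', z', f', l', B⟩ := ih (z₀ - z) (by omega) (X \ S) hc' hd'
      obtain ⟨S'', z'', f'', l'', B'⟩ := BP.cons hw hS hSc hz1 (by
        have : ((z - 1 : ℕ) : ℤ) = (z : ℤ) - 1 := by push_cast [hz1]; ring
        linarith) hdg B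
      exact ⟨_, _, _, _, _, B'⟩
    · -- two last blocks
      obtain ⟨t, ht⟩ : ∃ t, t = (X \ S).card := ⟨_, rfl⟩
      have htj : j + t = m.den * z₀ + 1 := by omega
      have ht2 : 2 ≤ t := by
        by_contra h
        have h1 : t = 1 := by omega
        exact hdvd ⟨z₀, by omega⟩
      have hdt : ¬ m.den ∣ (t - 1) := by
        intro h
        apply hdvd
        have h1 : j = m.den * z₀ - (t - 1) := by omega
        rw [h1]
        exact Nat.dvd_sub (Dvd.intro _ rfl) h
      have hNj : Nq m.den j = (j - 1) / m.den + 1 := Nq_pos hq hj0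
      have hNt : Nq m.den t = (t - 1) / m.den + 1 := Nq_pos hq (by omega)
      have hflip := SmallAux.div_flip hq (show 1 ≤ t by omega) (show t ≤ m.den * z₀ by omega)
      have hjt : m.den * z₀ - t = j - 1 := by omega
      rw [hjt] at hflip
      have hfc : ⌊m * (j : ℚ)⌋ + ⌊m * ((t - 1 : ℕ) : ℚ)⌋ + 1 = m.num * z₀ := by
        have h1 := UStrAux.ceil_sub m (ν := z₀) (t := t - 1) (by omega)
        have h2 : m.den * z₀ - (t - 1) = j := by omega
        rw [h2] at h1
        have h3 : ⌈m * (j : ℚ)⌉ = ⌊m * (j : ℚ)⌋ + 1 := by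
          have h4 := Rp_succ m hj0
          have h5 : ¬ ∃ a : ℤ, m * (j : ℚ) = a := by
            rintro ⟨a, ha⟩
            apply hdvd
            have hm : m = (m.num : ℚ) / m.den := (Rat.num_div_den m).symm
            have h6 : (m.num : ℚ) * j = a * m.den := by
              have hd : (m.den : ℚ) ≠ 0 := by exact_mod_cast m.den_ne_zero
              rw [hm] at ha
              field_simp at ha
              linarith
            have h7 : m.num * (j : ℤ) = a * m.den := by exact_mod_cast h6
            have h8 : (m.den : ℤ) ∣ m.num * j := ⟨a, by rw [h7]; ring⟩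
            have h9 : IsCoprime (m.den : ℤ) m.num := by
              rw [Int.isCoprime_iff_gcd_eq_one, Int.gcd_comm]
              exact m.reduced
            exact_mod_cast h9.dvd_of_dvd_mul_left h8
          have h6 : (⌊m * (j : ℚ)⌋ : ℚ) < m * j := by
            refine lt_of_le_of_ne (Int.floor_le _) ?_
            intro h
            exact h5 ⟨_, h.symm⟩
          refine le_antisymm (Int.ceil_le_floor_add_one _) ?_
          exact Int.add_one_le_of_lt (Int.lt_ceil.2 h6)
        rw [h3] at h1
        linarith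
      have hdQ : ∀ v ∈ X \ S, ⌊m * ((t - 1 : ℕ) : ℚ)⌋ + 2 ≤ dg w v ((X \ S).erase v) := by
        intro v hv
        have h1 := hdeg v (mem_sdiff.1 hv).1
        rw [hdegS v hv] at h1
        have h2 := hdg v hv
        linarith
      have hWQ : Rp m t + 1 ≤ W w (X \ S) := by
        have h1 := two_W hw (X \ S)
        have h2 : (t : ℤ) * (⌊m * ((t - 1 : ℕ) : ℚ)⌋ + 2) ≤
            ∑ v ∈ X \ S, dg w v ((X \ S).erase v) := by
          have := sum_le_sum hdQ
          rw [sum_const, nsmul_eq_mul, ← ht] at this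
          exact this
        have h3 := two_Rp_le m (n := t - 1) (by omega)
        have h4 := Rp_succ m (n := t - 1) (by omega)
        have h5 : t - 1 + 1 = t := by omega
        rw [h5] at h4
        have h6 : (((t - 1 : ℕ) : ℤ)) = (t : ℤ) - 1 := by push_cast [show 1 ≤ t by omega]; ring
        rw [h6] at h3
        nlinarith
      have hexQ : (((t - 1) / m.den : ℕ) : ℤ) + 1 ≤ ex m w (X \ S) := by
        unfold ex
        rw [← ht]
        unfold Rp at hWQ
        linarith
      have hpeel : ex m w X ≤ ex m w S + ex m w (X \ S) := by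
        have h3 : ⌊m * (j : ℚ)⌋ ≤ ⌈m * (j : ℚ)⌉ := Int.floor_le_ceil _
        have h4 : (al w X (S.card + 1) : ℤ) ≤ al w X S.card + ⌈m * (S.card : ℚ)⌉ - 0 := by
          rw [hSc]
          have h2 := Rp_succ m hj0
          linarith
        have h5 : ⌈m * (j : ℚ)⌉ = ⌊m * (j : ℚ)⌋ + 1 := by
          have h1 := UStrAux.ceil_sub m (ν := z₀) (t := t - 1) (by omega)
          have h2 : m.den * z₀ - (t - 1) = j := by omega
          rw [h2] at h1
          linarith
        have h6 : (al w X (S.card + 1) : ℤ) ≤ al w X S.card + ⌈m * (S.card : ℚ)⌉ - 1 := by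
          rw [hSc]
          have h2 := Rp_succ m hj0
          linarith
        have h7 := ex_peel_le hw m hS hSW' h6
        have h8 : (0 : ℤ) ≤ (Nq m.den (X \ S).card : ℤ) := Int.natCast_nonneg _
        linarith
      refine ⟨_, _, _, _, _, BP.two hS hX (z₁ := (j - 1) / m.den + 1)
        (z₂ := (t - 1) / m.den + 1) (Nat.le_add_left 1 _) (Nat.le_add_left 1 _)
        (by rw [← hflip]; ring) ?_ ?_ ?_ ?_ hpeel⟩
      · rw [hSc, hNj]
      · rw [← ht, hNt]
      · rw [Nat.cast_add, Nat.cast_one]
        linarith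
      · rw [Nat.cast_add, Nat.cast_one]
        linarith
  · -- one last block
    have h1 : Rp m X.card ≤ al w X X.card := by
      by_contra h
      exact hex ⟨X.card, by omega, le_rfl, not_le.1 h⟩
    obtain ⟨S, hS, hSc, hSW⟩ := exists_al w (V := X) (j := X.card) le_rfl
    have hSX : S = X := eq_of_subset_of_card_le hS hSc.ge
    rw [hSX] at hSW
    have h2 : (z₀ : ℤ) ≤ ex m w X := by
      unfold ex
      rw [hSW]
      unfold Rp at h1
      have h3 : (X.card - 1) / m.den = z₀ := by
        rw [hX, Nat.add_sub_cancel, Nat.mul_div_cancel_left _ hq]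
      rw [h3] at h1
      linarith
    exact ⟨_, _, _, _, _, BP.one hX h2⟩

theorem fin_blk (hw : ∀ x y, w x y = w y x) {m : ℚ} {k s K c b ρ : ℕ}
    (P : Par k m.den s K c b ρ) {V : Finset ℕ} {ν : ℕ} (hV : V.card = m.den * ν + 1)
    (hk : k ≤ V.card) (h : Cond k (R m k + s) w V) (hu : ∀ v ∈ V, 0 ≤ uu m w V ν v)
    (hmono : ∀ A ⊆ V, A.card < k → ex m w A ≤ s) :
    Phi b m w V ≤ ρ ∨ ex m w V ≤ 2 * (s : ℤ) + 1 - c := by
  have hdeg : ∀ v ∈ V, m.num * ν + 1 ≤ dg w v (V.erase v) := by
    intro v hv
    have := hu v hv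
    unfold uu at this
    linarith
  obtain ⟨T, S, z, f, l, B⟩ := exists_bp hw m ν V hV hdeg
  have hc1 : 1 ≤ c := P.c1
  have hK1 := P.K1
  have hq := P.q1
  have k1 := P.k1
  have k2 := P.k2
  have hk2 : 2 ≤ k := by
    have : 1 ≤ m.den * K := Nat.mul_pos (by omega) (by omega)
    omega
  have hs : (s : ℤ) = (K : ℤ) - c := by
    have := P.sc
    omega
  have hlin : ∀ A ⊆ V, k ≤ A.card → ex m w A ≤ Nq m.den A.card - 1 - c := by
    intro A hA hAk
    have h1 : Cond k (R m k + (K - (c : ℤ))) w A := by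
      rw [← hs]
      exact fun S hS hSc => h S (hS.trans hA) hSc
    exact lin hw (by exact_mod_cast hc1) hk2 k1 k2 hAk h1
  have hcov : (range T).biUnion S = V := by
    refine Subset.antisymm ?_ B.cov
    intro x hx
    obtain ⟨i, hi, hx⟩ := mem_biUnion.1 hx
    exact B.sub i (mem_range.1 hi) hx
  have hsub : ∀ C ⊆ range T, C.biUnion S ⊆ V := by
    intro C hC x hx
    obtain ⟨i, hi, hx⟩ := mem_biUnion.1 hx
    exact B.sub i (mem_range.1 (hC hi)) hx
  have hbE : ∀ C ⊆ range T, bE f l C = ex m w (C.biUnion S) := fun C hC => (B.ex C hC).symm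
  have hbC : ∀ C ⊆ range T, bC (fun i => z i - f i) l C =
      (Nq m.den (C.biUnion S).card : ℤ) - ex m w (C.biUnion S) := by
    intro C hC
    rw [B.Nq C hC, B.ex C hC]
    unfold bC
    rw [sum_sub_distrib]
    ring
  obtain ⟨τ, hτ⟩ : ∃ τ : ℤ, τ = (Nq m.den V.card : ℤ) - ex m w V - c := ⟨_, rfl⟩
  have hVlin := hlin V (Subset.refl _) hk
  have key := claimB (J := range T) (f := f) (c := fun i => z i - f i) (l := l) (k := (c : ℤ))
    (s := (s : ℤ))
    (fun i hi => by have := B.fz i (mem_range.1 hi); linarith)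
    (fun i hi => by have := B.z1 i (mem_range.1 hi); linarith)
    (fun i hi j hj => B.nn i (mem_range.1 hi) j (mem_range.1 hj)) B.sy
    (by exact_mod_cast hc1) (Int.natCast_nonneg _) ?_ (τ := τ) (by linarith) ?_
  · rw [hbE _ (Subset.refl _), hcov] at key
    rcases key with key | key
    · left
      have hB : (s : ℤ) / c + 1 = b := by
        have h1 : (K : ℤ) = (s : ℤ) + 1 * c := by
          rw [hs]; ring
        have h2 : (K : ℤ) / c = (s : ℤ) / c + 1 := by
          rw [h1, Int.add_mul_ediv_right _ _ (by omega)]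
        have h3 : (K : ℤ) / c = b := by
          have h4 : K / c = b := by
            have e1 := P.Kb
            have e2 := P.rc
            rw [e1, Nat.mul_comm, Nat.add_comm, Nat.add_mul_div_right _ _ (by omega),
              Nat.div_eq_of_lt e2, Nat.zero_add]
          exact_mod_cast h4
        rw [← h2, h3]
      have hB' : (s : ℤ) / c = (b : ℤ) - 1 := by linarith
      rw [hB', hτ] at key
      have hKb : (K : ℤ) = c * b + ρ := by exact_mod_cast P.Kb
      unfold Phi
      have e1 : (s : ℤ) = c * b + ρ - c := by rw [hs, hKb]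
      rw [e1] at key
      nlinarith [key]
    · right
      exact key
  · intro C hC hle
    rw [hbC C hC] at hle
    rw [hbE C hC]
    apply hmono _ (hsub C hC)
    by_contra hge
    have := hlin _ (hsub C hC) (not_lt.1 hge)
    linarith
  · rw [hbC _ (Subset.refl _), hcov, hτ]
    ring

end Pool.Agent.Lib.P56507
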