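import Pool.Agent.Lib.P56507.RBas

/-!
The difference `gap m j = (j - 1) (⌈m j⌉ + 1) - 2 R m j`.

`gap m j = ∑_{0 < i < j} (⌈m j⌉ + 1 - ⌈m i⌉ - ⌈m (j - i)⌉)`; all terms are `≥ 0`
(`⌈x⌉ + ⌈y⌉ ≤ ⌈x + y⌉ + 1`), and the term is `≥ 1` (in fact `1`) if `i` or `j - i` is a multiple of
`q = m.den` (then `⌈m i⌉ + ⌈m (j - i)⌉ = ⌈m j⌉`).
-/

open Finset

namespace Pool.Agent.Lib.P56507

def gap (m : ℚ) (j : ℕ) : ℤ := ((j : ℤ) - 1) * (⌈m * (j : ℚ)⌉ + 1) - 2 * R m j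

namespace GapAux

theorem R_eq_Ico (m : ℚ) {j : ℕ} (hj : 1 ≤ j) : R m j = ∑ i ∈ Ico 1 j, ⌈m * (i : ℚ)⌉ := by
  rw [R, range_eq_Ico, sum_eq_sum_Ico_succ_bot (by omega)]
  simp

theorem refl_Ico (f : ℕ → ℤ) (j : ℕ) : ∑ i ∈ Ico 1 j, f (j - i) = ∑ i ∈ Ico 1 j, f i := by
  have h := sum_Ico_reflect f 1 (show j ≤ j + 1 by omega)
  rw [h]
  congr 1
  congr 1
  omega

theorem split (m : ℚ) {i j : ℕ} (hi : i ∈ Ico 1 j) :
    m * (j : ℚ) = m * (i : ℚ) + m * ((j - i : ℕ) : ℚ) := by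
  rw [mem_Ico] at hi
  rw [Nat.cast_sub (by omega)]
  ring

theorem term_nonneg (m : ℚ) {i j : ℕ} (hi : i ∈ Ico 1 j) :
    0 ≤ ⌈m * (j : ℚ)⌉ + 1 - ⌈m * (i : ℚ)⌉ - ⌈m * ((j - i : ℕ) : ℚ)⌉ := by
  rw [split m hi]
  have := Int.ceil_add_ceil_le (m * (i : ℚ)) (m * ((j - i : ℕ) : ℚ))
  linarith

theorem int_of_dvd (m : ℚ) {i : ℕ} (h : m.den ∣ i) : ∃ z : ℤ, m * (i : ℚ) = (z : ℚ) := by
  obtain ⟨z, rfl⟩ := h
  refine ⟨m.num * z, ?_⟩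
  push_cast
  rw [← mul_assoc, Rat.mul_den_eq_num]

theorem term_left (m : ℚ) {i j : ℕ} (hi : i ∈ Ico 1 j) (h : m.den ∣ i) :
    1 ≤ ⌈m * (j : ℚ)⌉ + 1 - ⌈m * (i : ℚ)⌉ - ⌈m * ((j - i : ℕ) : ℚ)⌉ := by
  obtain ⟨z, hz⟩ := int_of_dvd m h
  rw [split m hi, hz, Int.ceil_intCast_add, Int.ceil_intCast]
  linarith

theorem term_right (m : ℚ) {i j : ℕ} (hi : i ∈ Ico 1 j) (h : m.den ∣ j - i) :
    1 ≤ ⌈m * (j : ℚ)⌉ + 1 - ⌈m * (i : ℚ)⌉ - ⌈m * ((j - i : ℕ) : ℚ)⌉ := by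
  obtain ⟨z, hz⟩ := int_of_dvd m h
  rw [split m hi, hz, Int.ceil_add_intCast, Int.ceil_intCast]
  linarith

theorem count (q : ℕ) {j : ℕ} (hj : 1 ≤ j) :
    ∑ i ∈ Ico 1 j, (if q ∣ i then (1 : ℤ) else 0) = (((j - 1) / q : ℕ) : ℤ) := by
  have h := Nat.Ioc_filter_dvd_card_eq_div (j - 1) q
  have h2 : Ioc 0 (j - 1) = Ico 1 j := by
    ext x
    rw [mem_Ioc, mem_Ico]
    omega
  rw [h2] at h
  rw [← h, card_filter]
  push_cast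
  rfl

end GapAux

/-- `2 R m j = ∑_{0 < i < j} (⌈m i⌉ + ⌈m (j - i)⌉)`. -/
theorem gap_eq_sum (m : ℚ) {j : ℕ} (hj : 1 ≤ j) :
    gap m j = ∑ i ∈ Ico 1 j, (⌈m * (j : ℚ)⌉ + 1 - ⌈m * (i : ℚ)⌉ - ⌈m * ((j - i : ℕ) : ℚ)⌉) := by
  have h := GapAux.refl_Ico (fun i : ℕ => ⌈m * (i : ℚ)⌉) j
  rw [sum_sub_distrib, sum_sub_distrib, h, ← GapAux.R_eq_Ico m hj, gap, sum_const, Nat.card_Ico,
    nsmul_eq_mul, Nat.cast_sub hj]
  push_cast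
  ring

theorem gap_nonneg (m : ℚ) {j : ℕ} (hj : 1 ≤ j) : 0 ≤ gap m j := by
  rw [gap_eq_sum m hj]
  exact sum_nonneg fun i hi => GapAux.term_nonneg m hi

/-- The multiples of `q` in `(0, j)` are `(j - 1) / q` in number. -/
theorem gap_ge (m : ℚ) {j : ℕ} (hj : 1 ≤ j) : (((j - 1) / m.den : ℕ) : ℤ) ≤ gap m j := by
  rw [gap_eq_sum m hj, ← GapAux.count m.den hj]
  refine sum_le_sum fun i hi => ?_
  split_ifs with h
  · exact GapAux.term_left m hi h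
  · exact GapAux.term_nonneg m hi

/-- If `j` is no multiple of `q`, the numbers `i ∈ (0, j)` with `q ∣ i` and those with `q ∣ j - i` are
different, there are `(j - 1) / q` of each kind. -/
theorem gap_not_dvd (m : ℚ) {j : ℕ} (hj : 1 ≤ j) (h : ¬ m.den ∣ j) :
    2 * (((j - 1) / m.den : ℕ) : ℤ) ≤ gap m j := by
  have h1 := GapAux.count m.den hj
  have h2 := GapAux.refl_Ico (fun i : ℕ => if m.den ∣ i then (1 : ℤ) else 0) j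
  have h3 : 2 * (((j - 1) / m.den : ℕ) : ℤ) =
      ∑ i ∈ Ico 1 j, ((if m.den ∣ i then (1 : ℤ) else 0) + if m.den ∣ j - i then (1 : ℤ) else 0) := by
    rw [sum_add_distrib, h2, h1]
    ring
  rw [gap_eq_sum m hj, h3]
  refine sum_le_sum fun i hi => ?_
  by_cases ha : m.den ∣ i
  · have hb : ¬ m.den ∣ j - i := by
      intro hb
      apply h
      rw [mem_Ico] at hi
      have hc := Nat.dvd_add ha hb
      have hd : i + (j - i) = j := by omega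
      rwa [hd] at hc
    rw [if_pos ha, if_neg hb, add_zero]
    exact GapAux.term_left m hi ha
  · rw [if_neg ha, zero_add]
    split_ifs with hb
    · exact GapAux.term_right m hi hb
    · exact GapAux.term_nonneg m hi

end Pool.Agent.Lib.P56507
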