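import Pool.Agent.Lib.P56507.UStr
import Pool.Agent.Lib.P56507.AvgN
import Pool.Agent.Lib.P56507.Gap

/-!
A minimal set violating the exact bound: it has `q ν + 1` points, all `u_v ≥ 0`, all sets with at
most `k` points have excess at most `s`.
-/

open Finset

namespace Pool.Agent.Lib.P56507

variable {w : ℕ → ℕ → ℤ}

/-- The bound for the excess of a set with `N = ⌈n / q⌉`. -/
def exB (s c b ρ N : ℕ) : ℤ :=
  max ((N : ℤ) - (((N - ρ + b - 1) / b : ℕ) : ℤ)) (((min N (2 * s + 2) : ℕ) : ℤ) - c - 1)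

theorem exB_succ {s c b ρ N : ℕ} (hb : 1 ≤ b) (hN : ρ ≤ N) : exB s c b ρ N ≤ exB s c b ρ (N + 1) := by
  unfold exB
  refine max_le_max ?_ ?_
  · have h1 : (N + 1 - ρ + b - 1) / b ≤ (N - ρ + b - 1) / b + 1 := by
      have h2 : N + 1 - ρ + b - 1 ≤ (N - ρ + b - 1) + b := by omega
      calc (N + 1 - ρ + b - 1) / b ≤ ((N - ρ + b - 1) + b) / b := Nat.div_le_div_right h2
        _ = (N - ρ + b - 1) / b + 1 := Nat.add_div_right _ (by omega)
    have h3 : (((N + 1 - ρ + b - 1) / b : ℕ) : ℤ) ≤ (((N - ρ + b - 1) / b : ℕ) : ℤ) + 1 := by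
      exact_mod_cast h1
    push_cast at h3 ⊢
    linarith
  · have h1 : min N (2 * s + 2) ≤ min (N + 1) (2 * s + 2) := by omega
    have h2 : ((min N (2 * s + 2) : ℕ) : ℤ) ≤ ((min (N + 1) (2 * s + 2) : ℕ) : ℤ) := by
      exact_mod_cast h1
    linarith

theorem exB_mono {s c b ρ N N' : ℕ} (hb : 1 ≤ b) (hN : ρ ≤ N) (h : N ≤ N') :
    exB s c b ρ N ≤ exB s c b ρ N' := by
  induction N', h using Nat.le_induction with
  | base => exact le_rfl
  | succ n hn ih => exact ih.trans (exB_succ hb (by omega))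

theorem exB_le {k q s K c b ρ N : ℕ} (P : Par k q s K c b ρ) (hN : K + 1 ≤ N) :
    exB s c b ρ N ≤ N - c - 1 := by
  have hK := P.Kb
  have hb : 1 ≤ b := by
    rcases Nat.eq_zero_or_pos b with h0 | h0
    · rw [h0, Nat.mul_zero] at hK
      have := P.rc
      have := P.sc
      omega
    · exact h0
  unfold exB
  refine max_le ?_ ?_
  · have h1 : c + 1 ≤ (N - ρ + b - 1) / b := by
      rw [Nat.le_div_iff_mul_le (by omega)]
      have : (c + 1) * b = c * b + b := by ring
      omega
    have h2 : (c : ℤ) + 1 ≤ (((N - ρ + b - 1) / b : ℕ) : ℤ) := by exact_mod_cast h1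
    linarith
  · have h1 : min N (2 * s + 2) ≤ N := by omega
    have h2 : ((min N (2 * s + 2) : ℕ) : ℤ) ≤ N := by exact_mod_cast h1
    linarith

theorem le_exB {k q s K c b ρ N : ℕ} (P : Par k q s K c b ρ) (hN : K + 1 ≤ N) :
    (s : ℤ) ≤ exB s c b ρ N := by
  have hK := P.Kb
  have hsc := P.sc
  have hb : 1 ≤ b := by
    rcases Nat.eq_zero_or_pos b with h0 | h0
    · rw [h0, Nat.mul_zero] at hK
      have := P.rc
      omega
    · exact h0
  refine le_trans ?_ (exB_mono hb (by omega : ρ ≤ K + 1) hN)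
  unfold exB
  refine le_trans ?_ (le_max_left _ _)
  have h1 : (K + 1 - ρ + b - 1) / b = c + 1 := by
    have : K + 1 - ρ + b - 1 = b * (c + 1) := by
      have : b * (c + 1) = c * b + b := by ring
      omega
    rw [this, Nat.mul_div_cancel_left _ (by omega)]
  rw [h1]
  push_cast
  omega

/-- A minimal counterexample: `n = q ν + 1`, all `u_v ≥ 0`, all sets with at most `k` points have
excess at most `s`, `ν + 1 ≥ 2 s + 3`. -/
theorem fin_mono (hw : ∀ x y, w x y = w y x) {m : ℚ} {k s K c b ρ : ℕ}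
    (P : Par k m.den s K c b ρ) {V₀ : Finset ℕ} (hV₀ : k ≤ V₀.card)
    (h₀ : Cond k (R m k + s) w V₀) (hbad : exB s c b ρ (Nq m.den V₀.card) < ex m w V₀) :
    ∃ V ⊆ V₀, ∃ ν : ℕ, V.card = m.den * ν + 1 ∧ K + 1 ≤ ν ∧ k < V.card ∧
      Cond k (R m k + s) w V ∧ (∀ v ∈ V, 0 ≤ uu m w V ν v) ∧
      (∀ T ⊆ V, T.card ≤ k → ex m w T ≤ s) ∧ 2 * s + 3 ≤ ν + 1 ∧
      (∀ A ⊂ V, k ≤ A.card → ex m w A ≤ exB s c b ρ (Nq m.den A.card)) ∧
      exB s c b ρ (ν + 1) < ex m w V := by
  classical
  have hq : 1 ≤ m.den := m.den_pos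
  have hKb := P.Kb
  have hsc := P.sc
  have hc1 := P.c1
  have hk1 := P.k1
  have hk2 := P.k2
  have hb : 1 ≤ b := by
    rcases Nat.eq_zero_or_pos b with h0 | h0
    · rw [h0, Nat.mul_zero] at hKb
      have := P.rc
      omega
    · exact h0
  have hk : 2 ≤ k := by
    have : 1 * 1 ≤ m.den * K := Nat.mul_le_mul hq (by omega)
    omega
  have hNge : ∀ j, k ≤ j → K + 1 ≤ Nq m.den j := by
    intro j hj
    unfold Nq
    rw [Nat.le_div_iff_mul_le (by omega)]
    have : (K + 1) * m.den = m.den * K + m.den := by ring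
    omega
  -- the minimal counterexample
  obtain ⟨V, hVm, hVmin⟩ := (V₀.powerset.filter
    (fun A => k ≤ A.card ∧ exB s c b ρ (Nq m.den A.card) < ex m w A)).exists_min_image
    (fun A => A.card) ⟨V₀, by simp [hV₀, hbad]⟩
  rw [mem_filter, mem_powerset] at hVm
  obtain ⟨hVV, hVk, hVbad⟩ := hVm
  have hmin : ∀ A ⊂ V, k ≤ A.card → ex m w A ≤ exB s c b ρ (Nq m.den A.card) := by
    intro A hA hAk
    by_contra hcon
    push Not at hcon
    have h1 := hVmin A (by
      rw [mem_filter, mem_powerset]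
      exact ⟨hA.subset.trans hVV, hAk, hcon⟩)
    have h2 := card_lt_card hA
    omega
  have hC : Cond k (R m k + s) w V := h₀.subset hVV
  -- `|V| > k`
  have hVk' : k < V.card := by
    rcases Nat.eq_or_lt_of_le hVk with h1 | h1
    · exfalso
      have h2 := hC V (Subset.refl _) h1.symm
      have h3 := le_exB P (hNge V.card hVk)
      have h4 : ex m w V ≤ s := by
        unfold ex
        rw [← h1]
        linarith
      linarith
    · exact h1
  have herase : ∀ v ∈ V, ex m w (V.erase v) ≤ exB s c b ρ (Nq m.den (V.card - 1)) := by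
    intro v hv
    have hc1 : (V.erase v).card = V.card - 1 := card_erase_of_mem hv
    have h2 := hmin (V.erase v) (erase_ssubset hv) (by omega)
    rwa [hc1] at h2
  -- `q` divides `|V| - 1`
  have hd : m.den ∣ V.card - 1 := by
    by_contra hd
    have hN : Nq m.den (V.card - 1) = Nq m.den V.card ∧
        Nq m.den V.card = (V.card - 1 - 1) / m.den + 1 := by
      unfold Nq
      obtain ⟨j, hj⟩ : ∃ j, V.card = j + 2 := ⟨V.card - 2, by omega⟩
      rw [hj] at hd ⊢
      have e0 : j + 2 - 1 = j + 1 := by omega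
      rw [e0] at hd ⊢
      have e1 : j + 2 + m.den - 1 = j + 1 + m.den := by omega
      have e2 : j + 1 + m.den - 1 = j + m.den := by omega
      rw [e1, e2, Nat.add_div_right _ (by omega), Nat.add_div_right _ (by omega),
        Nat.succ_div, if_neg hd]
      simp
    rw [hN.1] at herase
    have h1 := step_same hw m (by omega : 3 ≤ V.card) herase (by
      have g1 := gap_not_dvd m (j := V.card - 1) (by omega) hd
      have g2 := exB_le P (hNge V.card hVk)
      have g3 : (Nq m.den V.card : ℤ) = ((((V.card - 1 - 1) / m.den : ℕ)) : ℤ) + 1 := by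
        rw [hN.2]; push_cast; ring
      have g4 : (1 : ℤ) ≤ c := by exact_mod_cast hc1
      linarith)
    linarith
  obtain ⟨ν, hν⟩ := hd
  have hcard : V.card = m.den * ν + 1 := by omega
  have hN : Nq m.den V.card = ν + 1 := by
    unfold Nq
    have : V.card + m.den - 1 = m.den * (ν + 1) := by
      rw [Nat.mul_succ]; omega
    rw [this, Nat.mul_div_cancel_left _ (by omega)]
  have hN1 : Nq m.den (V.card - 1) = ν := by
    unfold Nq
    rw [hν]
    have : m.den * ν + m.den - 1 = m.den * ν + (m.den - 1) := by omega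
    rw [this, Nat.mul_add_div (by omega), Nat.div_eq_of_lt (by omega)]
    omega
  have hνK : K + 1 ≤ ν := by
    have := hNge (V.card - 1) (by omega)
    omega
  rw [hN1] at herase
  rw [hN] at hVbad
  have hu : ∀ v ∈ V, 0 ≤ uu m w V ν v := by
    intro v hv
    refine uu_nonneg hw hcard hv ?_
    have h1 := herase v hv
    have h2 := exB_succ (s := s) (c := c) (N := ν) hb (by omega : ρ ≤ ν)
    linarith
  -- `ν + 1 ≥ 2 s + 3`
  have h2s : 2 * s + 3 ≤ ν + 1 := by
    by_contra hcon
    have h1 := lin hw (c := (c : ℤ)) (by exact_mod_cast hc1) hk P.k1 P.k2 hVk (by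
      have : (s : ℤ) = (K : ℤ) - c := by omega
      rw [← this]
      exact hC)
    rw [hN] at h1
    have h2 : ((ν + 1 : ℕ) : ℤ) - c - 1 ≤ exB s c b ρ (ν + 1) := by
      unfold exB
      refine le_trans ?_ (le_max_right _ _)
      rw [min_eq_left (by omega : ν + 1 ≤ 2 * s + 2)]
    linarith
  refine ⟨V, hVV, ν, hcard, hνK, hVk', hC, hu, ?_, h2s, hmin, hVbad⟩
  -- sets with at most `k` points
  by_contra hcon
  push Not at hcon
  obtain ⟨T₀, hT₀, hT₀k, hT₀s⟩ := hcon
  obtain ⟨T, hTm, hTmax⟩ := (V.powerset.filter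
    (fun A => A.card ≤ k ∧ (s : ℤ) < ex m w A)).exists_max_image
    (fun A => A.card) ⟨T₀, by simp [hT₀, hT₀k, hT₀s]⟩
  rw [mem_filter, mem_powerset] at hTm
  obtain ⟨hTV, hTk, hTs⟩ := hTm
  have hTk' : T.card < k := by
    rcases Nat.eq_or_lt_of_le hTk with h1 | h1
    · exfalso
      have h2 := hC T hTV h1
      unfold ex at hTs
      rw [h1] at hTs
      linarith
    · exact h1
  have hT1 : 1 ≤ T.card := by
    rcases Nat.eq_zero_or_pos T.card with h1 | h1
    · exfalso
      rw [card_eq_zero] at h1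
      rw [h1] at hTs
      unfold ex at hTs
      rw [W_empty, card_empty, R_zero] at hTs
      have : (0 : ℤ) ≤ s := by positivity
      linarith
    · exact h1
  have hdg : ∀ v ∈ V \ T, dg w v T ≤ ⌈m * (T.card : ℚ)⌉ + s - ex m w T := by
    intro v hv
    rw [mem_sdiff] at hv
    have h1 : ex m w (insert v T) ≤ s := by
      by_contra hcon
      push Not at hcon
      have h2 := hTmax (insert v T) (by
        rw [mem_filter, mem_powerset]
        refine ⟨insert_subset hv.1 hTV, ?_, hcon⟩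
        rw [card_insert_of_notMem hv.2]
        omega)
      rw [card_insert_of_notMem hv.2] at h2
      omega
    unfold ex at h1 ⊢
    rw [W_insert hw hv.2, card_insert_of_notMem hv.2, R_succ] at h1
    linarith
  have hTc : (V \ T).card = V.card - T.card := card_sdiff_of_subset hTV
  have hTc' : T.card + (V \ T).card = V.card := by
    have := card_le_card hTV
    omega
  have hT'2 : 2 ≤ (V \ T).card := by omega
  have hsum : ∑ v ∈ V \ T, dg w v T ≤
      ((V \ T).card : ℤ) * (⌈m * (T.card : ℚ)⌉ + s - ex m w T) := by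
    have := sum_le_sum hdg
    rwa [sum_const, nsmul_eq_mul] at this
  have hWV := W_sdiff hw hTV
  have hsup := R_super m T.card (V \ T).card
  rw [hTc'] at hsup
  have heu := ex_eq_uu hw hcard (T := V \ T) sdiff_subset (by omega)
  have hss : V \ (V \ T) = T := Finset.sdiff_sdiff_eq_self hTV
  rw [hss] at heu
  have hNT := Nq_pos hq (by omega : 1 ≤ (V \ T).card)
  have hNT' : (Nq m.den (V \ T).card : ℤ) = ((((V \ T).card - 1) / m.den : ℕ) : ℤ) + 1 := by
    rw [hNT]; push_cast; ring
  have hus := uu_sum hw hcard (V := V) (ν := ν)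
  have hsplit := sum_sdiff (f := fun v => uu m w V ν v) hTV
  have hTnn : 0 ≤ ∑ v ∈ T, uu m w V ν v := sum_nonneg fun v hv => hu v (hTV hv)
  have hexV : ex m w V = W w V - R m V.card := rfl
  have hexT : ex m w T = W w T - R m T.card := rfl
  have hexT' : ex m w (V \ T) = W w (V \ T) - R m (V \ T).card := rfl
  have hprod : 2 * (ex m w T - s - 1) ≤ ((V \ T).card : ℤ) * (ex m w T - s - 1) :=
    mul_le_mul_of_nonneg_right (by exact_mod_cast hT'2) (by linarith)
  have e1 : ((V \ T).card : ℤ) * (⌈m * (T.card : ℚ)⌉ + s - ex m w T) =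
    ((V \ T).card : ℤ) * (⌈m * (T.card : ℚ)⌉ - 1) - ((V \ T).card : ℤ) * (ex m w T - s - 1) := by
    ring
  rw [e1] at hsum
  have h2s' : 2 * (s : ℤ) + 3 ≤ ν + 1 := by exact_mod_cast h2s
  linarith

end Pool.Agent.Lib.P56507
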