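import Pool.Agent.Lib.P56507.Snoc

/-!
Stage 2: many exact ordinary blocks.
-/

open Finset

namespace Pool.Agent.Lib.P56507

variable {w : ℕ → ℕ → ℤ} {m : ℚ} {V : Finset ℕ} {k s K c b ρ T : ℕ} {S U : ℕ → Finset ℕ}
  {z : ℕ → ℕ} {f : ℕ → ℤ}

/-- Proof. Let `T = t + T₂`. By `C.Phi_eq` (chain of length `T`)
`Phi V = ∑_{i < t} (b f i - (b - 1) z i) - ∑_{t ≤ i < T} (b - z i) - b W lam (range T) - b ∑ df
+ Phi (U T)` with `Phi (U T) ≤ 0` (`HP.Phi_le`), `b f i - (b - 1) z i ≤ b s`, `Phi V ≥ - D`, so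
`∑_{t ≤ i < T} (b - z i) + b W lam (range T) ≤ t b s + D`, hence
`∑_{t ≤ i < T} (b - z i) + W lam (range T) ≤ t b s + D < T₂ - K`.
Let `B` be the set of `t ≤ g < T` such that `z g < b` or `lam i g ≥ 1` for some `i < g`. Every such
`g` contributes at least `1` to the left hand side (`W lam (range T) = ∑_{g < T} ∑_{i < g} lam i g`,
all terms nonnegative), so `|B| ≤ t b s + D`. Take for `G` any `K + 1` elements of `Ico t T \ B`. -/
theorem good (hw : ∀ x y, w x y = w y x) (P : Par k m.den s K c b ρ) {D T₂ t : ℕ}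
    {S U : ℕ → Finset ℕ} {z : ℕ → ℕ} {f : ℕ → ℤ}
    (C : Chain m w V s K (t + T₂) S U z f) (hD : -(D : ℤ) ≤ Phi b m w V)
    (hU : Phi b m w (U (t + T₂)) ≤ 0) (hT₂ : t * (b * s) + D + K + 1 ≤ T₂)
    (hord : ∀ i, t ≤ i → i < t + T₂ → f i = (z i : ℤ) - 1 ∧ z i ≤ b) :
    ∃ G ⊆ Ico t (t + T₂), G.card = K + 1 ∧ (∀ g ∈ G, z g = b ∧ f g = (b : ℤ) - 1) ∧
      ∀ g ∈ G, ∀ i < g, lam m w S z i g = 0 := by
  classical
  have hb : 1 ≤ b := P.b1
  obtain ⟨T, hT⟩ : ∃ T, T = t + T₂ := ⟨_, rfl⟩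
  rw [← hT] at C hU hord ⊢
  have hlam : ∀ g < T, ∀ i < g, 0 ≤ lam m w S z i g := fun g hg i hi =>
    C.lam_nonneg hw (by omega) (by omega) hg
  -- the sum of the deficits
  have hW : W (lam m w S z) (range T) = ∑ g ∈ range T, ∑ i ∈ range g, lam m w S z i g := by
    rw [W, Finset.sum_filter, Finset.sum_product_right]
    refine Finset.sum_congr rfl fun g hg => ?_
    rw [← Finset.sum_filter]
    refine Finset.sum_congr ?_ fun _ _ => rfl
    ext i
    have := Finset.mem_range.mp hg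
    simp only [Finset.mem_filter, Finset.mem_range]
    omega
  have hsub : Ico t T ⊆ range T := fun i hi => by
    rw [Finset.mem_Ico] at hi
    exact Finset.mem_range.mpr hi.2
  have hW2 : ∑ g ∈ Ico t T, ∑ i ∈ range g, lam m w S z i g ≤ W (lam m w S z) (range T) := by
    rw [hW]
    refine Finset.sum_le_sum_of_subset_of_nonneg hsub fun g hg _ => ?_
    exact Finset.sum_nonneg fun i hi => hlam g (Finset.mem_range.mp hg) i (Finset.mem_range.mp hi)
  -- the terms of the potential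
  have hx : ∑ i ∈ range T, ((b : ℤ) * f i - ((b : ℤ) - 1) * z i) ≤
      t * (b * s) - ∑ i ∈ Ico t T, ((b : ℤ) - z i) := by
    have h1 : range T = range t ∪ Ico t T := by
      ext i
      simp only [Finset.mem_union, Finset.mem_range, Finset.mem_Ico]
      omega
    have h2 : Disjoint (range t) (Ico t T) := by
      rw [Finset.disjoint_left]
      intro i hi hi'
      rw [Finset.mem_range] at hi
      rw [Finset.mem_Ico] at hi'
      omega
    rw [h1, Finset.sum_union h2]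
    have h3 : ∑ i ∈ range t, ((b : ℤ) * f i - ((b : ℤ) - 1) * z i) ≤ t * (b * s) := by
      have h4 : ∑ i ∈ range t, ((b : ℤ) * f i - ((b : ℤ) - 1) * z i) ≤
          ∑ _i ∈ range t, ((b : ℤ) * s) :=
        Finset.sum_le_sum fun i hi => C.x_le hb (by
          have := Finset.mem_range.mp hi
          omega)
      simpa using h4
    have h5 : ∑ i ∈ Ico t T, ((b : ℤ) * f i - ((b : ℤ) - 1) * z i) =
        -∑ i ∈ Ico t T, ((b : ℤ) - z i) := by
      rw [← Finset.sum_neg_distrib]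
      refine Finset.sum_congr rfl fun i hi => ?_
      rw [Finset.mem_Ico] at hi
      rw [(hord i hi.1 hi.2).1]
      ring
    rw [h5]
    linarith
  have hPhi := C.Phi_eq hw b
  have hdf := C.df_U_nonneg
  have hWn := C.W_lam_nonneg hw (subset_refl (range T))
  have hb' : (1 : ℤ) ≤ b := by exact_mod_cast hb
  have hbdf : 0 ≤ (b : ℤ) * ∑ i ∈ range T, df m w S z i (U T) :=
    mul_nonneg (by linarith) hdf
  have hbW : W (lam m w S z) (range T) ≤ (b : ℤ) * W (lam m w S z) (range T) := by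
    nlinarith
  have htot : ∑ g ∈ Ico t T, (((b : ℤ) - z g) + ∑ i ∈ range g, lam m w S z i g) ≤
      t * (b * s) + D := by
    rw [Finset.sum_add_distrib]
    linarith
  -- the bad blocks
  set Bd : Finset ℕ := (Ico t T).filter fun g => z g < b ∨ ∃ i < g, 1 ≤ lam m w S z i g with hBd
  have hterm : ∀ g ∈ Ico t T, 0 ≤ ((b : ℤ) - z g) + ∑ i ∈ range g, lam m w S z i g := by
    intro g hg
    rw [Finset.mem_Ico] at hg
    have h1 : (z g : ℤ) ≤ b := by exact_mod_cast (hord g hg.1 hg.2).2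
    have h2 : 0 ≤ ∑ i ∈ range g, lam m w S z i g :=
      Finset.sum_nonneg fun i hi => hlam g hg.2 i (Finset.mem_range.mp hi)
    linarith
  have hterm' : ∀ g ∈ Bd, 1 ≤ ((b : ℤ) - z g) + ∑ i ∈ range g, lam m w S z i g := by
    intro g hg
    rw [hBd, Finset.mem_filter] at hg
    obtain ⟨hg, hbad⟩ := hg
    rw [Finset.mem_Ico] at hg
    have h1 : (z g : ℤ) ≤ b := by exact_mod_cast (hord g hg.1 hg.2).2
    have h2 : 0 ≤ ∑ i ∈ range g, lam m w S z i g :=
      Finset.sum_nonneg fun i hi => hlam g hg.2 i (Finset.mem_range.mp hi)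
    rcases hbad with hz | ⟨i, hi, hl⟩
    · have : (z g : ℤ) + 1 ≤ b := by exact_mod_cast hz
      linarith
    · have h3 : lam m w S z i g ≤ ∑ i ∈ range g, lam m w S z i g :=
        Finset.single_le_sum (f := fun i => lam m w S z i g)
          (fun j hj => hlam g hg.2 j (Finset.mem_range.mp hj)) (Finset.mem_range.mpr hi)
      linarith
  have hBcard : Bd.card ≤ t * (b * s) + D := by
    have h1 : (Bd.card : ℤ) ≤ ∑ g ∈ Bd, (((b : ℤ) - z g) + ∑ i ∈ range g, lam m w S z i g) := by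
      have := Finset.sum_le_sum hterm'
      simpa using this
    have h2 : ∑ g ∈ Bd, (((b : ℤ) - z g) + ∑ i ∈ range g, lam m w S z i g) ≤
        ∑ g ∈ Ico t T, (((b : ℤ) - z g) + ∑ i ∈ range g, lam m w S z i g) :=
      Finset.sum_le_sum_of_subset_of_nonneg (Finset.filter_subset _ _) fun g hg _ => hterm g hg
    have h3 : (Bd.card : ℤ) ≤ ((t * (b * s) + D : ℕ) : ℤ) := by
      push_cast
      linarith
    exact_mod_cast h3
  have hcard : K + 1 ≤ (Ico t T \ Bd).card := by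
    have h1 : (Ico t T \ Bd).card = (Ico t T).card - Bd.card :=
      Finset.card_sdiff_of_subset (Finset.filter_subset _ _)
    rw [Nat.card_Ico] at h1
    have h2 : T - t = T₂ := by rw [hT]; exact Nat.add_sub_cancel_left t T₂
    rw [h2] at h1
    rw [h1]
    clear_value Bd
    clear hWn hbW hbdf htot hPhi hx hW2 hW hdf
    omega
  obtain ⟨G, hG, hGc⟩ := Finset.exists_subset_card_eq hcard
  have hGB : ∀ g ∈ G, g ∈ Ico t T ∧ ¬ (z g < b ∨ ∃ i < g, 1 ≤ lam m w S z i g) := by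
    intro g hg
    have h1 := Finset.mem_sdiff.mp (hG hg)
    refine ⟨h1.1, fun h2 => h1.2 ?_⟩
    rw [hBd, Finset.mem_filter]
    exact ⟨h1.1, h2⟩
  refine ⟨G, fun g hg => (hGB g hg).1, hGc, fun g hg => ?_, fun g hg i hi => ?_⟩
  · obtain ⟨h1, h2⟩ := hGB g hg
    rw [Finset.mem_Ico] at h1
    push Not at h2
    have h3 := hord g h1.1 h1.2
    have h4 : z g = b := le_antisymm h3.2 h2.1
    exact ⟨h4, by rw [h3.1, h4]⟩
  · obtain ⟨h1, h2⟩ := hGB g hg
    rw [Finset.mem_Ico] at h1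
    push Not at h2
    have h3 := h2.2 i hi
    have h4 := hlam g h1.2 i hi
    omega

end Pool.Agent.Lib.P56507
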