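import Pool.Agent.Lib.P56507.WBas

/-!
A sparse symmetric nonnegative integer array has a large set of indices with all entries zero.
-/

open Finset

namespace Pool.Agent.Lib.P56507

/-- Greedy choice. Induction on `M`: if `M ≥ 1`, `Y` is nonempty, take `i ∈ Y`, remove `i` and the
at most `d` elements `j` with `a i j ≠ 0`, at least `(M - 1) (d + 1)` elements are left. -/
theorem greedy {a : ℕ → ℕ → ℤ} (ha : ∀ x y, a x y = a y x) (d M : ℕ) {Y : Finset ℕ}
    (hd : ∀ i ∈ Y, {j ∈ Y | j ≠ i ∧ a i j ≠ 0}.card ≤ d) (hM : M * (d + 1) ≤ Y.card) :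
    ∃ Z ⊆ Y, Z.card = M ∧ ∀ i ∈ Z, ∀ j ∈ Z, i ≠ j → a i j = 0 := by
  classical
  induction M generalizing Y with
  | zero => exact ⟨∅, empty_subset _, rfl, by simp⟩
  | succ M IH =>
    have hne : Y.Nonempty := by
      rw [← card_pos]
      have : (M + 1) * (d + 1) = M * (d + 1) + (d + 1) := by ring
      omega
    obtain ⟨i, hi⟩ := hne
    set B : Finset ℕ := {j ∈ Y | j ≠ i ∧ a i j ≠ 0} with hB
    have hBd : B.card ≤ d := hd i hi
    set Y' : Finset ℕ := {j ∈ Y | j ≠ i ∧ a i j = 0} with hY'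
    have hY'Y : Y' ⊆ Y := filter_subset _ _
    have hsplit : Y ⊆ insert i (B ∪ Y') := by
      intro j hj
      by_cases h1 : j = i
      · simp [h1]
      · by_cases h2 : a i j = 0
        · simp [hY', h1, h2, hj]
        · simp [hB, h1, h2, hj]
    have hcard : Y.card ≤ 1 + (B.card + Y'.card) := by
      refine (card_le_card hsplit).trans ((card_insert_le _ _).trans ?_)
      have := card_union_le B Y'
      omega
    have hM' : M * (d + 1) ≤ Y'.card := by
      have : (M + 1) * (d + 1) = M * (d + 1) + (d + 1) := by ring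
      omega
    obtain ⟨Z, hZ, hZc, hZa⟩ := IH (Y := Y') (fun j hj => by
      refine (card_le_card ?_).trans (hd j (hY'Y hj))
      intro l hl
      rw [mem_filter] at hl ⊢
      exact ⟨hY'Y hl.1, hl.2⟩) hM'
    have hiZ : i ∉ Z := by
      intro h
      have := hZ h
      rw [hY', mem_filter] at this
      exact this.2.1 rfl
    refine ⟨insert i Z, ?_, ?_, ?_⟩
    · intro j hj
      rcases mem_insert.1 hj with rfl | hj
      · exact hi
      · exact hY'Y (hZ hj)
    · rw [card_insert_of_notMem hiZ, hZc]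
    · intro j hj l hl hjl
      rcases mem_insert.1 hj with rfl | hj'
      · rcases mem_insert.1 hl with rfl | hl'
        · exact absurd rfl hjl
        · have := hZ hl'
          rw [hY', mem_filter] at this
          exact this.2.2
      · rcases mem_insert.1 hl with rfl | hl'
        · have := hZ hj'
          rw [hY', mem_filter] at this
          rw [ha]
          exact this.2.2
        · exact hZa j hj' l hl' hjl

/-- Proof. `D i = dg a i ((range T).erase i) ≥ 0`, `∑ D i = 2 W a (range T) ≤ 2 A T` (`two_W`). Let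
`Y = {i < T | D i ≤ 4 A}`. The others have `D i ≥ 4 A + 1`, so there are at most `T / 2` of them
(if `A = 0` all `D i = 0`), `|Y| ≥ T / 2 ≥ M (4 A + 1)`. For `i ∈ Y` the number of `j ≠ i` with
`a i j ≠ 0`, that is `a i j ≥ 1`, is at most `D i ≤ 4 A`. Apply `greedy` with `d = 4 A`. -/
theorem graph {a : ℕ → ℕ → ℤ} (ha : ∀ x y, a x y = a y x) {T A M : ℕ}
    (hT : 2 * (M * (4 * A + 1)) ≤ T)
    (hpos : ∀ i < T, ∀ j < T, i ≠ j → 0 ≤ a i j) (hW : W a (range T) ≤ (A : ℤ) * T) :
    ∃ Z ⊆ range T, Z.card = M ∧ ∀ i ∈ Z, ∀ j ∈ Z, i ≠ j → a i j = 0 := by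
  classical
  set D : ℕ → ℤ := fun i => dg a i ((range T).erase i) with hD
  have hD0 : ∀ i ∈ range T, 0 ≤ D i := by
    intro i hi
    refine sum_nonneg fun j hj => ?_
    rw [mem_erase] at hj
    exact hpos i (mem_range.1 hi) j (mem_range.1 hj.2) (Ne.symm hj.1)
  have hsum : ∑ i ∈ range T, D i ≤ 2 * (A * T) := by
    have := two_W ha (range T)
    rw [← this]
    linarith
  set Y : Finset ℕ := {i ∈ range T | D i ≤ 4 * A} with hY
  have hYc : T ≤ 2 * Y.card := by
    set Q : Finset ℕ := {i ∈ range T | ¬ D i ≤ 4 * A} with hQ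
    have h1 : Y.card + Q.card = T := by
      have := card_filter_add_card_filter_not (s := range T) (fun i => D i ≤ 4 * (A : ℤ))
      rw [card_range] at this
      exact this
    have h2 : (Q.card : ℤ) * (4 * A + 1) ≤ ∑ i ∈ Q, D i := by
      have h3 : ∑ i ∈ Q, ((4 : ℤ) * A + 1) ≤ ∑ i ∈ Q, D i := by
        refine sum_le_sum fun i hi => ?_
        rw [hQ, mem_filter] at hi
        have := hi.2
        omega
      rwa [sum_const, nsmul_eq_mul] at h3
    have h3 : ∑ i ∈ Q, D i ≤ ∑ i ∈ range T, D i :=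
      sum_le_sum_of_subset_of_nonneg (filter_subset _ _) fun i hi _ => hD0 i hi
    have h4 : (Q.card : ℤ) * (4 * A + 1) ≤ 2 * (A * T) := h2.trans (h3.trans hsum)
    have h5 : ((Y.card + Q.card : ℕ) : ℤ) = T := by rw [h1]
    push_cast at h5
    have h6 : 2 * (Q.card : ℤ) ≤ T := by
      by_contra hc
      push Not at hc
      have hA : (0 : ℤ) ≤ A := by positivity
      nlinarith
    zify
    linarith
  have hMY : M * (4 * A + 1) ≤ Y.card := by omega
  obtain ⟨Z, hZ, hZc, hZa⟩ := greedy ha (4 * A) M (Y := Y) (fun i hi => by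
    rw [hY, mem_filter] at hi
    have h1 : (({j ∈ Y | j ≠ i ∧ a i j ≠ 0}.card : ℕ) : ℤ) ≤ D i := by
      have h2 : ∑ j ∈ {j ∈ Y | j ≠ i ∧ a i j ≠ 0}, (1 : ℤ) ≤
          ∑ j ∈ {j ∈ Y | j ≠ i ∧ a i j ≠ 0}, a i j := by
        refine sum_le_sum fun j hj => ?_
        rw [mem_filter, hY, mem_filter] at hj
        have h3 := hpos i (mem_range.1 hi.1) j (mem_range.1 hj.1.1) (Ne.symm hj.2.1)
        have h4 := hj.2.2
        omega
      have h3 : ∑ j ∈ {j ∈ Y | j ≠ i ∧ a i j ≠ 0}, a i j ≤ D i := by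
        refine sum_le_sum_of_subset_of_nonneg ?_ ?_
        · intro j hj
          rw [mem_filter, hY, mem_filter] at hj
          exact mem_erase.2 ⟨hj.2.1, hj.1.1⟩
        · intro j hj _
          rw [mem_erase] at hj
          exact hpos i (mem_range.1 hi.1) j (mem_range.1 hj.2) (Ne.symm hj.1)
      have h4 : (({j ∈ Y | j ≠ i ∧ a i j ≠ 0}.card : ℕ) : ℤ) =
          ∑ j ∈ {j ∈ Y | j ≠ i ∧ a i j ≠ 0}, (1 : ℤ) := by simp
      rw [h4]
      exact h2.trans h3
    have h5 := h1.trans hi.2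
    exact_mod_cast h5) hMY
  exact ⟨Z, hZ.trans (filter_subset _ _), hZc, hZa⟩

end Pool.Agent.Lib.P56507
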