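import Pool.Agent.Lib.P56507.MonoJ
import Pool.Agent.Lib.P56507.Small

/-!
The induction over `|V|`.
-/

open Finset

namespace Pool.Agent.Lib.P56507

variable {w : ℕ → ℕ → ℤ}

/-- Proof. Strong induction on `n = |V|`, for all `V ⊆ V₀` (the hypotheses `h`, `hQ` are inherited by
subsets). `n = k`: `N = K + 1`, `hh (K + 1) = 1`. Let `n > k`, `N = Nq q n`, all `n - 1 ≥ k`.

If `q ∤ n - 1`: `Nq q (n - 1) = N = (n - 2) / q + 1`, `step_same` with `B = N - c - hh N`:
`2 B ≤ 2 (N - 2) < 2 (N - 1) ≤ gap m (n - 1)` (`gap_not_dvd`).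

If `n = q ν + 1`: `N = ν + 1`, `Nq q (n - 1) = ν ≥ K + 1`.
 If `hh (ν + 1) = hh ν`: `step_one` with `B = ν - c - hh ν`: `2 B ≤ 2 (ν - 2)`,
 `gap m (n - 1) ≥ (n - 2) / q = ν - 1`, `n - 2 = q ν - 1 ≥ ν - 1`.
 Otherwise `hh (ν + 1) = hh ν + 1` and we have `P2`, `P4`, `P5` for `N`. If `V` is monotone, use
 `mono_jump`. If not, `last_desc` (with `a = K - c`) gives `S`, `T = V \ S`,
 `ex V ≤ K - c + 1 + ex T - N(T)`. If `|T| ≥ k`: the induction hypothesis gives
 `ex T ≤ N(T) - c - 1` (`hh ≥ 1`), so `ex V ≤ K - 2 c ≤ N - c - hh N` by `P5`. If `|T| < k`: then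
 `q ν + 1 = n ≤ 2 (k - 1)`, so by the last part of `hjump` `ν = 2 K + 1` or (`ν = 2 K` and `c = 1`),
 and `hh (ν + 1) = 2`; `small` gives `ex V ≤ ν - c - 1 = N - c - 2`. -/
theorem ind_jump (hw : ∀ x y, w x y = w y x) {m : ℚ} {k K : ℕ} {c : ℤ} (hc : 1 ≤ c)
    (hK : 1 ≤ K) (k1 : m.den * K + 1 ≤ k) (k2 : k ≤ m.den * K + m.den) {V : Finset ℕ}
    (hV : k ≤ V.card) (h : Cond k (R m k + (K - c)) w V) {hh : ℕ → ℕ}
    (hQ : ∀ K' < K, ∀ (k' : ℕ) (c' : ℤ), 1 ≤ c' → m.den * K' + 1 ≤ k' →
      k' ≤ m.den * K' + m.den → ∀ A ⊆ V, k' ≤ A.card → Cond k' (R m k' + (K' - c')) w A →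
        ex m w A ≤ Nq m.den A.card - c' - ((Nq m.den A.card / (K' + 1) : ℕ) : ℤ))
    (h0 : hh (K + 1) = 1) (h1 : ∀ N, K + 1 ≤ N → 1 ≤ hh N)
    (hjump : ∀ ν, K + 1 ≤ ν → hh (ν + 1) = hh ν ∨
      (hh (ν + 1) = hh ν + 1 ∧ (∀ z, 1 ≤ z → z ≤ K → hh (ν + 1) ≤ hh (ν + 1 - z) + 1) ∧
        (∀ z, 1 ≤ z → z ≤ K → hh (ν + 1) ≤ (ν + 1 - z) / (K - z + 1)) ∧
        2 * K + hh (ν + 1) ≤ ν + 2 ∧
        (2 * (k - 1) < m.den * ν + 1 ∨
          hh (ν + 1) = 2 ∧ (ν = 2 * K + 1 ∨ (ν = 2 * K ∧ c = 1))))) :
    ex m w V ≤ Nq m.den V.card - c - hh (Nq m.den V.card) := by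
  have hq : 1 ≤ m.den := m.den_pos
  have key : ∀ n : ℕ, ∀ A ⊆ V, A.card = n → k ≤ n →
      ex m w A ≤ Nq m.den A.card - c - hh (Nq m.den A.card) := by
    intro n
    induction n using Nat.strong_induction_on with
    | _ n ih =>
    intro A hA hAn hkn
    have hAk : k ≤ A.card := by omega
    have hcA : Cond k (R m k + (K - c)) w A := h.subset hA
    have hk2 : 2 ≤ k := by
      have : 1 * 1 ≤ m.den * K := Nat.mul_le_mul hq hK
      omega
    -- the monotonicity of `N`
    have hNge : ∀ j, k ≤ j → K + 1 ≤ Nq m.den j := by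
      intro j hj
      unfold Nq
      rw [Nat.le_div_iff_mul_le (by omega)]
      have : (K + 1) * m.den = m.den * K + m.den := by ring
      omega
    rcases Nat.eq_or_lt_of_le hkn with hkn' | hkn'
    · -- `n = k`
      have hN : Nq m.den A.card = K + 1 := by
        apply le_antisymm _ (hNge _ hAk)
        unfold Nq
        rw [← Nat.lt_succ_iff, Nat.div_lt_iff_lt_mul (by omega)]
        have : (K + 1).succ * m.den = m.den * K + m.den + m.den := by
          rw [Nat.succ_eq_add_one]; ring
        omega
      have h2 := hcA A (Finset.Subset.refl _) (by omega)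
      rw [hN, h0]
      have h3 : ex m w A = W w A - R m k := by
        simp only [ex]
        rw [hAn, ← hkn']
      rw [h3]
      push_cast
      linarith
    · -- `n > k`
      have hA3 : 3 ≤ A.card := by omega
      have herase : ∀ v ∈ A, ex m w (A.erase v) ≤
          Nq m.den (n - 1) - c - hh (Nq m.den (n - 1)) := by
        intro v hv
        have hc1 : (A.erase v).card = n - 1 := by rw [card_erase_of_mem hv, hAn]
        have h2 := ih (n - 1) (by omega) (A.erase v) ((erase_subset _ _).trans hA) hc1 (by omega)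
        rw [hc1] at h2
        exact h2
      by_cases hd : m.den ∣ n - 1
      · obtain ⟨ν, hν⟩ := hd
        have hN : Nq m.den A.card = ν + 1 := by
          rw [hAn]
          unfold Nq
          have : n + m.den - 1 = m.den * (ν + 1) := by
            rw [Nat.mul_succ]; omega
          rw [this, Nat.mul_div_cancel_left _ (by omega)]
        have hN1 : Nq m.den (n - 1) = ν := by
          unfold Nq
          rw [hν]
          have : m.den * ν + m.den - 1 = m.den * ν + (m.den - 1) := by omega
          rw [this, Nat.mul_add_div (by omega), Nat.div_eq_of_lt (by omega)]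
          omega
        have hνK : K + 1 ≤ ν := by
          have := hNge (n - 1) (by omega)
          omega
        rw [hN1] at herase
        rw [hN]
        have hhν := h1 ν hνK
        rcases hjump ν hνK with hj | ⟨hj, P2, P4, P5, P6⟩
        · have hB : 2 * ((ν : ℤ) - c - hh ν) < gap m (A.card - 1) + ((A.card : ℤ) - 2) := by
            have g1 := gap_ge m (j := A.card - 1) (by omega)
            have g2 : (A.card - 1 - 1) / m.den = ν - 1 := by
              rw [hAn, hν]
              obtain ⟨y, rfl⟩ : ∃ y, ν = y + 1 := ⟨ν - 1, by omega⟩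
              have e1 : m.den * (y + 1) - 1 = m.den * y + (m.den - 1) := by
                rw [Nat.mul_succ]; omega
              rw [e1, Nat.mul_add_div (by omega), Nat.div_eq_of_lt (by omega)]
              omega
            rw [g2] at g1
            have g3 : ((ν - 1 : ℕ) : ℤ) = (ν : ℤ) - 1 := by omega
            rw [g3] at g1
            have g4 : ν ≤ m.den * ν := Nat.le_mul_of_pos_left ν hq
            have g5 : (ν : ℤ) + 1 ≤ A.card := by
              have : ν + 1 ≤ A.card := by omega
              exact_mod_cast this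
            have g6 : (1 : ℤ) ≤ hh ν := by exact_mod_cast hhν
            linarith
          have h2 := step_one hw m hA3 herase hB
          rw [hj]
          push_cast
          linarith
        · by_cases hmono : ∀ i < k, al w A i + ⌈m * (i : ℚ)⌉ ≤ al w A (i + 1)
          · have h2 := mono_jump hw hc hK k1 k2 hAk hcA hmono (hh := hh)
              (fun A' hA' hk' => ih A'.card (by have := card_lt_card hA'; omega) A'
                (hA'.subset.trans hA) rfl hk')
              (fun K' hK' k' c' a1 a2 a3 A' hA' a4 a5 =>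
                hQ K' hK' k' c' a1 a2 a3 A' (hA'.trans hA) a4 a5)
              (by rw [hN]; exact P2) (by rw [hN]; exact P4) (by rw [hN]; omega)
            rw [hN] at h2
            exact h2
          · obtain ⟨S, hS, hS1, hSk, hex⟩ := last_desc hw (by omega : 1 ≤ k) hAk hcA hmono
            have hTc : (A \ S).card = A.card - S.card := card_sdiff_of_subset hS
            have hSA : S.card ≤ A.card := card_le_card hS
            rcases Nat.lt_or_ge (A \ S).card k with hT | hT
            · have hfalse : ¬ 2 * (k - 1) < m.den * ν + 1 := by omega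
              rcases P6 with P6 | ⟨P6, P7⟩
              · exact absurd P6 hfalse
              · have h2 := small hw hc hK k1 k2 P7 (V := A) (by omega) hcA hS hSk hT hex
                rw [P6]
                push_cast
                linarith
            · have h2 := ih (A \ S).card (by omega) (A \ S) (sdiff_subset.trans hA) rfl hT
              have h3 := h1 _ (hNge _ hT)
              have h4 : (1 : ℤ) ≤ hh (Nq m.den (A \ S).card) := by exact_mod_cast h3
              have h5 : 2 * (K : ℤ) + hh (ν + 1) ≤ ν + 2 := by exact_mod_cast P5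
              have h6 : (1 : ℤ) ≤ K := by exact_mod_cast hK
              push_cast
              linarith
      · have hN : Nq m.den (n - 1) = Nq m.den A.card ∧
            Nq m.den A.card = (n - 1 - 1) / m.den + 1 := by
          rw [hAn]
          unfold Nq
          obtain ⟨j, hj⟩ : ∃ j, n = j + 2 := ⟨n - 2, by omega⟩
          subst hj
          have e0 : j + 2 - 1 = j + 1 := by omega
          rw [e0] at hd ⊢
          have e1 : j + 2 + m.den - 1 = j + 1 + m.den := by omega
          have e2 : j + 1 + m.den - 1 = j + m.den := by omega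
          rw [e1, e2, Nat.add_div_right _ (by omega), Nat.add_div_right _ (by omega),
            Nat.succ_div, if_neg hd]
          simp
        rw [hN.1] at herase
        have hB : 2 * ((Nq m.den A.card : ℤ) - c - hh (Nq m.den A.card)) < gap m (A.card - 1) := by
          have g1 := gap_not_dvd m (j := A.card - 1) (by omega) (by rw [hAn]; exact hd)
          have g2 : (1 : ℤ) ≤ hh (Nq m.den A.card) := by exact_mod_cast h1 _ (hNge _ hAk)
          have g3 : (Nq m.den A.card : ℤ) = ((((n - 1 - 1) / m.den : ℕ)) : ℤ) + 1 := by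
            rw [hN.2]; push_cast; ring
          rw [hAn] at g1
          rw [hAn] at g2 g3 ⊢
          linarith
        exact step_same hw m hA3 herase hB
  exact key V.card V (Finset.Subset.refl _) rfl hV

end Pool.Agent.Lib.P56507
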