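import Pool.Agent.Lib.P56507.Al

/-!
The last descent of the excess sequence.
-/

open Finset

namespace Pool.Agent.Lib.P56507

variable {w : ℕ → ℕ → ℤ}

namespace LastDAux

theorem R_succ (m : ℚ) (j : ℕ) : R m (j + 1) = R m j + ⌈m * (j : ℚ)⌉ := by
  unfold R
  rw [sum_range_succ]

theorem e_mono {m : ℚ} {V : Finset ℕ} {j k : ℕ} (hjk : j ≤ k)
    (h : ∀ i, j ≤ i → i < k → al w V i + ⌈m * (i : ℚ)⌉ ≤ al w V (i + 1)) :
    al w V j - R m j ≤ al w V k - R m k := by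
  induction k, hjk using Nat.le_induction with
  | base => exact le_rfl
  | succ k hk ih =>
    have h1 := ih fun i hi hik => h i hi (by omega)
    have h2 := h k hk (by omega)
    have h3 := R_succ m k
    linarith

theorem e_le {m : ℚ} {k : ℕ} {a : ℤ} {V : Finset ℕ} (hV : k ≤ V.card)
    (h : Cond k (R m k + a) w V) : al w V k - R m k ≤ a := by
  obtain ⟨S, hS, hc, e⟩ := exists_al w hV
  have := h S hS hc
  linarith

end LastDAux

open LastDAux

/-- Proof. Let `e j = al w V j - R m j`. Let `i < k` be the largest index with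
`al (i + 1) < al i + ⌈m i⌉`, that is `δ = e i - e (i + 1) ≥ 1`. `i ≥ 1` because `e 0 = e 1 = 0`
(`al_zero`, `al_one`, `⌈m 0⌉ = 0`). `e` is monotone from `i + 1` to `k`, so
`e i = e (i + 1) + δ ≤ e k + δ ≤ a + δ` (`e k ≤ a` by `exists_al` and `h`). Let `S` be a maximal
`i`-set, `T = V \ S`, `|T| ≥ 1`. `ex_peel_le`:
`ex V ≤ a + δ + ex T - N(T) - |T| (δ - 1) ≤ a + 1 + ex T - N(T)`. -/
theorem last_desc (hw : ∀ x y, w x y = w y x) {m : ℚ} {k : ℕ} {a : ℤ} {V : Finset ℕ}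
    (hk : 1 ≤ k) (hV : k ≤ V.card) (h : Cond k (R m k + a) w V)
    (hno : ¬ ∀ i < k, al w V i + ⌈m * (i : ℚ)⌉ ≤ al w V (i + 1)) :
    ∃ S ⊆ V, 1 ≤ S.card ∧ S.card < k ∧
      ex m w V ≤ a + 1 + ex m w (V \ S) - Nq m.den (V \ S).card := by
  classical
  let P : ℕ → Prop := fun i => i < k ∧ al w V (i + 1) < al w V i + ⌈m * (i : ℚ)⌉
  have hex : ∃ i, P i := by
    push Not at hno
    obtain ⟨i, hi, hi2⟩ := hno
    exact ⟨i, hi, hi2⟩
  obtain ⟨i₀, hi₀⟩ := hex
  obtain ⟨i, hi, hmax⟩ : ∃ i, P i ∧ ∀ j, i < j → ¬ P j := by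
    refine ⟨Nat.findGreatest P k, Nat.findGreatest_spec (P := P) hi₀.1.le hi₀, ?_⟩
    intro j hj hPj
    exact absurd (Nat.le_findGreatest (P := P) hPj.1.le hPj) (by omega)
  obtain ⟨hik, hilt⟩ := hi
  have hmono : ∀ j, i + 1 ≤ j → j < k → al w V j + ⌈m * (j : ℚ)⌉ ≤ al w V (j + 1) := by
    intro j hj hjk
    by_contra hc
    exact hmax j (by omega) ⟨hjk, not_le.1 hc⟩
  have h1 := e_mono (w := w) (m := m) (V := V) (show i + 1 ≤ k by omega) hmono
  have h2 := e_le (w := w) (m := m) hV h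
  have h3 := R_succ m i
  have hi1 : 1 ≤ i := by
    rcases Nat.eq_zero_or_pos i with rfl | h0
    · exfalso
      rw [zero_add, al_zero, al_one w (by omega)] at hilt
      simp at hilt
    · exact h0
  obtain ⟨S, hS, hSc, hSW⟩ := exists_al w (V := V) (j := i) (by omega)
  refine ⟨S, hS, by omega, by omega, ?_⟩
  have hp := ex_peel_le hw m hS (hSW.trans (by rw [hSc]))
    (δ := al w V i + ⌈m * (i : ℚ)⌉ - al w V (i + 1)) (by rw [hSc]; linarith)
  have hT : 1 ≤ (V \ S).card := by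
    rw [card_sdiff_of_subset hS]
    omega
  have hT' : (1 : ℤ) ≤ ((V \ S).card : ℤ) := by exact_mod_cast hT
  have hδ : (0 : ℤ) ≤ (al w V i + ⌈m * (i : ℚ)⌉ - al w V (i + 1)) - 1 := by linarith
  have h4 := mul_le_mul_of_nonneg_right hT' hδ
  have h5 : ex m w S = al w V i - R m i := by
    unfold ex
    rw [hSW, hSc]
  rw [h5] at hp
  linarith

theorem mono_ex {m : ℚ} {k : ℕ} {a : ℤ} {V : Finset ℕ} (hV : k ≤ V.card)
    (h : Cond k (R m k + a) w V)
    (hmono : ∀ i < k, al w V i + ⌈m * (i : ℚ)⌉ ≤ al w V (i + 1)) {A : Finset ℕ} (hA : A ⊆ V)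
    (hAk : A.card ≤ k) : ex m w A ≤ a := by
  have h1 := e_mono (w := w) (m := m) (V := V) hAk fun i _ hi => hmono i hi
  have h2 := e_le (w := w) (m := m) hV h
  have h3 := le_al (w := w) hA
  unfold ex
  linarith

end Pool.Agent.Lib.P56507
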