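import Pool.Agent.Lib.P56507.ChainB
import Pool.Agent.Lib.P56507.Avg

/-!
The condition on `k`-sets applied to a union of blocks and a part of one further block.
-/

open Finset

namespace Pool.Agent.Lib.P56507

variable {w : ℕ → ℕ → ℤ} {m : ℚ} {V : Finset ℕ} {k s K c b ρ T : ℕ} {S U : ℕ → Finset ℕ}
  {z : ℕ → ℕ} {f : ℕ → ℤ}

/-- Proof. Let `q = m.den`, `Z = ∑_{i ∈ F} z i ≤ K`, `rem = K - Z ≤ z y - 1`. Then
`q rem + 1 ≤ k - q Z ≤ q rem + q ≤ q z y = |S y|` by `P.k1`, `P.k2`. `W (S y) = R m (q z y) + f y ≥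
Rp m (q z y)` because `f y ≥ z y - 1`. By `chain_down` there is `Q ⊆ S y` with `|Q| = k - q Z` and
`W Q ≥ Rp m |Q| = R m |Q| + rem`, so `ex Q ≥ rem`. `A = (⋃_{i ∈ F} S i) ∪ Q` is a `k`-set, so
`ex A ≤ s`, and by `Chain.ex_union`, `Chain.df_le_lam`
`ex A ≥ ∑ f i - W lam F + rem - ∑_{i ∈ F} lam i y`. -/
theorem lemC (hw : ∀ x y, w x y = w y x) (P : Par k m.den s K c b ρ)
    (h : Cond k (R m k + s) w V) (C : Chain m w V s K T S U z f) {F : Finset ℕ} {y : ℕ}
    (hy : y < T) (hF : ∀ i ∈ F, i < y) (hZ : ∑ i ∈ F, z i ≤ K) (hZy : K < ∑ i ∈ F, z i + z y) :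
    ∑ i ∈ F, f i - W (lam m w S z) F + ((K : ℤ) - ∑ i ∈ F, (z i : ℤ))
      - ∑ i ∈ F, lam m w S z i y ≤ s := by
  classical
  have hyc := C.card y hy
  have hZ' : ∑ i ∈ F, (z i : ℤ) = ((∑ i ∈ F, z i : ℕ) : ℤ) := by push_cast; rfl
  set Z : ℕ := ∑ i ∈ F, z i with hZdef
  have hFT : F ⊆ range T := fun i hi => mem_range.2 ((hF i hi).trans hy)
  obtain ⟨rem, hrem⟩ : ∃ rem, K = Z + rem := ⟨K - Z, by omega⟩
  have hq := P.q1
  have hk1 := P.k1
  have hk2 := P.k2
  have hqK : m.den * K = m.den * Z + m.den * rem := by rw [hrem]; ring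
  have hremz : rem + 1 ≤ z y := by omega
  have hqr : m.den * (rem + 1) ≤ m.den * z y := Nat.mul_le_mul_left _ hremz
  have hqr' : m.den * (rem + 1) = m.den * rem + m.den := by ring
  have hj : k - m.den * Z ≤ (S y).card := by
    rw [hyc]
    omega
  have hSy : Rp m (S y).card ≤ W w (S y) := by
    rw [hyc, C.WS y hy, Rp]
    have h1 : (m.den * z y - 1) / m.den = z y - 1 := by
      have hz := C.z1 y hy
      obtain ⟨z', hz'⟩ : ∃ z', z y = z' + 1 := ⟨z y - 1, by omega⟩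
      rw [hz']
      have : m.den * (z' + 1) - 1 = m.den - 1 + m.den * z' := by
        have : m.den * (z' + 1) = m.den * z' + m.den := by ring
        omega
      rw [this, Nat.add_mul_div_left _ _ (by omega), Nat.div_eq_of_lt (by omega)]
      omega
    rw [h1]
    have h2 := C.fz y hy
    have hz := C.z1 y hy
    push_cast [hz]
    linarith
  obtain ⟨Q, hQS, hQc, hQW⟩ := chain_down hw m hSy hj
  have hQrem : (rem : ℤ) ≤ ex m w Q := by
    unfold ex
    rw [hQc]
    have h1 : (k - m.den * Z - 1) / m.den = rem := by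
      obtain ⟨d, hd⟩ : ∃ d, k - m.den * Z - 1 = d + m.den * rem :=
        ⟨k - m.den * Z - 1 - m.den * rem, by omega⟩
      rw [hd, Nat.add_mul_div_left _ _ (by omega), Nat.div_eq_of_lt (by omega)]
      omega
    rw [Rp, h1] at hQW
    linarith
  have hdisj : ∀ i ∈ F, Disjoint (S i) Q := fun i hi =>
    (C.disj (ne_of_lt (hF i hi)) ((hF i hi).trans hy) hy).mono_right hQS
  have hex := C.ex_union hw hFT hdisj
  have hcardF := C.card_biUnion hFT
  rw [← hZdef] at hcardF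
  have hdisj' : Disjoint (F.biUnion S) Q := by
    rw [disjoint_biUnion_left]
    exact hdisj
  have hcardA : (F.biUnion S ∪ Q).card = k := by
    rw [card_union_of_disjoint hdisj', hcardF, hQc]
    omega
  have hsub : F.biUnion S ∪ Q ⊆ V := by
    refine union_subset ?_ (hQS.trans (C.S_sub hy))
    intro x hx
    obtain ⟨i, hi, hxi⟩ := mem_biUnion.1 hx
    exact C.S_sub ((hF i hi).trans hy) hxi
  have hcond := h _ hsub hcardA
  have hexA : ex m w (F.biUnion S ∪ Q) ≤ s := by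
    unfold ex
    rw [hcardA]
    linarith
  have hdf : ∑ i ∈ F, df m w S z i Q ≤ ∑ i ∈ F, lam m w S z i y :=
    sum_le_sum fun i hi => C.df_le_lam (hF i hi) hy hQS
  rw [hex] at hexA
  rw [hZ', hrem]
  push_cast
  linarith

end Pool.Agent.Lib.P56507
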