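import Pool.Agent.Lib.P56507.LemC

/-!
Families with `∑ z = K + 1`.
-/

open Finset

namespace Pool.Agent.Lib.P56507

variable {w : ℕ → ℕ → ℤ} {m : ℚ} {V : Finset ℕ} {k s K c b ρ T : ℕ} {S U : ℕ → Finset ℕ}
  {z : ℕ → ℕ} {f : ℕ → ℤ}

/-- A family of blocks with `∑ z = K + 1` and all `f i = z i - 1`.

Proof. Let `y = max F`, `F' = F \ {y}`, `∑_{F'} z i = K + 1 - z y ≤ K`. `lemC` for `F'`, `y`:
`∑_{F'} f i - W lam F' + (z y - 1) - ∑_{i ∈ F'} lam i y ≤ s`. As `f y = z y - 1` and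
`W lam F = W lam F' + ∑_{i ∈ F'} lam y i` (`W_insert`, `lam_symm`), this is
`∑_F f i - W lam F ≤ s = K - c`, and `∑_F f i = K + 1 - |F|`, so `W lam F ≥ c + 1 - |F|`,
`∑_F (b f i - (b - 1) z i) = K + 1 - b |F|`, so the left hand side is at most
`K + 1 - b |F| - b (c + 1) + b |F| = ρ + 1 - b ≤ ρ` (`b ≥ 1` since `c b + ρ = K ≥ c > ρ`). -/
theorem lemE (hw : ∀ x y, w x y = w y x) (P : Par k m.den s K c b ρ)
    (h : Cond k (R m k + s) w V) (C : Chain m w V s K T S U z f) {F : Finset ℕ}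
    (hF : F ⊆ range T) (hZ : ∑ i ∈ F, z i = K + 1) (hf : ∀ i ∈ F, f i = (z i : ℤ) - 1) :
    ∑ i ∈ F, (b * f i - ((b : ℤ) - 1) * z i) - b * W (lam m w S z) F ≤ ρ := by
  have hne : F.Nonempty := by
    rw [Finset.nonempty_iff_ne_empty]
    rintro rfl
    simp at hZ
  obtain ⟨y, hyF, hymax⟩ : ∃ y ∈ F, ∀ i ∈ F, i ≤ y :=
    ⟨F.max' hne, F.max'_mem hne, fun i hi => F.le_max' i hi⟩
  have hyT : y < T := Finset.mem_range.mp (hF hyF)
  have hlt : ∀ i ∈ F.erase y, i < y := by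
    intro i hi
    have h1 := hymax i (Finset.mem_of_mem_erase hi)
    have h2 := Finset.ne_of_mem_erase hi
    omega
  have hnot : y ∉ F.erase y := Finset.notMem_erase y F
  have hzy : 1 ≤ z y := C.z1 y hyT
  have hsum : ∑ i ∈ F.erase y, z i + z y = K + 1 := by
    rw [Finset.sum_erase_add _ _ hyF, hZ]
  have hC := lemC hw P h C hyT hlt (by omega) (by omega)
  have hW : W (lam m w S z) F = W (lam m w S z) (F.erase y) + ∑ i ∈ F.erase y, lam m w S z i y := by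
    conv_lhs => rw [← Finset.insert_erase hyF]
    rw [W_insert (lam_symm hw) hnot]
    unfold dg
    congr 1
    exact Finset.sum_congr rfl fun i _ => lam_symm hw y i
  have hfs : ∑ i ∈ F.erase y, f i + f y = ∑ i ∈ F, f i := Finset.sum_erase_add _ _ hyF
  have hfy := hf y hyF
  have hsumZ : ∑ i ∈ F.erase y, (z i : ℤ) + z y = (K : ℤ) + 1 := by exact_mod_cast hsum
  have hZZ : ∑ i ∈ F, (z i : ℤ) = (K : ℤ) + 1 := by exact_mod_cast hZ
  have hF1 : ∑ i ∈ F, f i = (K : ℤ) + 1 - F.card := by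
    rw [Finset.sum_congr rfl hf, Finset.sum_sub_distrib, hZZ]
    simp
  have hmain : ∑ i ∈ F, f i - W (lam m w S z) F ≤ s := by
    rw [hW]
    linarith
  have hlhs : ∑ i ∈ F, (b * f i - ((b : ℤ) - 1) * z i)
      = b * ∑ i ∈ F, f i - ((b : ℤ) - 1) * ∑ i ∈ F, (z i : ℤ) := by
    rw [Finset.sum_sub_distrib, Finset.mul_sum, Finset.mul_sum]
  have hsc : (s : ℤ) + c = K := by exact_mod_cast P.sc
  have hKb : (K : ℤ) = c * b + ρ := by exact_mod_cast P.Kb
  have hb1 : 1 ≤ b := by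
    rcases Nat.eq_zero_or_pos b with hb | hb
    · exfalso
      have h1 := P.Kb
      have h2 := P.rc
      have h3 := P.sc
      subst hb
      omega
    · exact hb
  have hb0 : (0 : ℤ) ≤ b := by positivity
  have hb1' : (1 : ℤ) ≤ b := by exact_mod_cast hb1
  rw [hlhs, hZZ]
  have key : (b : ℤ) * (∑ i ∈ F, f i - W (lam m w S z) F) ≤ b * s :=
    mul_le_mul_of_nonneg_left hmain hb0
  nlinarith [key]

end Pool.Agent.Lib.P56507
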