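import Pool.Agent.Lib.P56507.LemC

/-!
Families of blocks together with good ordinary blocks.
-/

open Finset

namespace Pool.Agent.Lib.P56507

variable {w : ℕ → ℕ → ℤ} {m : ℚ} {V : Finset ℕ} {k s K c b ρ T : ℕ} {S U : ℕ → Finset ℕ}
  {z : ℕ → ℕ} {f : ℕ → ℤ}

/-- A family of blocks together with good ordinary blocks.

Proof. Let `Z = ∑_F z i ≤ K`, `l = (K - Z) / b`, `rem = K - Z - b l ≤ b - 1`. `l + 1 ≤ K + 1 = |G|`:
let `G'` be a subset of `G` with `l + 1` elements, `g = max G'`, `G'' = G' \ {g}`. Apply `lemC` to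
`F ∪ G''` and `y = g`: `∑ z = Z + b l ≤ K < Z + b l + b`, all `lam i g = 0`, and
`W lam (F ∪ G'') = W lam F` (`W_union`; each `lam i g' = 0` for `g' ∈ G''`, `i ∈ F ∪ G''`,
`i ≠ g'`, by `hG2` and `lam_symm`). So
`∑_F f i + l (b - 1) - W lam F + (K - Z - b l) ≤ s = K - c`; multiply by `b`. -/
theorem lemF (hw : ∀ x y, w x y = w y x) (P : Par k m.den s K c b ρ)
    (h : Cond k (R m k + s) w V) (C : Chain m w V s K T S U z f) {t : ℕ} (ht : t ≤ T)
    {G : Finset ℕ} (hG : G ⊆ Ico t T) (hGc : G.card = K + 1)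
    (hG1 : ∀ g ∈ G, z g = b ∧ f g = (b : ℤ) - 1)
    (hG2 : ∀ g ∈ G, ∀ i < g, (i < t ∨ i ∈ G) → lam m w S z i g = 0)
    {F : Finset ℕ} (hF : F ⊆ range t) (hZ : ∑ i ∈ F, z i ≤ K) :
    ∑ i ∈ F, (b * f i - ((b : ℤ) - 1) * z i) - b * W (lam m w S z) F ≤ ρ := by
  have hKb := P.Kb
  have hsc := P.sc
  have hrc := P.rc
  have hb : 1 ≤ b := by
    rcases Nat.eq_zero_or_pos b with h0 | h0
    · rw [h0, mul_zero, zero_add] at hKb
      omega
    · exact h0
  obtain ⟨Z, hZdef⟩ : ∃ Z, Z = ∑ i ∈ F, z i := ⟨_, rfl⟩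
  rw [← hZdef] at hZ
  obtain ⟨l, hl⟩ : ∃ l, l = (K - Z) / b := ⟨_, rfl⟩
  have hl1 : l * b ≤ K - Z := by rw [hl]; exact Nat.div_mul_le_self _ _
  have hl2 : K - Z < l * b + b := by
    have h1 := Nat.lt_div_mul_add (a := K - Z) hb
    rwa [← hl] at h1
  have hl3 : l ≤ K := by
    have : l * 1 ≤ l * b := Nat.mul_le_mul_left _ hb
    omega
  obtain ⟨G', hG'G, hG'c⟩ := exists_subset_card_eq (s := G) (n := l + 1) (by omega)
  have hne : G'.Nonempty := card_pos.1 (by omega)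
  obtain ⟨g, hg⟩ : ∃ g, g = G'.max' hne := ⟨_, rfl⟩
  have hgG' : g ∈ G' := by rw [hg]; exact max'_mem _ _
  have hgG : g ∈ G := hG'G hgG'
  obtain ⟨E, hE⟩ : ∃ E, E = G'.erase g := ⟨_, rfl⟩
  have hEc : E.card = l := by rw [hE, card_erase_of_mem hgG', hG'c]; rfl
  have hEG : E ⊆ G := by rw [hE]; exact (erase_subset _ _).trans hG'G
  have hElt : ∀ i ∈ E, i < g := by
    intro i hi
    rw [hE, mem_erase] at hi
    have h1 := le_max' G' i hi.2
    rw [← hg] at h1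
    exact lt_of_le_of_ne h1 hi.1
  have hgT : g < T := (mem_Ico.1 (hG hgG)).2
  have hFlt : ∀ i ∈ F, i < t := fun i hi => mem_range.1 (hF hi)
  have hGge : ∀ i ∈ G, t ≤ i := fun i hi => (mem_Ico.1 (hG hi)).1
  have hdis : Disjoint F E := by
    rw [disjoint_left]
    intro i hi hiE
    have h1 := hFlt i hi
    have h2 := hGge i (hEG hiE)
    omega
  have hzE : ∑ i ∈ E, z i = l * b := by
    rw [sum_congr rfl fun i hi => (hG1 i (hEG hi)).1, sum_const, hEc, smul_eq_mul]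
  have hfE : ∑ i ∈ E, f i = l * ((b : ℤ) - 1) := by
    rw [sum_congr rfl fun i hi => (hG1 i (hEG hi)).2, sum_const, hEc, nsmul_eq_mul]
  have hzg : z g = b := (hG1 g hgG).1
  have key := lemC hw P h C (F := F ∪ E) (y := g) hgT
    (by
      intro i hi
      rcases mem_union.1 hi with h1 | h1
      · exact lt_of_lt_of_le (hFlt i h1) (hGge g hgG)
      · exact hElt i h1)
    (by rw [sum_union hdis, hzE, ← hZdef]; omega)
    (by rw [sum_union hdis, hzE, ← hZdef, hzg]; omega)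
  have hlam0 : ∑ i ∈ F ∪ E, lam m w S z i g = 0 := by
    refine sum_eq_zero fun i hi => ?_
    rcases mem_union.1 hi with h1 | h1
    · exact hG2 g hgG i (lt_of_lt_of_le (hFlt i h1) (hGge g hgG)) (Or.inl (hFlt i h1))
    · exact hG2 g hgG i (hElt i h1) (Or.inr (hEG h1))
  have hsym : ∀ x y, lam m w S z x y = lam m w S z y x := fun x y => lam_symm hw x y
  have hWE : W (lam m w S z) E = 0 := by
    unfold W
    refine sum_eq_zero fun p hp => ?_
    rw [mem_filter, mem_product] at hp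
    exact hG2 _ (hEG hp.1.2) _ hp.2 (Or.inr (hEG hp.1.1))
  have hWU : W (lam m w S z) (F ∪ E) = W (lam m w S z) F := by
    rw [W_union hsym hdis, hWE]
    have h1 : ∑ v ∈ E, dg (lam m w S z) v F = 0 := by
      refine sum_eq_zero fun v hv => ?_
      unfold dg
      refine sum_eq_zero fun x hx => ?_
      rw [hsym]
      exact hG2 v (hEG hv) x (lt_of_lt_of_le (hFlt x hx) (hGge v (hEG hv))) (Or.inl (hFlt x hx))
    rw [h1]
    ring
  have hzU : ∑ i ∈ F ∪ E, (z i : ℤ) = Z + l * b := by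
    rw [sum_union hdis, hZdef]
    have h1 : ∑ i ∈ E, (z i : ℤ) = ((∑ i ∈ E, z i : ℕ) : ℤ) := by push_cast; rfl
    rw [h1, hzE]
    push_cast
    rfl
  rw [hlam0, hWU, hzU, sum_union hdis, hfE] at key
  have hgoal : ∑ i ∈ F, (b * f i - ((b : ℤ) - 1) * z i) = b * ∑ i ∈ F, f i - ((b : ℤ) - 1) * Z := by
    rw [sum_sub_distrib, ← mul_sum, ← mul_sum, hZdef]
    push_cast
    rfl
  rw [hgoal]
  have hKb' : (K : ℤ) = c * b + ρ := by exact_mod_cast hKb
  have hsc' : (s : ℤ) + c = K := by exact_mod_cast hsc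
  have hb' : (1 : ℤ) ≤ b := by exact_mod_cast hb
  have hl1' : (Z : ℤ) + l * b ≤ K := by
    have : Z + l * b ≤ K := by omega
    exact_mod_cast this
  have h2 := mul_le_mul_of_nonneg_left key (by linarith : (0 : ℤ) ≤ b)
  nlinarith [h2, hl1', hKb', hsc']

end Pool.Agent.Lib.P56507
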