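import Pool.Agent.Lib.P56507.Al

/-!
The hereditary property implies the bound for the excess.
-/

open Finset

namespace Pool.Agent.Lib.P56507

variable {w : ℕ → ℕ → ℤ}

theorem HP.mono {m : ℚ} {V V' : Finset ℕ} {z : ℕ} (h : HP m w V z) (hV : V' ⊆ V) :
    HP m w V' z :=
  ⟨fun T hT => h.1 T (hT.trans hV), fun T hT => h.2 T (hT.trans hV)⟩

/-- Proof. Strong induction on `|V|`; put `q = m.den`, `N = ⌈|V| / q⌉`.

If `V = ∅`, both sides are `0`. If `1 ≤ |V| ≤ q z`, then `W(V) ≤ Rp m |V|`, so
`ex V ≤ (|V| - 1) / q = N - 1` (`Nq_pos`) and `N ≤ z`, so `z (N - 1) ≤ (z - 1) N`.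

Let `|V| ≥ q z + 1`. For `j ≤ q z` we have `al w V j ≤ Rp m j`, and
`al w V (q z + 1) ≤ Rp m (q z + 1) - 1` (by `exists_al`). Let `i` be the smallest number with
`al w V (i + 1) ≤ Rp m (i + 1) - 1`; then `1 ≤ i ≤ q z` (`al w V 1 = 0 = Rp m 1`) and
`al w V i = Rp m i`. Let `S` be a maximal `i`-set, `V' = V \ S`, `n' = |V'|`.

Case `i = q y`, `y ≥ 1`, `y ≤ z`. `al (i + 1) ≤ Rp m (i + 1) - 1 = al i + ⌈m i⌉ + 1 - 1`, so by `dg_le`
all `dg w v S ≤ m.num y`, and by `ex_block` `ex V ≤ (y - 1) + ex V'` (`ex S = Rp m i - R m i = y - 1`).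
With the induction hypothesis for `V'` and `N = y + ⌈n' / q⌉`:
`z ex V ≤ z (y - 1) + (z - 1) (N - y) = (z - 1) N + y - z ≤ (z - 1) N`.

Case `i = q y + i'`, `0 < i' < q`, so `y ≤ z - 1`, `Rp m (i + 1) = Rp m i + ⌈m i⌉`,
`al (i + 1) ≤ al i + ⌈m i⌉ - 1`. By `ex_peel_le` with `δ = 1`, `ex S = y`:
`ex V ≤ y + ex V' - ⌈n' / q⌉ ≤ y`, because `z ex V' ≤ (z - 1) ⌈n' / q⌉` gives `ex V' ≤ ⌈n' / q⌉`. Now
`N ≥ y + 1` (`|V| > q y`), so `z y ≤ (z - 1) (y + 1) ≤ (z - 1) N`. -/
theorem lemH (hw : ∀ x y, w x y = w y x) {m : ℚ} {z : ℕ} (hz : 1 ≤ z) {V : Finset ℕ}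
    (h : HP m w V z) : (z : ℤ) * ex m w V ≤ ((z : ℤ) - 1) * (Nq m.den V.card : ℤ) := by
  have hq : 1 ≤ m.den := m.pos
  have hzz : (1 : ℤ) ≤ (z : ℤ) := by exact_mod_cast hz
  induction hn : V.card using Nat.strong_induction_on generalizing V with
  | _ n ih =>
    subst hn
    have hNz : ∀ y : ℕ, Nq m.den (m.den * y) = y := by
      intro y
      have h1 := Nq_add hq y 0
      rwa [Nq_zero hq, add_zero, add_zero] at h1
    rcases Nat.eq_zero_or_pos V.card with h0 | hpos
    · rw [h0, Nq_zero hq]
      rw [Finset.card_eq_zero] at h0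
      rw [h0]
      simp [ex, W_empty, R_zero]
    · rcases Nat.lt_or_ge (m.den * z) V.card with hlt | hle
      · -- the large case
        have hal : ∀ j, j ≤ m.den * z → al w V j ≤ Rp m j := by
          intro j hj
          obtain ⟨S, hS, hc, hW⟩ := exists_al w (V := V) (j := j) (by omega)
          rw [← hW]
          have := h.1 S hS (by omega)
          rwa [hc] at this
        have hPz : al w V (m.den * z + 1) + 1 ≤ Rp m (m.den * z + 1) := by
          obtain ⟨S, hS, hc, hW⟩ := exists_al w (V := V) (j := m.den * z + 1) (by omega)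
          rw [← hW]
          have := h.2 S hS hc
          rwa [hc] at this
        have hex : ∃ i, al w V (i + 1) + 1 ≤ Rp m (i + 1) := ⟨_, hPz⟩
        classical
        obtain ⟨i, hi, hmin⟩ : ∃ i, al w V (i + 1) + 1 ≤ Rp m (i + 1) ∧
            ∀ j < i, ¬ al w V (j + 1) + 1 ≤ Rp m (j + 1) :=
          ⟨Nat.find hex, Nat.find_spec hex, fun j hj => Nat.find_min hex hj⟩
        have hile : i ≤ m.den * z := by
          by_contra hc
          exact hmin _ (by omega) hPz
        have hi1 : 1 ≤ i := by
          rcases Nat.eq_zero_or_pos i with h1 | h1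
          · exfalso
            rw [h1, zero_add, al_one w hpos, Rp_one] at hi
            omega
          · exact h1
        have hali : al w V i = Rp m i := by
          apply le_antisymm (hal i hile)
          have h1 := hmin (i - 1) (by omega)
          rw [Nat.sub_add_cancel hi1] at h1
          omega
        obtain ⟨S, hS, hc, hW⟩ := exists_al w (V := V) (j := i) (by omega)
        have hW' : W w S = al w V S.card := by rw [hc]; exact hW
        have hcard : (V \ S).card + i = V.card := by
          have h1 := Finset.card_sdiff_add_card_eq_card hS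
          omega
        have hIH := ih (V \ S).card (by omega) (h.mono Finset.sdiff_subset) rfl
        have hsucc := Rp_succ m hi1
        have hexS : ex m w S = (((i - 1) / m.den : ℕ) : ℤ) := by
          unfold ex
          rw [hW, hali, hc]
          unfold Rp
          ring
        by_cases hdvd : m.den ∣ i
        · obtain ⟨y, hy⟩ := hdvd
          have hy1 : 1 ≤ y := by
            rcases Nat.eq_zero_or_pos y with h1 | h1
            · rw [h1, mul_zero] at hy; omega
            · exact h1
          have hyz : y ≤ z := by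
            rw [hy] at hile
            exact Nat.le_of_mul_le_mul_left hile hq
          have hfl : ⌊m * (i : ℚ)⌋ = m.num * y := by
            have h1 := ceil_den_mul m y
            rw [← hy] at h1
            have h2 : m * (i : ℚ) = ((m.num * y : ℤ) : ℚ) := by
              rw [hy]
              push_cast
              rw [← mul_assoc, Rat.mul_den_eq_num]
            rw [h2, Int.floor_intCast]
          have hdg : ∀ v ∈ V \ S, dg w v S ≤ m.num * y := by
            intro v hv
            have h1 := dg_le hw hS hW' hv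
            rw [hc] at h1
            rw [hfl] at hsucc
            linarith
          have hb := ex_block hw m hS (z := y) (by rw [hc, hy])
          have hsum : 0 ≤ ∑ v ∈ V \ S, (m.num * y - dg w v S) :=
            Finset.sum_nonneg fun v hv => by linarith [hdg v hv]
          have hexS' : ex m w S = (y : ℤ) - 1 := by
            rw [hexS, hy]
            have h1 : (m.den * y - 1) / m.den = y - 1 := by
              obtain ⟨y', rfl⟩ := Nat.exists_eq_succ_of_ne_zero (by omega : y ≠ 0)
              have h2 : m.den * (y' + 1) - 1 = m.den - 1 + m.den * y' := by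
                rw [Nat.mul_succ]; omega
              rw [Nat.succ_eq_add_one, h2, Nat.add_mul_div_left _ _ hq,
                Nat.div_eq_of_lt (by omega)]
              omega
            rw [h1]
            omega
          have hN : Nq m.den V.card = y + Nq m.den (V \ S).card := by
            rw [← Nq_add hq y, ← hcard, hy, add_comm]
          rw [hN]
          push_cast
          have h3 : ex m w V ≤ (y : ℤ) - 1 + ex m w (V \ S) := by rw [hb, hexS']; linarith
          have h4 : (z : ℤ) * ex m w V ≤ z * ((y : ℤ) - 1 + ex m w (V \ S)) :=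
            mul_le_mul_of_nonneg_left h3 (by omega)
          have h5 : (y : ℤ) ≤ z := by exact_mod_cast hyz
          nlinarith
        · have hfl : ⌊m * (i : ℚ)⌋ + 1 ≤ ⌈m * (i : ℚ)⌉ := by
            by_contra hcon
            apply hdvd
            have h1 : m * (i : ℚ) = ((⌊m * (i : ℚ)⌋ : ℤ) : ℚ) := by
              apply le_antisymm _ (Int.floor_le _)
              refine (Int.le_ceil _).trans ?_
              exact_mod_cast (by omega : ⌈m * (i : ℚ)⌉ ≤ ⌊m * (i : ℚ)⌋)
            have h2 : (m.num * i : ℤ) = ⌊m * (i : ℚ)⌋ * m.den := by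
              have h3 : (m.num : ℚ) * i = ⌊m * (i : ℚ)⌋ * m.den := by
                rw [← h1, ← Rat.mul_den_eq_num m]
                ring
              exact_mod_cast h3
            have h4 : (m.den : ℤ) ∣ m.num * i := ⟨⌊m * (i : ℚ)⌋, by rw [h2]; ring⟩
            have h5 : IsCoprime (m.den : ℤ) m.num := by
              rw [Int.isCoprime_iff_gcd_eq_one, Int.gcd_comm]
              exact m.reduced
            exact_mod_cast h5.dvd_of_dvd_mul_left h4
          have hp := ex_peel_le hw m hS hW' (δ := 1) (by
            rw [hc]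
            linarith)
          set y := (i - 1) / m.den with hydef
          have hyz : y < z := by
            by_contra hcon
            push Not at hcon
            have h1 : m.den * z ≤ m.den * y := Nat.mul_le_mul_left _ hcon
            have h2 : m.den * y ≤ i - 1 := Nat.mul_div_le _ _
            omega
          have h6 : ex m w (V \ S) ≤ Nq m.den (V \ S).card := by
            have h7 : (z : ℤ) * ex m w (V \ S) ≤ z * (Nq m.den (V \ S).card : ℤ) := by
              have h8 : (0 : ℤ) ≤ (Nq m.den (V \ S).card : ℤ) := by positivity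
              nlinarith
            exact le_of_mul_le_mul_left h7 (by omega)
          have h9 : ex m w V ≤ (z : ℤ) - 1 := by
            have h10 : (y : ℤ) < z := by exact_mod_cast hyz
            have h11 : ((V \ S).card : ℤ) * ((1 : ℤ) - 1) = 0 := by ring
            rw [hexS, h11] at hp
            linarith
          have hNge : (z : ℤ) ≤ Nq m.den V.card := by
            have h12 := Nq_mono (q := m.den) hlt.le
            rw [hNz] at h12
            exact_mod_cast h12
          calc (z : ℤ) * ex m w V ≤ z * ((z : ℤ) - 1) :=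
                mul_le_mul_of_nonneg_left h9 (by omega)
            _ = ((z : ℤ) - 1) * z := by ring
            _ ≤ ((z : ℤ) - 1) * Nq m.den V.card :=
                mul_le_mul_of_nonneg_left hNge (by omega)
      · have h1 := h.1 V (Finset.Subset.refl V) hle
        have h2 := Nq_pos hq hpos
        have h3 : Nq m.den V.card ≤ z := by
          have h12 := Nq_mono (q := m.den) hle
          rwa [hNz] at h12
        have h4 : ex m w V ≤ (Nq m.den V.card : ℤ) - 1 := by
          unfold ex
          unfold Rp at h1
          rw [h2]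
          push_cast at h1 ⊢
          linarith
        have h5 : (Nq m.den V.card : ℤ) ≤ z := by exact_mod_cast h3
        have h6 : (z : ℤ) * ex m w V ≤ z * ((Nq m.den V.card : ℤ) - 1) :=
          mul_le_mul_of_nonneg_left h4 (by omega)
        nlinarith

/-- If `z ≤ b`: from `z x ≤ (z - 1) N` we get `b z x ≤ b (z - 1) N ≤ z (b - 1) N`. -/
theorem HP.Phi_le (hw : ∀ x y, w x y = w y x) {m : ℚ} {z b : ℕ} (hz : 1 ≤ z) (hzb : z ≤ b)
    {V : Finset ℕ} (h : HP m w V z) : Phi b m w V ≤ 0 := by
  have h1 := lemH hw hz h
  unfold Phi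
  have hz' : (1 : ℤ) ≤ z := by exact_mod_cast hz
  have hzb' : (z : ℤ) ≤ b := by exact_mod_cast hzb
  have hN : (0 : ℤ) ≤ (Nq m.den V.card : ℤ) := by positivity
  have h2 : (b : ℤ) * (z * ex m w V) ≤ b * (((z : ℤ) - 1) * (Nq m.den V.card : ℤ)) :=
    mul_le_mul_of_nonneg_left h1 (by omega)
  have h3 : (b : ℤ) * (((z : ℤ) - 1) * (Nq m.den V.card : ℤ)) ≤
      z * (((b : ℤ) - 1) * (Nq m.den V.card : ℤ)) := by nlinarith
  have h4 : (z : ℤ) * (b * ex m w V) ≤ z * (((b : ℤ) - 1) * (Nq m.den V.card : ℤ)) := by
    calc (z : ℤ) * (b * ex m w V) = b * (z * ex m w V) := by ring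
      _ ≤ _ := h2.trans h3
  have h5 := le_of_mul_le_mul_left h4 (by omega)
  linarith

theorem HP.ex_le (hw : ∀ x y, w x y = w y x) {m : ℚ} {z : ℕ} (hz : 1 ≤ z)
    {V : Finset ℕ} (h : HP m w V z) : ex m w V ≤ Nq m.den V.card := by
  have h1 := lemH hw hz h
  have hz' : (1 : ℤ) ≤ z := by exact_mod_cast hz
  have hN : (0 : ℤ) ≤ (Nq m.den V.card : ℤ) := by positivity
  have h2 : (z : ℤ) * ex m w V ≤ z * (Nq m.den V.card : ℤ) := by nlinarith
  exact le_of_mul_le_mul_left h2 (by omega)

end Pool.Agent.Lib.P56507
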