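import Pool.Agent.Lib.P56507.LemC

/-!
There are no `K + 1` pairwise clean special blocks.
-/

open Finset

namespace Pool.Agent.Lib.P56507

variable {w : ℕ → ℕ → ℤ} {m : ℚ} {V : Finset ℕ} {k s K c b ρ T : ℕ} {S U : ℕ → Finset ℕ}
  {z : ℕ → ℕ} {f : ℕ → ℤ}

/-- There are no `K + 1` pairwise clean special blocks.

Proof. Let `y ∈ Y` be the smallest element with `∑_{i ∈ Y, i ≤ y} z i ≥ K + 1` (it exists because
all `z i ≥ 1`), `F = {i ∈ Y | i < y}`, `Z = ∑_F z i ≤ K`. `lemC` gives, as all `lam` vanish,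
`∑_F f i + K - Z ≤ s = K - c`, so `∑_F f i ≤ Z - c`. As `f i ≥ z i - 1`: `Z - |F| ≤ Z - c`, so
`c ≤ |F|`. As `b f i ≥ (b - 1) z i + 1`: `(b - 1) Z + |F| ≤ b ∑_F f i ≤ b Z - b c`, so
`|F| ≤ Z - b c ≤ K - b c = ρ < c`, a contradiction. -/
theorem lemJ (hw : ∀ x y, w x y = w y x) (P : Par k m.den s K c b ρ)
    (h : Cond k (R m k + s) w V) (C : Chain m w V s K T S U z f)
    (hspec : ∀ i < T, 1 ≤ b * f i - ((b : ℤ) - 1) * z i) {Y : Finset ℕ} (hY : Y ⊆ range T)
    (hcard : Y.card = K + 1)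
    (hclean : ∀ i ∈ Y, ∀ j ∈ Y, i ≠ j → lam m w S z i j = 0) : False := by
  classical
  have hYz : ∀ i ∈ Y, 1 ≤ z i := fun i hi => C.z1 i (mem_range.1 (hY hi))
  have hex : ∃ n, K + 1 ≤ ∑ i ∈ Y with i ≤ n, z i := by
    refine ⟨T, ?_⟩
    have h1 : (Y.filter fun i => i ≤ T) = Y := by
      apply filter_true_of_mem
      intro i hi
      exact (mem_range.1 (hY hi)).le
    rw [h1, ← hcard, card_eq_sum_ones]
    exact sum_le_sum hYz
  set y := Nat.find hex with hydef
  have hy1 : K + 1 ≤ ∑ i ∈ Y with i ≤ y, z i := Nat.find_spec hex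
  set F := Y.filter fun i => i < y with hFdef
  have hZ : ∑ i ∈ F, z i ≤ K := by
    rcases Nat.eq_zero_or_pos y with h0 | h0
    · have : F = ∅ := by
        rw [hFdef, h0]
        simp
      rw [this]
      simp
    · have h2 := Nat.find_min hex (m := y - 1) (by omega)
      have h3 : (Y.filter fun i => i ≤ y - 1) = F := by
        rw [hFdef]
        apply filter_congr
        intro i _
        omega
      rw [h3] at h2
      omega
  have hyY : y ∈ Y := by
    by_contra hn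
    have h3 : (Y.filter fun i => i ≤ y) = F := by
      rw [hFdef]
      apply filter_congr
      intro i hi
      have : i ≠ y := fun e => hn (e ▸ hi)
      omega
    rw [h3] at hy1
    omega
  have hFY : F ⊆ Y := filter_subset _ _
  have hFlt : ∀ i ∈ F, i < y := fun i hi => (mem_filter.1 hi).2
  have hyF : y ∉ F := fun hh => absurd (hFlt y hh) (lt_irrefl y)
  have hsum : ∑ i ∈ Y with i ≤ y, z i = ∑ i ∈ F, z i + z y := by
    have h3 : (Y.filter fun i => i ≤ y) = insert y F := by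
      ext i
      simp only [hFdef, mem_filter, mem_insert]
      constructor
      · rintro ⟨h4, h5⟩
        rcases Nat.lt_or_ge i y with h6 | h6
        · exact Or.inr ⟨h4, h6⟩
        · exact Or.inl (le_antisymm h5 h6)
      · rintro (h4 | ⟨h4, h5⟩)
        · rw [h4]
          exact ⟨hyY, le_rfl⟩
        · exact ⟨h4, h5.le⟩
    rw [h3, sum_insert hyF, add_comm]
  have hZy : K < ∑ i ∈ F, z i + z y := by
    rw [← hsum]
    omega
  have hyT : y < T := mem_range.1 (hY hyY)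
  have hmain := lemC hw P h C hyT hFlt hZ hZy
  have hW : W (lam m w S z) F = 0 := by
    unfold W
    apply sum_eq_zero
    intro p hp
    have h4 := mem_filter.1 hp
    have h5 := mem_product.1 h4.1
    exact hclean _ (hFY h5.1) _ (hFY h5.2) (ne_of_lt h4.2)
  have hL : ∑ i ∈ F, lam m w S z i y = 0 := by
    apply sum_eq_zero
    intro i hi
    exact hclean _ (hFY hi) _ hyY (ne_of_lt (hFlt i hi))
  rw [hW, hL] at hmain
  have hf1 : ∑ i ∈ F, ((z i : ℤ) - 1) ≤ ∑ i ∈ F, f i :=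
    sum_le_sum fun i hi => C.fz i (mem_range.1 (hY (hFY hi)))
  have hf2 : ∑ _i ∈ F, (1 : ℤ) ≤ ∑ i ∈ F, (b * f i - ((b : ℤ) - 1) * z i) :=
    sum_le_sum fun i hi => hspec i (mem_range.1 (hY (hFY hi)))
  rw [sum_sub_distrib] at hf1 hf2
  rw [← mul_sum, ← mul_sum] at hf2
  simp only [sum_const, nsmul_eq_mul, mul_one] at hf1 hf2
  have hZ' : ∑ i ∈ F, (z i : ℤ) ≤ K := by exact_mod_cast hZ
  have hsc : (s : ℤ) + c = K := by exact_mod_cast P.sc
  have hKb : (K : ℤ) = c * b + ρ := by exact_mod_cast P.Kb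
  have hrc : (ρ : ℤ) < c := by exact_mod_cast P.rc
  have hb : (0 : ℤ) ≤ b := by positivity
  have h6 : ∑ i ∈ F, f i ≤ ∑ i ∈ F, (z i : ℤ) - c := by linarith
  have h7 : (b : ℤ) * ∑ i ∈ F, f i ≤ b * (∑ i ∈ F, (z i : ℤ) - c) :=
    mul_le_mul_of_nonneg_left h6 hb
  nlinarith

end Pool.Agent.Lib.P56507
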