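import Pool.Agent.Lib.P56507.PBDefs

/-!
# A cut lemma for multigraphs with vertex weights

`A` a finite set with weights `a v ≥ 1` and multiplicities `lam`, `1 ≤ p ≤ a(A)`. There are
disjoint `H, Z ⊆ A` with `a(H) + lam(H, Z) ≥ p`, `|H| + i(H) ≤ p + 1`, `|Z| + i(Z) + a(Z) ≤ p`,
where `i` counts the edges inside.
-/

open Finset

namespace Pool.Agent.Lib.P56507

variable {lam : ℕ → ℕ → ℤ} {a : ℕ → ℤ} {p : ℤ} {A H Z : Finset ℕ}

theorem dg_erase {v x : ℕ} {S : Finset ℕ} (hx : x ∈ S) :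
    dg lam v S = lam v x + dg lam v (S.erase x) := by
  rw [← dg_insert (notMem_erase x S), insert_erase hx]

theorem W_erase_eq (hw : ∀ x y, lam x y = lam y x) {v : ℕ} {S : Finset ℕ} (hv : v ∈ S) :
    W lam S = W lam (S.erase v) + dg lam v (S.erase v) := by
  conv_lhs => rw [← insert_erase hv]
  exact W_insert hw (notMem_erase v S)

/-- The cut value. -/
def psi (a : ℕ → ℤ) (lam : ℕ → ℕ → ℤ) (H Z : Finset ℕ) : ℤ :=
  ∑ v ∈ H, a v + ∑ v ∈ H, dg lam v Z

/-- The functional which is minimised. -/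
def fun2 (a : ℕ → ℤ) (lam : ℕ → ℕ → ℤ) (H Z : Finset ℕ) : ℤ :=
  ((H.card : ℤ) + W lam H) + ((Z.card : ℤ) + W lam Z + ∑ v ∈ Z, a v)

/-- `(H, Z)` is a minimiser. -/
structure IsMinPair (a : ℕ → ℤ) (lam : ℕ → ℕ → ℤ) (p : ℤ) (A H Z : Finset ℕ) : Prop where
  hH : H ⊆ A
  hZ : Z ⊆ A
  hd : Disjoint H Z
  hp : p ≤ psi a lam H Z
  hm : ∀ H' Z', H' ⊆ A → Z' ⊆ A → Disjoint H' Z' → p ≤ psi a lam H' Z' →
    fun2 a lam H Z ≤ fun2 a lam H' Z'

section
variable (hw : ∀ x y, lam x y = lam y x) (hl : ∀ i j, 0 ≤ lam i j)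
include hw

omit hw in
theorem psi_eraseH {v : ℕ} (hv : v ∈ H) :
    psi a lam H Z = psi a lam (H.erase v) Z + (a v + dg lam v Z) := by
  unfold psi
  rw [← add_sum_erase H _ hv, ← add_sum_erase H (fun v => dg lam v Z) hv]
  ring

theorem fun2_eraseH {v : ℕ} (hv : v ∈ H) :
    fun2 a lam H Z = fun2 a lam (H.erase v) Z + (1 + dg lam v (H.erase v)) := by
  unfold fun2
  rw [W_erase_eq hw hv, card_erase_of_mem hv, Nat.cast_sub (card_pos.2 ⟨v, hv⟩)]
  push_cast
  ring

theorem psi_insertZ {v : ℕ} (hv : v ∉ Z) :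
    psi a lam H (insert v Z) = psi a lam H Z + dg lam v H := by
  unfold psi
  have h1 : ∑ x ∈ H, dg lam x (insert v Z) = ∑ x ∈ H, (lam x v + dg lam x Z) :=
    sum_congr rfl fun x _ => dg_insert hv
  have h2 : ∑ x ∈ H, lam x v = dg lam v H := by
    unfold dg
    exact sum_congr rfl fun x _ => hw x v
  rw [h1, sum_add_distrib, h2]
  ring

theorem fun2_insertZ {v : ℕ} (hv : v ∉ Z) :
    fun2 a lam H (insert v Z) = fun2 a lam H Z + (1 + dg lam v Z + a v) := by
  unfold fun2
  rw [W_insert hw hv, card_insert_of_notMem hv, sum_insert hv]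
  push_cast
  ring

omit hw in
theorem psi_insertH {v : ℕ} (hv : v ∉ H) :
    psi a lam (insert v H) Z = psi a lam H Z + (a v + dg lam v Z) := by
  unfold psi
  rw [sum_insert hv, sum_insert hv]
  ring

theorem fun2_insertH {v : ℕ} (hv : v ∉ H) :
    fun2 a lam (insert v H) Z = fun2 a lam H Z + (1 + dg lam v H) := by
  unfold fun2
  rw [W_insert hw hv, card_insert_of_notMem hv]
  push_cast
  ring

theorem psi_eraseZ {v : ℕ} (hv : v ∈ Z) :
    psi a lam H Z = psi a lam H (Z.erase v) + dg lam v H := by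
  conv_lhs => rw [← insert_erase hv]
  exact psi_insertZ hw (notMem_erase v Z)

theorem fun2_eraseZ {v : ℕ} (hv : v ∈ Z) :
    fun2 a lam H Z = fun2 a lam H (Z.erase v) + (1 + dg lam v (Z.erase v) + a v) := by
  conv_lhs => rw [← insert_erase hv]
  exact fun2_insertZ hw (notMem_erase v Z)

omit hw in
theorem IsMinPair.ne (h : IsMinPair a lam p A H Z) (hp : 1 ≤ p) : H.Nonempty := by
  rw [nonempty_iff_ne_empty]
  rintro rfl
  have := h.hp
  simp [psi] at this
  omega

include hl in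
/-- deleting from `H` -/
theorem IsMinPair.bH (h : IsMinPair a lam p A H Z) {v : ℕ} (hv : v ∈ H) :
    psi a lam H Z - p + 1 ≤ a v + dg lam v Z := by
  by_contra hcon
  push Not at hcon
  have h1 := psi_eraseH (a := a) (lam := lam) (Z := Z) hv
  have h2 := fun2_eraseH (a := a) (Z := Z) hw hv
  have h3 := h.hm (H.erase v) Z ((erase_subset _ _).trans h.hH) h.hZ
    (disjoint_of_subset_left (erase_subset _ _) h.hd) (by omega)
  have h4 := dg_nonneg hl v (H.erase v)
  omega

/-- moving from `H` to `Z` -/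
theorem IsMinPair.dH (h : IsMinPair a lam p A H Z) {v : ℕ} (hv : v ∈ H) :
    dg lam v (H.erase v) ≤ a v + dg lam v Z ∧ (dg lam v (H.erase v) = a v + dg lam v Z →
      IsMinPair a lam p A (H.erase v) (insert v Z)) := by
  have hvZ : v ∉ Z := disjoint_left.1 h.hd hv
  have h1 := psi_eraseH (a := a) (lam := lam) (Z := Z) hv
  have h2 := fun2_eraseH (a := a) (Z := Z) hw hv
  have h3 := psi_insertZ (a := a) (H := H.erase v) hw hvZ
  have h4 := fun2_insertZ (a := a) (H := H.erase v) hw hvZ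
  have s1 : H.erase v ⊆ A := (erase_subset _ _).trans h.hH
  have s2 : insert v Z ⊆ A := insert_subset (h.hH hv) h.hZ
  have s3 : Disjoint (H.erase v) (insert v Z) := by
    rw [disjoint_insert_right]
    exact ⟨notMem_erase _ _, disjoint_of_subset_left (erase_subset _ _) h.hd⟩
  have hp := h.hp
  constructor
  · by_contra hcon
    push Not at hcon
    have := h.hm _ _ s1 s2 s3 (by omega)
    omega
  · intro he
    refine ⟨s1, s2, s3, by omega, fun H' Z' a1 a2 a3 a4 => ?_⟩
    have := h.hm H' Z' a1 a2 a3 a4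
    omega

/-- deleting from `Z` -/
theorem IsMinPair.bZ (h : IsMinPair a lam p A H Z) (ha : ∀ v ∈ A, 1 ≤ a v)
    (hl : ∀ i j, 0 ≤ lam i j) {v : ℕ} (hv : v ∈ Z) :
    psi a lam H Z - p + 1 ≤ dg lam v H := by
  by_contra hcon
  push Not at hcon
  have h1 := psi_eraseZ (a := a) (H := H) hw hv
  have h2 := fun2_eraseZ (a := a) (H := H) hw hv
  have h3 := h.hm H (Z.erase v) h.hH ((erase_subset _ _).trans h.hZ)
    (disjoint_of_subset_right (erase_subset _ _) h.hd) (by omega)
  have h4 := dg_nonneg hl v (Z.erase v)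
  have h5 := ha v (h.hZ hv)
  omega

/-- moving from `Z` to `H` -/
theorem IsMinPair.dZ (h : IsMinPair a lam p A H Z) {v : ℕ} (hv : v ∈ Z) :
    a v + dg lam v (Z.erase v) ≤ dg lam v H ∧ (a v + dg lam v (Z.erase v) = dg lam v H →
      IsMinPair a lam p A (insert v H) (Z.erase v)) := by
  have hvH : v ∉ H := disjoint_right.1 h.hd hv
  have h1 := psi_eraseZ (a := a) (H := H) hw hv
  have h2 := fun2_eraseZ (a := a) (H := H) hw hv
  have h3 := psi_insertH (a := a) (lam := lam) (Z := Z.erase v) hvH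
  have h4 := fun2_insertH (a := a) (Z := Z.erase v) hw hvH
  have s1 : insert v H ⊆ A := insert_subset (h.hZ hv) h.hH
  have s2 : Z.erase v ⊆ A := (erase_subset _ _).trans h.hZ
  have s3 : Disjoint (insert v H) (Z.erase v) := by
    rw [disjoint_insert_left]
    exact ⟨notMem_erase _ _, disjoint_of_subset_right (erase_subset _ _) h.hd⟩
  have hp := h.hp
  constructor
  · by_contra hcon
    push Not at hcon
    have := h.hm _ _ s1 s2 s3 (by omega)
    omega
  · intro he
    refine ⟨s1, s2, s3, by omega, fun H' Z' a1 a2 a3 a4 => ?_⟩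
    have := h.hm H' Z' a1 a2 a3 a4
    omega

/-- exchanging `H` and `Z` -/
theorem IsMinPair.swap (h : IsMinPair a lam p A H Z) :
    ∑ v ∈ Z, a v ≤ ∑ v ∈ H, a v := by
  by_contra hcon
  push Not at hcon
  have h1 := sum_dg_swap hw Z H
  have hp := h.hp
  unfold psi at hp
  have h2 := h.hm Z H h.hZ h.hH h.hd.symm (by unfold psi; linarith)
  unfold fun2 at h2
  linarith

theorem IsMinPair.union (h : IsMinPair a lam p A H Z) (he : psi a lam H Z = p) :
    ∑ v ∈ H, a v + ∑ v ∈ Z, a v ≤ p := by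
  by_contra hcon
  push Not at hcon
  have h1 : ∑ v ∈ H ∪ Z, a v = ∑ v ∈ H, a v + ∑ v ∈ Z, a v := sum_union h.hd
  have h0 : ∑ v ∈ H ∪ Z, dg lam v ∅ = 0 := by simp [dg]
  have h2 := h.hm (H ∪ Z) ∅ (union_subset h.hH h.hZ) (empty_subset _) (disjoint_empty_right _)
    (by unfold psi; rw [h1, h0]; linarith)
  have h3 := sum_dg_swap hw Z H
  unfold fun2 at h2
  rw [W_union hw h.hd, card_union_of_disjoint h.hd, W_empty, sum_empty, card_empty] at h2
  unfold psi at he
  push_cast at h2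
  have h4 := sum_dg_swap hw H Z
  linarith

include hl in
/-- the bounds which follow -/
theorem IsMinPair.bounds (h : IsMinPair a lam p A H Z) (ha : ∀ v ∈ A, 1 ≤ a v) :
    2 * ((H.card : ℤ) + W lam H) ≤ 2 * H.card + psi a lam H Z ∧
    2 * ((Z.card : ℤ) + W lam Z + ∑ v ∈ Z, a v) ≤ 2 * Z.card + psi a lam H Z ∧
    (H.card : ℤ) * (psi a lam H Z - p + 1) ≤ psi a lam H Z ∧
    (Z.card : ℤ) * (psi a lam H Z - p + 1) + H.card ≤ psi a lam H Z := by
  have e1 : ∑ v ∈ H, (a v + dg lam v Z) = psi a lam H Z := by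
    unfold psi
    rw [sum_add_distrib]
  have e2 := two_W hw H
  have e3 := two_W hw Z
  have e4 := sum_dg_swap hw Z H
  have e5 : ∑ v ∈ H, dg lam v (H.erase v) ≤ ∑ v ∈ H, (a v + dg lam v Z) :=
    sum_le_sum fun v hv => (h.dH hw hv).1
  have e6 : ∑ v ∈ Z, (a v + dg lam v (Z.erase v)) ≤ ∑ v ∈ Z, dg lam v H :=
    sum_le_sum fun v hv => (h.dZ hw hv).1
  rw [sum_add_distrib] at e6
  have e7 := h.swap hw
  have e8 : (H.card : ℤ) * (psi a lam H Z - p + 1) ≤ ∑ v ∈ H, (a v + dg lam v Z) := by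
    rw [← nsmul_eq_mul]
    exact card_nsmul_le_sum _ _ _ fun v hv => h.bH hw hl hv
  have e9 : (Z.card : ℤ) * (psi a lam H Z - p + 1) ≤ ∑ v ∈ Z, dg lam v H := by
    rw [← nsmul_eq_mul]
    exact card_nsmul_le_sum _ _ _ fun v hv => h.bZ hw ha hl hv
  have e10 : (H.card : ℤ) ≤ ∑ v ∈ H, a v := by
    have := card_nsmul_le_sum H a 1 fun v hv => ha v (h.hH hv)
    simpa using this
  have e11 : psi a lam H Z = ∑ v ∈ H, a v + ∑ v ∈ H, dg lam v Z := rfl
  refine ⟨by linarith, by linarith, by linarith, by linarith⟩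

theorem lemQ (hl : ∀ i j, 0 ≤ lam i j) (ha : ∀ v ∈ A, 1 ≤ a v) (hp : 1 ≤ p)
    (hA : p ≤ ∑ v ∈ A, a v) : ∃ H Z : Finset ℕ, H ⊆ A ∧ Z ⊆ A ∧ Disjoint H Z ∧
      p ≤ ∑ v ∈ H, a v + ∑ v ∈ H, dg lam v Z ∧ (H.card : ℤ) + W lam H ≤ p + 1 ∧
      (Z.card : ℤ) + W lam Z + ∑ v ∈ Z, a v ≤ p := by
  classical
  -- the admissible pairs
  set P : Finset (Finset ℕ × Finset ℕ) := (A.powerset ×ˢ A.powerset).filter
    (fun x => Disjoint x.1 x.2 ∧ p ≤ psi a lam x.1 x.2) with hP
  have memP : ∀ x : Finset ℕ × Finset ℕ, x ∈ P ↔ x.1 ⊆ A ∧ x.2 ⊆ A ∧ Disjoint x.1 x.2 ∧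
      p ≤ psi a lam x.1 x.2 := by
    intro x
    rw [hP, mem_filter, mem_product, mem_powerset, mem_powerset]
    tauto
  have hPne : P.Nonempty := by
    refine ⟨(A, ∅), (memP _).2 ⟨subset_rfl, empty_subset _, disjoint_empty_right _, ?_⟩⟩
    simp [psi, dg]
    exact hA
  obtain ⟨x0, hx0, hx0m⟩ := exists_min_image P (fun x => fun2 a lam x.1 x.2) hPne
  -- the minimisers
  set M : Finset (Finset ℕ × Finset ℕ) := P.filter
    (fun x => fun2 a lam x.1 x.2 ≤ fun2 a lam x0.1 x0.2) with hM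
  have memM : ∀ x : Finset ℕ × Finset ℕ, x ∈ M ↔ IsMinPair a lam p A x.1 x.2 := by
    intro x
    rw [hM, mem_filter, memP]
    constructor
    · rintro ⟨⟨h1, h2, h3, h4⟩, h5⟩
      refine ⟨h1, h2, h3, h4, fun H' Z' a1 a2 a3 a4 => ?_⟩
      have := hx0m (H', Z') ((memP _).2 ⟨a1, a2, a3, a4⟩)
      exact h5.trans this
    · rintro ⟨h1, h2, h3, h4, h5⟩
      refine ⟨⟨h1, h2, h3, h4⟩, ?_⟩
      obtain ⟨b1, b2, b3, b4⟩ := (memP _).1 hx0
      exact h5 _ _ b1 b2 b3 b4
  have hMne : M.Nonempty := ⟨x0, by rw [hM, mem_filter]; exact ⟨hx0, le_rfl⟩⟩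
  -- Step A
  have stepA : ∃ x ∈ M, ((x.1.card : ℤ) + W lam x.1 ≤ p + 1) := by
    obtain ⟨x, hx, hxm⟩ := exists_min_image M (fun x => x.1.card) hMne
    refine ⟨x, hx, ?_⟩
    have h := (memM x).1 hx
    obtain ⟨k1, k2, k3, k4⟩ := h.bounds hw hl ha
    have notie : ∀ v ∈ x.1, dg lam v (x.1.erase v) + 1 ≤ a v + dg lam v x.2 := by
      intro v hv
      obtain ⟨h1, h2⟩ := h.dH hw hv
      by_contra hcon
      have h3 : dg lam v (x.1.erase v) = a v + dg lam v x.2 := by omega
      have h4 := hxm (x.1.erase v, insert v x.2) ((memM _).2 (h2 h3))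
      have h5 : (x.1.erase v).card < x.1.card := card_erase_lt_of_mem hv
      simp only at h4
      omega
    have e1 : ∑ v ∈ x.1, (dg lam v (x.1.erase v) + 1) ≤ ∑ v ∈ x.1, (a v + dg lam v x.2) :=
      sum_le_sum notie
    rw [sum_add_distrib, ← two_W hw, sum_const, nsmul_eq_mul, mul_one, sum_add_distrib] at e1
    have e2 : psi a lam x.1 x.2 = ∑ v ∈ x.1, a v + ∑ v ∈ x.1, dg lam v x.2 := rfl
    have hne := h.ne hp
    rcases Nat.lt_or_ge x.1.card 2 with hc | hc
    · have hc1 : x.1.card = 1 := by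
        have := card_pos.2 hne
        omega
      obtain ⟨v, hv⟩ := card_eq_one.1 hc1
      rw [hv, W_singleton, card_singleton]
      push_cast
      linarith
    · have hc' : (2 : ℤ) ≤ x.1.card := by exact_mod_cast hc
      have ho : 0 ≤ psi a lam x.1 x.2 - p := by linarith [h.hp]
      nlinarith [mul_nonneg (sub_nonneg.2 hc') ho]
  -- Step B
  set M' : Finset (Finset ℕ × Finset ℕ) := M.filter
    (fun x => (x.1.card : ℤ) + W lam x.1 ≤ p + 1) with hM'
  have hM'ne : M'.Nonempty := by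
    obtain ⟨x, hx, hx'⟩ := stepA
    exact ⟨x, by rw [hM', mem_filter]; exact ⟨hx, hx'⟩⟩
  obtain ⟨x, hx, hxm⟩ := exists_min_image M' (fun x => x.2.card) hM'ne
  rw [hM', mem_filter] at hx
  obtain ⟨hxM, hxc⟩ := hx
  have h := (memM x).1 hxM
  obtain ⟨k1, k2, k3, k4⟩ := h.bounds hw hl ha
  refine ⟨x.1, x.2, h.hH, h.hZ, h.hd, h.hp, hxc, ?_⟩
  have ho : 0 ≤ psi a lam x.1 x.2 - p := by linarith [h.hp]
  have hHpos : (1 : ℤ) ≤ x.1.card := by exact_mod_cast card_pos.2 (h.ne hp)
  rcases Nat.lt_or_ge x.2.card 2 with hc | hc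
  · rcases Nat.eq_zero_or_pos x.2.card with hc0 | hc0
    · rw [card_eq_zero.1 hc0, W_empty, card_empty, sum_empty]
      push_cast
      linarith
    · have hc1 : x.2.card = 1 := by omega
      obtain ⟨v, hv⟩ := card_eq_one.1 hc1
      rw [hv, W_singleton, card_singleton, sum_singleton]
      push_cast
      by_contra hcon
      have hvA : v ∈ A := h.hZ (by rw [hv]; exact mem_singleton_self v)
      have e0 : dg lam v ∅ = 0 := by simp [dg]
      have e1 := h.hm {v} ∅ (singleton_subset_iff.2 hvA) (empty_subset _)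
        (disjoint_empty_right _) (by unfold psi; rw [sum_singleton, sum_singleton, e0]; omega)
      unfold fun2 at e1
      rw [hv, W_singleton, W_empty, card_singleton, card_empty, sum_empty, sum_singleton] at e1
      have e2 : 0 ≤ W lam x.1 := W_nonneg fun _ _ _ _ _ => hl _ _
      push_cast at e1
      omega
  · have hc' : (2 : ℤ) ≤ x.2.card := by exact_mod_cast hc
    have q1 : (x.2.card : ℤ) + (psi a lam x.1 x.2 - p) ≤ p - 1 := by
      nlinarith [mul_nonneg (sub_nonneg.2 hc') ho]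
    by_cases htie : ∃ v ∈ x.2, a v + dg lam v (x.2.erase v) = dg lam v x.1
    · obtain ⟨v, hv, hve⟩ := htie
      have h' := (h.dZ hw hv).2 hve
      have hvH : v ∉ x.1 := disjoint_right.1 h.hd hv
      obtain ⟨j1, j2, j3, j4⟩ := h'.bounds hw hl ha
      have hpsi : psi a lam (insert v x.1) (x.2.erase v) = psi a lam x.1 x.2 := by
        have h1 := psi_eraseZ (a := a) (H := x.1) hw hv
        have h3 := psi_insertH (a := a) (lam := lam) (Z := x.2.erase v) hvH
        omega
      rw [hpsi, card_insert_of_notMem hvH] at j1 j3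
      push_cast at j1 j3
      have hbig : p + 2 ≤ ((insert v x.1).card : ℤ) + W lam (insert v x.1) := by
        by_contra hcon
        have h4 := hxm (insert v x.1, x.2.erase v) (by
          rw [hM', mem_filter]
          exact ⟨(memM _).2 h', by simp only; omega⟩)
        have h5 : (x.2.erase v).card < x.2.card := card_erase_lt_of_mem hv
        simp only at h4
        omega
      rw [card_insert_of_notMem hvH] at hbig
      push_cast at hbig
      rcases eq_or_lt_of_le ho with ho0 | ho1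
      · -- `o = 0`
        have hu := h.union hw (by linarith)
        have e10 : (x.1.card : ℤ) ≤ ∑ v ∈ x.1, a v := by
          have := card_nsmul_le_sum x.1 a 1 fun v hv => ha v (h.hH hv)
          simpa using this
        have e11 : (x.2.card : ℤ) ≤ ∑ v ∈ x.2, a v := by
          have := card_nsmul_le_sum x.2 a 1 fun v hv => ha v (h.hZ hv)
          simpa using this
        by_contra hcon
        push Not at hcon
        linarith
      · exfalso
        have h1o : 0 ≤ psi a lam x.1 x.2 - p - 1 := by omega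
        have h2c : 0 ≤ (x.1.card : ℤ) - 1 := by linarith
        nlinarith [mul_nonneg h1o h2c]
    · push Not at htie
      have notie : ∀ v ∈ x.2, a v + dg lam v (x.2.erase v) + 1 ≤ dg lam v x.1 := by
        intro v hv
        have h1 := (h.dZ hw hv).1
        have h2 := htie v hv
        omega
      have e1 : ∑ v ∈ x.2, (a v + dg lam v (x.2.erase v) + 1) ≤ ∑ v ∈ x.2, dg lam v x.1 :=
        sum_le_sum notie
      rw [sum_add_distrib, sum_add_distrib, ← two_W hw, sum_const, nsmul_eq_mul, mul_one] at e1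
      have e2 : psi a lam x.1 x.2 = ∑ v ∈ x.1, a v + ∑ v ∈ x.1, dg lam v x.2 := rfl
      have e3 := sum_dg_swap hw x.2 x.1
      have e4 := h.swap hw
      linarith

end

end Pool.Agent.Lib.P56507
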