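import Pool.Agent.Lib.P56507.PatDef
import Pool.Agent.Lib.P56507.WBas

/-!
The paths.
-/

open Finset

namespace Pool.Agent.Lib.P56507

theorem pth_symm (N b ρ x y : ℕ) : pth N b ρ x y = pth N b ρ y x := by
  simp only [pth]
  refine if_congr ⟨?_, ?_⟩ rfl rfl
  · rintro ⟨h1, h2, h3, h4⟩
    exact ⟨h1.symm, h3, h2, h4.symm⟩
  · rintro ⟨h1, h2, h3, h4⟩
    exact ⟨h1.symm, h3, h2, h4.symm⟩

theorem W_pth (N b ρ : ℕ) (S : Finset ℕ) :
    W (pth N b ρ) S = (((S ∩ range N).filter fun x => x + 1 ∈ S ∩ range N ∧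
      (x + 1 - ρ) / b = (x - ρ) / b).card : ℤ) := by
  simp only [W, pth]
  rw [Finset.sum_boole]
  congr 1
  refine Finset.card_nbij' (fun p => p.1) (fun x => (x, x + 1)) ?_ ?_ ?_ ?_
  · rintro ⟨x, y⟩ hp
    simp only [coe_filter, mem_filter, mem_product, Set.mem_ofPred_eq, mem_inter, mem_range] at hp ⊢
    obtain ⟨⟨⟨hx, hy⟩, hxy⟩, h1, h2, h3, h4⟩ := hp
    have h5 : x + 1 = y := by omega
    subst h5
    exact ⟨⟨hx, h2⟩, ⟨hy, h3⟩, h4.symm⟩
  · rintro x hp
    simp only [coe_filter, mem_filter, mem_product, Set.mem_ofPred_eq, mem_inter, mem_range] at hp ⊢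
    obtain ⟨⟨hx, h2⟩, ⟨hy, h3⟩, h4⟩ := hp
    exact ⟨⟨⟨hx, hy⟩, Nat.lt_succ_self x⟩, Or.inl trivial, h2, h3, h4.symm⟩
  · rintro ⟨x, y⟩ hp
    simp only [coe_filter, mem_filter, mem_product, Set.mem_ofPred_eq] at hp
    obtain ⟨⟨⟨hx, hy⟩, hxy⟩, h1, h2, h3, h4⟩ := hp
    have h5 : x + 1 = y := by omega
    subst h5
    rfl
  · rintro x _
    rfl

/-- Let `Q = S ∩ range N`, `g x = (x - ρ) / b`, `d = |g(Q)|`. `W (pth) S` is the number of `x ∈ Q` with
`x + 1 ∈ Q` and `g (x + 1) = g x`. The map `x ↦ x + 1` sends these injectively to elements of `Q` which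
are not the smallest ones of `Q` with their value of `g`. So `W ≤ |Q| - d`. -/
theorem pth_le (N b ρ : ℕ) (S : Finset ℕ) :
    W (pth N b ρ) S + (((S ∩ range N).image fun x => (x - ρ) / b).card : ℤ)
      ≤ (S ∩ range N).card := by
  rw [W_pth]
  set Q := S ∩ range N with hQ
  set A := Q.filter fun x => x + 1 ∈ Q ∧ (x + 1 - ρ) / b = (x - ρ) / b with hA
  have h1 : (Q.image fun x => (x - ρ) / b) ⊆
      (Q \ A.image fun x => x + 1).image fun x => (x - ρ) / b := by
    intro v hv
    obtain ⟨y, hy, rfl⟩ := mem_image.1 hv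
    have hne : (Q.filter fun x => (x - ρ) / b = (y - ρ) / b).Nonempty :=
      ⟨y, mem_filter.2 ⟨hy, rfl⟩⟩
    obtain ⟨t, ht, hmin⟩ := (Q.filter fun x => (x - ρ) / b = (y - ρ) / b).exists_min_image id hne
    have ht' := mem_filter.1 ht
    refine mem_image.2 ⟨t, mem_sdiff.2 ⟨ht'.1, fun hc => ?_⟩, ht'.2⟩
    obtain ⟨x, hx, hxt⟩ := mem_image.1 hc
    have hx' := mem_filter.1 hx
    have h2 : t ≤ x := hmin x (mem_filter.2 ⟨hx'.1, by rw [← hx'.2.2, hxt]; exact ht'.2⟩)
    omega
  have h2 : (A.image fun x => x + 1) ⊆ Q := by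
    intro v hv
    obtain ⟨y, hy, rfl⟩ := mem_image.1 hv
    exact (mem_filter.1 hy).2.1
  have h3 : (A.image fun x => x + 1).card = A.card :=
    card_image_of_injective _ (fun x y h => by simpa using h)
  have h4 := (card_le_card h1).trans card_image_le
  rw [card_sdiff_of_subset h2, h3] at h4
  have h5 := card_le_card h2
  rw [h3] at h5
  have h6 : A.card + (Q.image fun x => (x - ρ) / b).card ≤ Q.card := by omega
  exact_mod_cast h6

/-- `g x = (x - ρ) / b` takes the value `0` for `b + ρ` numbers and every other value for `b` numbers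
(`b ≥ 1`). -/
theorem card_le_image {b : ℕ} (hb : 1 ≤ b) (ρ : ℕ) (Q : Finset ℕ) :
    Q.card ≤ (Q.image fun x => (x - ρ) / b).card * b + ρ := by
  have h1 : (Q.filter fun x => ρ ≤ x).card ≤
      b * ((Q.filter fun x => ρ ≤ x).image fun x => (x - ρ) / b).card := by
    refine card_le_mul_card_image _ _ fun a _ => ?_
    have h2 : ((Q.filter fun x => ρ ≤ x).filter fun x => (x - ρ) / b = a) ⊆
        Ico (ρ + b * a) (ρ + b * a + b) := by
      intro x hx
      have hx' := mem_filter.1 hx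
      have hx'' := (mem_filter.1 hx'.1).2
      have h3 := Nat.div_add_mod (x - ρ) b
      have h4 := Nat.mod_lt (x - ρ) (lt_of_lt_of_le Nat.zero_lt_one hb)
      rw [hx'.2] at h3
      rw [mem_Ico]
      omega
    have h5 := card_le_card h2
    rw [Nat.card_Ico] at h5
    omega
  have h6 : ((Q.filter fun x => ρ ≤ x).image fun x => (x - ρ) / b).card ≤
      (Q.image fun x => (x - ρ) / b).card := card_le_card (image_subset_image (filter_subset _ _))
  have h7 : (Q.filter fun x => ¬ ρ ≤ x).card ≤ ρ := by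
    have h8 : (Q.filter fun x => ¬ ρ ≤ x) ⊆ range ρ := by
      intro x hx
      exact mem_range.2 (not_le.1 (mem_filter.1 hx).2)
    have h9 := card_le_card h8
    rwa [card_range] at h9
  have h10 := card_filter_add_card_filter_not (s := Q) (fun x => ρ ≤ x)
  have h11 := Nat.mul_le_mul_left b h6
  rw [Nat.mul_comm _ b]
  omega

/-- Proof. `Q = S ∩ range N`, `d` as in `pth_le`. If `d ≥ c + 1`: `W ≤ |Q| - c - 1 = |Q| - (K + 1) + s`.
If `d ≤ c`: `W ≤ |Q| - d ≤ d b + ρ - d = d (b - 1) + ρ ≤ c (b - 1) + ρ = K - c = s`. -/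
theorem pth_or {k q s K c b ρ : ℕ} (P : Par k q s K c b ρ) (N : ℕ) (S : Finset ℕ) :
    W (pth N b ρ) S ≤ s ∨ W (pth N b ρ) S + K + 1 ≤ s + (S ∩ range N).card := by
  have hsc := P.sc
  have hc1 := P.c1
  have hKb := P.Kb
  have hrc := P.rc
  have hb : 1 ≤ b := by
    rcases Nat.eq_zero_or_pos b with h0 | h0
    · rw [h0, Nat.mul_zero] at hKb
      omega
    · exact h0
  have h1 := pth_le N b ρ S
  have h2 := card_le_image hb ρ (S ∩ range N)
  set d := ((S ∩ range N).image fun x => (x - ρ) / b).card with hd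
  set n := (S ∩ range N).card with hn
  rcases Nat.lt_or_ge c d with h3 | h3
  · right
    have h4 : ((c : ℤ)) + 1 ≤ d := by exact_mod_cast h3
    have h5 : (s : ℤ) + c = K := by exact_mod_cast hsc
    linarith
  · left
    obtain ⟨e, rfl⟩ : ∃ e, b = e + 1 := ⟨b - 1, by omega⟩
    have h4 := Nat.mul_le_mul_right e h3
    have h5 : c * (e + 1) = c * e + c := by ring
    have h6 : d * (e + 1) = d * e + d := by ring
    rw [h6] at h2
    rw [h5] at hKb
    have h7 : (n : ℤ) ≤ s + d := by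
      have h8 : n ≤ s + d := by omega
      exact_mod_cast h8
    linarith

/-- The number of edges: `N` minus the number of paths, which is `⌈(N - ρ) / b⌉`. `W` is the number of
`x` with `x + 1 < N` and `g (x + 1) = g x`; the number of `x` with `x + 1 < N` and
`g (x + 1) = g x + 1` is `g (N - 1) = (N - 1 - ρ) / b`. Induction on `N ≥ ρ + 1`. -/
theorem pth_total {b ρ N n : ℕ} (hb : 1 ≤ b) (hN : ρ < N) (hn : N ≤ n) :
    W (pth N b ρ) (range n) = (N : ℤ) - (((N - ρ + b - 1) / b : ℕ) : ℤ) := by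
  have hb0 : 0 < b := hb
  have key : ∀ M : ℕ, ((range M).filter fun x => (x + 1 - ρ) / b = (x - ρ) / b).card +
      (M - ρ) / b = M := by
    intro M
    induction M with
    | zero => simp
    | succ M ih =>
      rw [range_add_one, filter_insert]
      rcases Nat.lt_or_ge M ρ with h1 | h1
      · have h2 : M + 1 - ρ = 0 := by omega
        have h3 : M - ρ = 0 := by omega
        rw [h3, Nat.zero_div] at ih
        rw [h2, h3, if_pos rfl, card_insert_of_notMem (by simp), Nat.zero_div]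
        omega
      · have h2 : M + 1 - ρ = (M - ρ) + 1 := by omega
        rw [h2, Nat.succ_div]
        split_ifs with h3 h4
        · omega
        · omega
        · rw [card_insert_of_notMem (by simp)]
          omega
        · omega
  rw [W_pth]
  obtain ⟨M, rfl⟩ : ∃ M, N = M + 1 := ⟨N - 1, by omega⟩
  have h1 : ((range n ∩ range (M + 1)).filter fun x => x + 1 ∈ range n ∩ range (M + 1) ∧
      (x + 1 - ρ) / b = (x - ρ) / b) = (range M).filter fun x => (x + 1 - ρ) / b = (x - ρ) / b := by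
    ext x
    simp only [mem_filter, mem_inter, mem_range]
    constructor
    · rintro ⟨_, h2, h3⟩
      exact ⟨by omega, h3⟩
    · rintro ⟨h2, h3⟩
      exact ⟨by omega, by omega, h3⟩
  rw [h1]
  have h2 : (M + 1 - ρ + b - 1) / b = (M - ρ) / b + 1 := by
    rw [show M + 1 - ρ + b - 1 = (M - ρ) + b by omega, Nat.add_div_right _ hb0]
  rw [h2]
  have h3 := key M
  have h4 : ((((range M).filter fun x => (x + 1 - ρ) / b = (x - ρ) / b).card : ℕ) : ℤ) +
      (((M - ρ) / b : ℕ) : ℤ) = M := by exact_mod_cast h3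
  push_cast at h4 ⊢
  linarith

end Pool.Agent.Lib.P56507
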