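import Pool.Agent.Lib.P56507.PatB
import Pool.Agent.Lib.P56507.Pth

/-!
The lower bound.
-/

open Finset

namespace Pool.Agent.Lib.P56507

theorem ext_symm (m : ℚ) (n b ρ x y : ℕ) : ext m n b ρ x y = ext m n b ρ y x := by
  simp only [ext]
  rw [pat_symm, pth_symm]

/-- `Nq q k = K + 1`. -/
theorem Par.Nq_k {k q s K c b ρ : ℕ} (P : Par k q s K c b ρ) : Nq q k = K + 1 := by
  have h1 := P.k1
  have h2 := P.k2
  have h3 := P.q1
  unfold Nq
  refine Nat.div_eq_of_lt_le ?_ ?_
  · have e : (K + 1) * q = q * K + q := by ring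
    omega
  · have e : (K + 1 + 1) * q = q * K + q + q := by ring
    omega

/-- `pat_ok`, `pth_or`, `W_add`, `Par.Nq_k`. -/
theorem ext_cond {k s K c b ρ : ℕ} {m : ℚ} (P : Par k m.den s K c b ρ) (n : ℕ) :
    Cond k (R m k + s) (ext m n b ρ) (range n) := by
  intro S hS hk
  have h0 : ext m n b ρ = fun x y => pat m.den m n x y + pth (Nq m.den n) b ρ x y := by
    funext x y
    rfl
  rw [h0, W_add]
  obtain ⟨h1, h2⟩ := (pat_ok m.den m le_rfl n).2 S hS
  rw [hk] at h1 h2
  rw [P.Nq_k] at h2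
  push_cast at h2
  have h1' : W (fun x y => pat m.den m n x y) S ≤ R m k := h1
  have h2' : W (fun x y => pat m.den m n x y) S + ((S ∩ range (Nq m.den n)).card : ℤ) ≤
    R m k + (K + 1) := h2
  rcases pth_or P (Nq m.den n) S with h3 | h3
  · have h3' : W (fun x y => pth (Nq m.den n) b ρ x y) S ≤ s := h3
    linarith
  · have h3' : W (fun x y => pth (Nq m.den n) b ρ x y) S + K + 1 ≤
      s + (S ∩ range (Nq m.den n)).card := h3
    linarith

/-- `pat_ok`, `pth_total`, `W_add`; `N = Nq q n ≥ Nq q k = K + 1 > ρ` and `N ≤ n`. -/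
theorem ext_total {k s K c b ρ : ℕ} {m : ℚ} (P : Par k m.den s K c b ρ) {n : ℕ} (hn : k ≤ n) :
    W (ext m n b ρ) (range n) =
      R m n + Nq m.den n - (((Nq m.den n - ρ + b - 1) / b : ℕ) : ℤ) := by
  have h0 : ext m n b ρ = fun x y => pat m.den m n x y + pth (Nq m.den n) b ρ x y := by
    funext x y
    rfl
  have hq := P.q1
  have hb : 1 ≤ b := by
    rcases Nat.eq_zero_or_pos b with hb | hb
    · exfalso
      have h1 := P.Kb
      have h2 := P.rc
      have h3 := P.sc
      rw [hb, Nat.mul_zero, Nat.zero_add] at h1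
      omega
    · exact hb
  have hN : ρ < Nq m.den n := by
    have h1 : Nq m.den k ≤ Nq m.den n := Nat.div_le_div_right (by omega)
    rw [P.Nq_k] at h1
    have h2 := P.rc
    have h3 := P.sc
    omega
  have hNn : Nq m.den n ≤ n := by
    unfold Nq
    refine Nat.lt_succ_iff.mp ((Nat.div_lt_iff_lt_mul (by omega)).mpr ?_)
    have h1 : n * 1 ≤ n * m.den := Nat.mul_le_mul_left n hq
    have h2 : (n + 1) * m.den = n * m.den + m.den := by ring
    have h3 : n.succ * m.den = n * m.den + m.den := h2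
    omega
  rw [h0, W_add]
  have h4 : W (fun x y => pat m.den m n x y) (range n) = R m n := (pat_ok m.den m le_rfl n).1
  have h5 : W (fun x y => pth (Nq m.den n) b ρ x y) (range n) =
      (Nq m.den n : ℤ) - (((Nq m.den n - ρ + b - 1) / b : ℕ) : ℤ) := pth_total hb hN hNn
  rw [h4, h5]
  ring

end Pool.Agent.Lib.P56507
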