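import Pool.Agent.Lib.P56507.WBas

/-!
The minimal violating family.
-/

open Finset

namespace Pool.Agent.Lib.P56507

/-- Abstract version: `J` a finite set of blocks with numbers `z i ≥ 1`, `x i ≥ 1`,
`z i ≤ x i + b`, pairwise deficits `a i j ≥ 0`, `net F = ∑_F x i - b W a F`. If `net F ≤ ρ` for all
`F ⊆ J` with `∑_F z ≤ K`, and for all `F ⊆ J` with `∑_F z = K + 1` and `z i = x i + b` on `F`, then
`net J ≤ ρ`. Here `K = c b + ρ`, `ρ < c`.

Proof. Otherwise let `F ⊆ J` be minimal (for inclusion) with `ν = net F - ρ ≥ 1`. `F` is nonempty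
(`net ∅ = 0`). If `F = {i}`, then `∑_F z = z i ≤ K`, contradiction. Let `|F| ≥ 2`. For `i ∈ F`,
`net (F.erase i) ≤ ρ`, and `net F - net (F.erase i) = x i - b dg a i (F.erase i)` (`W_insert`), so
this is `≥ ν`. Sum over `i ∈ F`, with `two_W`:
`|F| ν ≤ ∑_F x - 2 b W a F = 2 net F - ∑_F x = 2 ρ + 2 ν - ∑_F x`. So
`∑_F x ≤ 2 ρ - (|F| - 2) ν ≤ 2 ρ - |F| + 2`, and `∑_F x ≥ |F|` gives `|F| ≤ ρ + 1`. Hence
`∑_F z ≤ ∑_F x + b |F| ≤ 2 ρ + 2 + (b - 1) |F| ≤ 2 ρ + 2 + (b - 1) (ρ + 1) = (b + 1) (ρ + 1)`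
and `K + 1 = c b + ρ + 1 ≥ (ρ + 1) b + ρ + 1 = (b + 1) (ρ + 1)`. So `∑_F z ≤ K`, a contradiction, or
`∑_F z = K + 1` and `∑_F z = ∑_F x + b |F|`, that is `z i = x i + b` for all `i ∈ F`, a
contradiction. -/
theorem net_le {a : ℕ → ℕ → ℤ} (ha : ∀ x y, a x y = a y x) {K c b ρ : ℕ} (hb : 1 ≤ b)
    (hK : K = c * b + ρ) (hρ : ρ < c) {J : Finset ℕ} {z : ℕ → ℕ} {x : ℕ → ℤ}
    (hzK : ∀ i ∈ J, z i ≤ K) (hx : ∀ i ∈ J, 1 ≤ x i) (hzx : ∀ i ∈ J, (z i : ℤ) ≤ x i + b)
    (h1 : ∀ F ⊆ J, ∑ i ∈ F, z i ≤ K → ∑ i ∈ F, x i - b * W a F ≤ ρ)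
    (h2 : ∀ F ⊆ J, ∑ i ∈ F, z i = K + 1 → (∀ i ∈ F, (z i : ℤ) = x i + b) →
      ∑ i ∈ F, x i - b * W a F ≤ ρ) :
    ∑ i ∈ J, x i - b * W a J ≤ ρ := by
  classical
  suffices H : ∀ F : Finset ℕ, F ⊆ J → ∑ i ∈ F, x i - b * W a F ≤ ρ from H J (Subset.refl J)
  intro F
  induction F using Finset.strongInduction with
  | H F IH =>
    intro hF
    by_contra hcon
    push Not at hcon
    have hm : ∀ i ∈ F, ∑ i ∈ F, x i - b * W a F - ρ ≤ x i - b * dg a i (F.erase i) := by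
      intro i hi
      have h3 := IH (F.erase i) (erase_ssubset hi) ((erase_subset i F).trans hF)
      have h4 : W a F = W a (F.erase i) + dg a i (F.erase i) := by
        have := W_insert ha (notMem_erase i F)
        rwa [insert_erase hi] at this
      have h5 : ∑ i ∈ F, x i = x i + ∑ j ∈ F.erase i, x j := (add_sum_erase F x hi).symm
      rw [h4, h5]
      linarith
    have hsum := sum_le_sum hm
    rw [sum_const, sum_sub_distrib, ← mul_sum, ← two_W ha, nsmul_eq_mul] at hsum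
    have hxF : (F.card : ℤ) ≤ ∑ i ∈ F, x i := by
      have h3 : ∑ i ∈ F, (1 : ℤ) ≤ ∑ i ∈ F, x i := sum_le_sum fun i hi => hx i (hF hi)
      simpa using h3
    have hzF : ∑ i ∈ F, (z i : ℤ) ≤ ∑ i ∈ F, x i + b * F.card := by
      have h3 : ∑ i ∈ F, (z i : ℤ) ≤ ∑ i ∈ F, (x i + b) := sum_le_sum fun i hi => hzx i (hF hi)
      rw [sum_add_distrib, sum_const, nsmul_eq_mul] at h3
      linarith
    have hK1 : K + 1 ≤ ∑ i ∈ F, z i := by
      by_contra h3
      push Not at h3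
      exact absurd (h1 F hF (by omega)) (not_le.2 hcon)
    have hcard : 2 ≤ F.card := by
      by_contra h3
      push Not at h3
      have h4 : F.card = 0 ∨ F.card = 1 := by omega
      rcases h4 with h4 | h4
      · rw [card_eq_zero] at h4
        subst h4
        simp at hK1
      · obtain ⟨i, rfl⟩ := card_eq_one.1 h4
        rw [sum_singleton] at hK1
        have := hzK i (hF (mem_singleton_self i))
        omega
    set X : ℤ := ∑ i ∈ F, x i with hX
    set B : ℤ := b * W a F with hB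
    have hBB : (b : ℤ) * (2 * W a F) = 2 * B := by rw [hB]; ring
    rw [hBB] at hsum
    have hcard' : (2 : ℤ) ≤ F.card := by exact_mod_cast hcard
    have hν : (1 : ℤ) ≤ X - B - ρ := by linarith
    have h6 : (F.card : ℤ) - 2 ≤ ((F.card : ℤ) - 2) * (X - B - ρ) := by nlinarith
    have h7 : X ≤ 2 * ρ - F.card + 2 := by nlinarith
    have h8 : (F.card : ℤ) ≤ ρ + 1 := by linarith
    have hb' : (1 : ℤ) ≤ b := by exact_mod_cast hb
    have hc' : (ρ : ℤ) + 1 ≤ c := by exact_mod_cast hρ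
    have hKZ : (K : ℤ) = c * b + ρ := by exact_mod_cast hK
    have h9 : ((b : ℤ) - 1) * F.card ≤ ((b : ℤ) - 1) * (ρ + 1) :=
      mul_le_mul_of_nonneg_left h8 (by linarith)
    have h10 : ((ρ : ℤ) + 1) * b ≤ c * b := mul_le_mul_of_nonneg_right hc' (by linarith)
    have hZcast : ((∑ i ∈ F, z i : ℕ) : ℤ) = ∑ i ∈ F, (z i : ℤ) := by push_cast; rfl
    have hK1' : (K : ℤ) + 1 ≤ ∑ i ∈ F, (z i : ℤ) := by
      rw [← hZcast]
      exact_mod_cast hK1
    have h11 : X + b * F.card ≤ K + 1 := by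
      rw [hKZ]
      nlinarith
    have h12 : ∑ i ∈ F, z i = K + 1 := by
      zify
      linarith
    have h13 : ∀ i ∈ F, (z i : ℤ) = x i + b := by
      have h14 : ∑ i ∈ F, (x i + b - z i) = 0 := by
        rw [sum_sub_distrib, sum_add_distrib, sum_const, nsmul_eq_mul]
        have : (F.card : ℤ) * b = b * F.card := mul_comm _ _
        linarith
      have h15 := (sum_eq_zero_iff_of_nonneg fun i hi => by
        have := hzx i (hF hi)
        linarith).1 h14
      intro i hi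
      have := h15 i hi
      linarith
    exact absurd (h2 F hF h12 h13) (not_le.2 hcon)

end Pool.Agent.Lib.P56507
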