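import Pool.Agent.Lib.P56507.Stage1
import Pool.Agent.Lib.P56507.Extend
import Pool.Agent.Lib.P56507.Good
import Pool.Agent.Lib.P56507.LemE
import Pool.Agent.Lib.P56507.LemF
import Pool.Agent.Lib.P56507.Net

/-!
The upper bound for large sets, with an assumption on subsets.
-/

open Finset

namespace Pool.Agent.Lib.P56507

variable {w : ℕ → ℕ → ℤ} {m : ℚ} {V : Finset ℕ} {k s K c b ρ T : ℕ} {S U : ℕ → Finset ℕ}
  {z : ℕ → ℕ} {f : ℕ → ℤ}

/-- Proof. `T₁ = D + 2 (K + 1) (4 (s + 1) + 1)`, `D' = D + T₁ b s`, `T₂ = T₁ b s + D + K + 1`. `stage1`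
gives a chain of length `t < T₁` of special blocks with `HP m w (U t) z₀`. `C.Phi_eq`,
`Phi V ≥ - D`, `b f i - (b - 1) z i ≤ b s` and nonnegative deficits give
`Phi (U t) ≥ - D - t b s ≥ - D'`. `extend` and `good` give a chain of length `t + T₂` with the same
first `t` blocks and `G`. `lemF` and `lemE` (for `F ⊆ range t`) give the hypotheses of `net_le` with
`J = range t`, `x i = b f i - (b - 1) z i`, `a = lam m w S' z'`. (`z i ≤ x i + b`:
`x i + b - z i = b (f i - (z i - 1)) ≥ 0`, with equality iff `f i = z i - 1`.) Finally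
`Phi V = ∑_{i < t} x i - b W lam (range t) - b ∑ df + Phi (U t) ≤ ρ + 0 + 0` (`Phi_eq` for the chain
of length `t`, `HP.Phi_le`). -/
theorem main (hw : ∀ x y, w x y = w y x) (P : Par k m.den s K c b ρ)
    (h : Cond k (R m k + s) w V) {D T₁ T₂ : ℕ}
    (hT : T₁ = D + 2 * ((K + 1) * (4 * (s + 1) + 1))) (hT₂ : T₂ = T₁ * (b * s) + D + K + 1)
    (hV : m.den * (K * (T₁ + T₂)) + 4 * k + m.den * (D + T₁ * (b * s) + s + k + T₁ * s + 1)
      ≤ V.card)
    (hsub : ∀ V' ⊆ V, k ≤ V'.card → Phi b m w V' ≤ Phi b m w V + D)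
    (hD : -(D : ℤ) ≤ Phi b m w V) : Phi b m w V ≤ ρ := by
  have hb := P.b1
  have hq : 1 ≤ m.den := P.q1
  -- stage 1
  obtain ⟨t, S, U, z, f, ht, C, hspec, z₀, hz₀, hz₀b, hHP⟩ :=
    stage1 hw P h (T₁ := T₁) hT.ge (by
      have e1 : m.den * (K * T₁) ≤ m.den * (K * (T₁ + T₂)) :=
        Nat.mul_le_mul_left _ (Nat.mul_le_mul_left _ (Nat.le_add_right _ _))
      have e2 : m.den * (D + s + k + T₁ * s + 1)
          ≤ m.den * (D + T₁ * (b * s) + s + k + T₁ * s + 1) :=
        Nat.mul_le_mul_left _ (by omega)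
      omega) hsub
  have hT₁ : t * (b * s) ≤ T₁ * (b * s) := Nat.mul_le_mul_right _ ht.le
  have hPhiU : Phi b m w (U t) ≤ 0 := hHP.Phi_le hw hz₀ hz₀b
  -- stage 2
  have hPhi : -((D + T₁ * (b * s) : ℕ) : ℤ) ≤ Phi b m w (U t) := by
    have e1 := C.Phi_le hw hb
    have e2 := C.W_lam_nonneg hw (F := range t) (Finset.Subset.refl _)
    have e3 : 0 ≤ (b : ℤ) * W (lam m w S z) (range t) := by positivity
    have e4 : (t : ℤ) * (b * s) ≤ T₁ * (b * s) := by exact_mod_cast hT₁
    push_cast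
    linarith
  obtain ⟨S', U', z', f', C', hsame, hU', hord⟩ :=
    extend hw P h (T₂ := T₂) C hz₀ hz₀b hHP hPhi (by
      have e1 := C.card_U
      have e2 : m.den * (K * t) + m.den * (K * T₂) ≤ m.den * (K * (T₁ + T₂)) := by
        rw [← Nat.mul_add, ← Nat.mul_add]
        exact Nat.mul_le_mul_left _ (Nat.mul_le_mul_left _ (by omega))
      have e3 : m.den * (D + T₁ * (b * s) + s + k + 1)
          ≤ m.den * (D + T₁ * (b * s) + s + k + T₁ * s + 1) :=
        Nat.mul_le_mul_left _ (by omega)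
      omega)
  have hsub' : U' (t + T₂) ⊆ U t := by
    rw [← hU' t le_rfl]
    exact C'.U_anti (Nat.le_add_right _ _) le_rfl
  obtain ⟨G, hG, hGc, hG1, hG2⟩ := good hw P C' hD ((hHP.mono hsub').Phi_le hw hz₀ hz₀b)
    (by omega) hord
  have htT : t ≤ t + T₂ := Nat.le_add_right _ _
  have hJ : range t ⊆ range (t + T₂) := range_subset_range.2 htT
  have hb' : (1 : ℤ) ≤ b := by exact_mod_cast hb
  -- the net of the special blocks
  have hnet := net_le (a := lam m w S' z') (J := range t) (z := z')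
    (x := fun i => b * f' i - ((b : ℤ) - 1) * z' i) (lam_symm hw) hb P.Kb P.rc
    (fun i hi => C'.zK i (mem_range.1 (hJ hi)))
    (fun i hi => by
      obtain ⟨-, e2, e3⟩ := hsame i (mem_range.1 hi)
      have := hspec i (mem_range.1 hi)
      rw [e2, e3]
      exact this)
    (fun i hi => by
      have := C'.fz i (mem_range.1 (hJ hi))
      have e : 0 ≤ (b : ℤ) * (f' i - (z' i - 1)) := mul_nonneg (by linarith) (by linarith)
      nlinarith)
    (fun F hF hZ => lemF hw P h C' htT hG hGc hG1 (fun g hg i hi _ => hG2 g hg i hi) hF hZ)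
    (fun F hF hZ hz => lemE hw P h C' (hF.trans hJ) hZ (fun i hi => by
      have e1 := hz i hi
      have e2 : (b : ℤ) * (f' i - (z' i - 1)) = 0 := by linarith
      rcases mul_eq_zero.1 e2 with e3 | e3
      · linarith
      · linarith))
  -- the potential
  have C'' := C'.take htT
  have e1 := C''.Phi_eq hw b
  have e2 := C''.df_U_nonneg
  have e3 : 0 ≤ (b : ℤ) * ∑ i ∈ range t, df m w S' z' i (U' t) := by positivity
  have e4 : Phi b m w (U' t) ≤ 0 := by rw [hU' t le_rfl]; exact hPhiU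
  linarith

end Pool.Agent.Lib.P56507
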