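import Pool.Agent.Lib.P56507.LastD
import Pool.Agent.Lib.P56507.Desc
import Pool.Agent.Lib.P56507.AvgN

/-!
The inductive step in the monotone case.
-/

open Finset

namespace Pool.Agent.Lib.P56507

variable {w : ℕ → ℕ → ℤ}

/-- Proof. `N = ⌈|V| / q⌉`. `mono_ex` for `∅` gives `0 ≤ K - c`, so `c ≤ K`; let `s = K - c`,
`b = K / c`, `ρ = K % c` (natural numbers) to have `Par k q s K c b ρ`, and apply `zero_idx`: `z`,
`S`, `f`, `z - 1 ≤ f`. Let `V' = V \ S`, `N' = ⌈|V'| / q⌉ = N - z`,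
`β = ∑_{v ∈ V'} (m.num z - dg w v S) ≥ 0`. `ex_block`: `ex V = f + ex V' - β`.

Case `f - β ≤ z - 1`: `ex V ≤ z - 1 + ex V'`. If `|V'| ≥ k`: `hIH`, `ex V' ≤ N' - c - hh N'` and
`hh N ≤ hh (N - z) + 1`. If `|V'| < k`: `mono_ex`, `ex V' ≤ K - c`, so
`ex V ≤ z - 1 + K - c ≤ 2 K - 1 - c ≤ N - c - hh N` (`P5`).

Case `f - β ≥ z`: let `K' = K - z`, `k' = k - q z`, `c' = c + (f - β) - z ≥ c ≥ 1`. For `T ⊆ V'` with
`|T| = k'`: `R m k + K - c ≥ W (S ∪ T) = R m (q z) + f + W T + ∑_{v ∈ T} dg w v S`, and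
`R m k = R m (q z) + R m k' + m.num z k'` (`R_add`), so
`W T ≤ R m k' + K - c - f + ∑_{v ∈ T} (m.num z - dg w v S) ≤ R m k' + K - c - f + β = R m k' + K' - c'`.
`hQ`: `ex V' ≤ N' - c' - N' / (K' + 1)`. So
`ex V ≤ f - β + N - z - c' - (N - z) / (K - z + 1) = N - c - (N - z) / (K - z + 1)
≤ N - c - hh N` (`P4`). -/
theorem mono_jump (hw : ∀ x y, w x y = w y x) {m : ℚ} {k K : ℕ} {c : ℤ} (hc : 1 ≤ c)
    (hK : 1 ≤ K) (k1 : m.den * K + 1 ≤ k) (k2 : k ≤ m.den * K + m.den) {V : Finset ℕ}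
    (hV : k ≤ V.card) (h : Cond k (R m k + (K - c)) w V)
    (hmono : ∀ i < k, al w V i + ⌈m * (i : ℚ)⌉ ≤ al w V (i + 1)) {hh : ℕ → ℕ}
    (hIH : ∀ A ⊂ V, k ≤ A.card → ex m w A ≤ Nq m.den A.card - c - hh (Nq m.den A.card))
    (hQ : ∀ K' < K, ∀ (k' : ℕ) (c' : ℤ), 1 ≤ c' → m.den * K' + 1 ≤ k' →
      k' ≤ m.den * K' + m.den → ∀ A ⊆ V, k' ≤ A.card → Cond k' (R m k' + (K' - c')) w A →
        ex m w A ≤ Nq m.den A.card - c' - ((Nq m.den A.card / (K' + 1) : ℕ) : ℤ))
    (P2 : ∀ z, 1 ≤ z → z ≤ K → hh (Nq m.den V.card) ≤ hh (Nq m.den V.card - z) + 1)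
    (P4 : ∀ z, 1 ≤ z → z ≤ K → hh (Nq m.den V.card) ≤ (Nq m.den V.card - z) / (K - z + 1))
    (P5 : 2 * K + hh (Nq m.den V.card) ≤ Nq m.den V.card + 1) :
    ex m w V ≤ Nq m.den V.card - c - hh (Nq m.den V.card) := by
  classical
  have hq : 1 ≤ m.den := m.den_pos
  -- the bounds for `c`
  have hcK : 0 ≤ (K : ℤ) - c := by
    have h1 := mono_ex hV h hmono (empty_subset V) (by simp)
    simpa [ex, W_empty, R_zero] using h1
  obtain ⟨cn, rfl⟩ : ∃ cn : ℕ, c = cn := ⟨c.toNat, by omega⟩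
  have hc1 : 1 ≤ cn := by exact_mod_cast hc
  have hcK' : cn ≤ K := by omega
  have P : Par k m.den (K - cn) K cn (K / cn) (K % cn) :=
    { q1 := hq
      k1 := k1
      k2 := k2
      sc := by omega
      c1 := hc1
      Kb := (Nat.div_add_mod K cn).symm
      rc := Nat.mod_lt _ (by omega) }
  have hs : ((K - cn : ℕ) : ℤ) = (K : ℤ) - cn := by omega
  have h' : Cond k (R m k + ((K - cn : ℕ) : ℤ)) w V := by rw [hs]; exact h
  obtain ⟨z, S, f, z1, zK, hS, hSc, hWS, hzf, hfs, hdeg, -, -⟩ := zero_idx hw P hV h' hmono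
  have hcard : V.card = m.den * z + (V \ S).card := by
    rw [← hSc, add_comm]
    exact (card_sdiff_add_card_eq_card hS).symm
  have hN : Nq m.den V.card = z + Nq m.den (V \ S).card := by
    rw [hcard, Nq_add hq]
  set N' := Nq m.den (V \ S).card with hN'
  set N := Nq m.den V.card with hNd
  set β : ℤ := ∑ v ∈ V \ S, (m.num * z - dg w v S) with hβ
  have hβ0 : 0 ≤ β := sum_nonneg fun v hv => by
    have := hdeg v hv
    linarith
  have hexb : ex m w V = f + ex m w (V \ S) - β := by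
    have h1 := ex_block hw m hS hSc
    rw [h1]
    have h2 : ex m w S = f := by
      unfold ex
      rw [hSc, hWS]
      ring
    rw [h2]
  have hP2 := P2 z z1 zK
  have hP4 := P4 z z1 zK
  have hNz : N - z = N' := by omega
  rw [hNz] at hP2 hP4
  by_cases hcase : f - β ≤ z - 1
  · by_cases hk' : k ≤ (V \ S).card
    · have hss : V \ S ⊂ V := by
        refine ⟨sdiff_subset, fun hcon => ?_⟩
        have h1 := card_le_card hcon
        have h2 : 1 ≤ m.den * z := Nat.one_le_iff_ne_zero.2 (by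
          have := Nat.mul_le_mul hq z1
          omega)
        omega
      have h1 := hIH _ hss hk'
      rw [← hN'] at h1
      have h2 : (hh N : ℤ) ≤ (hh N' : ℤ) + 1 := by exact_mod_cast hP2
      have h3 : (N : ℤ) = z + N' := by exact_mod_cast hN
      linarith
    · have h1 := mono_ex hV h hmono (sdiff_subset : V \ S ⊆ V) (by omega)
      have h2 : (2 : ℤ) * K + hh N ≤ N + 1 := by exact_mod_cast P5
      have h3 : (z : ℤ) ≤ K := by exact_mod_cast zK
      linarith
  · push Not at hcase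
    have hz' : (z : ℤ) ≤ f - β := by linarith
    have hmul : m.den * (K - z) + m.den * z = m.den * K := by
      rw [← Nat.mul_add, Nat.sub_add_cancel zK]
    have hKz : ((K - z : ℕ) : ℤ) = (K : ℤ) - z := by omega
    have h1 := hQ (K - z) (by omega) (k - m.den * z) ((cn : ℤ) + (f - β) - z) (by linarith)
      (by omega) (by omega) (V \ S) sdiff_subset (by omega) (by
        intro T hT hTc
        have hdis : Disjoint S T := disjoint_of_subset_right hT disjoint_sdiff
        have hST : S ∪ T ⊆ V := union_subset hS (hT.trans sdiff_subset)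
        have hk1 : m.den * z + (k - m.den * z) = k := by omega
        have hSTc : (S ∪ T).card = k := by
          rw [card_union_of_disjoint hdis, hSc, hTc, hk1]
        have e1 := h _ hST hSTc
        have e2 := R_add m z (k - m.den * z)
        rw [hk1] at e2
        have e3 := W_union hw hdis
        have e4 : ∑ v ∈ T, (m.num * z - dg w v S) ≤ β :=
          sum_le_sum_of_subset_of_nonneg hT fun v hv _ => by
            have := hdeg v hv
            linarith
        rw [sum_sub_distrib, sum_const, nsmul_eq_mul, hTc] at e4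
        rw [hKz]
        rw [e3, e2, hWS] at e1
        have e5 : m.num * (z : ℤ) * ((k - m.den * z : ℕ) : ℤ) =
          ((k - m.den * z : ℕ) : ℤ) * (m.num * (z : ℤ)) := by ring
        linarith)
    rw [← hN'] at h1
    have h3 : (N : ℤ) = z + N' := by exact_mod_cast hN
    have h4 : (hh N : ℤ) ≤ ((N' / (K - z + 1) : ℕ) : ℤ) := by exact_mod_cast hP4
    linarith

end Pool.Agent.Lib.P56507
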