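import Pool.Agent.Lib.P56507.LemJ
import Pool.Agent.Lib.P56507.Graph
import Pool.Agent.Lib.P56507.Snoc

/-!
Long chains of special blocks are impossible.
-/

open Finset

namespace Pool.Agent.Lib.P56507

variable {w : ℕ → ℕ → ℤ} {m : ℚ} {V : Finset ℕ} {k s K c b ρ T : ℕ} {S U : ℕ → Finset ℕ}
  {z : ℕ → ℕ} {f : ℕ → ℤ}

/-- A chain of `T₁` special blocks is impossible.

Proof. `C.Phi_eq`: `Phi V = ∑ (b f i - (b - 1) z i) - b W lam (range T₁) - b ∑ df + Phi (U T₁)`, with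
`df ≥ 0` and `Phi (U T₁) ≤ Phi V + D` (`hsub`; `|U T₁| ≥ |V| - q K T₁ ≥ k`), and
`b f i - (b - 1) z i ≤ b s`. So `b W lam ≤ T₁ b s + D`, `W lam ≤ T₁ s + D ≤ T₁ (s + 1)` (`D ≤ T₁`).
Apply `graph` with `A = s + 1`, `M = K + 1`, and `lemJ`. -/
theorem no_long (hw : ∀ x y, w x y = w y x) (P : Par k m.den s K c b ρ)
    (h : Cond k (R m k + s) w V) {D T₁ : ℕ}
    (hT : D + 2 * ((K + 1) * (4 * (s + 1) + 1)) ≤ T₁) (hV : m.den * (K * T₁) + k ≤ V.card)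
    (hsub : ∀ V' ⊆ V, k ≤ V'.card → Phi b m w V' ≤ Phi b m w V + D)
    {S U : ℕ → Finset ℕ} {z : ℕ → ℕ} {f : ℕ → ℤ} (C : Chain m w V s K T₁ S U z f)
    (hspec : ∀ i < T₁, 1 ≤ b * f i - ((b : ℤ) - 1) * z i) : False := by
  have hb : 1 ≤ b := P.b1
  have h1 := C.Phi_le hw hb
  have h2 := C.card_U
  have h3 : k ≤ (U T₁).card := by omega
  have h4 := hsub (U T₁) (C.U_sub le_rfl) h3
  have hDT : D ≤ T₁ := le_trans (Nat.le_add_right _ _) hT
  have hbz : (1 : ℤ) ≤ b := by exact_mod_cast hb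
  have hDz : (D : ℤ) ≤ T₁ := by exact_mod_cast hDT
  have hT0 : (0 : ℤ) ≤ T₁ := Int.natCast_nonneg _
  have hW : W (lam m w S z) (range T₁) ≤ ((s + 1 : ℕ) : ℤ) * T₁ := by
    by_contra hcon
    have h5 : ((s + 1 : ℕ) : ℤ) * T₁ + 1 ≤ W (lam m w S z) (range T₁) := by
      have := not_le.1 hcon
      omega
    have h6 := mul_le_mul_of_nonneg_left h5 (by linarith : (0 : ℤ) ≤ b)
    have h7 : (T₁ : ℤ) ≤ b * T₁ := by nlinarith
    push_cast at h6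
    nlinarith
  obtain ⟨Z, hZ, hc, h0⟩ := graph (lam_symm (m := m) (z := z) (S := S) hw) (T := T₁) (A := s + 1)
    (M := K + 1) (by omega) (fun i hi j hj hij => C.lam_nonneg hw hij hi hj) hW
  exact lemJ hw P h C hspec hZ hc h0

end Pool.Agent.Lib.P56507
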