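import Pool.Agent.Lib.P56507.PBDefs

/-!
# The set `C*`

`b = B + 1`, `net X = bE X - B * bC X = ∑_{x∈X} (f x - B c x) - b W X`.
The set is a maximiser of `net` over all subsets of `J`, of minimal size among the maximisers.
-/

open Finset

namespace Pool.Agent.Lib.P56507

variable {l : ℕ → ℕ → ℤ} {c f : ℕ → ℤ} {J : Finset ℕ} {k s : ℤ}

theorem cstar (S : BSys f c l J k s) {B δ : ℤ} (hB : 0 ≤ B) (hs : s + 1 ≤ (B + 1) * k)
    (hE : bE f l J = s + B * (bC c l J - k) + δ) :
    ∃ C ⊆ J, bC c l C ≤ k ∧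
      (∀ i ∈ J \ C, f i - dg l i C ≤ B * (c i + dg l i C)) ∧
      (C.card : ℤ) + (B + 1) * W l C ≤ bE f l C - B * bC c l C ∧
      s - B * k + δ ≤ bE f l C - B * bC c l C := by
  classical
  -- a maximiser of minimal size
  obtain ⟨M, hMJ, hMmax⟩ : ∃ M ∈ J.powerset, ∀ X ∈ J.powerset,
      bE f l X - B * bC c l X ≤ bE f l M - B * bC c l M :=
    exists_max_image J.powerset (fun X => bE f l X - B * bC c l X) ⟨∅, empty_mem_powerset J⟩
  obtain ⟨C, hC, hCmin⟩ : ∃ C ∈ J.powerset.filter
        (fun X => bE f l M - B * bC c l M ≤ bE f l X - B * bC c l X),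
      ∀ X ∈ J.powerset.filter
        (fun X => bE f l M - B * bC c l M ≤ bE f l X - B * bC c l X), C.card ≤ X.card :=
    exists_min_image (J.powerset.filter
        (fun X => bE f l M - B * bC c l M ≤ bE f l X - B * bC c l X))
      (fun X => X.card) ⟨M, mem_filter.2 ⟨hMJ, le_refl _⟩⟩
  rw [mem_filter, mem_powerset] at hC
  obtain ⟨hCJ, hCM⟩ := hC
  have hmax : ∀ X ⊆ J, bE f l X - B * bC c l X ≤ bE f l C - B * bC c l C := fun X hX =>
    le_trans (hMmax X (mem_powerset.2 hX)) hCM
  have hmin : ∀ y ∈ C, bE f l (C.erase y) - B * bC c l (C.erase y) + 1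
      ≤ bE f l C - B * bC c l C := by
    intro y hy
    by_contra hcon
    push Not at hcon
    have h1 : C.card ≤ (C.erase y).card := by
      refine hCmin _ (mem_filter.2 ⟨mem_powerset.2 ((erase_subset _ _).trans hCJ), ?_⟩)
      linarith
    have h2 := card_erase_lt_of_mem hy
    omega
  -- the marginal net of a member
  have hnu : ∀ y ∈ C, 1 + (B + 1) * dg l y (C.erase y) ≤ f y - B * c y := by
    intro y hy
    have h1 := hmin y hy
    have h2 := bE_erase (f := f) S.sy hy
    have h3 := bC_erase (c := c) S.sy hy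
    nlinarith
  have hnet : ∀ X : Finset ℕ, bE f l X - B * bC c l X
      = ∑ x ∈ X, (f x - B * c x) - (B + 1) * W l X := by
    intro X
    unfold bE bC
    rw [sum_sub_distrib, ← mul_sum]
    ring
  have hsum : ∀ X ⊆ C, (X.card : ℤ) + (B + 1) * (2 * W l X + cr l X (C \ X))
      ≤ ∑ x ∈ X, (f x - B * c x) := by
    intro X hX
    have h1 := sum_dg_erase S.sy hX
    have h2 : ∑ x ∈ X, (1 + (B + 1) * dg l x (C.erase x)) ≤ ∑ x ∈ X, (f x - B * c x) :=
      sum_le_sum fun y hy => hnu y (hX hy)
    rw [sum_add_distrib, ← mul_sum, h1] at h2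
    simpa using h2
  have hcard : (C.card : ℤ) + (B + 1) * W l C ≤ bE f l C - B * bC c l C := by
    have h1 := hsum C (Subset.refl _)
    have h2 := hnet C
    have h3 : cr l C (C \ C) = 0 := by rw [sdiff_self]; exact cr_empty_right _
    rw [h3] at h1
    nlinarith
  refine ⟨C, hCJ, ?_, ?_, hcard, ?_⟩
  · -- `C` is low
    by_contra hcon
    push Not at hcon
    obtain ⟨X, hX, hXmax⟩ : ∃ X ∈ C.powerset.filter (fun X => bC c l X ≤ k),
        ∀ Y ∈ C.powerset.filter (fun X => bC c l X ≤ k), Y.card ≤ X.card := by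
      refine exists_max_image (C.powerset.filter (fun X => bC c l X ≤ k)) (fun X => X.card)
        ⟨∅, mem_filter.2 ⟨empty_mem_powerset C, ?_⟩⟩
      rw [bC_empty]
      have := S.k1
      linarith
    rw [mem_filter, mem_powerset] at hX
    obtain ⟨hXC, hXk⟩ := hX
    obtain ⟨z, hzC, hzX⟩ : ∃ z ∈ C, z ∉ X := by
      by_contra h
      push Not at h
      have : X = C := Subset.antisymm hXC h
      rw [this] at hXk
      linarith
    have hz1 : k + 1 ≤ bC c l (insert z X) := by
      by_contra h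
      push Not at h
      have h1 : (insert z X).card ≤ X.card := by
        refine hXmax _ (mem_filter.2 ⟨mem_powerset.2 (insert_subset hzC hXC), ?_⟩)
        linarith
      rw [card_insert_of_notMem hzX] at h1
      omega
    rw [bC_insert S.sy hzX] at hz1
    have hcz := S.c1 z (hCJ hzC)
    have hdz : k - bC c l X ≤ dg l z X := by linarith
    have hcrz : dg l z X ≤ cr l X (C \ X) := by
      have h1 : cr l X {z} ≤ cr l X (C \ X) :=
        cr_mono S.nn (Subset.refl _) (singleton_subset_iff.2 (mem_sdiff.2 ⟨hzC, hzX⟩))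
      rwa [cr_singleton_right] at h1
    have h1 := hsum X hXC
    have h2 := hnet X
    have hW := W_nn S.nn X
    have hk : bC c l X ≤ X.card + W l X := by
      unfold bC
      have : ∑ x ∈ X, c x ≤ ∑ _x ∈ X, (1 : ℤ) :=
        sum_le_sum fun y hy => S.c1 y (hCJ (hXC hy))
      simp only [sum_const, nsmul_eq_mul, mul_one] at this
      linarith
    have hlow := S.H X (hXC.trans hCJ) hXk
    have hB1 : 0 ≤ B + 1 := by linarith
    have h3 : (B + 1) * (k - bC c l X) ≤ (B + 1) * cr l X (C \ X) :=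
      mul_le_mul_of_nonneg_left (hdz.trans hcrz) hB1
    have h4 : 0 ≤ B * W l X := mul_nonneg hB hW
    nlinarith
  · intro i hi
    rw [mem_sdiff] at hi
    have h1 := hmax (insert i C) (insert_subset hi.1 hCJ)
    rw [bC_insert S.sy hi.2, bE_insert S.sy hi.2] at h1
    nlinarith
  · have h1 := hmax J (Subset.refl _)
    rw [hE] at h1
    nlinarith

end Pool.Agent.Lib.P56507
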