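import Pool.Agent.Lib.P56507.PBOpt

/-!
# Second swap: remove one `i ∈ F`, add a part `G` of `E \ F`

Notation: `E1 = E \ F`, `x1 = x - bC d l F`, `σ1 = σ - bE w l F ≥ 0`, `b = B + 1`, `i1 = W E1`,
`D j = d j + dg j F`, `u i = w i - dg i (E.erase i)`, `Λ j = B d j - w j + b dg j F`,
`mq i = bC d l F - bC d l (F.erase i)`.

For `G ⊆ E1`: `bC (F.erase i ∪ G) = bC (F.erase i) + ∑_G d + W G + cr (F.erase i) G
 = bC F - mq i + ∑_G D + W G - dg i G` (`cr (F.erase i) G = ∑_{t∈G} (dg t F - l t i)`), and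
`bE (F.erase i ∪ G) = bE (F.erase i) + ∑_G w - W G - cr (F.erase i) G
 = bE (F.erase i) + ∑_G (B D - Λ) + dg i G - W G` (`w t = B D t - Λ t + dg t F`).

Let `G ⊆ E1` be of maximal size with `bC (F.erase i ∪ G) ≤ x` (`∅` is one:
`bC (F.erase i) ≤ bC F ≤ x`, `bC_erase`, `d i ≥ 1`). `G ≠ E1`: `F.erase i ∪ E1 = E.erase i` is
infeasible (`R.hie`).

(1) `O.opt` for `F.erase i ∪ G`: `∑_G (B D - Λ) + dg i G - W G ≤ bE F - bE (F.erase i)
 = w i - dg i (F.erase i) = u i + dg i E1` (`E.erase i = F.erase i ∪ E1`). With `opt_net`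
`∑_G Λ = B x1 - σ1 - δ - b i1 - ∑_{E1 \ G} Λ`, `∑_{E1 \ G} Λ ≥ ∑_{E1 \ G} dg t F ≥ dg i (E1 \ G)
 = dg i E1 - dg i G`, `σ1 ≥ 0`, `δ ≥ 1`:
`B ∑_G D + b i1 - W G ≤ u i - 1 + B x1`.

(2) For `j ∈ E1 \ G`, `insert j G` is infeasible: `∑_G D + D j + W G + dg j G - dg i G - l i j
 ≥ x1 + mq i + 1`, so `mq i ≤ ∑_G D + W G + dg j G + (D j - x1 - 1)`. Multiply by `B`, use (1) and
`W G + dg j G = W (insert j G) ≤ i1` (`W_mono`, so also
`b W G + B dg j G ≤ b (W G + dg j G) ≤ b i1`):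
`B mq i ≤ u i - 1 + B x1 + B (D j - x1 - 1)`.
-/

open Finset

namespace Pool.Agent.Lib.P56507

variable {l : ℕ → ℕ → ℤ} {d w : ℕ → ℤ} {E F : Finset ℕ} {B x σ δ : ℤ}

theorem swapB (R : RSys d w l E B x σ δ) (O : IsOpt d w l E x F) {i : ℕ} (hi : i ∈ F) :
    ∃ G ⊆ E \ F, G ≠ E \ F ∧
      B * ∑ j ∈ G, (d j + dg l j F) + (B + 1) * W l (E \ F) - W l G ≤
        w i - dg l i (E.erase i) - 1 + B * (x - bC d l F) ∧
      ∀ j ∈ (E \ F) \ G, B * (bC d l F - bC d l (F.erase i)) ≤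
        w i - dg l i (E.erase i) - 1 + B * (x - bC d l F) +
          B * (d j + dg l j F - (x - bC d l F) - 1) := by
  have hB := R.B1
  have hiE : i ∈ E := O.sub hi
  have hnet := opt_net R O
  have hσ : bE w l F ≤ σ := R.H F O.sub O.fe
  have hδ := R.δ1
  have hd1 := R.d1 i hiE
  have hCe := bC_erase (c := d) R.sy hi
  have hEe := bE_erase (f := w) R.sy hi
  have hdgi := dg_nonneg R.nn i (F.erase i)
  classical
  obtain ⟨G, hG, hmax⟩ := Finset.exists_max_image ((E \ F).powerset.filter fun X =>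
      bC d l (F.erase i ∪ X) ≤ x)
    (fun X => X.card) ⟨∅, by
      simp only [mem_filter, mem_powerset, empty_subset, union_empty, true_and]
      have := O.fe
      linarith⟩
  rw [mem_filter, mem_powerset] at hG
  obtain ⟨hG1, hG2⟩ := hG
  -- disjointness
  have hdis : ∀ X ⊆ E \ F, Disjoint (F.erase i) X := fun X hX =>
    disjoint_left.2 fun y h1 h2 => (mem_sdiff.1 (hX h2)).2 (mem_of_mem_erase h1)
  have hun : E.erase i = F.erase i ∪ (E \ F) := by
    ext y
    simp only [mem_erase, mem_union, mem_sdiff]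
    constructor
    · rintro ⟨h1, h2⟩
      by_cases h3 : y ∈ F
      · exact Or.inl ⟨h1, h3⟩
      · exact Or.inr ⟨h2, h3⟩
    · rintro (⟨h1, h2⟩ | ⟨h1, h2⟩)
      · exact ⟨h1, O.sub h2⟩
      · exact ⟨fun h => h2 (h ▸ hi), h1⟩
  have hne : G ≠ E \ F := by
    intro h
    rw [h, ← hun] at hG2
    have := R.hie i hiE
    linarith
  have hdgF : ∀ t, dg l t (F.erase i) = dg l t F - l i t := by
    intro t
    have h1 : dg l t F = l t i + dg l t (F.erase i) := by
      conv_lhs => rw [← insert_erase hi]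
      exact dg_insert (notMem_erase i F)
    rw [R.sy i t]
    linarith
  have hcr : ∀ X : Finset ℕ, cr l (F.erase i) X = ∑ t ∈ X, dg l t F - dg l i X := by
    intro X
    unfold cr
    rw [sum_congr rfl fun t _ => hdgF t, sum_sub_distrib]
    rfl
  have hbCX : ∀ X ⊆ E \ F, bC d l (F.erase i ∪ X) =
      bC d l (F.erase i) + ∑ t ∈ X, (d t + dg l t F) + W l X - dg l i X := by
    intro X hX
    rw [bC_union R.sy (hdis X hX), hcr, sum_add_distrib]
    unfold bC
    ring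
  -- (1)
  have hopt := O.opt (F.erase i ∪ G) (union_subset (fun y hy => O.sub (mem_of_mem_erase hy))
    (hG1.trans sdiff_subset)) hG2
  rw [bE_union R.sy (hdis G hG1), hcr] at hopt
  have hEG : bE w l G = ∑ t ∈ G, w t - W l G := rfl
  have hsplit := sum_sdiff (f := fun j => B * d j - w j + (B + 1) * dg l j F) hG1
  have hrest : dg l i ((E \ F) \ G) ≤
      ∑ t ∈ (E \ F) \ G, (B * d t - w t + (B + 1) * dg l t F) := by
    unfold dg
    refine sum_le_sum fun t ht => ?_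
    have htE : t ∈ E := (mem_sdiff.1 (mem_sdiff.1 ht).1).1
    have ha := R.wd t htE
    have hb := le_dg R.nn (v := t) hi
    have hc := dg_nonneg R.nn t F
    have hd : 0 ≤ B * dg l t F := mul_nonneg (by linarith) hc
    rw [R.sy i t]
    change l t i ≤ B * d t - w t + (B + 1) * dg l t F
    linarith
  have hdgE1 := dg_sdiff (l := l) (v := i) hG1
  have hdgE : dg l i (E.erase i) = dg l i (F.erase i) + dg l i (E \ F) := by
    rw [hun]
    exact dg_union (hdis _ (Finset.Subset.refl _))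
  have hΛ : ∑ t ∈ G, (B * d t - w t + (B + 1) * dg l t F) =
      B * ∑ t ∈ G, (d t + dg l t F) - ∑ t ∈ G, w t + ∑ t ∈ G, dg l t F := by
    rw [mul_sum, ← sum_sub_distrib, ← sum_add_distrib]
    exact sum_congr rfl fun t _ => by ring
  have h1 : B * ∑ j ∈ G, (d j + dg l j F) + (B + 1) * W l (E \ F) - W l G ≤
        w i - dg l i (E.erase i) - 1 + B * (x - bC d l F) := by
    linarith
  refine ⟨G, hG1, hne, h1, fun j hj => ?_⟩
  have hjE1 : j ∈ E \ F := (mem_sdiff.1 hj).1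
  have hjG : j ∉ G := (mem_sdiff.1 hj).2
  have hsub : insert j G ⊆ E \ F := insert_subset hjE1 hG1
  have hinf : x < bC d l (F.erase i ∪ insert j G) := by
    by_contra hcon
    have h2 := hmax (insert j G) (by
      rw [mem_filter, mem_powerset]
      exact ⟨hsub, not_lt.1 hcon⟩)
    rw [card_insert_of_notMem hjG] at h2
    omega
  rw [hbCX _ hsub, sum_insert hjG] at hinf
  have h3 := dg_nonneg R.nn i (insert j G)
  have h4 := W_mono R.sy R.nn hsub
  have h5 := W_mono R.sy R.nn hG1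
  have h6 : bC d l F - bC d l (F.erase i) ≤ ∑ t ∈ G, (d t + dg l t F) + W l (insert j G) +
      (d j + dg l j F - (x - bC d l F) - 1) := by
    linarith
  have h7 := mul_le_mul_of_nonneg_left h6 (by linarith : (0 : ℤ) ≤ B)
  have h8 : B * W l (insert j G) ≤ B * W l (E \ F) :=
    mul_le_mul_of_nonneg_left h4 (by linarith)
  linarith

end Pool.Agent.Lib.P56507
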