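import Pool.Agent.Lib.P56507.PBSwA
import Pool.Agent.Lib.P56507.PBSwB

/-!
# The numeric inequality, combinatorial part

Let `F` be optimal. Notation: `E1 = E \ F`, `x1 = x - bC d l F`, `σ1 = σ - bE w l F ≥ 0` (`R.H`),
`b = B + 1`, `i1 = W E1 ≥ 0`, `n1 = |E1| ≥ 2` (`opt_two`), `D j = d j + dg j F`,
`e j = D j - x1 - 1 ≥ 0` on `E1` (`opt_D`), `e(E1)` their sum, `u i = w i - dg i (E.erase i)`,
`v i = u i - 1 ≥ 0` (`R.u1`), `mq i = bC F - bC (F.erase i) = d i + dg i (F.erase i)`.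
The hypothesis `hp` says `n1 + i1 ≥ 3 + σ1 + v(F)`.

(1) Choose `j0 ∈ E1` with `e j0` minimal; `F0` from `swapA` for `j0`; `N = F \ F0`, `m = |N|`.
`bC F - bC N ≤ e j0` (`dg ≥ 0`), `e j0 ≤ e(E1)`.

(2) `m = 0` (`F0 = F`, `bC ∅ = 0`): `bC F ≤ e j0 ≤ e(E1)`: first alternative.

(3) `m ≥ 1`. For `i ∈ N`: `v i ≥ B - 1 + σ1 + δ + b i1 ≥ B + b i1` (`swapA`, `δ ≥ 1`), so
`v(F) ≥ v(N) ≥ m (B + b i1)`.
`G i ⊂ E1` from `swapB`: as `∑_{G i} D ≥ |G i| (x1 + 1)` and `W (G i) ≤ i1`: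
`B |G i| (x1 + 1) + B i1 ≤ v i + B x1`. Claim `|E1 \ G i| ≥ m`: `v(F) ≥ v(N) ≥ v i + (m-1)(B + b i1)`
and `n1 ≥ 3 + v(F) - i1`. If `G i = ∅`: `n1 ≥ 3 + m (B + b i1) - i1 ≥ 3 + m`. If `|G i| ≥ 1`:
`v i ≥ B |G i| + B x1 (|G i| - 1) + B i1 ≥ |G i| + i1`, so
`n1 - |G i| ≥ 3 + (m-1)(B + b i1) ≥ m`.
For all `j ∈ E1 \ G i`: `B mq i ≤ v i + B x1 + B e j` (`swapB`). Choose `j` with `e j` minimal in
`E1 \ G i` : `m e j ≤ |E1 \ G i| e j ≤ e(E1)`, so `m B mq i ≤ m v i + m B x1 + B e(E1)`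
(or sum `B mq i ≤ v i + B x1 + B e j` over the `j ∈ E1 \ G i`: with `g = |E1 \ G i| ≥ m`,
`g (B mq i - v i - B x1) ≤ B e(E1)`; if `B mq i - v i - B x1 ≥ 0` the same with `m` instead of `g`,
otherwise trivial). Sum over `i ∈ N` and divide by `m`:
`B ∑_N mq i ≤ v(N) + m B x1 + B e(E1)`. Finally `bC F = (bC F - bC N) + bC N`,
`bC N = ∑_N d + W N ≤ ∑_N mq i` (`∑_N dg i (F.erase i) ≥ ∑_N dg i (N.erase i) = 2 W N ≥ W N`), so
`B bC F ≤ B e j0 + v(N) + m B x1 + B e(E1) ≤ 2 B e(E1) + v(F) + m B x1`: second alternative.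
-/

open Finset

namespace Pool.Agent.Lib.P56507

variable {l : ℕ → ℕ → ℤ} {d w : ℕ → ℤ} {E F : Finset ℕ} {B x σ δ : ℤ}

/-- Part (3) without the final arithmetic. -/
theorem ni_main (R : RSys d w l E B x σ δ) (O : IsOpt d w l E x F)
    (hp : 3 + (σ - bE w l F) + ∑ i ∈ F, (w i - dg l i (E.erase i) - 1) ≤
      ((E \ F).card : ℤ) + W l (E \ F)) :
    bC d l F ≤ ∑ j ∈ E \ F, (d j + dg l j F - (x - bC d l F) - 1) ∨
    ∃ m : ℤ, 1 ≤ m ∧
      m * (B + (B + 1) * W l (E \ F)) ≤ ∑ i ∈ F, (w i - dg l i (E.erase i) - 1) ∧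
      B * bC d l F ≤ 2 * B * ∑ j ∈ E \ F, (d j + dg l j F - (x - bC d l F) - 1) +
        ∑ i ∈ F, (w i - dg l i (E.erase i) - 1) + m * B * (x - bC d l F) := by
  classical
  set E1 := E \ F with hE1
  set x1 := x - bC d l F with hx1
  set s1 := σ - bE w l F with hs1
  set i1 := W l E1 with hi1
  set v : ℕ → ℤ := fun i => w i - dg l i (E.erase i) - 1 with hv
  set e : ℕ → ℤ := fun j => d j + dg l j F - x1 - 1 with he
  have hs0 : 0 ≤ s1 := by
    have := R.H F O.sub O.fe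
    rw [hs1]; linarith
  have hx0 : 0 ≤ x1 := by
    have := O.fe
    rw [hx1]; linarith
  have hi0 : 0 ≤ i1 := W_nn R.nn _
  have hB := R.B1
  have hδ := R.δ1
  have hv0 : ∀ i ∈ F, 0 ≤ v i := by
    intro i hi
    have := R.u1 i (O.sub hi)
    simp only [hv]; linarith
  have he0 : ∀ j ∈ E1, 0 ≤ e j := by
    intro j hj
    have := opt_D R O hj
    simp only [he]; linarith
  have hn := opt_two R O
  rw [← hE1] at hn
  have hne : E1.Nonempty := card_pos.1 (by omega)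
  obtain ⟨j0, hj0, -⟩ := exists_min_image E1 e hne
  obtain ⟨F0, hF0, hA, hA'⟩ := swapA R O (hE1 ▸ hj0)
  rw [← hE1, ← hi1, ← hs1] at hA'
  rw [← hx1] at hA
  have hej0 : e j0 ≤ ∑ j ∈ E1, e j := single_le_sum (fun j hj => he0 j hj) hj0
  have hdg0 : 0 ≤ dg l j0 F0 := dg_nonneg R.nn _ _
  have heE : 0 ≤ ∑ j ∈ E1, e j := sum_nonneg he0
  have hgap : bC d l F - bC d l (F \ F0) ≤ e j0 := by
    simp only [he]; linarith
  set N := F \ F0 with hN
  have hNF : N ⊆ F := sdiff_subset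
  by_cases hNe : N = ∅
  · left
    rw [hNe, bC_empty] at hgap
    change bC d l F ≤ ∑ j ∈ E1, e j
    linarith
  right
  have hNn : N.Nonempty := nonempty_iff_ne_empty.2 hNe
  have hm1 : (1 : ℤ) ≤ (N.card : ℤ) := by
    have := card_pos.2 hNn
    exact_mod_cast this
  have hvN : ∀ i ∈ N, B + (B + 1) * i1 ≤ v i := by
    intro i hi
    have := hA' i hi
    simp only [hv]; linarith
  have hsub : ∑ i ∈ N, v i ≤ ∑ i ∈ F, v i :=
    sum_le_sum_of_subset_of_nonneg hNF fun i hi _ => hv0 i hi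
  have hb0 : 0 ≤ (B + 1) * i1 := mul_nonneg (by linarith) hi0
  have hNs : (N.card : ℤ) * (B + (B + 1) * i1) ≤ ∑ i ∈ N, v i := by
    have := card_nsmul_le_sum N v (B + (B + 1) * i1) hvN
    rwa [nsmul_eq_mul] at this
  have hp' : 3 + s1 + ∑ i ∈ F, v i ≤ (E1.card : ℤ) + i1 := hp
  refine ⟨(N.card : ℤ), hm1, hNs.trans hsub, ?_⟩
  change B * bC d l F ≤ 2 * B * ∑ j ∈ E1, e j + ∑ i ∈ F, v i + (N.card : ℤ) * B * x1
  have key : ∀ i ∈ N, (N.card : ℤ) * (B * (bC d l F - bC d l (F.erase i))) ≤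
      (N.card : ℤ) * (v i + B * x1) + B * ∑ j ∈ E1, e j := by
    intro i hi
    have hiF := hNF hi
    obtain ⟨G, hG, hGne, h1, h2⟩ := swapB R O hiF
    rw [← hE1] at hG hGne h1 h2
    rw [← hi1, ← hx1] at h1
    rw [← hx1] at h2
    have hWG : W l G ≤ i1 := W_mono R.sy R.nn hG
    have hD : (G.card : ℤ) * (x1 + 1) ≤ ∑ j ∈ G, (d j + dg l j F) := by
      have := card_nsmul_le_sum G (fun j => d j + dg l j F) (x1 + 1) (fun j hj => by
        have := opt_D R O (hE1 ▸ hG hj)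
        rw [hx1]; linarith)
      rwa [nsmul_eq_mul] at this
    have h3 : B * ((G.card : ℤ) * (x1 + 1)) + B * i1 ≤ v i + B * x1 := by
      have h4 := mul_le_mul_of_nonneg_left hD (by linarith : (0 : ℤ) ≤ B)
      have h5 : B * ∑ j ∈ G, (d j + dg l j F) + (B + 1) * i1 - W l G ≤ v i + B * x1 := h1
      have h6 : (B + 1) * i1 = B * i1 + i1 := by ring
      linarith
    have hvi : v i + ((N.card : ℤ) - 1) * (B + (B + 1) * i1) ≤ ∑ i ∈ F, v i := by
      refine le_trans ?_ hsub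
      have h4 := sum_erase_add N v hi
      have h5 : ((N.erase i).card : ℤ) * (B + (B + 1) * i1) ≤ ∑ t ∈ N.erase i, v t := by
        have := card_nsmul_le_sum (N.erase i) v (B + (B + 1) * i1)
          (fun t ht => hvN t (mem_of_mem_erase ht))
        rwa [nsmul_eq_mul] at this
      have h6 : ((N.erase i).card : ℤ) = (N.card : ℤ) - 1 := by
        rw [card_erase_of_mem hi]
        have := card_pos.2 hNn
        push_cast [Nat.cast_sub (Nat.succ_le_of_lt this)]
        ring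
      rw [h6] at h5
      linarith
    have hm0 : (0 : ℤ) ≤ (N.card : ℤ) - 1 := by linarith
    have h7 : (N.card : ℤ) - 1 ≤ ((N.card : ℤ) - 1) * (B + (B + 1) * i1) := by
      have : (1 : ℤ) ≤ B + (B + 1) * i1 := by linarith
      exact le_mul_of_one_le_right hm0 this
    have hcard : ((E1 \ G).card : ℤ) = (E1.card : ℤ) - (G.card : ℤ) := by
      rw [card_sdiff_of_subset hG, Nat.cast_sub (card_le_card hG)]
    have hg : (N.card : ℤ) ≤ ((E1 \ G).card : ℤ) := by
      rw [hcard]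
      rcases Nat.eq_zero_or_pos G.card with h0 | h0
      · rw [h0]
        have h8 : B + (B + 1) * i1 ≤ v i := hvN i hi
        have h9 : i1 ≤ (B + 1) * i1 := le_mul_of_one_le_left hi0 (by linarith)
        push_cast
        linarith
      · have h8 : (1 : ℤ) ≤ (G.card : ℤ) := by exact_mod_cast h0
        have h9 : (G.card : ℤ) + i1 ≤ v i := by
          have h10 : 0 ≤ B * x1 * ((G.card : ℤ) - 1) :=
            mul_nonneg (mul_nonneg (by linarith) hx0) (by linarith)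
          have h11 : (G.card : ℤ) ≤ B * (G.card : ℤ) :=
            le_mul_of_one_le_left (by linarith) hB
          have h12 : i1 ≤ B * i1 := le_mul_of_one_le_left hi0 hB
          have h13 : B * ((G.card : ℤ) * (x1 + 1)) + B * i1 - B * x1 =
              B * x1 * ((G.card : ℤ) - 1) + B * (G.card : ℤ) + B * i1 := by ring
          linarith
        linarith
    set q := B * (bC d l F - bC d l (F.erase i)) - (v i + B * x1) with hq
    have h10 : ((E1 \ G).card : ℤ) * q ≤ ∑ j ∈ E1 \ G, B * e j := by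
      have := card_nsmul_le_sum (E1 \ G) (fun j => B * e j) q (fun j hj => by
        have h11 : B * (bC d l F - bC d l (F.erase i)) ≤ v i + B * x1 + B * e j := h2 j hj
        rw [hq]; linarith)
      rwa [nsmul_eq_mul] at this
    have h11 : ∑ j ∈ E1 \ G, B * e j ≤ B * ∑ j ∈ E1, e j := by
      rw [← mul_sum]
      refine mul_le_mul_of_nonneg_left ?_ (by linarith)
      exact sum_le_sum_of_subset_of_nonneg sdiff_subset fun j hj _ => he0 j hj
    have h12 : (N.card : ℤ) * q ≤ B * ∑ j ∈ E1, e j := by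
      rcases le_or_gt 0 q with h13 | h13
      · exact (mul_le_mul_of_nonneg_right hg h13).trans (h10.trans h11)
      · have h14 : (N.card : ℤ) * q ≤ 0 :=
          mul_nonpos_of_nonneg_of_nonpos (by linarith) h13.le
        have h15 : 0 ≤ B * ∑ j ∈ E1, e j := mul_nonneg (by linarith) heE
        linarith
    have h13 : (N.card : ℤ) * q = (N.card : ℤ) * (B * (bC d l F - bC d l (F.erase i))) -
        (N.card : ℤ) * (v i + B * x1) := by rw [hq]; ring
    linarith
  have hsum := sum_le_sum key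
  rw [← mul_sum, ← mul_sum, sum_add_distrib, ← mul_sum, sum_add_distrib, sum_const, sum_const,
    nsmul_eq_mul, nsmul_eq_mul] at hsum
  have hsum' : B * ∑ i ∈ N, (bC d l F - bC d l (F.erase i)) ≤
      ∑ i ∈ N, v i + (N.card : ℤ) * (B * x1) + B * ∑ j ∈ E1, e j := by
    have hpos : (0 : ℤ) < (N.card : ℤ) := by linarith
    refine le_of_mul_le_mul_left ?_ hpos
    linarith
  have hbN : bC d l N ≤ ∑ i ∈ N, (bC d l F - bC d l (F.erase i)) := by
    have h1 : ∀ i ∈ N, bC d l F - bC d l (F.erase i) = d i + dg l i (F.erase i) := by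
      intro i hi
      have := bC_erase (c := d) R.sy (hNF hi)
      linarith
    rw [sum_congr rfl h1, sum_add_distrib, sum_dg_erase R.sy hNF]
    have h2 := W_nn R.nn N
    have h3 := cr_nonneg R.nn N (F \ N)
    unfold bC
    linarith
  have hB0 : (0 : ℤ) ≤ B := by linarith
  have h1 := mul_le_mul_of_nonneg_left hbN hB0
  have h2 := mul_le_mul_of_nonneg_left hgap hB0
  have h3 := mul_le_mul_of_nonneg_left hej0 hB0
  have h4 : B * bC d l F = B * (bC d l F - bC d l N) + B * bC d l N := by ring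
  have h5 : (N.card : ℤ) * (B * x1) = (N.card : ℤ) * B * x1 := by ring
  rw [h4]
  linarith

end Pool.Agent.Lib.P56507
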