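import Pool.Agent.Lib.P56507.PBDefs

/-!
# Lemma Q: a light set with large weight

`N` finite, integer weights `a y ≥ 1`, deficits `l ≥ 0`, `A = a(N) ≥ p ≥ 1`, `r ≥ 0` and
`A + r ≥ p + W N`. Then some `N' ⊆ N` has `a(N') ≥ p` and `|N'| + W N' ≤ p + r`.

PROOF. Induction on `|N|` (`deg y = dg l y (N.erase y)`, `W N = W (N.erase y) + deg y`).

(1) If some `y ∈ N` has `A - a y ≥ p` and `deg y ≥ a y`: `N.erase y` satisfies the hypotheses
(`A - a y + r ≥ p + W N - a y ≥ p + W (N.erase y)`); use the induction hypothesis.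

(2) Otherwise every `y ∈ N` has `A - a y < p` or `deg y ≤ a y - 1`.

(2a) `W N ≤ r`: take `N' ⊆ N` of minimal size with `a(N') ≥ p`. If `N'` is empty fine (it is not,
`p ≥ 1`); pick `y ∈ N'`: `a(N' \ y) ≤ p - 1` and `a(N' \ y) ≥ |N'| - 1`, so `|N'| ≤ p`, and
`W N' ≤ W N ≤ r` (`W_mono`).

(2b) `W N > r`: `t := A - p ≥ W N - r ≥ 1`. `H := {y ∈ N : A - a y < p}`, i.e. `a y ≥ t + 1`
on `H`; on `L := N \ H`: `a z ≤ t`, `deg z ≤ a z - 1`. Choose `L' ⊆ L` of minimal size with
`a(H) + a(L') ≥ p` (`L` works), `N' = H ∪ L'`. For `z ∈ L'`: `a(H) + a(L') - a z ≤ p - 1`.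
`W N' = W H + cr H L' + W L' ≤ W H + ∑_{z ∈ L'} dg l z (N.erase z) ≤ W H + a(L') - |L'|`
(`cr H L' + W L' ≤ cr H L' + 2 W L' = ∑_{z ∈ L'} dg l z ((H ∪ L').erase z)`, `two_W` /
`sum_dg_erase`), so `|N'| + W N' ≤ |H| + W H + a(L')`, and `W H ≤ W N ≤ t + r`.
* `|H| = 0`: then `N' = L'` and `2 W L' = ∑_{z∈L'} dg l z (L'.erase z) ≤ a(L') - |L'|`, so
  `2 (|L'| + W L') ≤ a(L') + |L'|`; with `n = |L'|`: `n = 0` impossible (`p ≥ 1`); `n = 1`:
  `|N'| + W N' = 1 ≤ p`; `n ≥ 2`: let `z ∈ L'` have minimal weight `α ≥ 1`: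
  `a(L') ≤ p - 1 + α` and `(n - 1) α ≤ a(L' \ z) ≤ p - 1`, `(n-2)(α-1) ≥ 0` so
  `α + n - 2 ≤ (n - 1) α ≤ p - 1`, so `a(L') + n ≤ p - 1 + α + n ≤ 2 p`.
* `|H| = 1`: `W H = 0`. If `L' = ∅`: `1 ≤ p + r`. Else with `z ∈ L'`:
  `a(L') ≤ p - 1 + a z - a(H) ≤ p - 1 + t - (t + 1) = p - 2`, so `1 + a(L') ≤ p`.
* `|H| = h ≥ 2`: `a(H) ≥ h (t + 1)`, `a(H) ≤ A = p + t`. If `L' = ∅`: `h + t ≤ p`
  (`p ≥ h t + h - t ≥ h + t` as `h t ≥ 2 t`), so `h + W H ≤ h + t + r ≤ p + r`. Else with
  `z ∈ L'`: `a(L') ≤ p - 1 + t - h (t + 1)`, so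
  `h + W H + a(L') ≤ h + t + r + p - 1 + t - h t - h = p + r - 1 + 2 t - h t ≤ p + r`.
-/

open Finset

namespace Pool.Agent.Lib.P56507

/-- a subset which is minimal among those of weight at least `q` -/
private theorem exists_minsub {a : ℕ → ℤ} {q : ℤ} (L : Finset ℕ) (h : q ≤ ∑ y ∈ L, a y) :
    ∃ L' ⊆ L, q ≤ ∑ y ∈ L', a y ∧ ∀ z ∈ L', ∑ y ∈ L'.erase z, a y < q := by
  induction L using Finset.strongInduction with
  | H L ih =>
    by_cases h1 : ∃ z ∈ L, q ≤ ∑ y ∈ L.erase z, a y
    · obtain ⟨z, hz, hz1⟩ := h1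
      obtain ⟨L', h2, h3⟩ := ih (L.erase z) (erase_ssubset hz) hz1
      exact ⟨L', h2.trans (erase_subset _ _), h3⟩
    · push Not at h1
      exact ⟨L, Subset.refl _, h, h1⟩

private theorem card_le_sum {a : ℕ → ℤ} {S : Finset ℕ} (h : ∀ y ∈ S, 1 ≤ a y) :
    (S.card : ℤ) ≤ ∑ y ∈ S, a y := by
  have := Finset.sum_le_sum h
  simpa using this

theorem qlem {l : ℕ → ℕ → ℤ} (sy : ∀ x y, l x y = l y x) (nn : ∀ x y, 0 ≤ l x y) {a : ℕ → ℤ}
    {p r : ℤ} (hp : 1 ≤ p) (hr : 0 ≤ r) {N : Finset ℕ} (ha : ∀ y ∈ N, 1 ≤ a y)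
    (hA : p ≤ ∑ y ∈ N, a y) (h : p + W l N ≤ ∑ y ∈ N, a y + r) :
    ∃ N' ⊆ N, p ≤ ∑ y ∈ N', a y ∧ (N'.card : ℤ) + W l N' ≤ p + r := by
  induction N using Finset.strongInduction with
  | H N ih =>
    by_cases h1 : ∃ y ∈ N, p ≤ ∑ z ∈ N.erase y, a z ∧ a y ≤ dg l y (N.erase y)
    · -- case (1)
      obtain ⟨y, hy, h2, h3⟩ := h1
      have h4 : W l N = W l (N.erase y) + dg l y (N.erase y) := by
        have := W_insert (w := l) sy (notMem_erase y N)
        rwa [insert_erase hy] at this
      have h5 : a y + ∑ z ∈ N.erase y, a z = ∑ z ∈ N, a z := add_sum_erase N a hy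
      obtain ⟨N', h6, h7⟩ := ih (N.erase y) (erase_ssubset hy)
        (fun z hz => ha z (mem_of_mem_erase hz)) h2 (by linarith)
      exact ⟨N', h6.trans (erase_subset _ _), h7⟩
    push Not at h1
    by_cases hW : W l N ≤ r
    · -- case (2a)
      obtain ⟨N', h2, h3, h4⟩ := exists_minsub N hA
      refine ⟨N', h2, h3, ?_⟩
      have hne : N'.Nonempty := by
        rw [nonempty_iff_ne_empty]
        rintro rfl
        rw [sum_empty] at h3
        linarith
      obtain ⟨y, hy⟩ := hne
      have h5 := h4 y hy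
      have h6 : ((N'.erase y).card : ℤ) ≤ ∑ z ∈ N'.erase y, a z :=
        card_le_sum fun z hz => ha z (h2 (mem_of_mem_erase hz))
      have h7 : ((N'.erase y).card : ℤ) = N'.card - 1 := by
        rw [card_erase_of_mem hy]
        have := card_pos.2 ⟨y, hy⟩
        push_cast [Nat.cast_sub (show 1 ≤ N'.card from this)]
        ring
      have h8 := W_mono sy nn h2
      linarith
    · -- case (2b)
      push Not at hW
      obtain ⟨t, ht⟩ : ∃ t, t = ∑ y ∈ N, a y - p := ⟨_, rfl⟩
      have ht1 : 1 ≤ t := by omega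
      have her : ∀ y ∈ N, ∑ z ∈ N.erase y, a z = ∑ z ∈ N, a z - a y := by
        intro y hy
        have := add_sum_erase N a hy
        linarith
      set H := N.filter fun y => t < a y with hH
      set L := N.filter fun y => ¬ t < a y with hL
      have hHa : ∀ y ∈ H, t + 1 ≤ a y := fun y hy => (mem_filter.1 hy).2
      have hLa : ∀ z ∈ L, a z ≤ t ∧ dg l z (N.erase z) + 1 ≤ a z := by
        intro z hz
        have hz1 := mem_filter.1 hz
        have h2 := h1 z hz1.1 (by rw [her z hz1.1]; omega)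
        exact ⟨not_lt.1 hz1.2, h2⟩
      have hsum : ∑ y ∈ H, a y + ∑ y ∈ L, a y = ∑ y ∈ N, a y := sum_filter_add_sum_filter_not N _ _
      obtain ⟨L', hL1, hL2, hL3⟩ := exists_minsub (a := a) (q := p - ∑ y ∈ H, a y) L (by linarith)
      have hdis : Disjoint H L' := by
        refine disjoint_left.2 fun x hx hx' => ?_
        exact (mem_filter.1 (hL1 hx')).2 (mem_filter.1 hx).2
      have hHN : H ⊆ N := filter_subset _ _
      have hLN : L' ⊆ N := hL1.trans (filter_subset _ _)
      have hUN : H ∪ L' ⊆ N := union_subset hHN hLN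
      have hWu := W_union_cr sy hdis
      have hkey : 2 * W l L' + cr l H L' ≤ ∑ z ∈ L', a z - L'.card := by
        have e1 := sum_dg_erase sy (subset_union_right : L' ⊆ H ∪ L')
        rw [union_sdiff_cancel_right hdis, cr_comm sy L' H] at e1
        rw [← e1]
        have e2 : ∑ z ∈ L', a z - (L'.card : ℤ) = ∑ z ∈ L', (a z - 1) := by
          rw [sum_sub_distrib]
          simp
        rw [e2]
        refine sum_le_sum fun z hz => ?_
        have e3 := (hLa z (hL1 hz)).2
        have e4 : dg l z ((H ∪ L').erase z) ≤ dg l z (N.erase z) :=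
          dg_mono nn (erase_subset_erase _ hUN)
        linarith
      have hcr := cr_nonneg nn H L'
      have hWL := W_nn nn L'
      have hWH : W l H ≤ t + r := by
        have := W_mono sy nn hHN
        linarith
      have hcard : ((H ∪ L').card : ℤ) = H.card + L'.card := by
        rw [card_union_of_disjoint hdis]
        push_cast
        ring
      have hHs : (H.card : ℤ) * (t + 1) ≤ ∑ y ∈ H, a y := by
        have := sum_le_sum hHa
        simpa [mul_comm] using this
      have hHA : ∑ y ∈ H, a y ≤ p + t := by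
        have h0 : 0 ≤ ∑ y ∈ L, a y := sum_nonneg fun y hy => by
          have := ha y (mem_filter.1 hy).1
          linarith
        linarith
      have hz : ∀ z ∈ L', ∑ y ∈ L', a y + ∑ y ∈ H, a y + 1 ≤ p + t := by
        intro z hz
        have e1 := hL3 z hz
        have e2 := add_sum_erase L' a hz
        have e3 := (hLa z (hL1 hz)).1
        linarith
      refine ⟨H ∪ L', hUN, ?_, ?_⟩
      · rw [sum_union hdis]
        linarith
      rw [hcard, hWu]
      rcases Nat.lt_or_ge H.card 1 with h0 | h0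
      · -- `H` is empty
        have hHe : H = ∅ := card_eq_zero.1 (by omega)
        have hW0 : W l H = 0 := by
          rw [hHe]
          simp [W]
        have hc0 : cr l H L' = 0 := by
          rw [hHe]
          exact cr_empty_left _
        have hs0 : ∑ y ∈ H, a y = 0 := by rw [hHe, sum_empty]
        have hk0 : (H.card : ℤ) = 0 := by rw [hHe]; simp
        have hne : L'.Nonempty := by
          rw [nonempty_iff_ne_empty]
          rintro rfl
          rw [sum_empty] at hL2
          linarith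
        rw [hW0, hc0, hk0]
        rw [hc0] at hkey
        rw [hs0] at hL2 hL3
        obtain ⟨z, hz1, hz2⟩ := exists_min_image L' a hne
        have e1 := hL3 z hz1
        have e2 := add_sum_erase L' a hz1
        have e3 : ((L'.erase z).card : ℤ) * a z ≤ ∑ y ∈ L'.erase z, a y := by
          have := sum_le_sum (s := L'.erase z) (f := fun _ => a z) (g := a)
            fun y hy => hz2 y (mem_of_mem_erase hy)
          simpa [mul_comm] using this
        have e4 : ((L'.erase z).card : ℤ) = L'.card - 1 := by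
          rw [card_erase_of_mem hz1]
          have := card_pos.2 hne
          push_cast [Nat.cast_sub (show 1 ≤ L'.card from this)]
          ring
        rw [e4] at e3
        have e5 : 1 ≤ a z := ha z (hLN hz1)
        have e6 : (1 : ℤ) ≤ L'.card := by
          exact_mod_cast card_pos.2 hne
        rcases eq_or_lt_of_le e6 with e7 | e7
        · -- one element
          have e8 : L'.card = 1 := by exact_mod_cast e7.symm
          obtain ⟨x, hx⟩ := card_eq_one.1 e8
          have e9 : W l L' = 0 := by rw [hx, W_singleton]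
          rw [e9, ← e7]
          linarith
        · have e8 : 0 ≤ ((L'.card : ℤ) - 2) * (a z - 1) := mul_nonneg (by linarith) (by linarith)
          nlinarith
      rcases Nat.lt_or_ge H.card 2 with h2 | h2
      · -- one element
        have h3 : H.card = 1 := by omega
        obtain ⟨x, hx⟩ := card_eq_one.1 h3
        have hW0 : W l H = 0 := by rw [hx, W_singleton]
        have hk1 : (H.card : ℤ) = 1 := by rw [h3]; simp
        rw [hk1] at hHs ⊢
        rw [hW0]
        rcases L'.eq_empty_or_nonempty with h4 | ⟨z, h4⟩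
        · have e1 : W l L' = 0 := by rw [h4]; simp [W]
          have e2 : cr l H L' = 0 := by rw [h4]; exact cr_empty_right _
          have e3 : (L'.card : ℤ) = 0 := by rw [h4]; simp
          rw [e1, e2, e3]
          linarith
        · have e1 := hz z h4
          linarith
      · -- at least two elements
        have hk : (2 : ℤ) ≤ H.card := by exact_mod_cast h2
        have e0 : 0 ≤ ((H.card : ℤ) - 2) * t := mul_nonneg (by linarith) (by linarith)
        rcases L'.eq_empty_or_nonempty with h4 | ⟨z, h4⟩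
        · have e1 : W l L' = 0 := by rw [h4]; simp [W]
          have e2 : cr l H L' = 0 := by rw [h4]; exact cr_empty_right _
          have e3 : (L'.card : ℤ) = 0 := by rw [h4]; simp
          rw [e1, e2, e3]
          nlinarith
        · have e1 := hz z h4
          nlinarith

end Pool.Agent.Lib.P56507
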