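import Pool.Agent.Lib.P56507.PBOpt

/-!
# First swap: remove a part of `F`, add one `j`

Notation: `E1 = E \ F`, `x1 = x - bC d l F`, `σ1 = σ - bE w l F`, `b = B + 1`, `i1 = W E1`,
`D j = d j + dg j F`, `e = D j - x1 - 1 ≥ 0` (`opt_D`), `u i = w i - dg i (E.erase i)`,
`mq X = bC d l F - bC d l (F \ X)`, `Λ j = B d j - w j + b dg j F ≥ 0`.

Choose `F0 ⊆ F` of maximal size with `mq F0 + dg j F0 ≤ e` (`∅` is one). For `i ∈ F \ F0`,
`X = insert i F0` satisfies `mq X + dg j X ≥ e + 1`, so the set `G = insert j (F \ X) ⊆ E` is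
feasible: `bC G = bC (F \ X) + d j + dg j (F \ X) = bC F - mq X + D j - dg j X
 = x - x1 - mq X + x1 + 1 + e - dg j X ≤ x`. So `bE G ≤ bE F` (`O.opt`), where
`bE G = bE (F \ X) + w j - dg j (F \ X)`. Write `F' = F \ F0` (`i ∈ F'`), `F \ X = F'.erase i`:
* `bE F' = bE (F'.erase i) + w i - dg i (F'.erase i)` (`bE_erase`),
* `bE F = bE F0 + bE F' - cr F0 F'`, with `bE F0 = ∑_{F0} w - W F0 ≤ B ∑_{F0} d - W F0`, and
  `mq F0 = bC F - bC F' = ∑_{F0} d + W F0 + cr F0 F'` (`bC_sdiff`), so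
  `bE F - bE F' ≤ B mq F0 - b (W F0 + cr F0 F')`.
So `w j - dg j (F \ X) ≤ bE F - bE (F \ X) ≤ B mq F0 - b (W F0 + cr F0 F') + w i - dg i (F'.erase i)`.
Here `w j - dg j (F \ X) = B D j - Λ j + dg j X` (`dg j F = dg j X + dg j (F \ X)`),
`mq F0 ≤ e - dg j F0`, `dg j X = l j i + dg j F0`, and
`w i - dg i (F'.erase i) = u i + dg i F0 + dg i E1`
(`E.erase i = F'.erase i ∪ F0 ∪ E1`, disjoint). Therefore
`u i ≥ B (x1 + 1 + e) - Λ j + l j i + dg j F0 - B e + B dg j F0 + b W F0 + b cr F0 F' - dg i F0 - dg i E1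
 ≥ B x1 + B - Λ j + l j i - dg i E1` (`cr F0 F' ≥ dg i F0`, everything `≥ 0`),
`B x1 = σ1 + δ + ∑_{E1} Λ + b i1` (`opt_net`), and
`∑_{E1} Λ - Λ j = ∑_{E1.erase j} Λ ≥ ∑_{t ∈ E1.erase j} dg t F ≥ ∑_{t∈E1.erase j} l t i
 = dg i E1 - l i j` (`Λ t ≥ b dg t F ≥ l t i`). So `u i ≥ B + σ1 + δ + b i1`.
-/

open Finset

namespace Pool.Agent.Lib.P56507

variable {l : ℕ → ℕ → ℤ} {d w : ℕ → ℤ} {E F : Finset ℕ} {B x σ δ : ℤ}

theorem swapA (R : RSys d w l E B x σ δ) (O : IsOpt d w l E x F) {j : ℕ} (hj : j ∈ E \ F) :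
    ∃ F0 ⊆ F, bC d l F - bC d l (F \ F0) + dg l j F0 ≤
        d j + dg l j F - (x - bC d l F) - 1 ∧
      ∀ i ∈ F \ F0, B + (σ - bE w l F) + δ + (B + 1) * W l (E \ F) ≤
        w i - dg l i (E.erase i) := by
  have hjE : j ∈ E := (mem_sdiff.1 hj).1
  have hjF : j ∉ F := (mem_sdiff.1 hj).2
  have hD := opt_D R O hj
  have hB := R.B1
  have hnet := opt_net R O
  classical
  obtain ⟨F0, hF0, hmax⟩ := Finset.exists_max_image (F.powerset.filter fun X =>
      bC d l F - bC d l (F \ X) + dg l j X ≤ d j + dg l j F - (x - bC d l F) - 1)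
    (fun X => X.card) ⟨∅, by
      simp only [mem_filter, mem_powerset, empty_subset, sdiff_empty, dg_empty, true_and]
      linarith⟩
  rw [mem_filter, mem_powerset] at hF0
  obtain ⟨hF0F, hF0e⟩ := hF0
  refine ⟨F0, hF0F, hF0e, fun i hi => ?_⟩
  have hiF : i ∈ F := (mem_sdiff.1 hi).1
  have hi0 : i ∉ F0 := (mem_sdiff.1 hi).2
  have hiE : i ∈ E := O.sub hiF
  have hXF : insert i F0 ⊆ F := insert_subset hiF hF0F
  have hX : d j + dg l j F - (x - bC d l F) - 1 <
      bC d l F - bC d l (F \ insert i F0) + dg l j (insert i F0) := by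
    by_contra hcon
    have h1 := hmax (insert i F0) (by
      rw [mem_filter, mem_powerset]
      exact ⟨hXF, not_lt.1 hcon⟩)
    rw [card_insert_of_notMem hi0] at h1
    omega
  have e1 : F \ insert i F0 = (F \ F0).erase i := sdiff_insert _ _ _
  have hdj := dg_sdiff (l := l) (v := j) hXF
  rw [dg_insert hi0] at hdj hX
  rw [e1] at hX hdj
  have hjn : j ∉ (F \ F0).erase i := fun h => hjF (mem_sdiff.1 (mem_of_mem_erase h)).1
  have hG := O.opt (insert j ((F \ F0).erase i))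
    (insert_subset hjE (fun y hy => O.sub (mem_sdiff.1 (mem_of_mem_erase hy)).1)) (by
      rw [bC_insert R.sy hjn]
      linarith)
  rw [bE_insert R.sy hjn] at hG
  have h2 := bE_erase (f := w) R.sy hi
  have h3 := bE_sdiff (f := w) R.sy hF0F
  have h4 := bC_sdiff (c := d) R.sy hF0F
  have h5 : ∑ y ∈ F0, w y ≤ B * ∑ y ∈ F0, d y := by
    rw [mul_sum]
    exact sum_le_sum fun y hy => R.wd y (O.sub (hF0F hy))
  have h6 : bE w l F0 = ∑ y ∈ F0, w y - W l F0 := rfl
  have h7 : bC d l F0 = ∑ y ∈ F0, d y + W l F0 := rfl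
  have h8 : dg l i (E.erase i) = dg l i ((F \ F0).erase i) + dg l i F0 + dg l i (E \ F) := by
    rw [← dg_union, ← dg_union]
    · congr 1
      ext y
      simp only [mem_erase, mem_union, mem_sdiff]
      constructor
      · rintro ⟨ha, hb⟩
        by_cases hc : y ∈ F
        · by_cases hd : y ∈ F0
          · exact Or.inl (Or.inr hd)
          · exact Or.inl (Or.inl ⟨ha, hc, hd⟩)
        · exact Or.inr ⟨hb, hc⟩
      · rintro ((⟨ha, hb, _⟩ | ha) | ⟨ha, hb⟩)
        · exact ⟨ha, O.sub hb⟩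
        · exact ⟨fun h => hi0 (h ▸ ha), O.sub (hF0F ha)⟩
        · exact ⟨fun h => hb (h ▸ hiF), ha⟩
    · rw [disjoint_left]
      intro y hy hy'
      rcases mem_union.1 hy with h | h
      · exact (mem_sdiff.1 hy').2 (mem_sdiff.1 (mem_of_mem_erase h)).1
      · exact (mem_sdiff.1 hy').2 (hF0F h)
    · rw [disjoint_left]
      intro y hy hy'
      exact (mem_sdiff.1 (mem_of_mem_erase hy)).2 hy'
  have h9 : dg l i F0 ≤ cr l F0 (F \ F0) := by
    unfold cr
    exact single_le_sum (f := fun v => dg l v F0) (fun v _ => dg_nonneg R.nn v F0) hi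
  have h10 := add_sum_erase (E \ F) (fun j => B * d j - w j + (B + 1) * dg l j F) hj
  have h11 : dg l i ((E \ F).erase j) ≤
      ∑ t ∈ (E \ F).erase j, (B * d t - w t + (B + 1) * dg l t F) := by
    unfold dg
    refine sum_le_sum fun t ht => ?_
    have htE : t ∈ E := (mem_sdiff.1 (mem_of_mem_erase ht)).1
    have ha := R.wd t htE
    have hb := le_dg R.nn (v := t) hiF
    have hc := dg_nonneg R.nn t F
    have hd : 0 ≤ B * dg l t F := mul_nonneg (by linarith) hc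
    rw [R.sy i t]
    change l t i ≤ B * d t - w t + (B + 1) * dg l t F
    linarith
  have h12 : dg l i (E \ F) = l i j + dg l i ((E \ F).erase j) := by
    conv_lhs => rw [← insert_erase hj]
    exact dg_insert (notMem_erase j (E \ F))
  have h13 := R.sy i j
  have h14 := dg_nonneg R.nn j F0
  have h15 := W_nn R.nn F0
  have h16 := cr_nonneg R.nn F0 (F \ F0)
  have h17 : B * (bC d l F - bC d l (F \ F0) + dg l j F0) ≤
      B * (d j + dg l j F - (x - bC d l F) - 1) :=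
    mul_le_mul_of_nonneg_left hF0e (by linarith)
  have h18 : 0 ≤ B * dg l j F0 := mul_nonneg (by linarith) h14
  have h19 : 0 ≤ B * W l F0 := mul_nonneg (by linarith) h15
  have h20 : 0 ≤ B * cr l F0 (F \ F0) := mul_nonneg (by linarith) h16
  have h21 : bC d l F - bC d l (F \ F0) = ∑ y ∈ F0, d y + W l F0 + cr l F0 (F \ F0) := by
    linarith
  rw [h21] at h17
  rw [← h10] at hnet
  nlinarith [h17, hnet]

end Pool.Agent.Lib.P56507
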