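import Pool.Agent.Lib.P56507.RBas

/-!
The parameters `m`, `s` for a given `r`.
-/

open Finset

namespace Pool.Agent.Lib.P56507

theorem R_mono {m m' : ℚ} (h : m ≤ m') (k : ℕ) : R m k ≤ R m' k := by
  refine sum_le_sum fun i _ => Int.ceil_mono ?_
  exact mul_le_mul_of_nonneg_right h (Nat.cast_nonneg i)

/-- `Rp m k = ∑_{0 < i < k} (⌊m i⌋ + 1)` (`Rp_succ`, `Rp_one`), and `⌈m' i⌉ ≥ ⌊m i⌋ + 1` for `m' > m`,
`i ≥ 1`. Induction on `k`. -/
theorem Rp_le_of_lt {m m' : ℚ} (h : m < m') (k : ℕ) : Rp m k ≤ R m' k := by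
  induction k with
  | zero => rw [Rp_zero, R_zero]
  | succ n ih =>
    rcases Nat.eq_zero_or_pos n with h0 | h0
    · subst h0
      rw [Nat.zero_add, Rp_one, R_one]
    · rw [Rp_succ m h0, R_succ]
      have h1 : m * (n : ℚ) < m' * (n : ℚ) := mul_lt_mul_of_pos_right h (by exact_mod_cast h0)
      have h2 := Int.floor_lt_ceil_of_lt h1
      linarith

/-- `m' = min_{0 < i < k} (⌊m i⌋ + 1) / i`: then `m < m'` and `⌈m' i⌉ ≤ ⌊m i⌋ + 1` for `0 < i < k`. -/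
theorem exists_next (m : ℚ) {k : ℕ} (hk : 2 ≤ k) :
    ∃ m' : ℚ, m < m' ∧ R m' k ≤ Rp m k ∧ ∃ (i : ℕ) (a : ℤ), 0 < i ∧ i < k ∧ m' = a / i := by
  obtain ⟨i, hi, hmin⟩ := (Ico 1 k).exists_min_image
    (fun i : ℕ => (((⌊m * (i : ℚ)⌋ + 1 : ℤ)) : ℚ) / (i : ℚ)) ⟨1, mem_Ico.2 ⟨le_rfl, by omega⟩⟩
  rw [mem_Ico] at hi
  have hi0 : (0 : ℚ) < i := by exact_mod_cast hi.1
  refine ⟨(((⌊m * (i : ℚ)⌋ + 1 : ℤ)) : ℚ) / (i : ℚ), ?_, ?_, i, ⌊m * (i : ℚ)⌋ + 1, hi.1, hi.2, rfl⟩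
  · rw [lt_div_iff₀ hi0]
    push_cast
    exact Int.lt_floor_add_one _
  · have key : ∀ j ≤ k, R ((((⌊m * (i : ℚ)⌋ + 1 : ℤ)) : ℚ) / (i : ℚ)) j ≤ Rp m j := by
      intro j
      induction j with
      | zero => intro _; rw [Rp_zero, R_zero]
      | succ n ih =>
        intro hn
        rcases Nat.eq_zero_or_pos n with h0 | h0
        · subst h0
          rw [Nat.zero_add, Rp_one, R_one]
        · rw [Rp_succ m h0, R_succ]
          have h1 := ih (by omega)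
          have h2 := hmin n (mem_Ico.2 ⟨h0, hn⟩)
          have hn0 : (0 : ℚ) < n := by exact_mod_cast h0
          rw [le_div_iff₀ hn0] at h2
          have h3 := Int.ceil_le.2 h2
          linarith
    exact key k le_rfl

/-- Proof. Let `L = (k - 1)!`. The set of the integers `j` with `R (j / L) k ≤ r` is nonempty
(`R m k ≤ m k (k - 1) / 2 + k - 1`, `R_upper`, `j` very negative) and bounded above (`R_lower`). Let
`j` be its greatest element (`Int.exists_greatest_of_bdd`), `m = j / L`. Suppose `x > m` and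
`R x k ≤ r`. Then `Rp m k ≤ R x k ≤ r` (`Rp_le_of_lt`). Take `m'` from `exists_next`: `m' > m`,
`R m' k ≤ Rp m k ≤ r` and `m' = a / i` with `0 < i < k`, so `m' = j' / L` with an integer `j'`
(`i ∣ L`), `j' > j`, a contradiction. -/
theorem exists_greatest {k : ℕ} (hk : 2 ≤ k) (r : ℤ) : ∃ m : ℚ, IsGreatest {x : ℚ | R x k ≤ r} m := by
  have hL : 0 < (k - 1).factorial := Nat.factorial_pos _
  set L := (k - 1).factorial with hLdef
  have hLq : (0 : ℚ) < L := by exact_mod_cast hL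
  have hkq : (2 : ℚ) ≤ k := by exact_mod_cast hk
  have hbdd : ∃ B : ℤ, ∀ j : ℤ, R ((j : ℚ) / L) k ≤ r → j ≤ B := by
    refine ⟨|r| * L, fun j hj => ?_⟩
    by_contra hcon
    have h1 : |r| * (L : ℤ) < j := not_le.1 hcon
    have h2 : ((|r| : ℤ) : ℚ) * L < j := by exact_mod_cast h1
    have h3 : ((|r| : ℤ) : ℚ) < j / L := by rw [lt_div_iff₀ hLq]; exact h2
    have h4 := R_lower ((j : ℚ) / L) k
    have h5 : ((R ((j : ℚ) / L) k : ℤ) : ℚ) ≤ r := by exact_mod_cast hj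
    have h6 : (r : ℚ) ≤ ((|r| : ℤ) : ℚ) := by exact_mod_cast le_abs_self r
    have h7 : (0 : ℚ) ≤ ((|r| : ℤ) : ℚ) := by exact_mod_cast abs_nonneg r
    have h8 : (2 : ℚ) ≤ k * ((k : ℚ) - 1) := by nlinarith
    have h9 : (j : ℚ) / L * 2 ≤ (j : ℚ) / L * (k * ((k : ℚ) - 1)) :=
      mul_le_mul_of_nonneg_left h8 (by linarith)
    nlinarith
  have hinh : ∃ j : ℤ, R ((j : ℚ) / L) k ≤ r := by
    refine ⟨-(|r| + k) * L, ?_⟩
    have h1 := R_upper (((-(|r| + k) * L : ℤ) : ℚ) / L) (n := k) (by omega)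
    have h2 : (((-(|r| + k) * L : ℤ) : ℚ) / L) = -(((|r| : ℤ) : ℚ) + k) := by
      push_cast
      field_simp
    rw [h2] at h1 ⊢
    have h3 : -((|r| : ℤ) : ℚ) ≤ (r : ℚ) := by exact_mod_cast neg_abs_le r
    have h7 : (0 : ℚ) ≤ ((|r| : ℤ) : ℚ) := by exact_mod_cast abs_nonneg r
    have h4 : (R (-(((|r| : ℤ) : ℚ) + k)) k : ℚ) ≤ r := by
      have h5 : -(((|r| : ℤ) : ℚ) + k) * k + 2 ≤ -2 * ((|r| : ℤ) : ℚ) - 2 := by nlinarith
      have h6 : (-(((|r| : ℤ) : ℚ) + k) * k + 2) * ((k : ℚ) - 1) ≤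
          (-(((|r| : ℤ) : ℚ) + k) * k + 2) * 1 := by
        apply mul_le_mul_of_nonpos_left <;> linarith
      nlinarith
    exact_mod_cast h4
  obtain ⟨j, hj, hmax⟩ := Int.exists_greatest_of_bdd hbdd hinh
  refine ⟨(j : ℚ) / L, hj, fun x hx => ?_⟩
  by_contra hcon
  have h1 : (j : ℚ) / L < x := not_le.1 hcon
  have h2 : Rp ((j : ℚ) / L) k ≤ r := (Rp_le_of_lt h1 k).trans hx
  obtain ⟨m', h3, h4, i, a, hi0, hik, hma⟩ := exists_next ((j : ℚ) / L) hk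
  obtain ⟨t, ht⟩ : i ∣ L := Nat.dvd_factorial hi0 (by omega)
  have hi0' : (0 : ℚ) < i := by exact_mod_cast hi0
  have ht' : (L : ℚ) = i * t := by exact_mod_cast ht
  have ht0 : (0 : ℚ) < t := by
    rw [ht'] at hLq
    exact (mul_pos_iff_of_pos_left hi0').1 hLq
  have h5 : m' = ((a * t : ℤ) : ℚ) / L := by
    rw [hma, ht']
    push_cast
    field_simp
  rw [h5] at h3 h4
  have h6 := hmax (a * t) (h4.trans h2)
  have h7 : ((a * t : ℤ) : ℚ) / L ≤ (j : ℚ) / L := by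
    apply div_le_div_of_nonneg_right _ hLq.le
    exact_mod_cast h6
  linarith

/-- If `r ≥ Rp m k = R m k + (k - 1) / m.den`, then `exists_next` contradicts the maximality of `m`.
So `R m k ≤ r < R m k + (k - 1) / m.den`; hence `(k - 1) / m.den ≥ 1`, that is `m.den < k`. -/
theorem greatest_par {k : ℕ} (hk : 2 ≤ k) {r : ℤ} {m : ℚ} (h : IsGreatest {x : ℚ | R x k ≤ r} m) :
    m.den < k ∧ R m k ≤ r ∧ r < R m k + (((k - 1) / m.den : ℕ) : ℤ) := by
  have h1 : R m k ≤ r := h.1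
  have h2 : r < R m k + (((k - 1) / m.den : ℕ) : ℤ) := by
    by_contra hcon
    have h3 : Rp m k ≤ r := not_lt.1 hcon
    obtain ⟨m', h4, h5, _⟩ := exists_next m hk
    have h6 : m' ≤ m := h.2 (h5.trans h3)
    linarith
  refine ⟨?_, h1, h2⟩
  by_contra hcon
  have h3 : (k - 1) / m.den = 0 := Nat.div_eq_of_lt (by omega)
  rw [h3] at h2
  push_cast at h2
  linarith

/-- `K = (k - 1) / q`, `s < K`, `c = K - s`, `b = K / c`, `ρ = K % c`. -/
theorem par_of {k q s : ℕ} (hq : 1 ≤ q) (hk : 1 ≤ k) (hs : s < (k - 1) / q) :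
    Par k q s ((k - 1) / q) ((k - 1) / q - s) (((k - 1) / q) / ((k - 1) / q - s))
      (((k - 1) / q) % ((k - 1) / q - s)) := by
  have hc : 0 < (k - 1) / q - s := by omega
  have h1 := Nat.div_add_mod (k - 1) q
  have h2 := Nat.mod_lt (k - 1) (lt_of_lt_of_le Nat.zero_lt_one hq)
  refine ⟨hq, by omega, by omega, by omega, hc, (Nat.div_add_mod _ _).symm, Nat.mod_lt _ hc⟩

end Pool.Agent.Lib.P56507
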