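import Pool.Agent.Lib.P56507.RBas

/-!
Arithmetic for the extremal pattern.
-/

open Finset

namespace Pool.Agent.Lib.P56507

namespace PatAAux

theorem Nq_le_iff {q : ℕ} (hq : 1 ≤ q) (n z : ℕ) : Nq q n ≤ z ↔ n ≤ q * z := by
  unfold Nq
  rw [← Nat.lt_succ_iff, Nat.div_lt_iff_lt_mul (by omega)]
  have e : (z.succ) * q = q * z + q := by
    rw [Nat.succ_mul, Nat.mul_comm]
  rw [e]
  omega

theorem floor_eq {m : ℚ} (hm : 0 < m) {s j : ℕ} (h1 : ⌈m * (s : ℚ)⌉₊ ≤ j)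
    (h2 : j < ⌈m * ((s + 1 : ℕ) : ℚ)⌉₊) : ⌊(j : ℚ) / m⌋ = (s : ℤ) := by
  rw [Int.floor_eq_iff]
  have h3 : m * (s : ℚ) ≤ j := Nat.ceil_le.mp h1
  have h4 : (j : ℚ) < m * ((s + 1 : ℕ) : ℚ) := Nat.lt_ceil.mp h2
  push_cast at h4 ⊢
  constructor
  · rw [le_div_iff₀ hm]
    linarith
  · rw [div_lt_iff₀ hm]
    linarith

theorem term_nonneg {m : ℚ} (hm : 0 < m) {s j : ℕ} (h : j < ⌈m * (s : ℚ)⌉₊) :
    0 ≤ (s : ℤ) - 1 - ⌊(j : ℚ) / m⌋ := by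
  have h4 : (j : ℚ) < m * (s : ℚ) := Nat.lt_ceil.mp h
  have h5 : ⌊(j : ℚ) / m⌋ < (s : ℤ) := by
    rw [Int.floor_lt, div_lt_iff₀ hm]
    push_cast
    linarith
  omega

theorem term_le {m : ℚ} (hm : 0 < m) {s j : ℕ} (h : ⌈m * (s : ℚ)⌉₊ ≤ j) :
    (s : ℤ) - 1 - ⌊(j : ℚ) / m⌋ ≤ -1 := by
  have h4 : m * (s : ℚ) ≤ j := Nat.ceil_le.mp h
  have h5 : (s : ℤ) ≤ ⌊(j : ℚ) / m⌋ := by
    rw [Int.le_floor, le_div_iff₀ hm]
    push_cast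
    linarith
  omega

theorem ceil_two_sub (m : ℚ) (a : ℕ) : ⌈(2 - 1 / m) * (a : ℚ)⌉ = 2 * (a : ℤ) - ⌊(a : ℚ) / m⌋ := by
  have h1 : (2 - 1 / m) * (a : ℚ) = ((2 * (a : ℤ) : ℤ) : ℚ) + -((a : ℚ) / m) := by
    push_cast
    ring
  rw [h1, Int.ceil_intCast_add, Int.ceil_neg]
  ring

end PatAAux

open PatAAux

/-- `R m s = ∑_{j < ⌈m s⌉} (s - 1 - ⌊j / m⌋)` for `m > 0`.

Induction on `s`: `R m (s + 1) - R m s = ⌈m s⌉`, and the right hand side grows by `1` for each of the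
`⌈m s⌉` old `j`; for the new `j`, `m s ≤ j < m (s + 1)`, the term `s - ⌊j / m⌋` is `0`. -/
theorem R_eq_sum {m : ℚ} (hm : 0 < m) (s : ℕ) :
    R m s = ∑ j ∈ range ⌈m * (s : ℚ)⌉₊, ((s : ℤ) - 1 - ⌊(j : ℚ) / m⌋) := by
  induction s with
  | zero =>
    simp [R]
  | succ s ih =>
    have hle : ⌈m * (s : ℚ)⌉₊ ≤ ⌈m * ((s + 1 : ℕ) : ℚ)⌉₊ := by
      apply Nat.ceil_mono
      push_cast
      nlinarith
    obtain ⟨d, hd⟩ := Nat.exists_eq_add_of_le hle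
    have hms : (0 : ℚ) ≤ m * (s : ℚ) := by positivity
    rw [R_succ, ih, ← Int.natCast_ceil_eq_ceil hms, hd, Finset.sum_range_add]
    have h1 : ∑ x ∈ range d, (((s + 1 : ℕ) : ℤ) - 1 -
        ⌊((⌈m * (s : ℚ)⌉₊ + x : ℕ) : ℚ) / m⌋) = 0 := by
      refine Finset.sum_eq_zero fun x hx => ?_
      rw [Finset.mem_range] at hx
      rw [floor_eq hm (s := s) (j := ⌈m * (s : ℚ)⌉₊ + x) (by omega) (by omega)]
      push_cast
      ring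
    rw [h1, add_zero]
    have h2 : ∑ x ∈ range ⌈m * (s : ℚ)⌉₊, (((s + 1 : ℕ) : ℤ) - 1 - ⌊(x : ℚ) / m⌋) =
        ∑ x ∈ range ⌈m * (s : ℚ)⌉₊, (((s : ℤ) - 1 - ⌊(x : ℚ) / m⌋) + 1) := by
      refine Finset.sum_congr rfl fun x _ => ?_
      push_cast
      ring
    rw [h2, Finset.sum_add_distrib, Finset.sum_const, Finset.card_range, nsmul_eq_mul, mul_one]

/-- `⌈(2 - 1 / m) i⌉ = 2 i - ⌊i / m⌋`, so
`R (2 - 1 / m) a + a (s - a) = ∑_{j < a} (2 j - ⌊j / m⌋) + a (s - a)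
= ∑_{j < a} (s - 1 - ⌊j / m⌋)` (`∑_{j < a} 2 j = a (a - 1)`). -/
theorem R_two_sub {m : ℚ} (a : ℕ) (s : ℤ) :
    R (2 - 1 / m) a + a * (s - a) = ∑ j ∈ range a, (s - 1 - ⌊(j : ℚ) / m⌋) := by
  induction a with
  | zero => simp [R]
  | succ a ih =>
    rw [Finset.sum_range_succ, ← ih, R_succ, ceil_two_sub]
    push_cast
    ring

/-- The terms with `j < m s` are `≥ 0` (`j / m < s`), the terms with `j ≥ m s` are `≤ -1`. -/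
theorem R_two_sub_le {m : ℚ} (hm : 0 < m) (a s : ℕ) :
    R (2 - 1 / m) a + a * ((s : ℤ) - a) ≤ R m s := by
  rw [R_two_sub, R_eq_sum hm]
  rcases le_total a ⌈m * (s : ℚ)⌉₊ with h | h
  · obtain ⟨d, hd⟩ := Nat.exists_eq_add_of_le h
    rw [hd, Finset.sum_range_add]
    refine le_add_of_nonneg_right (Finset.sum_nonneg fun x hx => ?_)
    rw [Finset.mem_range] at hx
    exact term_nonneg hm (by omega)
  · obtain ⟨d, hd⟩ := Nat.exists_eq_add_of_le h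
    rw [hd, Finset.sum_range_add]
    refine add_le_of_nonpos_right (Finset.sum_nonpos fun x _ => ?_)
    have h1 := term_le hm (s := s) (j := ⌈m * (s : ℚ)⌉₊ + x) (by omega)
    linarith

theorem R_two_sub_le' {m : ℚ} (hm : 0 < m) {a s : ℕ} (ha : ⌈m * (s : ℚ)⌉₊ ≤ a) :
    R (2 - 1 / m) a + a * ((s : ℤ) - a) + ((a : ℤ) - ⌈m * (s : ℚ)⌉₊) ≤ R m s := by
  rw [R_two_sub, R_eq_sum hm]
  obtain ⟨d, hd⟩ := Nat.exists_eq_add_of_le ha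
  have h1 : ∑ x ∈ range d, ((s : ℤ) - 1 - ⌊((⌈m * (s : ℚ)⌉₊ + x : ℕ) : ℚ) / m⌋) ≤ -(d : ℤ) := by
    calc ∑ x ∈ range d, ((s : ℤ) - 1 - ⌊((⌈m * (s : ℚ)⌉₊ + x : ℕ) : ℚ) / m⌋)
        ≤ ∑ _x ∈ range d, (-1 : ℤ) :=
          Finset.sum_le_sum fun x _ => term_le hm (s := s) (j := ⌈m * (s : ℚ)⌉₊ + x) (by omega)
      _ = -(d : ℤ) := by simp
  have h2 : ∑ j ∈ range a, ((s : ℤ) - 1 - ⌊(j : ℚ) / m⌋) =
      ∑ j ∈ range ⌈m * (s : ℚ)⌉₊, ((s : ℤ) - 1 - ⌊(j : ℚ) / m⌋) +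
      ∑ x ∈ range d, ((s : ℤ) - 1 - ⌊((⌈m * (s : ℚ)⌉₊ + x : ℕ) : ℚ) / m⌋) := by
    rw [hd, Finset.sum_range_add]
  have h3 : (a : ℤ) = (⌈m * (s : ℚ)⌉₊ : ℤ) + d := by exact_mod_cast hd
  rw [h2]
  linarith

theorem R_two_sub_eq {m : ℚ} (hm : 0 < m) (s : ℕ) :
    R (2 - 1 / m) ⌈m * (s : ℚ)⌉₊ + (⌈m * (s : ℚ)⌉₊ : ℤ) * ((s : ℤ) - ⌈m * (s : ℚ)⌉₊) = R m s := by
  rw [R_two_sub, R_eq_sum hm]

/-- `2 - 1 / m = (2 p - q) / p` for `m = p / q` in lowest terms, `p ≥ 1`. -/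
theorem den_two_sub {m : ℚ} (hm : 0 < m) : ((2 - 1 / m).den : ℤ) = m.num := by
  have h1 : (2 - 1 / m).den = (m⁻¹).den := by
    rw [one_div]
    exact Rat.ofNat_sub_den 2 m⁻¹
  rw [h1, Rat.den_inv_of_ne_zero hm.ne']
  exact Int.natAbs_of_nonneg (Rat.num_pos.mpr hm).le

/-- `⌈⌈p s / q⌉ / p⌉ = ⌈s / q⌉`. -/
theorem Nq_ceil {m : ℚ} (hm : 0 < m) (s : ℕ) :
    Nq (2 - 1 / m).den ⌈m * (s : ℚ)⌉₊ = Nq m.den s := by
  have h1 := den_two_sub hm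
  have hp : 1 ≤ (2 - 1 / m).den := (2 - 1 / m).den_pos
  have hq : 1 ≤ m.den := m.den_pos
  have key : ∀ z, Nq (2 - 1 / m).den ⌈m * (s : ℚ)⌉₊ ≤ z ↔ Nq m.den s ≤ z := by
    intro z
    rw [Nq_le_iff hp, Nq_le_iff hq, Nat.ceil_le]
    have hq0 : (0 : ℚ) < m.den := by exact_mod_cast hq
    have h2 : m * m.den = (m.num : ℚ) := Rat.mul_den_eq_num m
    have h3 : (((2 - 1 / m).den : ℕ) : ℚ) = (m.num : ℚ) := by exact_mod_cast h1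
    have h4 : (((2 - 1 / m).den * z : ℕ) : ℚ) = m * ((m.den * z : ℕ) : ℚ) := by
      push_cast
      rw [h3, ← h2]
      ring
    rw [h4, mul_le_mul_iff_right₀ hm]
    exact Nat.cast_le
  exact le_antisymm ((key _).mpr le_rfl) ((key _).mp le_rfl)

theorem Nq_le_add {p : ℕ} (hp : 1 ≤ p) (a d : ℕ) : Nq p (a + d) ≤ Nq p a + d := by
  rw [Nq_le_iff hp, Nat.mul_add]
  have h1 : a ≤ p * Nq p a := (Nq_le_iff hp a _).mp le_rfl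
  have h2 : 1 * d ≤ p * d := Nat.mul_le_mul_right d hp
  omega

/-- Shift by an integer. -/
theorem R_add_int (m : ℚ) (a : ℤ) (n : ℕ) : 2 * R (m + a) n = 2 * R m n + a * n * ((n : ℤ) - 1) := by
  induction n with
  | zero => simp [R]
  | succ n ih =>
    have h1 : (m + (a : ℚ)) * (n : ℚ) = m * (n : ℚ) + ((a * (n : ℤ) : ℤ) : ℚ) := by
      push_cast
      ring
    rw [R_succ, R_succ, mul_add, ih, h1, Int.ceil_add_intCast]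
    push_cast
    ring

theorem den_add_int (m : ℚ) (a : ℤ) : (m + a).den = m.den := by
  exact Rat.add_intCast_den m a

end Pool.Agent.Lib.P56507
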