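import Pool.Agent.Lib.P56507.Defs

/-!
The extremal weightings.
-/

open Finset

namespace Pool.Agent.Lib.P56507

/-- The pattern of slope `m` on `range n` (the first argument bounds the depth of the recursion, it
must be at least the denominator of `m`). If `m` is an integer, all weights are `m`. Otherwise let
`m' = m - ⌊m⌋` and `a = ⌈m' n⌉`. The weights are `⌊m⌋` inside `[a, n)`, `⌊m⌋ + 1` between `[0, a)` and
`[a, n)`, and inside `[0, a)` they are `⌊m⌋` plus the pattern of slope `2 - 1 / m'`. -/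
def pat : ℕ → ℚ → ℕ → ℕ → ℕ → ℤ
  | 0, _, _, _, _ => 0
  | t + 1, m, n, x, y =>
    ⌊m⌋ + if m.den = 1 then 0 else
      if x < ⌈Int.fract m * n⌉₊ ∧ y < ⌈Int.fract m * n⌉₊ then
        pat t (2 - 1 / Int.fract m) ⌈Int.fract m * n⌉₊ x y
      else if x < ⌈Int.fract m * n⌉₊ ∨ y < ⌈Int.fract m * n⌉₊ then 1 else 0

/-- Vertex-disjoint paths on `0, …, N - 1`: the first path has `b + ρ` vertices, the other ones have
`b` vertices (the last one may be shorter); weight `1` on the edges of the paths. -/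
def pth (N b ρ x y : ℕ) : ℤ :=
  if (x + 1 = y ∨ y + 1 = x) ∧ x < N ∧ y < N ∧ (x - ρ) / b = (y - ρ) / b then 1 else 0

/-- The weighting for the parameters `m`, `b`, `ρ`. -/
def ext (m : ℚ) (n b ρ x y : ℕ) : ℤ := pat m.den m n x y + pth (Nq m.den n) b ρ x y

end Pool.Agent.Lib.P56507
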