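import Pool.Agent.Lib.P56507.PatA
import Pool.Agent.Lib.P56507.PatDef
import Pool.Agent.Lib.P56507.WBas

/-!
The pattern.
-/

open Finset

namespace Pool.Agent.Lib.P56507

theorem pat_symm (t : ℕ) (m : ℚ) (n x y : ℕ) : pat t m n x y = pat t m n y x := by
  induction t generalizing m n with
  | zero => rfl
  | succ t ih =>
    simp only [pat]
    rw [ih]
    congr 1
    by_cases h1 : m.den = 1
    · rw [if_pos h1, if_pos h1]
    · rw [if_neg h1, if_neg h1]
      simp only [and_comm, or_comm]

namespace PatBAux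

theorem W_congr {w w' : ℕ → ℕ → ℤ} {S : Finset ℕ} (h : ∀ x ∈ S, ∀ y ∈ S, w x y = w' x y) :
    W w S = W w' S := by
  unfold W
  refine sum_congr rfl (fun p hp => ?_)
  rw [mem_filter, mem_product] at hp
  exact h _ hp.1.1 _ hp.1.2

theorem W_zero (S : Finset ℕ) : W (fun _ _ => (0 : ℤ)) S = 0 := by
  unfold W
  exact sum_eq_zero (fun _ _ => rfl)

/-- the pattern without the constant -/
def wp (p : ℕ → ℕ → ℤ) (a x y : ℕ) : ℤ :=
  if x < a ∧ y < a then p x y else if x < a ∨ y < a then 1 else 0

theorem wp_symm {p : ℕ → ℕ → ℤ} (hp : ∀ x y, p x y = p y x) (a x y : ℕ) :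
    wp p a x y = wp p a y x := by
  unfold wp
  rw [hp x y]
  simp only [and_comm, or_comm]

theorem W_wp {p : ℕ → ℕ → ℤ} (hp : ∀ x y, p x y = p y x) (a : ℕ) (S : Finset ℕ) :
    W (wp p a) S = W p (S ∩ range a)
      + ((S ∩ range a).card : ℤ) * ((S.card : ℤ) - (S ∩ range a).card) := by
  have hA : ∀ x ∈ S ∩ range a, x < a := fun x hx => mem_range.1 (mem_inter.1 hx).2
  have hB : ∀ x ∈ S \ (S ∩ range a), ¬ x < a := by
    intro x hx h
    rw [mem_sdiff] at hx
    exact hx.2 (mem_inter.2 ⟨hx.1, mem_range.2 h⟩)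
  have h1 := W_sdiff (w := wp p a) (wp_symm hp a) (inter_subset_left : S ∩ range a ⊆ S)
  have h2 : W (wp p a) (S ∩ range a) = W p (S ∩ range a) :=
    W_congr (fun x hx y hy => if_pos ⟨hA x hx, hA y hy⟩)
  have h3 : W (wp p a) (S \ (S ∩ range a)) = 0 := by
    rw [← W_zero (S \ (S ∩ range a))]
    refine W_congr (fun x hx y hy => ?_)
    unfold wp
    rw [if_neg (fun h => hB x hx h.1), if_neg (fun h => h.elim (hB x hx) (hB y hy))]
  have h4 : ∑ v ∈ S \ (S ∩ range a), dg (wp p a) v (S ∩ range a)
      = ((S \ (S ∩ range a)).card : ℤ) * ((S ∩ range a).card : ℤ) := by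
    rw [← nsmul_eq_mul, ← sum_const]
    refine sum_congr rfl (fun v hv => ?_)
    unfold dg
    have h5 : ∀ x ∈ S ∩ range a, wp p a v x = 1 := by
      intro x hx
      unfold wp
      rw [if_neg (fun h => hB v hv h.1), if_pos (Or.inr (hA x hx))]
    rw [sum_congr rfl h5, sum_const, nsmul_eq_mul, mul_one]
  have h6 : ((S \ (S ∩ range a)).card : ℤ) = (S.card : ℤ) - (S ∩ range a).card := by
    rw [card_sdiff_of_subset inter_subset_left, Nat.cast_sub (card_le_card inter_subset_left)]
  rw [h1, h2, h3, h4, h6]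
  ring

theorem pat_succ (t : ℕ) {m : ℚ} (hm : m.den ≠ 1) (n : ℕ) :
    pat (t + 1) m n = fun x y => ⌊m⌋
      + wp (pat t (2 - 1 / Int.fract m) ⌈Int.fract m * n⌉₊) ⌈Int.fract m * n⌉₊ x y := by
  funext x y
  simp only [pat, wp]
  rw [if_neg hm]

theorem Nq_le_self {q : ℕ} (hq : 1 ≤ q) (n : ℕ) : Nq q n ≤ n := by
  have := Nq_le_add hq 0 n
  simpa [Nq_zero hq] using this

end PatBAux

/-- Proof. Induction on `t`, for all `m`, `n`. If `m` is an integer (`m.den = 1`), `W` of a set with
`j` elements is `m j (j - 1) / 2 = R m j` (`W_const`), `Nq 1 j = j` and `|S ∩ range n| = |S|`.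

Otherwise let `m' = fract m`, `0 < m' < 1`, `m'.den = m.den`, `m'' = 2 - 1 / m'`,
`m''.den = m'.num < m.den ≤ t + 1`, `a = ⌈m' n⌉₊ ≤ n`. For `S ⊆ range n`, `A = S ∩ range a`,
`a' = |A|`, `s = |S|`: `W (pat) S = ⌊m⌋ s (s - 1) / 2 + W (pat t m'' a) A + a' (s - a')`, and
`R m s = ⌊m⌋ s (s - 1) / 2 + R m' s` (`R_add_int`). By the induction hypothesis and `R_two_sub_le`,
`W (pat t m'' a) A + a' (s - a') ≤ R m'' a' + a' (s - a') ≤ R m' s`; for `S = range n` there is
equality (`R_two_sub_eq`). With `Nq m.den n = Nq m''.den a` (`Nq_ceil`) `S ∩ range N = A ∩ range N`, and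
`W (pat t m'' a) A + |A ∩ range N| ≤ R m'' a' + Nq m''.den a'`. If `a' ≤ ⌈m' s⌉₊` then
`Nq m''.den a' ≤ Nq m''.den ⌈m' s⌉₊ = Nq m.den s` (`Nq_mono`, `Nq_ceil`). If
`a' > ⌈m' s⌉₊ =: a₀` then `Nq m''.den a' ≤ Nq m''.den a₀ + (a' - a₀)` (`Nq_le_add`) and
`R_two_sub_le'` gives the missing `a' - a₀`. -/
theorem pat_ok (t : ℕ) (m : ℚ) (ht : m.den ≤ t) (n : ℕ) :
    W (pat t m n) (range n) = R m n ∧
      ∀ S ⊆ range n, W (pat t m n) S ≤ R m S.card ∧
        W (pat t m n) S + ((S ∩ range (Nq m.den n)).card : ℤ) ≤ R m S.card + Nq m.den S.card := by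
  induction t generalizing m n with
  | zero => exact absurd ht (by have := m.den_pos; omega)
  | succ t ih =>
    by_cases hden : m.den = 1
    · -- integer slope
      have hm : m = ((0 : ℚ) + (⌊m⌋ : ℤ)) := by
        have h1 : ((m.num : ℤ) : ℚ) = m := Rat.coe_int_num_of_den_eq_one hden
        rw [zero_add]
        conv_rhs => rw [← h1]
        rw [Int.floor_intCast, h1]
      have hp : pat (t + 1) m n = fun _ _ => ⌊m⌋ := by
        funext x y
        simp only [pat]
        rw [if_pos hden, add_zero]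
      have hR : ∀ s : ℕ, 2 * R m s = ⌊m⌋ * s * ((s : ℤ) - 1) := by
        intro s
        have h2 := R_add_int 0 ⌊m⌋ s
        rw [← hm] at h2
        have h3 : R 0 s = 0 := by simp [R]
        rw [h2, h3]; ring
      have hW : ∀ S : Finset ℕ, W (pat (t + 1) m n) S = R m S.card := by
        intro S
        have h2 := W_const ⌊m⌋ S
        have h3 := hR S.card
        rw [hp]
        linarith
      have hN : ∀ s, Nq m.den s = s := by
        intro s
        rw [hden]
        simp [Nq]
      refine ⟨by rw [hW, card_range], fun S hS => ⟨(hW S).le, ?_⟩⟩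
      rw [hW, hN, hN]
      have h4 : (S ∩ range n).card ≤ S.card := card_le_card inter_subset_left
      have h5 : ((S ∩ range n).card : ℤ) ≤ S.card := by exact_mod_cast h4
      linarith
    · -- the recursion
      obtain ⟨f, hf⟩ : ∃ f, f = Int.fract m := ⟨_, rfl⟩
      have hmf : f + ((⌊m⌋ : ℤ) : ℚ) = m := by rw [hf]; exact Int.fract_add_floor m
      have hfden : f.den = m.den := by
        have := den_add_int f ⌊m⌋
        rw [hmf] at this
        exact this.symm
      have hf1 : f < 1 := by rw [hf]; exact Int.fract_lt_one m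
      have hf0 : 0 < f := by
        have h1 : 0 ≤ f := by rw [hf]; exact Int.fract_nonneg m
        refine lt_of_le_of_ne h1 (fun h => hden ?_)
        rw [← hfden, ← h]; rfl
      have hd1 := den_two_sub hf0
      have hd2 : f.num < f.den := Rat.num_lt_denom_iff.2 hf1
      have hdt : (2 - 1 / f).den ≤ t := by
        have h2 : ((2 - 1 / f).den : ℤ) < f.den := by rw [hd1]; exact hd2
        have h3 : (2 - 1 / f).den < f.den := by exact_mod_cast h2
        omega
      obtain ⟨a, ha⟩ : ∃ a, a = ⌈f * (n : ℚ)⌉₊ := ⟨_, rfl⟩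
      have han : a ≤ n := by
        rw [ha, Nat.ceil_le]
        have h2 : (0 : ℚ) ≤ n := Nat.cast_nonneg n
        nlinarith
      have IH := ih (2 - 1 / f) hdt a
      have hpat : pat (t + 1) m n = fun x y => ⌊m⌋
          + PatBAux.wp (pat t (2 - 1 / f) a) a x y := by
        rw [PatBAux.pat_succ t hden n, ← hf, ← ha]
      have hq1 : 1 ≤ (2 - 1 / f).den := (2 - 1 / f).den_pos
      have hNa : Nq m.den n = Nq (2 - 1 / f).den a := by
        rw [ha, Nq_ceil hf0, hfden]
      have hNa' : Nq m.den n ≤ a := by rw [hNa]; exact PatBAux.Nq_le_self hq1 a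
      -- the weight
      have hWS : ∀ S : Finset ℕ, W (pat (t + 1) m n) S - R m S.card
          = W (pat t (2 - 1 / f) a) (S ∩ range a)
            + ((S ∩ range a).card : ℤ) * ((S.card : ℤ) - (S ∩ range a).card) - R f S.card := by
        intro S
        have h2 := W_add (fun _ _ => ⌊m⌋) (PatBAux.wp (pat t (2 - 1 / f) a) a) S
        have h3 := W_const ⌊m⌋ S
        have h4 := PatBAux.W_wp (pat_symm t (2 - 1 / f) a) a S
        have h5 := R_add_int f ⌊m⌋ S.card
        rw [hmf] at h5
        rw [hpat]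
        linarith
      constructor
      · have h2 := hWS (range n)
        have h3 : range n ∩ range a = range a := by
          rw [inter_eq_right]
          exact range_subset_range.2 han
        rw [h3, card_range, card_range, IH.1] at h2
        have h4 := R_two_sub_eq hf0 n
        rw [← ha] at h4
        linarith
      · intro S hS
        have h2 := hWS S
        have h3 := IH.2 (S ∩ range a) inter_subset_right
        have h4 := R_two_sub_le hf0 (S ∩ range a).card S.card
        refine ⟨by linarith [h3.1], ?_⟩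
        have h5 : S ∩ range (Nq m.den n) = S ∩ range a ∩ range (Nq (2 - 1 / f).den a) := by
          rw [← hNa, inter_assoc]
          congr 1
          rw [eq_comm, inter_eq_right]
          exact range_subset_range.2 hNa'
        rw [h5]
        have h6 := h3.2
        have h7 : Nq (2 - 1 / f).den ⌈f * (S.card : ℚ)⌉₊ = Nq m.den S.card := by
          rw [Nq_ceil hf0, hfden]
        by_cases hc : (S ∩ range a).card ≤ ⌈f * (S.card : ℚ)⌉₊
        · have h8 := Nq_mono (q := (2 - 1 / f).den) hc
          rw [h7] at h8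
          have h9 : (Nq (2 - 1 / f).den (S ∩ range a).card : ℤ) ≤ Nq m.den S.card := by
            exact_mod_cast h8
          linarith
        · push Not at hc
          have h8 := Nq_le_add hq1 ⌈f * (S.card : ℚ)⌉₊ ((S ∩ range a).card - ⌈f * (S.card : ℚ)⌉₊)
          rw [Nat.add_sub_cancel' hc.le, h7] at h8
          have h9 : (Nq (2 - 1 / f).den (S ∩ range a).card : ℤ)
              ≤ Nq m.den S.card + (((S ∩ range a).card : ℤ) - ⌈f * (S.card : ℚ)⌉₊) := by
            rw [← Nat.cast_sub hc.le]
            exact_mod_cast h8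
          have h10 := R_two_sub_le' hf0 hc.le
          linarith

end Pool.Agent.Lib.P56507
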