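import Pool.Agent.Lib.P56507.IndJ

/-!
The bound for all `n ≥ k`, and the exact bound for `c = 1`.
-/

open Finset

namespace Pool.Agent.Lib.P56507

variable {w : ℕ → ℕ → ℤ}

/-- `x / y ≤ (x - d) / (y - d)` for `d < y ≤ x`: `(x / y) (y - d) ≤ x - (x / y) d ≤ x - d`. -/
theorem div_le_sub_div {x y d : ℕ} (hd : d < y) (hy : y ≤ x) : x / y ≤ (x - d) / (y - d) := by
  rw [Nat.le_div_iff_mul_le (by omega), Nat.mul_sub]
  have h1 : x / y * y ≤ x := Nat.div_mul_le_self x y
  have h2 : 1 ≤ x / y := (Nat.one_le_div_iff (by omega)).mpr hy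
  have h3 : 1 * d ≤ x / y * d := Nat.mul_le_mul_right d h2
  omega

/-- Proof. Strong induction on `K`. `K = 0`: `ex_le_neg`, `N / 1 = N`. `K ≥ 1`: `ind_jump` with
`hh N = N / (K + 1)`. A jump at `ν + 1` means `K + 1 ∣ ν + 1`, `ν + 1 = (K + 1) j` with `j ≥ 2`,
`hh (ν + 1) = j`. `P4`: `div_le_sub_div` with `d = z`. `P5`: `2 K + j ≤ (K + 1) j + 1` for `j ≥ 2`.
If `j ≥ 3`: `q ν + 1 ≥ q (3 K + 2) + 1 > 2 (q K + q - 1) ≥ 2 (k - 1)`. If `j = 2`:
`ν = 2 K + 1`. -/
theorem qthm (hw : ∀ x y, w x y = w y x) {m : ℚ} (K : ℕ) {k : ℕ} {c : ℤ} (hc : 1 ≤ c)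
    (k1 : m.den * K + 1 ≤ k) (k2 : k ≤ m.den * K + m.den) {V : Finset ℕ} (hV : k ≤ V.card)
    (h : Cond k (R m k + (K - c)) w V) :
    ex m w V ≤ Nq m.den V.card - c - ((Nq m.den V.card / (K + 1) : ℕ) : ℤ) := by
  induction K using Nat.strong_induction_on generalizing k c V with
  | _ K ih =>
  have hq : 1 ≤ m.den := m.den_pos
  rcases Nat.eq_zero_or_pos K with h0 | hK
  · subst h0
    have h1 : Cond k (R m k - c) w V := by
      intro S hS hk
      have h2 := h S hS hk
      push_cast at h2
      linarith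
    have h2 := ex_le_neg hw hc (by omega) hV h1
    rw [Nat.zero_add, Nat.div_one]
    linarith
  · refine ind_jump (hh := fun N => N / (K + 1)) hw hc hK k1 k2 hV h ?_ ?_ ?_ ?_
    · intro K' hK' k' c' hc' k1' k2' A _ hA hCond
      exact ih K' hK' hc' k1' k2' hA hCond
    · exact Nat.div_self (by omega)
    · intro N hN
      exact (Nat.one_le_div_iff (by omega)).mpr hN
    · intro ν hν
      by_cases hd : K + 1 ∣ ν + 1
      · right
        obtain ⟨j, hj⟩ := hd
        have hj2 : 2 ≤ j := by
          by_contra hcon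
          have : j ≤ 1 := by omega
          have h3 : (K + 1) * j ≤ (K + 1) * 1 := Nat.mul_le_mul_left _ this
          omega
        have e1 : (ν + 1) / (K + 1) = j := by
          rw [hj]; exact Nat.mul_div_cancel_left j (by omega)
        have e2 : ν / (K + 1) = j - 1 := by
          obtain ⟨i, rfl⟩ : ∃ i, j = i + 1 := ⟨j - 1, by omega⟩
          have h3 : ν = (K + 1) * i + K := by
            rw [Nat.mul_add] at hj; omega
          rw [h3, Nat.mul_add_div (by omega), Nat.div_eq_of_lt (by omega)]
          omega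
        have hKj : 2 * K ≤ K * j := by
          rw [Nat.mul_comm 2 K]; exact Nat.mul_le_mul_left K hj2
        have hj' : ν + 1 = K * j + j := by rw [hj]; ring
        refine ⟨?_, ?_, ?_, ?_, ?_⟩
        · show (ν + 1) / (K + 1) = ν / (K + 1) + 1
          rw [e1, e2]; omega
        · intro z hz1 hz2
          show (ν + 1) / (K + 1) ≤ (ν + 1 - z) / (K + 1) + 1
          rw [e1]
          have h3 : j - 1 ≤ (ν + 1 - z) / (K + 1) := by
            rw [Nat.le_div_iff_mul_le (by omega)]
            obtain ⟨i, rfl⟩ : ∃ i, j = i + 1 := ⟨j - 1, by omega⟩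
            have h4 : (i + 1 - 1) * (K + 1) = (K + 1) * i := by
              rw [Nat.add_sub_cancel]; ring
            rw [h4]
            rw [Nat.mul_add] at hj
            omega
          omega
        · intro z hz1 hz2
          show (ν + 1) / (K + 1) ≤ (ν + 1 - z) / (K - z + 1)
          have h3 := div_le_sub_div (x := ν + 1) (y := K + 1) (d := z) (by omega) (by omega)
          have h4 : K + 1 - z = K - z + 1 := by omega
          rwa [h4] at h3
        · show 2 * K + (ν + 1) / (K + 1) ≤ ν + 2
          rw [e1]; omega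
        · show 2 * (k - 1) < m.den * ν + 1 ∨
            (ν + 1) / (K + 1) = 2 ∧ (ν = 2 * K + 1 ∨ (ν = 2 * K ∧ c = 1))
          rw [e1]
          rcases Nat.lt_or_ge 2 j with h3 | h3
          · left
            have h4 : 3 * K + 2 ≤ ν := by
              have h5 : (K + 1) * 3 ≤ (K + 1) * j := Nat.mul_le_mul_left _ h3
              omega
            have h5 : m.den * (3 * K + 2) ≤ m.den * ν := Nat.mul_le_mul_left _ h4
            have h6 : m.den * (3 * K + 2) = 3 * (m.den * K) + 2 * m.den := by ring
            omega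
          · right
            have h4 : j = 2 := by omega
            subst h4
            exact ⟨rfl, Or.inl (by omega)⟩
      · left
        show (ν + 1) / (K + 1) = ν / (K + 1)
        rw [Nat.succ_div, if_neg hd, Nat.add_zero]

end Pool.Agent.Lib.P56507
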