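import Pool.Agent.Lib.P56507.Main

/-!
The upper bound for large sets.
-/

open Finset

namespace Pool.Agent.Lib.P56507

variable {w : ℕ → ℕ → ℤ} {m : ℚ} {V : Finset ℕ} {k s K c b ρ T : ℕ} {S U : ℕ → Finset ℕ}
  {z : ℕ → ℕ} {f : ℕ → ℤ}

/-- The rate lemma: `Phi` is bounded, uniformly in `m`.

Proof. Let `n₁` be the bound of `main` for `D = 0` and
`C = max (b (k + s) n₁ ^ 2) ρ`. Strong induction on `|V|`: if `|V| ≤ n₁`, `base_bound` gives
`Phi V ≤ b ex V ≤ b (k + s) n₁ ^ 2`. If `|V| > n₁` and `Phi V > C`, then `Phi V' ≤ C ≤ Phi V` for all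
proper subsets `V'` with `|V'| ≥ k`, and `main` with `D = 0` gives `Phi V ≤ ρ ≤ C`, a
contradiction. -/
theorem rate (k q s K c b ρ : ℕ) (hk : 2 ≤ k) (P : Par k q s K c b ρ) :
    ∃ C : ℕ, ∀ (m : ℚ), m.den = q → ∀ w : ℕ → ℕ → ℤ, (∀ x y, w x y = w y x) → ∀ V : Finset ℕ,
      k ≤ V.card → Cond k (R m k + s) w V → Phi b m w V ≤ C := by
  obtain ⟨T₁, hT₁⟩ : ∃ T₁, T₁ = 0 + 2 * ((K + 1) * (4 * (s + 1) + 1)) := ⟨_, rfl⟩
  obtain ⟨T₂, hT₂⟩ : ∃ T₂, T₂ = T₁ * (b * s) + 0 + K + 1 := ⟨_, rfl⟩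
  obtain ⟨n₁, hn₁⟩ : ∃ n₁, n₁ =
    q * (K * (T₁ + T₂)) + 4 * k + q * (0 + T₁ * (b * s) + s + k + T₁ * s + 1) := ⟨_, rfl⟩
  refine ⟨max (b * ((k + s) * n₁ ^ 2)) ρ, ?_⟩
  intro m hm w hw V
  subst hm
  have hb : 1 ≤ b := P.b1
  induction V using Finset.strongInduction with
  | H V ih =>
    intro hkV h
    rcases lt_or_ge V.card n₁ with hlt | hge
    · have h1 := base_bound hw hk hkV h
      have h2 : ((V.card : ℤ)) ^ 2 ≤ (n₁ : ℤ) ^ 2 := by
        have : (V.card : ℤ) ≤ (n₁ : ℤ) := by exact_mod_cast hlt.le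
        exact pow_le_pow_left₀ (by positivity) this 2
      have h3 : ex m w V ≤ ((k : ℤ) + s) * (n₁ : ℤ) ^ 2 :=
        h1.trans (mul_le_mul_of_nonneg_left h2 (by positivity))
      have h4 : (b : ℤ) * ex m w V ≤ (b : ℤ) * (((k : ℤ) + s) * (n₁ : ℤ) ^ 2) :=
        mul_le_mul_of_nonneg_left h3 (by positivity)
      have h5 : 0 ≤ ((b : ℤ) - 1) * (Nq m.den V.card : ℤ) := by
        have : (1 : ℤ) ≤ b := by exact_mod_cast hb
        exact mul_nonneg (by linarith) (by positivity)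
      have h6 : ((b * ((k + s) * n₁ ^ 2) : ℕ) : ℤ) ≤
          ((max (b * ((k + s) * n₁ ^ 2)) ρ : ℕ) : ℤ) := by
        exact_mod_cast le_max_left _ _
      have h7 : Phi b m w V ≤ ((b * ((k + s) * n₁ ^ 2) : ℕ) : ℤ) := by
        rw [Phi]
        push_cast
        linarith
      exact h7.trans h6
    · by_contra hcon
      push Not at hcon
      have h0 : (0 : ℤ) ≤ ((max (b * ((k + s) * n₁ ^ 2)) ρ : ℕ) : ℤ) := by positivity
      have hρ : (ρ : ℤ) ≤ ((max (b * ((k + s) * n₁ ^ 2)) ρ : ℕ) : ℤ) := by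
        exact_mod_cast le_max_right _ _
      have hmain := main hw P h (D := 0) hT₁ hT₂ (by rw [← hn₁]; exact hge) (by
        intro V' hV' hk'
        rcases eq_or_ne V' V with rfl | hne
        · simp
        · have h1 := ih V' (hV'.ssubset_of_ne hne) hk' (fun S hS hc => h S (hS.trans hV') hc)
          push_cast
          linarith) (by
        push_cast
        linarith)
      linarith

/-- The upper bound for large sets. From `rate` (constant `C`) and `main` with `D = C`: if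
`Phi V ≥ 0` then `Phi V' ≤ C ≤ Phi V + C`. If `Phi V < 0` there is nothing to prove. -/
theorem upper (k q s K c b ρ : ℕ) (hk : 2 ≤ k) (P : Par k q s K c b ρ) :
    ∃ n₀ : ℕ, ∀ (m : ℚ), m.den = q → ∀ w : ℕ → ℕ → ℤ, (∀ x y, w x y = w y x) →
      ∀ V : Finset ℕ, n₀ ≤ V.card → Cond k (R m k + s) w V → Phi b m w V ≤ ρ := by
  obtain ⟨C, hC⟩ := rate k q s K c b ρ hk P
  obtain ⟨T₁, hT₁⟩ : ∃ T₁, T₁ = C + 2 * ((K + 1) * (4 * (s + 1) + 1)) := ⟨_, rfl⟩
  obtain ⟨T₂, hT₂⟩ : ∃ T₂, T₂ = T₁ * (b * s) + C + K + 1 := ⟨_, rfl⟩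
  refine ⟨q * (K * (T₁ + T₂)) + 4 * k + q * (C + T₁ * (b * s) + s + k + T₁ * s + 1), ?_⟩
  intro m hm w hw V hV h
  subst hm
  rcases lt_or_ge (Phi b m w V) 0 with hneg | hpos
  · exact hneg.le.trans (by positivity)
  · refine main hw P h (D := C) hT₁ hT₂ hV (fun V' hV' hk' => ?_) ?_
    · have h1 := hC m rfl w hw V' hk' (fun S hS hc => h S (hS.trans hV') hc)
      linarith
    · have : (0 : ℤ) ≤ (C : ℤ) := by positivity
      linarith

end Pool.Agent.Lib.P56507
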