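import Pool.Agent.Lib.P56507.Step
import Pool.Agent.Lib.P56507.NoLong

/-!
Stage 1: after boundedly many special blocks an ordinary stage is reached.
-/

open Finset

namespace Pool.Agent.Lib.P56507

variable {w : ℕ → ℕ → ℤ} {m : ℚ} {V : Finset ℕ} {k s K c b ρ T : ℕ} {S U : ℕ → Finset ℕ}
  {z : ℕ → ℕ} {f : ℕ → ℤ}

/-- Proof. By induction on `i ≤ T₁`: either the conclusion holds, or there is a chain of length `i`
of special blocks. For `i = 0` take the empty chain (`U = fun _ => V`). Given a chain of length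
`i < T₁` of special blocks, put `X = U i`, `|X| ≥ |V| - q K i` (`C.card_V`, `z ≤ K`). `step` applies:
`hno`: for `V' ⊆ X` with `|X| ≤ |V'| + k` we have `|V'| ≥ k`, so
`Phi V' ≤ Phi V + D`, and `Phi X ≥ Phi V - i b s` (`C.Phi_eq`, all deficits are nonnegative,
`b f j - (b - 1) z j ≤ b s`). If `ex X ≤ ex V' + s + k - N(V')`, then with `N(X) ≥ N(V')`
`Phi X ≤ Phi V' + b (s + k) - b N(V')`, so `b N(V') ≤ D + b (s + k) + T₁ b s`, but
`q N(V') ≥ |V'| ≥ q (D + s + k + T₁ s + 1)`, a contradiction. If `step` gives the first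
alternative we are done with `t = i`, otherwise extend the chain with `Chain.snoc`.
At `i = T₁` use `no_long`. -/
theorem stage1 (hw : ∀ x y, w x y = w y x) (P : Par k m.den s K c b ρ)
    (h : Cond k (R m k + s) w V) {D T₁ : ℕ}
    (hT : D + 2 * ((K + 1) * (4 * (s + 1) + 1)) ≤ T₁)
    (hV : m.den * (K * T₁) + 2 * k + m.den * (D + s + k + T₁ * s + 1) ≤ V.card)
    (hsub : ∀ V' ⊆ V, k ≤ V'.card → Phi b m w V' ≤ Phi b m w V + D) :
    ∃ (t : ℕ) (S U : ℕ → Finset ℕ) (z : ℕ → ℕ) (f : ℕ → ℤ), t < T₁ ∧ Chain m w V s K t S U z f ∧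
      (∀ i < t, 1 ≤ b * f i - ((b : ℤ) - 1) * z i) ∧
      ∃ z₀, 1 ≤ z₀ ∧ z₀ ≤ b ∧ HP m w (U t) z₀ := by
  by_contra hcon
  have hb : 1 ≤ b := P.b1
  have hq : 1 ≤ m.den := P.q1
  have key : ∀ i ≤ T₁, ∃ (S U : ℕ → Finset ℕ) (z : ℕ → ℕ) (f : ℕ → ℤ),
      Chain m w V s K i S U z f ∧ ∀ j < i, 1 ≤ b * f j - ((b : ℤ) - 1) * z j := by
    intro i
    induction i with
    | zero =>
      intro _
      exact ⟨_, _, _, _, Chain.nil m w V s K, fun j hj => absurd hj (Nat.not_lt_zero j)⟩
    | succ i ih =>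
      intro hi
      obtain ⟨S, U, z, f, C, hsp⟩ := ih (by omega)
      have hcU := C.card_U
      have hKi : m.den * (K * i) ≤ m.den * (K * T₁) :=
        Nat.mul_le_mul le_rfl (Nat.mul_le_mul le_rfl (by omega))
      have hXV : U i ⊆ V := C.U_sub le_rfl
      have hX : 2 * k ≤ (U i).card := by omega
      have hcond : Cond k (R m k + s) w (U i) := fun A hA hAc => h A (hA.trans hXV) hAc
      have hno : ∀ V' ⊆ U i, (U i).card ≤ V'.card + k →
          ex m w V' + s + k - Nq m.den V'.card < ex m w (U i) := by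
        intro V' hV' hc
        by_contra hlt
        push Not at hlt
        have h1 := hsub V' (hV'.trans hXV) (by omega)
        have h2 := C.Phi_le hw hb
        have h3 := C.W_lam_nonneg hw (Finset.Subset.refl (range i))
        have h4 : (Nq m.den V'.card : ℤ) ≤ (Nq m.den (U i).card : ℤ) := by
          exact_mod_cast Nq_mono (card_le_card hV')
        have h5 := le_Nq hq V'.card
        have hb' : (1 : ℤ) ≤ b := by exact_mod_cast hb
        have h6 : (b : ℤ) * ex m w (U i) ≤
            b * (ex m w V' + s + k - Nq m.den V'.card) :=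
          mul_le_mul_of_nonneg_left hlt (by omega)
        have h7 : ((b : ℤ) - 1) * (Nq m.den V'.card : ℤ) ≤
            ((b : ℤ) - 1) * (Nq m.den (U i).card : ℤ) :=
          mul_le_mul_of_nonneg_left h4 (by omega)
        have h8 : 0 ≤ (b : ℤ) * W (lam m w S z) (range i) := mul_nonneg (by omega) h3
        have h9 : (b : ℤ) * (Nq m.den V'.card : ℤ) ≤ b * (s + k) + i * (b * s) + D := by
          unfold Phi at h1 h2
          nlinarith [h1, h2, h6, h7, h8]
        have h10 : (b : ℤ) * (Nq m.den V'.card : ℤ) ≤ b * (D + s + k + T₁ * s) := by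
          have e1 : (i : ℤ) * (b * s) ≤ b * (T₁ * s) := by
            have : (i : ℤ) ≤ T₁ := by exact_mod_cast (by omega : i ≤ T₁)
            have hbs : (0 : ℤ) ≤ b * s := by positivity
            nlinarith [mul_le_mul_of_nonneg_right this hbs]
          have e2 : (D : ℤ) ≤ b * D := by
            have : (0 : ℤ) ≤ D := by positivity
            nlinarith
          nlinarith [h9, e1, e2]
        have h11 : (Nq m.den V'.card : ℤ) ≤ D + s + k + T₁ * s :=
          le_of_mul_le_mul_left h10 (by omega)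
        have h12 : Nq m.den V'.card ≤ D + s + k + T₁ * s := by exact_mod_cast h11
        have h13 : m.den * Nq m.den V'.card ≤ m.den * (D + s + k + T₁ * s) :=
          Nat.mul_le_mul le_rfl h12
        have h14 : m.den * (D + s + k + T₁ * s + 1) = m.den * (D + s + k + T₁ * s) + m.den := by
          ring
        omega
      rcases step hw P hX hcond hno with ⟨z₀, hz1, hz2, hz3⟩ | ⟨zn, Sn, fn, a1, a2, a3, a4, a5, a6, a7, a8, a9⟩
      · exact absurd ⟨i, S, U, z, f, by omega, C, hsp, z₀, hz1, hz2, hz3⟩ hcon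
      · obtain ⟨S', U', z', f', C', e1, -, -, e3, e4⟩ := C.snoc a3 a4 a1 a2 a5 a6 a7 a8
        refine ⟨S', U', z', f', C', fun j hj => ?_⟩
        rcases Nat.lt_succ_iff_lt_or_eq.1 hj with hj | hj
        · obtain ⟨-, b2, b3⟩ := e1 j hj
          rw [b2, b3]
          exact hsp j hj
        · rw [hj, e3, e4]
          exact a9
  obtain ⟨S, U, z, f, C, hsp⟩ := key T₁ le_rfl
  exact no_long hw P h hT (by omega) hsub C hsp

end Pool.Agent.Lib.P56507
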