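import Pool.Agent.Lib.P56507.Desc
import Pool.Agent.Lib.P56507.LemH
import Pool.Agent.Lib.P56507.Snoc

/-!
One step.
-/

open Finset

namespace Pool.Agent.Lib.P56507

variable {w : ℕ → ℕ → ℤ} {m : ℚ} {V : Finset ℕ} {k s K c b ρ T : ℕ} {S U : ℕ → Finset ℕ}
  {z : ℕ → ℕ} {f : ℕ → ℤ}

/-- One step at a large set `X` without descent: either `X` is ordinary, or there is a special
block. From `descent` and `zero_idx`: if `f = z - 1` and `z ≤ b` then `HP m w X z`; if `f = z - 1`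
and `z > b` then `b f - (b - 1) z = z - b ≥ 1`; if `f ≥ z` then `b f - (b - 1) z ≥ z ≥ 1`. -/
theorem step (hw : ∀ x y, w x y = w y x) (P : Par k m.den s K c b ρ) {X : Finset ℕ}
    (hX : 2 * k ≤ X.card) (h : Cond k (R m k + s) w X)
    (hno : ∀ V' ⊆ X, X.card ≤ V'.card + k → ex m w V' + s + k - Nq m.den V'.card < ex m w X) :
    (∃ z, 1 ≤ z ∧ z ≤ b ∧ HP m w X z) ∨
      ∃ (z : ℕ) (S : Finset ℕ) (f : ℤ), 1 ≤ z ∧ z ≤ K ∧ S ⊆ X ∧ S.card = m.den * z ∧
        W w S = R m (m.den * z) + f ∧ (z : ℤ) - 1 ≤ f ∧ f ≤ s ∧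
        (∀ v ∈ X \ S, dg w v S ≤ m.num * z) ∧ 1 ≤ b * f - ((b : ℤ) - 1) * z := by
  have hk : 1 ≤ k := by have := P.k1; omega
  rcases descent hw hk hX h with hmono | ⟨V', hV', hc, he⟩
  · obtain ⟨z, S, f, h1, hK, hSX, hcard, hW, hf1, hf2, hdg, hHP, -⟩ :=
      zero_idx hw P (by omega) h hmono
    by_cases hfz : f = (z : ℤ) - 1
    · by_cases hzb : z ≤ b
      · exact Or.inl ⟨z, h1, hzb, hHP hfz⟩
      · push Not at hzb
        refine Or.inr ⟨z, S, f, h1, hK, hSX, hcard, hW, hf1, hf2, hdg, ?_⟩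
        rw [hfz]
        have h2 : (b : ℤ) + 1 ≤ z := by exact_mod_cast hzb
        have h3 : (b : ℤ) * ((z : ℤ) - 1) - ((b : ℤ) - 1) * z = z - b := by ring
        rw [h3]
        linarith
    · refine Or.inr ⟨z, S, f, h1, hK, hSX, hcard, hW, hf1, hf2, hdg, ?_⟩
      have h2 : (z : ℤ) ≤ f := by omega
      have h3 : (0 : ℤ) ≤ (b : ℤ) * (f - z) := mul_nonneg (by positivity) (by linarith)
      have h4 : (1 : ℤ) ≤ z := by exact_mod_cast h1
      have h5 : (b : ℤ) * f - ((b : ℤ) - 1) * z = (b : ℤ) * (f - z) + z := by ring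
      rw [h5]
      linarith
  · have := hno V' hV' hc
    linarith

/-- One ordinary step: `X` large, with the hereditary property for `z₀ ≤ b`, not too far from
optimal. From `descent` (the second alternative is excluded: with `Phi V' ≤ 0` it gives
`Phi X ≤ b (s + k) - b N(V') < - D'`, as `q N(V') ≥ |V'| ≥ q (D' + s + k + 1)`) and `zero_idx`:
`z ≤ z₀`, since otherwise `y = z₀` gives `T ⊆ X` with `q z₀ + 1` elements and
`Rp m (q z₀ + 1) ≤ W w T`, against `hX.2`; and `f ≤ z - 1` by `hX.1` (`Rp m (q z) = R m (q z) + z - 1`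
as `(q z - 1) / q = z - 1`). -/
theorem step_ord (hw : ∀ x y, w x y = w y x) (P : Par k m.den s K c b ρ) {X : Finset ℕ} {D' z₀ : ℕ}
    (hXc : 2 * k + m.den * (D' + s + k + 1) ≤ X.card) (h : Cond k (R m k + s) w X)
    (hz₀ : 1 ≤ z₀) (hz₀b : z₀ ≤ b) (hX : HP m w X z₀) (hPhi : -(D' : ℤ) ≤ Phi b m w X) :
    ∃ (z : ℕ) (S : Finset ℕ) (f : ℤ), 1 ≤ z ∧ z ≤ K ∧ S ⊆ X ∧ S.card = m.den * z ∧
        W w S = R m (m.den * z) + f ∧ (z : ℤ) - 1 ≤ f ∧ f ≤ s ∧
        (∀ v ∈ X \ S, dg w v S ≤ m.num * z) ∧ f = (z : ℤ) - 1 ∧ z ≤ b := by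
  have hk : 1 ≤ k := by have := P.k1; omega
  have hq : 1 ≤ m.den := P.q1
  rcases descent hw hk (by omega) h with hmono | ⟨V', hV', hc, he⟩
  · obtain ⟨z, S, f, h1, hK, hSX, hcard, hW, hf1, hf2, hdg, -, hT⟩ :=
      zero_idx hw P (by omega) h hmono
    have hzz : z ≤ z₀ := by
      by_contra hcon
      push Not at hcon
      obtain ⟨T, hT1, hT2, hT3⟩ := hT z₀ hcon
      have h2 := hX.2 T hT1 hT2
      rw [hT2] at h2
      linarith
    have h2 := hX.1 S hSX (by rw [hcard]; exact Nat.mul_le_mul_left _ hzz)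
    have h3 : (m.den * z - 1) / m.den = z - 1 := by
      obtain ⟨y, rfl⟩ := Nat.exists_eq_add_of_le h1
      obtain ⟨q', hq'⟩ := Nat.exists_eq_add_of_le hq
      have e1 : m.den * (1 + y) - 1 = q' + m.den * y := by
        have e2 : m.den * (1 + y) = m.den + m.den * y := by ring
        omega
      rw [e1, Nat.add_mul_div_left _ _ (by omega), Nat.div_eq_of_lt (by omega)]
      omega
    rw [hcard, hW, Rp, h3] at h2
    have h4 : ((z - 1 : ℕ) : ℤ) = (z : ℤ) - 1 := by push_cast [h1]; ring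
    rw [h4] at h2
    exact ⟨z, S, f, h1, hK, hSX, hcard, hW, hf1, hf2, hdg, by linarith, hzz.trans hz₀b⟩
  · exfalso
    have h1 := (hX.mono hV').Phi_le hw hz₀ hz₀b
    have h2 : Nq m.den V'.card ≤ Nq m.den X.card := Nq_mono (card_le_card hV')
    have h3 : D' + s + k + 1 ≤ Nq m.den V'.card := by
      have h4 := le_Nq hq V'.card
      have h5 : m.den * (D' + s + k + 1) ≤ m.den * Nq m.den V'.card := by omega
      exact Nat.le_of_mul_le_mul_left h5 hq
    have h2' : (Nq m.den V'.card : ℤ) ≤ Nq m.den X.card := by exact_mod_cast h2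
    have h3' : (D' : ℤ) + s + k + 1 ≤ Nq m.den V'.card := by exact_mod_cast h3
    have hb : (1 : ℤ) ≤ b := by exact_mod_cast hz₀.trans hz₀b
    simp only [Phi] at h1 hPhi
    have h6 : ((b : ℤ) - 1) * (Nq m.den V'.card : ℤ) ≤ ((b : ℤ) - 1) * (Nq m.den X.card : ℤ) :=
      mul_le_mul_of_nonneg_left h2' (by linarith)
    have h7 : (b : ℤ) * ex m w X ≤ b * (ex m w V' + s + k - Nq m.den V'.card) :=
      mul_le_mul_of_nonneg_left he (by linarith)
    have h8 : (b : ℤ) * ((D' : ℤ) + 1) ≤ b * ((Nq m.den V'.card : ℤ) - s - k) :=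
      mul_le_mul_of_nonneg_left (by linarith) (by linarith)
    have h9 : (D' : ℤ) + 1 ≤ b * ((D' : ℤ) + 1) := by
      have : (0 : ℤ) ≤ ((b : ℤ) - 1) * ((D' : ℤ) + 1) :=
        mul_nonneg (by linarith) (by positivity)
      linarith
    linarith

end Pool.Agent.Lib.P56507
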