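import Pool.Agent.Lib.P56507.WBas

/-!
Weightings on `Fin n`.
-/

open Finset

namespace Pool.Agent.Lib.P56507

/-- The total weight of the pairs inside `S`. A weighting of the pairs of `{0, …, n - 1}` is given by
the numbers `w i j` with `i < j`. -/
def weight {n : ℕ} (w : Fin n → Fin n → ℤ) (S : Finset (Fin n)) : ℤ :=
  ∑ p ∈ S ×ˢ S with p.1 < p.2, w p.1 p.2

theorem weight_eq {n : ℕ} (w : ℕ → ℕ → ℤ) (S : Finset (Fin n)) :
    weight (fun i j => w i j) S = W w (S.map Fin.valEmbedding) := by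
  unfold weight W
  have h : ((S.map Fin.valEmbedding) ×ˢ (S.map Fin.valEmbedding)).filter (fun p => p.1 < p.2) =
      ((S ×ˢ S).filter (fun p : Fin n × Fin n => p.1 < p.2)).map
        (Fin.valEmbedding.prodMap Fin.valEmbedding) := by
    ext ⟨x, y⟩
    rw [mem_filter, mem_product, mem_map, mem_map, mem_map]
    constructor
    · rintro ⟨⟨⟨a, ha, hax⟩, ⟨b, hb, hby⟩⟩, hlt⟩
      refine ⟨(a, b), mem_filter.2 ⟨mem_product.2 ⟨ha, hb⟩, ?_⟩, ?_⟩
      · show (a : ℕ) < b
        rw [Fin.valEmbedding_apply] at hax hby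
        rw [hax, hby]
        exact hlt
      · exact Prod.ext hax hby
    · rintro ⟨⟨a, b⟩, hab, he⟩
      rw [mem_filter, mem_product] at hab
      have h1 : Fin.valEmbedding a = x := congrArg Prod.fst he
      have h2 : Fin.valEmbedding b = y := congrArg Prod.snd he
      refine ⟨⟨⟨a, hab.1.1, h1⟩, ⟨b, hab.1.2, h2⟩⟩, ?_⟩
      show x < y
      rw [← h1, ← h2]
      exact hab.2
  rw [h, sum_map]
  rfl

/-- `w' x y = w (min x y) (max x y)` if `x, y < n`, and `0` otherwise. -/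
theorem exists_symm {n : ℕ} (w : Fin n → Fin n → ℤ) :
    ∃ w' : ℕ → ℕ → ℤ, (∀ x y, w' x y = w' y x) ∧
      ∀ S : Finset (Fin n), W w' (S.map Fin.valEmbedding) = weight w S := by
  classical
  refine ⟨fun x y => if h : x < n ∧ y < n then
    w ⟨min x y, lt_of_le_of_lt (min_le_left _ _) h.1⟩ ⟨max x y, max_lt h.1 h.2⟩ else 0, ?_, ?_⟩
  · intro x y
    beta_reduce
    by_cases h : x < n ∧ y < n
    · have h' : y < n ∧ x < n := ⟨h.2, h.1⟩
      rw [dif_pos h, dif_pos h']
      congr 1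
      · exact Fin.ext (min_comm _ _)
      · exact Fin.ext (max_comm _ _)
    · have h' : ¬ (y < n ∧ x < n) := fun h' => h ⟨h'.2, h'.1⟩
      rw [dif_neg h, dif_neg h']
  · intro S
    rw [← weight_eq]
    unfold weight
    refine sum_congr rfl fun p hp => ?_
    rw [mem_filter] at hp
    have h1 : (p.1 : ℕ) < p.2 := hp.2
    have h : (p.1 : ℕ) < n ∧ (p.2 : ℕ) < n := ⟨p.1.2, p.2.2⟩
    beta_reduce
    rw [dif_pos h]
    congr 1
    · exact Fin.ext (min_eq_left h1.le)
    · exact Fin.ext (max_eq_right h1.le)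

theorem map_univ_eq (n : ℕ) : (univ : Finset (Fin n)).map Fin.valEmbedding = range n := by
  ext x
  simp only [mem_map, mem_univ, true_and, Fin.valEmbedding_apply, mem_range]
  constructor
  · rintro ⟨a, rfl⟩
    exact a.2
  · intro h
    exact ⟨⟨x, h⟩, rfl⟩

theorem exists_map {n : ℕ} {S : Finset ℕ} (h : S ⊆ range n) :
    ∃ S' : Finset (Fin n), S'.map Fin.valEmbedding = S := by
  classical
  refine ⟨(univ : Finset (Fin n)).filter (fun i => (i : ℕ) ∈ S), ?_⟩
  ext x
  simp only [mem_map, mem_filter, mem_univ, true_and, Fin.valEmbedding_apply]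
  constructor
  · rintro ⟨a, ha, rfl⟩
    exact ha
  · intro hx
    exact ⟨⟨x, mem_range.1 (h hx)⟩, hx, rfl⟩

end Pool.Agent.Lib.P56507
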