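import Pool.Agent.Lib.P56507.Lower

/-!
The weighting with two stars.
-/

open Finset

namespace Pool.Agent.Lib.P56507

/-- Two stars on `0, …, min N (2 s + 2) - 1`: the centre `0` with the leaves `2, …, s + 1`, the centre
`1` with the leaves `s + 2, …, 2 s + 1` (only leaves `< N`); the weight is `1` on the edges of the stars
and `1 - c` between the two centres. -/
def two (N s c x y : ℕ) : ℤ :=
  if (x = 0 ∧ y = 1) ∨ (x = 1 ∧ y = 0) then 1 - (c : ℤ)
  else if x < N ∧ y < N ∧ ((x = 0 ∧ 2 ≤ y ∧ y < s + 2) ∨ (y = 0 ∧ 2 ≤ x ∧ x < s + 2) ∨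
    (x = 1 ∧ s + 2 ≤ y ∧ y < 2 * s + 2) ∨ (y = 1 ∧ s + 2 ≤ x ∧ x < 2 * s + 2)) then 1 else 0

theorem two_symm (N s c x y : ℕ) : two N s c x y = two N s c y x := by
  unfold two
  by_cases h1 : (x = 0 ∧ y = 1) ∨ (x = 1 ∧ y = 0)
  · have h2 : (y = 0 ∧ x = 1) ∨ (y = 1 ∧ x = 0) := by omega
    rw [if_pos h1, if_pos h2]
  · have h2 : ¬ ((y = 0 ∧ x = 1) ∨ (y = 1 ∧ x = 0)) := by omega
    rw [if_neg h1, if_neg h2]
    congr 1
    apply propext
    constructor <;> intro h <;> omega

/-- The leaves of the centre `0` in `S`. -/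
def lf0 (N s : ℕ) (S : Finset ℕ) : Finset ℕ := {y ∈ S | 2 ≤ y ∧ y < s + 2 ∧ y < N}

/-- The leaves of the centre `1` in `S`. -/
def lf1 (N s : ℕ) (S : Finset ℕ) : Finset ℕ := {y ∈ S | s + 2 ≤ y ∧ y < 2 * s + 2 ∧ y < N}

theorem W_two_big {N s c : ℕ} {S : Finset ℕ} (h : ∀ x ∈ S, 2 ≤ x) : W (two N s c) S = 0 := by
  unfold W
  apply sum_eq_zero
  intro p hp
  simp only [mem_filter, mem_product] at hp
  have h1 := h _ hp.1.1
  have h2 := h _ hp.1.2
  unfold two
  rw [if_neg (by omega), if_neg (by omega)]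

theorem dg_two_zero {N s c : ℕ} (hN : 2 ≤ N) {S : Finset ℕ} (h : ∀ x ∈ S, 2 ≤ x) :
    dg (two N s c) 0 S = ((lf0 N s S).card : ℤ) := by
  unfold dg lf0
  rw [card_filter]
  push_cast
  apply sum_congr rfl
  intro x hx
  have h1 := h _ hx
  unfold two
  rw [if_neg (by omega)]
  congr 1
  apply propext
  constructor <;> intro h <;> omega

theorem dg_two_one {N s c : ℕ} (hN : 2 ≤ N) {S : Finset ℕ} (h : ∀ x ∈ S, 2 ≤ x) :
    dg (two N s c) 1 S = ((lf1 N s S).card : ℤ) := by
  unfold dg lf1
  rw [card_filter]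
  push_cast
  apply sum_congr rfl
  intro x hx
  have h1 := h _ hx
  unfold two
  rw [if_neg (by omega)]
  congr 1
  apply propext
  constructor <;> intro h <;> omega

theorem W_two {N s c : ℕ} (hN : 2 ≤ N) (S : Finset ℕ) :
    W (two N s c) S = (if 0 ∈ S then ((lf0 N s S).card : ℤ) else 0) +
      (if 1 ∈ S then ((lf1 N s S).card : ℤ) else 0) +
      (if 0 ∈ S ∧ 1 ∈ S then 1 - (c : ℤ) else 0) := by
  have hw := two_symm N s c
  set T : Finset ℕ := (S.erase 0).erase 1 with hT
  have hT2 : ∀ x ∈ T, 2 ≤ x := by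
    intro x hx
    simp only [hT, mem_erase] at hx
    omega
  have e0 : lf0 N s T = lf0 N s S := by
    ext x
    simp only [lf0, hT, mem_filter, mem_erase]
    constructor
    · rintro ⟨⟨h1, h2, h3⟩, h4⟩
      exact ⟨h3, h4⟩
    · rintro ⟨h3, h4⟩
      exact ⟨⟨by omega, by omega, h3⟩, h4⟩
  have e1 : lf1 N s T = lf1 N s S := by
    ext x
    simp only [lf1, hT, mem_filter, mem_erase]
    constructor
    · rintro ⟨⟨h1, h2, h3⟩, h4⟩
      exact ⟨h3, h4⟩
    · rintro ⟨h3, h4⟩
      exact ⟨⟨by omega, by omega, h3⟩, h4⟩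
  have hWT : W (two N s c) T = 0 := W_two_big hT2
  have h0T : 0 ∉ T := fun h => by have := hT2 _ h; omega
  have h1T : 1 ∉ T := fun h => by have := hT2 _ h; omega
  have d0 := dg_two_zero (s := s) (c := c) hN hT2
  have d1 := dg_two_one (s := s) (c := c) hN hT2
  rw [e0] at d0
  rw [e1] at d1
  by_cases h0 : 0 ∈ S <;> by_cases h1 : 1 ∈ S
  · have hS : S = insert 0 (insert 1 T) := by
      ext x
      simp only [hT, mem_insert, mem_erase]
      constructor
      · intro hx
        by_cases hx0 : x = 0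
        · exact Or.inl hx0
        · by_cases hx1 : x = 1
          · exact Or.inr (Or.inl hx1)
          · exact Or.inr (Or.inr ⟨hx1, hx0, hx⟩)
      · rintro (rfl | rfl | ⟨_, _, h⟩)
        · exact h0
        · exact h1
        · exact h
    have h01 : (0 : ℕ) ∉ insert 1 T := by
      simp only [mem_insert, not_or]
      exact ⟨by omega, h0T⟩
    have hd : dg (two N s c) 0 (insert 1 T) = (1 - (c : ℤ)) + dg (two N s c) 0 T := by
      have h01' : two N s c 0 1 = 1 - (c : ℤ) := by
        unfold two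
        exact if_pos (Or.inl ⟨rfl, rfl⟩)
      unfold dg
      rw [sum_insert h1T, h01']
    conv_lhs => rw [hS]
    rw [W_insert hw h01, W_insert hw h1T, hWT, hd, d0, d1, if_pos h0, if_pos h1, if_pos ⟨h0, h1⟩]
    ring
  · have hS : S = insert 0 T := by
      ext x
      simp only [hT, mem_insert, mem_erase]
      constructor
      · intro hx
        by_cases hx0 : x = 0
        · exact Or.inl hx0
        · exact Or.inr ⟨fun h => h1 (h ▸ hx), hx0, hx⟩
      · rintro (rfl | ⟨_, _, h⟩)
        · exact h0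
        · exact h
    conv_lhs => rw [hS]
    rw [W_insert hw h0T, hWT, d0, if_pos h0, if_neg h1, if_neg (fun h => h1 h.2)]
    ring
  · have hS : S = insert 1 T := by
      ext x
      simp only [hT, mem_insert, mem_erase]
      constructor
      · intro hx
        by_cases hx1 : x = 1
        · exact Or.inl hx1
        · exact Or.inr ⟨hx1, fun h => h0 (h ▸ hx), hx⟩
      · rintro (rfl | ⟨_, _, h⟩)
        · exact h1
        · exact h
    conv_lhs => rw [hS]
    rw [W_insert hw h1T, hWT, d1, if_neg h0, if_pos h1, if_neg (fun h => h0 h.1)]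
    ring
  · have hS : S = T := by
      ext x
      simp only [hT, mem_erase]
      constructor
      · intro hx
        exact ⟨fun h => h1 (h ▸ hx), fun h => h0 (h ▸ hx), hx⟩
      · rintro ⟨_, _, h⟩
        exact h
    conv_lhs => rw [hS]
    rw [hWT, if_neg h0, if_neg h1, if_neg (fun h => h0 h.1)]
    ring

theorem lf0_card_le (N s : ℕ) (S : Finset ℕ) : (lf0 N s S).card ≤ s := by
  have h : lf0 N s S ⊆ Ico 2 (s + 2) := by
    intro x hx
    simp only [lf0, mem_filter, mem_Ico] at hx ⊢
    omega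
  have := card_le_card h
  rw [Nat.card_Ico] at this
  omega

theorem lf1_card_le (N s : ℕ) (S : Finset ℕ) : (lf1 N s S).card ≤ s := by
  have h : lf1 N s S ⊆ Ico (s + 2) (2 * s + 2) := by
    intro x hx
    simp only [lf1, mem_filter, mem_Ico] at hx ⊢
    omega
  have := card_le_card h
  rw [Nat.card_Ico] at this
  omega

theorem two_or {k q s K c b ρ : ℕ} (P : Par k q s K c b ρ) {N : ℕ} (hN : 2 ≤ N) (S : Finset ℕ) :
    W (two N s c) S ≤ s ∨ W (two N s c) S + K + 1 ≤ s + (S ∩ range N).card := by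
  rw [W_two hN]
  have h0 := lf0_card_le N s S
  have h1 := lf1_card_le N s S
  have hc := P.c1
  have hsc := P.sc
  by_cases h : 0 ∈ S ∧ 1 ∈ S
  · right
    rw [if_pos h.1, if_pos h.2, if_pos h]
    have hsub : insert 0 (insert 1 (lf0 N s S ∪ lf1 N s S)) ⊆ S ∩ range N := by
      intro x hx
      simp only [lf0, lf1, mem_insert, mem_union, mem_filter, mem_inter, mem_range] at hx ⊢
      rcases hx with rfl | rfl | h' | h'
      · exact ⟨h.1, by omega⟩
      · exact ⟨h.2, by omega⟩
      · exact ⟨h'.1, by omega⟩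
      · exact ⟨h'.1, by omega⟩
    have hcard := card_le_card hsub
    have hdis : Disjoint (lf0 N s S) (lf1 N s S) := by
      rw [disjoint_left]
      intro x hx hx'
      simp only [lf0, lf1, mem_filter] at hx hx'
      omega
    rw [card_insert_of_notMem, card_insert_of_notMem, card_union_of_disjoint hdis] at hcard
    · zify at hcard hsc
      linarith
    · simp only [lf0, lf1, mem_union, mem_filter]
      omega
    · simp only [lf0, lf1, mem_insert, mem_union, mem_filter]
      omega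
  · left
    rw [if_neg h]
    by_cases h0' : 0 ∈ S
    · have h1' : 1 ∉ S := fun h1' => h ⟨h0', h1'⟩
      rw [if_pos h0', if_neg h1']
      linarith [(by exact_mod_cast h0 : ((lf0 N s S).card : ℤ) ≤ s)]
    · rw [if_neg h0']
      by_cases h1' : 1 ∈ S
      · rw [if_pos h1']
        linarith [(by exact_mod_cast h1 : ((lf1 N s S).card : ℤ) ≤ s)]
      · rw [if_neg h1']
        linarith [(by positivity : (0 : ℤ) ≤ s)]

theorem two_total {s c N n : ℕ} (hN : 2 ≤ N) (hn : N ≤ n) :
    W (two N s c) (range n) = ((min N (2 * s + 2) : ℕ) : ℤ) - c - 1 := by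
  rw [W_two hN, if_pos (mem_range.2 (by omega)), if_pos (mem_range.2 (by omega)),
    if_pos ⟨mem_range.2 (by omega), mem_range.2 (by omega)⟩]
  have e0 : lf0 N s (range n) = Ico 2 (min N (s + 2)) := by
    ext x
    simp only [lf0, mem_filter, mem_range, mem_Ico, lt_min_iff]
    omega
  have e1 : lf1 N s (range n) = Ico (s + 2) (min N (2 * s + 2)) := by
    ext x
    simp only [lf1, mem_filter, mem_range, mem_Ico, lt_min_iff]
    omega
  rw [e0, e1, Nat.card_Ico, Nat.card_Ico]
  omega

/-- The second weighting for the parameters `m`, `s`, `c`. -/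
def ext2 (m : ℚ) (n s c x y : ℕ) : ℤ := pat m.den m n x y + two (Nq m.den n) s c x y

theorem ext2_symm (m : ℚ) (n s c x y : ℕ) : ext2 m n s c x y = ext2 m n s c y x := by
  unfold ext2
  rw [pat_symm, two_symm]

theorem Par.two_le_Nq {k q s K c b ρ n : ℕ} (P : Par k q s K c b ρ) (hn : k ≤ n) :
    2 ≤ Nq q n := by
  have h1 := P.Nq_k
  have h2 : Nq q k ≤ Nq q n := Nq_mono hn
  have h3 := P.sc
  have h4 := P.c1
  omega

theorem ext2_cond {k s K c b ρ : ℕ} {m : ℚ} (P : Par k m.den s K c b ρ) {n : ℕ} (hn : k ≤ n) :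
    Cond k (R m k + s) (ext2 m n s c) (range n) := by
  intro S hS hSk
  have h1 := (pat_ok m.den m le_rfl n).2 S hS
  have hW : W (ext2 m n s c) S = W (pat m.den m n) S + W (two (Nq m.den n) s c) S :=
    W_add (pat m.den m n) (two (Nq m.den n) s c) S
  rw [hW]
  rw [hSk, P.Nq_k] at h1
  rcases two_or P (P.two_le_Nq hn) S with h | h
  · linarith [h1.1]
  · have := h1.2
    push_cast at this
    linarith

theorem ext2_total {k s K c b ρ : ℕ} {m : ℚ} (P : Par k m.den s K c b ρ) {n : ℕ} (hn : k ≤ n) :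
    W (ext2 m n s c) (range n) = R m n + ((min (Nq m.den n) (2 * s + 2) : ℕ) : ℤ) - c - 1 := by
  have hW : W (ext2 m n s c) (range n) =
      W (pat m.den m n) (range n) + W (two (Nq m.den n) s c) (range n) :=
    W_add (pat m.den m n) (two (Nq m.den n) s c) (range n)
  have hNn : Nq m.den n ≤ n := by
    unfold Nq
    have hq := m.den_pos
    have h2 := P.two_le_Nq hn
    have : n + m.den - 1 < (n + 1) * m.den := by
      have h3 : n ≤ n * m.den := Nat.le_mul_of_pos_right _ hq
      have h4 : (n + 1) * m.den = n * m.den + m.den := by ring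
      omega
    exact Nat.lt_succ_iff.1 ((Nat.div_lt_iff_lt_mul hq).2 this)
  rw [hW, (pat_ok m.den m le_rfl n).1, two_total (P.two_le_Nq hn) hNn]
  ring

end Pool.Agent.Lib.P56507
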