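import Pool.Agent.Lib.P56507.COne

/-!
The cases where the exact bound holds for all `n ≥ k`.
-/

open Finset

namespace Pool.Agent.Lib.P56507

variable {w : ℕ → ℕ → ℤ}

/-- The three cases where the exact bound holds for all `n ≥ k`.

(1) `2 s < K`: then `K = c b + ρ` with `c = K - s > K / 2`, so `b = 1`, `ρ = s`, and
`Phi = ex V ≤ s` by `ex_le_of_two_mul_lt`.
(2) `s + 1 = K`: `c = 1`, `ρ = 0`, `b = K`. If `K = 1` then `s = 0`, this is case (1). If `K ≥ 2`:
`c_one`, with `K ((N - 1) / K + 1) ≥ N`.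
(3) `N ≤ K + b`: `lin` gives `b ex V ≤ b (N - 1 - c)`, and
`b (N - 1 - c) ≤ (b - 1) N + ρ` because `N ≤ b + b c + ρ = K + b`. -/
theorem upper_all (hw : ∀ x y, w x y = w y x) {m : ℚ} {k s K c b ρ : ℕ}
    (P : Par k m.den s K c b ρ) {V : Finset ℕ} (hV : k ≤ V.card) (h : Cond k (R m k + s) w V)
    (hcase : 2 * s < K ∨ s + 1 = K ∨ Nq m.den V.card ≤ K + b) : Phi b m w V ≤ ρ := by
  have hc1 := P.c1
  have hsc := P.sc
  have hKb := P.Kb
  have hrc := P.rc
  have hb1 : 1 ≤ b := by
    rcases Nat.eq_zero_or_pos b with h0 | h0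
    · rw [h0, Nat.mul_zero] at hKb
      omega
    · exact h0
  have case1 : 2 * s < K → Phi b m w V ≤ ρ := by
    intro h2
    have hb : b = 1 := by
      by_contra hne
      have h3 : 2 ≤ b := by omega
      have h4 : c * 2 ≤ c * b := Nat.mul_le_mul_left c h3
      omega
    subst hb
    have hρ : ρ = s := by omega
    have := ex_le_of_two_mul_lt hw P h2 hV h
    rw [hρ]
    unfold Phi
    push_cast
    linarith
  rcases hcase with h2 | h2 | h2
  · exact case1 h2
  · rcases Nat.lt_or_ge K 2 with hK | hK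
    · exact case1 (by omega)
    · have hc : c = 1 := by omega
      have hρ : ρ = 0 := by omega
      subst hc
      have hbK : b = K := by omega
      have hs : (s : ℤ) = (K : ℤ) - 1 := by omega
      rw [hs] at h
      have h3 := c_one hw hK P.k1 P.k2 hV h
      have h4 : Nq m.den V.card ≤ K * ((Nq m.den V.card - 1) / K + 1) := by
        have h5 := Nat.div_add_mod (Nq m.den V.card - 1) K
        have h6 := Nat.mod_lt (Nq m.den V.card - 1) (by omega : 0 < K)
        rw [Nat.mul_add, Nat.mul_one]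
        omega
      rw [hbK, hρ]
      unfold Phi
      have h7 : ((Nq m.den V.card : ℕ) : ℤ) ≤ K * ((((Nq m.den V.card - 1) / K : ℕ) : ℤ) + 1) := by
        exact_mod_cast h4
      have h8 : (K : ℤ) * ex m w V ≤
          K * (Nq m.den V.card - 1 - (((Nq m.den V.card - 1) / K : ℕ) : ℤ)) :=
        mul_le_mul_of_nonneg_left h3 (by positivity)
      push_cast
      linarith
  · have hk2 : 2 ≤ k := by
      have h3 := P.k1
      have h4 : 1 * 1 ≤ m.den * K := Nat.mul_le_mul P.q1 (by omega)
      omega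
    have hs : (s : ℤ) = (K : ℤ) - (c : ℤ) := by omega
    rw [hs] at h
    have h3 := lin hw (c := (c : ℤ)) (by exact_mod_cast hc1) hk2 P.k1 P.k2 hV h
    have h4 : (b : ℤ) * ex m w V ≤ b * (Nq m.den V.card - 1 - c) :=
      mul_le_mul_of_nonneg_left h3 (by positivity)
    have h5 : ((Nq m.den V.card : ℕ) : ℤ) ≤ K + b := by exact_mod_cast h2
    have h6 : (K : ℤ) = c * b + ρ := by exact_mod_cast hKb
    unfold Phi
    linarith

end Pool.Agent.Lib.P56507
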