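import Pool.Agent.Lib.P56507.WBas
import Pool.Agent.Lib.P56507.RBas

/-!
The degrees in a critical weighting on `q ν + 1` points.
-/

open Finset

namespace Pool.Agent.Lib.P56507

variable {w : ℕ → ℕ → ℤ}

/-- The degree of `v` in `V` minus `p ν + 1`. -/
def uu (m : ℚ) (w : ℕ → ℕ → ℤ) (V : Finset ℕ) (ν v : ℕ) : ℤ :=
  dg w v (V.erase v) - (m.num * ν + 1)

namespace UStrAux

theorem ceil_sub (m : ℚ) {ν t : ℕ} (h : t ≤ m.den * ν) :
    ⌈m * ((m.den * ν - t : ℕ) : ℚ)⌉ = m.num * ν - ⌊m * (t : ℚ)⌋ := by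
  have h1 : m * ((m.den * ν - t : ℕ) : ℚ) = ((m.num * ν : ℤ) : ℚ) + -(m * (t : ℚ)) := by
    rw [Nat.cast_sub h]
    push_cast
    rw [← Rat.mul_den_eq_num]
    ring
  rw [h1, Int.ceil_intCast_add, Int.ceil_neg]
  ring

theorem R_sub' (m : ℚ) {ν t : ℕ} (ht : 1 ≤ t) (h : t ≤ m.den * ν + 1) :
    R m (m.den * ν + 1) - R m (m.den * ν + 1 - t) = t * (m.num * ν + 1) - Rp m t - 1 := by
  induction t, ht using Nat.le_induction with
  | base =>
    have h1 : m.den * ν + 1 - 1 = m.den * ν := by omega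
    rw [h1, R_succ, ceil_den_mul, Rp_one]
    push_cast
    ring
  | succ t ht ih =>
    have ih' := ih (by omega)
    have h1 : m.den * ν + 1 - t = (m.den * ν + 1 - (t + 1)) + 1 := by omega
    have h2 : m.den * ν + 1 - (t + 1) = m.den * ν - t := by omega
    have h3 : R m (m.den * ν + 1 - t) = R m (m.den * ν + 1 - (t + 1))
        + (m.num * ν - ⌊m * (t : ℚ)⌋) := by
      rw [h1, R_succ, h2, ceil_sub m (by omega)]
    rw [h3] at ih'
    have h4 : ((t + 1 : ℕ) : ℤ) = (t : ℤ) + 1 := by push_cast; ring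
    rw [Rp_succ m ht, h4]
    linarith

theorem R_last (m : ℚ) (ν : ℕ) : R m (m.den * ν + 1) = R m (m.den * ν) + m.num * ν := by
  rw [R_succ, ceil_den_mul]

theorem W_erase (hw : ∀ x y, w x y = w y x) {V : Finset ℕ} {v : ℕ} (hv : v ∈ V) :
    W w V = W w (V.erase v) + dg w v (V.erase v) := by
  have h2 := W_insert hw (notMem_erase v V)
  rwa [insert_erase hv] at h2

end UStrAux

open UStrAux

/-- `2 R m (q ν + 1) = ν (p + q - 1) + p q ν²`. Induction on `ν` with `R_add`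
(`R m (q (ν + 1) + 1) = R m (q (ν + 1)) + R m 1 + p (ν + 1)`), `2 R m q = (p + 1) (q - 1)`
(pairs `i`, `q - i`: `⌈m i⌉ + ⌈m (q - i)⌉ = p + 1` for `0 < i < q`). -/
theorem R_closed (m : ℚ) (ν : ℕ) :
    2 * R m (m.den * ν + 1) = ν * (m.num + m.den - 1) + m.num * m.den * (ν : ℤ) ^ 2 := by
  have h := R_sub' m (ν := ν) (t := m.den * ν + 1) (by omega) le_rfl
  have hq : 0 < m.den := m.den_pos
  rw [Nat.sub_self, R_zero, Rp] at h
  have h1 : (m.den * ν + 1 - 1) / m.den = ν := by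
    rw [Nat.add_sub_cancel, Nat.mul_div_cancel_left _ hq]
  rw [h1] at h
  push_cast at h
  linear_combination h

/-- `⌈m (q ν - l)⌉ = p ν - ⌊m l⌋`, and `∑_{l < t} ⌊m l⌋ = Rp m t - (t - 1)` for `t ≥ 1`. Induction
on `t`. -/
theorem R_sub (m : ℚ) {ν t : ℕ} (ht : 1 ≤ t) (h : t ≤ m.den * ν + 1) :
    R m (m.den * ν + 1) - R m (m.den * ν + 1 - t) = t * (m.num * ν + 1) - Rp m t - 1 := by
  exact R_sub' m ht h

/-- `dg w v (V.erase v) = W V - W (V.erase v)` and
`R m (q ν + 1) = R m (q ν) + m.num ν`. -/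
theorem uu_nonneg (hw : ∀ x y, w x y = w y x) {m : ℚ} {V : Finset ℕ} {ν : ℕ}
    (hV : V.card = m.den * ν + 1) {v : ℕ} (hv : v ∈ V)
    (hdel : ex m w (V.erase v) ≤ ex m w V - 1) : 0 ≤ uu m w V ν v := by
  have h1 := W_erase hw hv
  have h2 := R_last m ν
  have h3 : (V.erase v).card = m.den * ν := by
    rw [card_erase_of_mem hv, hV]
    omega
  unfold ex at hdel
  rw [hV, h3] at hdel
  unfold uu
  linarith

/-- `two_W` and `R_closed`. -/
theorem uu_sum (hw : ∀ x y, w x y = w y x) {m : ℚ} {V : Finset ℕ} {ν : ℕ}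
    (hV : V.card = m.den * ν + 1) : ∑ v ∈ V, uu m w V ν v = 2 * ex m w V - ν - 1 := by
  have h1 := two_W hw V
  have h2 := R_closed m ν
  unfold uu ex
  rw [sum_sub_distrib, ← h1, sum_const, nsmul_eq_mul, hV]
  push_cast
  linear_combination h2

/-- `W V = W (V \ T) + ∑_{v ∈ T} dg w v (V.erase v) - W T` and `R_sub`. -/
theorem ex_eq_uu (hw : ∀ x y, w x y = w y x) {m : ℚ} {V : Finset ℕ} {ν : ℕ}
    (hV : V.card = m.den * ν + 1) {T : Finset ℕ} (hT : T ⊆ V) (hT1 : 1 ≤ T.card) :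
    ex m w T = ∑ v ∈ T, uu m w V ν v + ex m w (V \ T) - ex m w V
      + (((T.card - 1) / m.den : ℕ) : ℤ) + 1 := by
  have hd : Disjoint T (V \ T) := disjoint_sdiff
  have h1 := W_sdiff hw hT
  have h2 := sum_dg_swap hw T (V \ T)
  have h3 : ∑ v ∈ T, dg w v (V.erase v) = 2 * W w T + ∑ v ∈ T, dg w v (V \ T) := by
    rw [two_W hw T, ← sum_add_distrib]
    refine sum_congr rfl fun v hv => ?_
    have h4 : V.erase v = T.erase v ∪ (V \ T) := by
      ext x
      simp only [mem_erase, mem_union, mem_sdiff]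
      constructor
      · rintro ⟨hx, hxV⟩
        by_cases hxT : x ∈ T
        · exact Or.inl ⟨hx, hxT⟩
        · exact Or.inr ⟨hxV, hxT⟩
      · rintro (⟨hx, hxT⟩ | ⟨hxV, hxT⟩)
        · exact ⟨hx, hT hxT⟩
        · refine ⟨?_, hxV⟩
          rintro rfl
          exact hxT hv
    rw [h4, dg_union]
    exact disjoint_of_subset_left (erase_subset v T) hd
  have hle : T.card ≤ m.den * ν + 1 := by
    rw [← hV]
    exact card_le_card hT
  have h5 := R_sub' m hT1 hle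
  have h6 : (V \ T).card = m.den * ν + 1 - T.card := by
    rw [card_sdiff_of_subset hT, hV]
  unfold ex uu
  rw [sum_sub_distrib, sum_const, nsmul_eq_mul, hV, h6]
  unfold Rp at h5
  linear_combination h1 + h2 - h3 - h5

end Pool.Agent.Lib.P56507
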