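import Pool.Agent.Lib.P56507.FinMono
import Pool.Agent.Lib.P56507.FinBlk

/-!
The exact upper bound for all `n ≥ k`.
-/

open Finset

namespace Pool.Agent.Lib.P56507

variable {w : ℕ → ℕ → ℤ}

/-- `b x - (b - 1) N ≤ ρ` gives `x ≤ N - ⌈(N - ρ) / b⌉`. -/
theorem le_of_phi {b ρ N : ℕ} {x : ℤ} (hb : 1 ≤ b) (hN : ρ < N)
    (h : (b : ℤ) * x - ((b : ℤ) - 1) * N ≤ ρ) :
    x ≤ (N : ℤ) - (((N - ρ + b - 1) / b : ℕ) : ℤ) := by
  have h5 : b * ((N - ρ + b - 1) / b) ≤ N - ρ + b - 1 := Nat.mul_div_le _ _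
  generalize (N - ρ + b - 1) / b = u at *
  have h6 : (b : ℤ) * u ≤ N - ρ + b - 1 := by
    have h9 : ((b * u : ℕ) : ℤ) ≤ ((N - ρ + b - 1 : ℕ) : ℤ) := by exact_mod_cast h5
    have h10 : ((N - ρ + b - 1 : ℕ) : ℤ) = N - ρ + b - 1 := by omega
    rw [h10] at h9
    push_cast at h9
    exact h9
  by_contra hcon
  push Not at hcon
  have h7 : (N : ℤ) - u + 1 ≤ x := by linarith
  have h8 : (b : ℤ) * ((N : ℤ) - u + 1) ≤ b * x :=
    mul_le_mul_of_nonneg_left h7 (by positivity)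
  nlinarith

/-- The exact bound for all sets with at least `k` points. -/
theorem upper_fin (hw : ∀ x y, w x y = w y x) {m : ℚ} {k s K c b ρ : ℕ}
    (P : Par k m.den s K c b ρ) {V : Finset ℕ} (hV : k ≤ V.card) (h : Cond k (R m k + s) w V) :
    ex m w V ≤ exB s c b ρ (Nq m.den V.card) := by
  by_contra hcon
  push Not at hcon
  obtain ⟨V', -, ν, h1, h2, h3, h4, h5, h6, h7, h8, h9⟩ := fin_mono hw P hV h hcon
  have hKb := P.Kb
  have hb : 1 ≤ b := by
    rcases Nat.eq_zero_or_pos b with h0 | h0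
    · rw [h0, Nat.mul_zero] at hKb
      have := P.rc
      have := P.sc
      omega
    · exact h0
  have hN : Nq m.den V'.card = ν + 1 := by
    have := Nq_add (q := m.den) m.den_pos ν 1
    rw [h1, this, Nq_pos m.den_pos le_rfl]
    simp
  rcases fin_blk hw P h1 h3.le h4 h5 (fun A hA hAk => h6 A hA hAk.le) with h10 | h10
  · unfold Phi at h10
    rw [hN] at h10
    have h11 := le_of_phi hb (by omega : ρ < ν + 1) h10
    have h12 := h11.trans (le_max_left _ (((min (ν + 1) (2 * s + 2) : ℕ) : ℤ) - c - 1))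
    unfold exB at h9
    linarith
  · have h11 : 2 * (s : ℤ) + 1 - c ≤ exB s c b ρ (ν + 1) := by
      unfold exB
      refine le_trans ?_ (le_max_right _ _)
      rw [min_eq_right (by omega : 2 * s + 2 ≤ ν + 1)]
      push_cast
      linarith
    linarith

end Pool.Agent.Lib.P56507
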